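import Pool.Agent.H87.MM.Core

/-!
# The closedness theorem
-/

set_option autoImplicit false

open Finset Filter Topology MeasureTheory

namespace Pool.Agent.H87.MM

variable {n : ℕ}

/-- all irreducible factors of positive measure are nonreciprocal or constant -/
def Cl (F : MvPolynomial (Fin n) ℤ) : Prop :=
  ∀ G : MvPolynomial (Fin n) ℤ, Irreducible G → G ∣ F → 0 < mm G →
    ¬ Recip G ∨ ∃ c : ℤ, G = MvPolynomial.C c

theorem mm_C (c : ℤ) : mm (MvPolynomial.C c : MvPolynomial (Fin n) ℤ) = Real.log |(c : ℝ)| := by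
  unfold mm
  have h3 : ∀ t : Fin n → ℝ, Real.log ‖ev (chr t) (lp (MvPolynomial.C c))‖ =
      Real.log |(c : ℝ)| := by
    intro t
    have h1 := JJ_monomial (n := n) 0 c
    rw [← JJ_eq_lp, show (MvPolynomial.C c : MvPolynomial (Fin n) ℤ) = MvPolynomial.monomial 0 c
      from rfl, h1, AddMonoidAlgebra.lift_single, iot_zero, smul_eq_mul]
    rw [norm_mul, norm_chr, mul_one, Complex.norm_intCast]
  simp only [h3]
  rw [integral_const, measureReal_restrict_apply_univ, Measure.real, volume_cube]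
  simp

theorem mm_unit {u : MvPolynomial (Fin n) ℤ} (hu : IsUnit u) : mm u = 0 := by
  obtain ⟨v, hv⟩ := hu.exists_right_inv
  have hu0 : u ≠ 0 := hu.ne_zero
  have hv0 : v ≠ 0 := by
    rintro rfl
    rw [mul_zero] at hv
    exact zero_ne_one hv
  have h1 := mm_mul hu0 hv0
  rw [hv, mm_one] at h1
  have h2 := mm_nonneg hu0
  have h3 := mm_nonneg hv0
  linarith

theorem mm_multiset : ∀ s : Multiset (MvPolynomial (Fin n) ℤ), (∀ G ∈ s, G ≠ 0) →
    mm s.prod = (s.map mm).sum := by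
  intro s
  induction s using Multiset.induction_on with
  | empty => intro _; simp [mm_one]
  | cons G s ih =>
    intro hs
    have h1 : ∀ G ∈ s, G ≠ 0 := fun G' hG' => hs G' (Multiset.mem_cons_of_mem hG')
    rw [Multiset.prod_cons, Multiset.map_cons, Multiset.sum_cons,
      mm_mul (hs G (Multiset.mem_cons_self _ _)) (Multiset.prod_ne_zero fun h => h1 0 h rfl), ih h1]

theorem mm_prod {ι : Type*} (s : Finset ι) (f : ι → MvPolynomial (Fin n) ℤ) (hf : ∀ i ∈ s, f i ≠ 0) :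
    mm (∏ i ∈ s, f i) = ∑ i ∈ s, mm (f i) := by
  classical
  induction s using Finset.induction_on with
  | empty => simp [mm_one]
  | insert i s hi ih =>
    rw [prod_insert hi, sum_insert hi, mm_mul (hf i (mem_insert_self i s))
      (prod_ne_zero_iff.mpr fun j hj => hf j (mem_insert_of_mem hj)),
      ih fun j hj => hf j (mem_insert_of_mem hj)]

theorem decomp_aux : ∀ t : Multiset (MvPolynomial (Fin n) ℤ), (∀ G ∈ t, Irreducible G ∧
    (0 < mm G → ¬ Recip G ∨ ∃ c : ℤ, G = MvPolynomial.C c)) →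
    ∃ (c : ℕ) (s : Multiset (MvPolynomial (Fin n) ℤ)), 1 ≤ c ∧
      (∀ G ∈ s, Irreducible G ∧ ¬ Recip G) ∧
      (t.map mm).sum = Real.log c + (s.map mm).sum := by
  intro t
  induction t using Multiset.induction_on with
  | empty =>
    intro _
    exact ⟨1, 0, le_rfl, fun G hG => absurd hG (Multiset.notMem_zero G), by simp⟩
  | cons G t ih =>
    intro ht
    obtain ⟨c, s, hc, hs, hsum⟩ := ih fun G' hG' => ht G' (Multiset.mem_cons_of_mem hG')
    obtain ⟨hG, hG'⟩ := ht G (Multiset.mem_cons_self _ _)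
    rw [Multiset.map_cons, Multiset.sum_cons, hsum]
    rcases (mm_nonneg hG.ne_zero).eq_or_lt with h0 | hpos
    · exact ⟨c, s, hc, hs, by rw [← h0, zero_add]⟩
    · rcases hG' hpos with h1 | ⟨c0, rfl⟩
      · refine ⟨c, G ::ₘ s, hc, fun G' hG'' => ?_, ?_⟩
        · rcases Multiset.mem_cons.mp hG'' with h2 | h2
          · rw [h2]; exact ⟨hG, h1⟩
          · exact hs G' h2
        · rw [Multiset.map_cons, Multiset.sum_cons]
          ring
      · have hc0 : c0 ≠ 0 := by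
          rintro rfl
          exact hG.ne_zero (map_zero _)
        refine ⟨c0.natAbs * c, s, Nat.mul_pos (Int.natAbs_pos.mpr hc0) hc, hs, ?_⟩
        have h2 : ((c0.natAbs : ℕ) : ℝ) = |(c0 : ℝ)| := by
          rw [Nat.cast_natAbs, Int.cast_abs]
        have h3 : (0 : ℝ) < |(c0 : ℝ)| := abs_pos.mpr (by exact_mod_cast hc0)
        have h4 : (0 : ℝ) < c := by exact_mod_cast hc
        rw [mm_C, Nat.cast_mul, h2, Real.log_mul h3.ne' h4.ne']
        ring

theorem decomp {F : MvPolynomial (Fin n) ℤ} (hF : F ≠ 0) (hcl : Cl F) :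
    ∃ (c : ℕ) (s : Multiset (MvPolynomial (Fin n) ℤ)), 1 ≤ c ∧
      (∀ G ∈ s, Irreducible G ∧ ¬ Recip G) ∧ mm F = Real.log c + (s.map mm).sum := by
  obtain ⟨t, ht, u, hu⟩ := WfDvdMonoid.exists_factors F hF
  have h1 : mm F = (t.map mm).sum := by
    have h2 : t.prod ≠ 0 := Multiset.prod_ne_zero fun h => (ht 0 h).ne_zero rfl
    rw [← hu, mm_mul h2 u.ne_zero, mm_unit u.isUnit, add_zero,
      mm_multiset t fun G hG => (ht G hG).ne_zero]
  rw [h1]
  refine decomp_aux t fun G hG => ⟨ht G hG, fun hpos => ?_⟩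
  exact hcl G (ht G hG) ((Multiset.dvd_prod hG).trans ⟨u, hu.symm⟩) hpos

theorem pad (N : ℕ) : ∀ s : Multiset (MvPolynomial (Fin n) ℤ), s.card ≤ N →
    (∀ G ∈ s, Irreducible G ∧ ¬ Recip G) →
    ∃ g : Fin N → MvPolynomial (Fin n) ℤ, (∀ i, g i = 1 ∨ (Irreducible (g i) ∧ ¬ Recip (g i))) ∧
      ∑ i, mm (g i) = (s.map mm).sum := by
  induction N with
  | zero =>
    intro s hs _
    have h0 : s = 0 := by rw [← Multiset.card_eq_zero]; omega
    exact ⟨Fin.elim0, fun i => Fin.elim0 i, by rw [h0]; simp⟩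
  | succ N ih =>
    intro s hs hG
    rcases s.empty_or_exists_mem with h0 | ⟨G, hGs⟩
    · exact ⟨fun _ => 1, fun _ => Or.inl rfl, by rw [h0]; simp [mm_one]⟩
    · obtain ⟨s', rfl⟩ := Multiset.exists_cons_of_mem hGs
      rw [Multiset.card_cons] at hs
      obtain ⟨g, hg1, hg2⟩ := ih s' (by omega) fun G' hG' => hG G' (Multiset.mem_cons_of_mem hG')
      refine ⟨Fin.cons G g, fun i => ?_, ?_⟩
      · refine Fin.cases ?_ (fun i => ?_) i
        · exact Or.inr (hG G (Multiset.mem_cons_self _ _))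
        · exact hg1 i
      · rw [Fin.sum_univ_succ]
        simp only [Fin.cons_zero, Fin.cons_succ]
        rw [hg2, Multiset.map_cons, Multiset.sum_cons]

theorem cop_of {G : MvPolynomial (Fin n) ℤ} (h : G = 1 ∨ (Irreducible G ∧ ¬ Recip G)) : Cop G := by
  rcases h with rfl | ⟨h1, h2⟩
  · exact ⟨one_ne_zero, fun B _ => one_dvd B⟩
  · exact ⟨h1.ne_zero, fun B hB => dvd_of_dvd_mul_rv h1 h2 hB⟩

theorem ultra_const {α : Type*} (𝒰 : Ultrafilter ℕ) (f : ℕ → α) (T : Finset α)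
    (h : ∀ n, f n ∈ T) : ∃ a ∈ T, ∀ᶠ n in (𝒰 : Filter ℕ), f n = a := by
  have h1 : (⋃ a ∈ (T : Set α), {n | f n = a}) ∈ 𝒰 := by
    have h2 : (⋃ a ∈ (T : Set α), {n | f n = a}) = Set.univ := by
      ext n
      simp only [Set.mem_iUnion, Set.mem_ofPred_eq, Set.mem_univ, iff_true]
      exact ⟨f n, Finset.mem_coe.mpr (h n), rfl⟩
    rw [h2]
    exact Filter.univ_mem
  rw [Ultrafilter.finite_biUnion_mem_iff T.finite_toSet] at h1
  obtain ⟨a, ha, h3⟩ := h1
  exact ⟨a, Finset.mem_coe.mp ha, h3⟩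

theorem ultra_lim (𝒰 : Ultrafilter ℕ) (f : ℕ → ℝ) (C : ℝ) (h : ∀ n, f n ∈ Set.Icc 0 C) :
    ∃ y, Tendsto f (𝒰 : Filter ℕ) (𝓝 y) := by
  obtain ⟨y, -, hy⟩ := (isCompact_Icc (a := (0 : ℝ)) (b := C)).ultrafilter_le_nhds (𝒰.map f) (by
    rw [le_principal_iff, Ultrafilter.coe_map, Filter.mem_map]
    exact Filter.univ_mem' h)
  exact ⟨y, hy⟩

theorem exists_shift' {J : Type} [Fintype J] (p : J → (Fin n → ℤ)) :
    ∃ (u : Fin n →₀ ℕ) (q : J → (Fin n →₀ ℕ)), ∀ k, iot (q k) = iot u + p k := by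
  classical
  refine ⟨Finsupp.equivFunOnFinite.symm fun i => ∑ k, (p k i).natAbs,
    fun k => Finsupp.equivFunOnFinite.symm fun i =>
      (((∑ k, (p k i).natAbs : ℕ) : ℤ) + p k i).toNat, fun k => ?_⟩
  funext i
  have h1 : (p k i).natAbs ≤ ∑ k, (p k i).natAbs :=
    single_le_sum (f := fun k => (p k i).natAbs) (fun _ _ => Nat.zero_le _) (mem_univ k)
  simp only [iot, Finsupp.equivFunOnFinite_symm_apply_apply, Pi.add_apply]
  omega

theorem eq_C_of_dvd_C {H : MvPolynomial (Fin n) ℤ} {c : ℤ} (hc : c ≠ 0)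
    (h : H ∣ MvPolynomial.C c) : ∃ c' : ℤ, H = MvPolynomial.C c' := by
  obtain ⟨H', hH⟩ := h
  have hC : (MvPolynomial.C c : MvPolynomial (Fin n) ℤ) ≠ 0 := by
    rwa [Ne, MvPolynomial.C_eq_zero]
  have h1 : H ≠ 0 := by rintro rfl; rw [zero_mul] at hH; exact hC hH
  have h2 : H' ≠ 0 := by rintro rfl; rw [mul_zero] at hH; exact hC hH
  have hdeg : ∀ i, H.degreeOf i = 0 := by
    intro i
    have h3 := MvPolynomial.degreeOf_mul_eq (n := i) h1 h2
    rw [← hH, MvPolynomial.degreeOf_C] at h3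
    omega
  refine ⟨H.coeff 0, ?_⟩
  ext m
  rw [MvPolynomial.coeff_C]
  by_cases hm : 0 = m
  · rw [if_pos hm, hm]
  · rw [if_neg hm]
    by_contra hne
    apply hm
    symm
    ext i
    have h1 := MvPolynomial.le_degreeOf_of_mem_support i (MvPolynomial.mem_support_iff.mpr hne)
    rw [hdeg i] at h1
    simpa using h1

/-- the sequence version -/
theorem closed_seq (k : ℕ → ℕ) (F : ∀ n, MvPolynomial (Fin (k n)) ℤ) (hF : ∀ n, F n ≠ 0)
    (hcl : ∀ n, Cl (F n)) {μ : ℝ} (hμ : Tendsto (fun n => mm (F n)) atTop (𝓝 μ)) :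
    ∃ (d : ℕ) (G : MvPolynomial (Fin d) ℤ), G ≠ 0 ∧ Cl G ∧ mm G = μ := by
  classical
  obtain ⟨C, hC⟩ : ∃ C, ∀ n, mm (F n) ≤ C := by
    obtain ⟨C, hC⟩ := hμ.bddAbove_range
    exact ⟨C, fun n => hC ⟨n, rfl⟩⟩
  obtain ⟨𝒰, h𝒰⟩ : ∃ 𝒰 : Ultrafilter ℕ, (𝒰 : Filter ℕ) ≤ atTop :=
    ⟨Ultrafilter.of atTop, Ultrafilter.of_le _⟩
  have hμ' : Tendsto (fun n => mm (F n)) (𝒰 : Filter ℕ) (𝓝 μ) := hμ.mono_left h𝒰
  obtain ⟨N0, hN0⟩ := exists_nat_ge (12 * C)
  -- decompositions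
  have hdec : ∀ n, ∃ (c : ℕ) (g : Fin N0 → MvPolynomial (Fin (k n)) ℤ),
      c ∈ Finset.Icc 1 ⌊Real.exp C⌋₊ ∧ (∀ i, g i = 1 ∨ (Irreducible (g i) ∧ ¬ Recip (g i))) ∧
      mm (F n) = Real.log c + ∑ i, mm (g i) := by
    intro n
    obtain ⟨c, s, hc, hs, hsum⟩ := decomp (hF n) (hcl n)
    have hnn : ∀ s : Multiset (MvPolynomial (Fin (k n)) ℤ), (∀ G ∈ s, Irreducible G ∧ ¬ Recip G) →
        (s.card : ℝ) * (1 / 12) ≤ (s.map mm).sum := by
      intro s
      induction s using Multiset.induction_on with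
      | empty => intro _; simp
      | cons G s ih =>
        intro hs
        have h1 := ih fun G' hG' => hs G' (Multiset.mem_cons_of_mem hG')
        have h2 := mm_lower (hs G (Multiset.mem_cons_self _ _)).1
          (hs G (Multiset.mem_cons_self _ _)).2
        rw [Multiset.card_cons, Multiset.map_cons, Multiset.sum_cons]
        push_cast
        linarith
    have h1 := hnn s hs
    have h2 : 0 ≤ Real.log c := Real.log_nonneg (by exact_mod_cast hc)
    have h3 := hC n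
    have h4 : (s.card : ℝ) ≤ N0 := by linarith
    obtain ⟨g, hg1, hg2⟩ := pad N0 s (by exact_mod_cast h4) hs
    refine ⟨c, g, ?_, hg1, by rw [hsum, hg2]⟩
    rw [Finset.mem_Icc]
    refine ⟨hc, ?_⟩
    rw [Nat.le_floor_iff (Real.exp_pos _).le]
    have h5 : Real.log c ≤ C := by
      have : 0 ≤ (s.map mm).sum := le_trans (by positivity) h1
      linarith
    rwa [Real.log_le_iff_le_exp (by exact_mod_cast hc)] at h5
  choose c g hc hg hsum using hdec
  have hcop : ∀ n i, Cop (g n i) := fun n i => cop_of (hg n i)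
  have hg0 : ∀ n i, g n i ≠ 0 := fun n i => (hcop n i).1
  have hgC : ∀ n i, mm (g n i) ≤ C := by
    intro n i
    have h1 : mm (g n i) ≤ ∑ i, mm (g n i) :=
      single_le_sum (f := fun i => mm (g n i)) (fun i _ => mm_nonneg (hg0 n i)) (mem_univ i)
    have h2 : 0 ≤ Real.log (c n) := Real.log_nonneg (by
      exact_mod_cast (Finset.mem_Icc.mp (hc n)).1)
    have h3 := hsum n
    have h4 := hC n
    linarith
  obtain ⟨c0, hc0, hcc⟩ := ultra_const 𝒰 c _ hc
  have hlim : ∀ i, ∃ y, Tendsto (fun n => mm (g n i)) (𝒰 : Filter ℕ) (𝓝 y) := fun i =>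
    ultra_lim 𝒰 _ C fun n => ⟨mm_nonneg (hg0 n i), hgC n i⟩
  choose y hy using hlim
  have hμeq : μ = Real.log c0 + ∑ i, y i := by
    have h1 : Tendsto (fun n => Real.log c0 + ∑ i, mm (g n i)) (𝒰 : Filter ℕ)
        (𝓝 (Real.log c0 + ∑ i, y i)) :=
      (tendsto_finsetSum _ fun i _ => hy i).const_add _
    refine tendsto_nhds_unique hμ' (h1.congr' ?_)
    filter_upwards [hcc] with n hn
    rw [hsum n, hn]
  -- short pairs
  obtain ⟨K, hK⟩ := short_pair C
  obtain ⟨N, hN⟩ := exists_nat_ge K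
  have hrep : ∀ n i, ∃ (α β : Fin N → ℤ) (p q : Fin N → (Fin (k n) →₀ ℕ)),
      (∀ j, α j ∈ ({-1, 0, 1} : Finset ℤ)) ∧ (∀ j, β j ∈ ({-1, 0, 1} : Finset ℤ)) ∧
      (∑ j, MvPolynomial.monomial (p j) (α j)) ≠ 0 ∧
      (∑ j, MvPolynomial.monomial (p j) (α j)) * rv (g n i) =
        (∑ j, MvPolynomial.monomial (q j) (β j)) * g n i := by
    intro n i
    obtain ⟨A, B, hA, hlA, hlB, hAB⟩ := hK (k n) (g n i) (hg0 n i) (hgC n i)
    obtain ⟨α, p, hα, hp⟩ := poly_repr N A (hlA.trans hN)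
    obtain ⟨β, q, hβ, hq⟩ := poly_repr N B (hlB.trans hN)
    exact ⟨α, β, p, q, hα, hβ, hp ▸ hA, by rw [← hp, ← hq]; exact hAB⟩
  choose α β p q hα hβ hne hrel using hrep
  obtain ⟨α0, -, hα0⟩ := ultra_const 𝒰 α
    (Fintype.piFinset fun _ => Fintype.piFinset fun _ => ({-1, 0, 1} : Finset ℤ)) (by
      intro n
      rw [Fintype.mem_piFinset]
      intro i
      rw [Fintype.mem_piFinset]
      exact hα n i)
  obtain ⟨β0, -, hβ0⟩ := ultra_const 𝒰 β
    (Fintype.piFinset fun _ => Fintype.piFinset fun _ => ({-1, 0, 1} : Finset ℤ)) (by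
      intro n
      rw [Fintype.mem_piFinset]
      intro i
      rw [Fintype.mem_piFinset]
      exact hβ n i)
  -- generic limit
  obtain ⟨v, hv⟩ : ∃ v : ∀ n, Fin N0 × (Fin N ⊕ Fin N) → (Fin (k n) → ℤ), ∀ n t, v n t =
      Sum.elim (fun j => iot (p n t.1 j)) (fun j => iot (q n t.1 j)) t.2 := ⟨_, fun _ _ => rfl⟩
  obtain ⟨P, hP⟩ : ∃ P : ∀ n, (Fin N0 × (Fin N ⊕ Fin N) → ℤ) →+ (Fin (k n) → ℤ), ∀ n t,
      P n (Pi.single t 1) = v n t := by
    refine ⟨fun n => (Fintype.linearCombination ℤ (v n)).toAddMonoidHom, fun n t => ?_⟩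
    change Fintype.linearCombination ℤ (v n) (Pi.single t 1) = v n t
    rw [Fintype.linearCombination_apply_single, one_smul]
  obtain ⟨d, π, σ, hσ1, hσ2⟩ := exists_generic 𝒰 k P
  obtain ⟨u, q', hq'⟩ := exists_shift' fun t : Fin N0 × (Fin N ⊕ Fin N) => π (Pi.single t 1)
  have hcore : ∀ i, ∃ B1 : MvPolynomial (Fin d) ℤ, B1 ≠ 0 ∧ mm B1 = y i ∧
      ∀ G : MvPolynomial (Fin d) ℤ, Irreducible G → G ∣ B1 → 0 < mm G → ¬ Recip G := by
    intro i
    obtain ⟨A, hA⟩ : ∃ A : MvPolynomial (Fin d) ℤ, A =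
        ∑ j, MvPolynomial.monomial (q' (i, Sum.inl j)) (α0 i j) := ⟨_, rfl⟩
    obtain ⟨B, hB⟩ : ∃ B : MvPolynomial (Fin d) ℤ, B =
        ∑ j, MvPolynomial.monomial (q' (i, Sum.inr j)) (β0 i j) := ⟨_, rfl⟩
    have hSA : ∀ᶠ n in (𝒰 : Filter ℕ), SP (σ n) A = mo (σ n (iot u)) *
        JJ (k n) (∑ j, MvPolynomial.monomial (p n i j) (α n i j)) := by
      filter_upwards [hσ1, hα0] with n h1 h2
      rw [hA, SP_sum, JJ_sum, mo_mul_sum]
      refine sum_congr rfl fun j _ => ?_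
      rw [hq', map_add, ← h1, hP, hv, h2]
      rfl
    have hSB : ∀ᶠ n in (𝒰 : Filter ℕ), SP (σ n) B = mo (σ n (iot u)) *
        JJ (k n) (∑ j, MvPolynomial.monomial (q n i j) (β n i j)) := by
      filter_upwards [hσ1, hβ0] with n h1 h2
      rw [hB, SP_sum, JJ_sum, mo_mul_sum]
      refine sum_congr rfl fun j _ => ?_
      rw [hq', map_add, ← h1, hP, hv, h2]
      rfl
    have hR : ∀ᶠ n in (𝒰 : Filter ℕ),
        SP (σ n) A * JJ _ (rv (g n i)) = SP (σ n) B * JJ _ (g n i) := by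
      filter_upwards [hSA, hSB] with n h1 h2
      rw [h1, h2, mul_assoc, mul_assoc, ← map_mul, ← map_mul, hrel]
    have hA0 : A ≠ 0 := by
      intro h0
      obtain ⟨n, hn⟩ := hSA.exists
      rw [h0, map_zero] at hn
      exact mul_ne_zero (mo_ne _) (JJ_ne (hne n i)) hn.symm
    have hB0 : B ≠ 0 := by
      intro h0
      obtain ⟨n, hn, hn'⟩ := (hSA.and hR).exists
      rw [h0, map_zero, zero_mul, hn] at hn'
      exact mul_ne_zero (mul_ne_zero (mo_ne _) (JJ_ne (hne n i)))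
        (JJ_ne (rv_ne_zero (hg0 n i))) hn'
    exact core (F := fun n => g n i) hσ2 (Eventually.of_forall fun n => hcop n i) hA0 hB0 hR (hy i)
  choose B1 hB1 hB2 hB3 using hcore
  have hc0' : (c0 : ℤ) ≠ 0 := by
    have := (Finset.mem_Icc.mp hc0).1
    exact_mod_cast (by omega : c0 ≠ 0)
  have hCne : (MvPolynomial.C (c0 : ℤ) : MvPolynomial (Fin d) ℤ) ≠ 0 := by
    rwa [Ne, MvPolynomial.C_eq_zero]
  have hPne : (∏ i, B1 i) ≠ 0 := prod_ne_zero_iff.mpr fun i _ => hB1 i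
  refine ⟨d, MvPolynomial.C (c0 : ℤ) * ∏ i, B1 i, mul_ne_zero hCne hPne, ?_, ?_⟩
  · intro H hH hd hpos
    have hprime := UniqueFactorizationMonoid.irreducible_iff_prime.mp hH
    rcases hprime.dvd_or_dvd hd with h1 | h1
    · exact Or.inr (eq_C_of_dvd_C hc0' h1)
    · obtain ⟨i, -, hi⟩ := (hprime.dvd_finsetProd_iff _).mp h1
      exact Or.inl (hB3 i H hH hi hpos)
  · rw [mm_mul hCne hPne, mm_C, mm_prod _ _ fun i _ => hB1 i, hμeq]
    simp only [hB2]
    congr 2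
    rw [Int.cast_natCast, abs_of_nonneg (Nat.cast_nonneg _)]

/-- the closedness theorem -/
theorem closed : IsClosed {x : ℝ | ∃ (d : ℕ) (G : MvPolynomial (Fin d) ℤ), G ≠ 0 ∧ Cl G ∧
    mm G = x} := by
  refine IsSeqClosed.isClosed fun x μ hx hμ => ?_
  choose k F hF hcl hmm using hx
  exact closed_seq k F hF hcl (by simpa only [hmm] using hμ)

end Pool.Agent.H87.MM
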