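import Mathlib

/-!
# Complementary minors of a primitive lattice; the Cauchy-Binet formula
-/

set_option autoImplicit false

open Finset

namespace Pool.Agent.H87.MM

theorem index_range {κ : Type} [Fintype κ] [DecidableEq κ] (M : Matrix κ κ ℤ) (h : M.det ≠ 0) :
    (LinearMap.range (Matrix.toLin' M)).toAddSubgroup.index = M.det.natAbs := by
  have hinj : Function.Injective (Matrix.toLin' M) := by
    rw [← LinearMap.ker_eq_bot]
    rw [Matrix.ker_toLin'_eq_bot_iff]
    intro v hv
    by_contra hne
    exact h (Matrix.exists_mulVec_eq_zero_iff.mp ⟨v, hne, hv⟩)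
  have h1 := Submodule.natAbs_det_equiv (LinearMap.range (Matrix.toLin' M))
    (LinearEquiv.ofInjective (Matrix.toLin' M) hinj)
  have h2 : (LinearMap.range (Matrix.toLin' M)).subtype ∘ₗ AddMonoidHom.toIntLinearMap
      ((LinearEquiv.ofInjective (Matrix.toLin' M) hinj : (κ → ℤ) →+
        LinearMap.range (Matrix.toLin' M))) = Matrix.toLin' M := by
    ext x
    rfl
  rw [h2, LinearMap.det_toLin'] at h1
  rw [h1]
  rfl

/-- complementary minors -/
theorem dual_det {ι κ : Type} [Fintype ι] [Fintype κ] [DecidableEq κ] [DecidableEq ι] {r : ℕ}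
    (P : ι → Fin r → ℤ) (e : Fin r → ι) (y : κ → ι) (he : Function.Injective e)
    (hy : Function.Injective y) (hey : ∀ i s, e i ≠ y s) (hcov : ∀ i, (∃ l, e l = i) ∨ ∃ s, y s = i)
    (Λ : κ → ι → ℤ)
    (H : ∀ c : ι → ℤ, (∀ l, ∑ i, c i * P i l = 0) → ∃ x : κ → ℤ, ∀ i, c i = ∑ s, x s * Λ s i)
    (hdet : Matrix.det (Matrix.of fun i l => P (e i) l) ≠ 0) :
    |Matrix.det (Matrix.of fun s s' => Λ s (y s'))| ≤ |Matrix.det (Matrix.of fun i l => P (e i) l)| := by
  classical
  by_cases hΛ : Matrix.det (Matrix.of fun s s' => Λ s (y s')) = 0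
  · rw [hΛ, abs_zero]; exact abs_nonneg _
  obtain ⟨MP, hMP⟩ : ∃ MP : Matrix (Fin r) (Fin r) ℤ, MP = (Matrix.of fun i l => P (e i) l).transpose :=
    ⟨_, rfl⟩
  obtain ⟨ML, hML⟩ : ∃ ML : Matrix κ κ ℤ, ML = (Matrix.of fun s s' => Λ s (y s')).transpose :=
    ⟨_, rfl⟩
  have dP : MP.det = Matrix.det (Matrix.of fun i l => P (e i) l) := by
    rw [hMP, Matrix.det_transpose]
  have dL : ML.det = Matrix.det (Matrix.of fun s s' => Λ s (y s')) := by
    rw [hML, Matrix.det_transpose]
  rw [← dP, ← dL]
  rw [← dP] at hdet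
  rw [← dL] at hΛ
  obtain ⟨φ, hφ⟩ : ∃ φ : (κ → ℤ) →ₗ[ℤ] (Fin r → ℤ), ∀ w l, φ w l = ∑ s, w s * P (y s) l := by
    refine ⟨(Matrix.of fun l s => P (y s) l).toLin', fun w l => ?_⟩
    rw [Matrix.toLin'_apply, Matrix.mulVec, dotProduct]
    exact sum_congr rfl fun s _ => by rw [Matrix.of_apply, mul_comm]
  have hcomap : ((LinearMap.range (Matrix.toLin' MP)).comap φ).toAddSubgroup ≤
      (LinearMap.range (Matrix.toLin' ML)).toAddSubgroup := by
    intro w hw
    obtain ⟨x, hx⟩ : ∃ x, Matrix.toLin' MP x = φ w := hw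
    obtain ⟨c, hc1, hc2⟩ : ∃ c : ι → ℤ, (∀ s, c (y s) = w s) ∧ ∀ l, c (e l) = -x l := by
      refine ⟨fun i => if h : ∃ s, y s = i then w h.choose else
        if h' : ∃ l, e l = i then -x h'.choose else 0, fun s => ?_, fun l => ?_⟩
      · have h1 : ∃ s', y s' = y s := ⟨s, rfl⟩
        simp only [dif_pos h1]
        rw [hy h1.choose_spec]
      · have h1 : ¬ ∃ s, y s = e l := by
          rintro ⟨s, hs⟩
          exact hey l s hs.symm
        have h2 : ∃ l', e l' = e l := ⟨l, rfl⟩
        simp only [dif_neg h1, dif_pos h2]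
        rw [he h2.choose_spec]
    have hsum : ∀ f : ι → ℤ, ∑ i, f i = ∑ s, f (y s) + ∑ l, f (e l) := by
      intro f
      have h1 : (univ : Finset ι) = univ.image y ∪ univ.image e := by
        ext i
        simp only [mem_univ, mem_union, mem_image, true_and, true_iff]
        rcases hcov i with h2 | h2
        · exact Or.inr h2
        · exact Or.inl h2
      rw [h1, sum_union, sum_image fun a _ b _ h => hy h, sum_image fun a _ b _ h => he h]
      rw [disjoint_left]
      intro i hi hi'
      obtain ⟨s, -, rfl⟩ := mem_image.mp hi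
      obtain ⟨l, -, hl⟩ := mem_image.mp hi'
      exact hey l s hl
    obtain ⟨z, hz⟩ := H c fun l => by
      rw [hsum]
      have h1 := congrFun hx l
      rw [hφ, Matrix.toLin'_apply, Matrix.mulVec, dotProduct] at h1
      have h2 : ∑ s, c (y s) * P (y s) l = ∑ s, w s * P (y s) l :=
        sum_congr rfl fun s _ => by rw [hc1]
      have h3 : ∑ l', c (e l') * P (e l') l = -∑ i, MP l i * x i := by
        rw [← sum_neg_distrib]
        refine sum_congr rfl fun l' _ => ?_
        rw [hc2, hMP, Matrix.transpose_apply, Matrix.of_apply]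
        ring
      rw [h2, h3, h1]
      ring
    refine ⟨z, ?_⟩
    funext s'
    rw [Matrix.toLin'_apply, Matrix.mulVec, dotProduct, ← hc1 s', hz]
    refine sum_congr rfl fun s _ => ?_
    rw [hML, Matrix.transpose_apply, Matrix.of_apply]
    ring
  have i1 := index_range MP hdet
  have i2 := index_range ML hΛ
  have i3 := AddSubgroup.index_dvd_of_le hcomap
  have i4 : ((LinearMap.range (Matrix.toLin' MP)).comap φ).toAddSubgroup.index ∣
      (LinearMap.range (Matrix.toLin' MP)).toAddSubgroup.index := by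
    have h1 : ((LinearMap.range (Matrix.toLin' MP)).comap φ).toAddSubgroup =
        (LinearMap.range (Matrix.toLin' MP)).toAddSubgroup.comap φ.toAddMonoidHom := rfl
    rw [h1, AddSubgroup.index_comap]
    exact AddSubgroup.relIndex_dvd_index_of_normal _ _
  have i5 := i3.trans i4
  rw [i1, i2] at i5
  have i6 := Nat.le_of_dvd (Int.natAbs_pos.mpr hdet) i5
  rw [Int.abs_eq_natAbs, Int.abs_eq_natAbs]
  exact_mod_cast i6

/-- the Cauchy-Binet formula, summed over all functions -/
theorem cauchy_binet {κ ν : Type} [Fintype κ] [DecidableEq κ] [Fintype ν] [DecidableEq ν]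
    (X : Matrix κ ν ℝ) :
    ((Fintype.card κ).factorial : ℝ) * (X * X.transpose).det =
      ∑ e : κ → ν, (X.submatrix id e).det ^ 2 := by
  have h1 : (X * X.transpose).det = ∑ e : κ → ν, (∏ i, X i (e i)) * (X.submatrix id e).det := by
    rw [Matrix.det_apply]
    have h2 : ∀ σ : Equiv.Perm κ, ∏ i, (X * X.transpose) (σ i) i =
        ∑ e : κ → ν, ∏ i, (X (σ i) (e i) * X i (e i)) := by
      intro σ
      have h3 : ∀ i, (X * X.transpose) (σ i) i = ∑ j, X (σ i) j * X i j := by
        intro i
        rw [Matrix.mul_apply]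
        rfl
      rw [prod_congr rfl fun i _ => h3 i, prod_univ_sum]
      rw [Fintype.piFinset_univ]
    rw [sum_congr rfl fun σ _ => by rw [h2 σ, smul_sum], sum_comm]
    refine sum_congr rfl fun e _ => ?_
    rw [Matrix.det_apply, mul_sum]
    refine sum_congr rfl fun σ _ => ?_
    rw [prod_mul_distrib, mul_comm, mul_smul_comm]
    rfl
  have h2 : ∀ σ : Equiv.Perm κ, (X * X.transpose).det =
      ∑ e : κ → ν, (((Equiv.Perm.sign σ : ℤ) : ℝ) * ∏ i, X i (e (σ i))) *
        (X.submatrix id e).det := by
    intro σ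
    rw [h1]
    rw [← Equiv.sum_comp (Equiv.arrowCongr σ.symm (Equiv.refl ν))]
    refine sum_congr rfl fun e _ => ?_
    have h3 : (Equiv.arrowCongr σ.symm (Equiv.refl ν)) e = e ∘ σ := by
      funext i
      rfl
    rw [h3]
    have h4 : X.submatrix id (e ∘ σ) = (X.submatrix id e).submatrix id σ := by
      ext i j; rfl
    rw [h4, Matrix.det_permute']
    simp only [Function.comp_apply]
    ring
  have h3 : ((Fintype.card κ).factorial : ℝ) * (X * X.transpose).det =
      ∑ _σ : Equiv.Perm κ, (X * X.transpose).det := by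
    rw [sum_const, card_univ, Fintype.card_perm, nsmul_eq_mul]
  rw [h3, sum_congr rfl fun σ _ => h2 σ, sum_comm]
  refine sum_congr rfl fun e _ => ?_
  rw [← sum_mul, sq]
  congr 1
  rw [← Matrix.det_transpose, Matrix.det_apply']
  refine sum_congr rfl fun σ _ => ?_
  congr 1

theorem gram_le {κ ν : Type} [Fintype κ] [DecidableEq κ] [Fintype ν] [DecidableEq ν]
    (X : Matrix κ ν ℝ) {W : ℝ}
    (h : ∀ e : κ → ν, Function.Injective e → |(X.submatrix id e).det| ≤ W) :
    (X * X.transpose).det ≤
      ((Fintype.card ν).choose (Fintype.card κ) : ℝ) * W ^ 2 := by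
  have h1 := cauchy_binet X
  have h2 : ∑ e : κ → ν, (X.submatrix id e).det ^ 2 ≤
      (((Fintype.card ν).descFactorial (Fintype.card κ) : ℕ) : ℝ) * W ^ 2 := by
    calc ∑ e : κ → ν, (X.submatrix id e).det ^ 2 ≤
        ∑ e : κ → ν, if Function.Injective e then W ^ 2 else 0 := by
          refine sum_le_sum fun e _ => ?_
          split_ifs with he
          · rw [← sq_abs]
            exact pow_le_pow_left₀ (abs_nonneg _) (h e he) 2
          · have h3 : (X.submatrix id e).det = 0 := by
              rw [Function.not_injective_iff] at he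
              obtain ⟨i, j, hij, hne⟩ := he
              refine Matrix.det_zero_of_column_eq hne fun k => ?_
              simp [hij]
            rw [h3]
            simp
      _ = _ := by
          rw [← sum_filter, sum_const, nsmul_eq_mul]
          congr 2
          rw [← Fintype.card_embedding_eq, ← Fintype.card_subtype]
          exact Fintype.card_congr (Equiv.subtypeInjectiveEquivEmbedding κ ν)
  have h3 : (0 : ℝ) < (Fintype.card κ).factorial := by exact_mod_cast Nat.factorial_pos _
  rw [← h1] at h2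
  rw [Nat.descFactorial_eq_factorial_mul_choose] at h2
  push_cast at h2
  refine le_of_mul_le_mul_left ?_ h3
  linarith

end Pool.Agent.H87.MM
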