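import Pool.Agent.H87.MM.Limit

/-!
# Algebra of the reversed polynomial
-/

set_option autoImplicit false

namespace Pool.Agent.H87.MM

variable {n : ℕ}

/-- `F` is reciprocal: `F(x) = ± x^a F(1/x)` -/
def Recip (F : MvPolynomial (Fin n) ℤ) : Prop :=
  ∃ (a : Fin n →₀ ℕ) (ε : ℤ), (ε = 1 ∨ ε = -1) ∧ (∀ m ∈ F.support, m ≤ a) ∧
    ∀ m, m ≤ a → F.coeff (a - m) = ε * F.coeff m

/-- vector of degrees -/
noncomputable def dg (F : MvPolynomial (Fin n) ℤ) : Fin n →₀ ℕ :=
  Finsupp.equivFunOnFinite.symm fun i => F.degreeOf i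

theorem le_dg {F : MvPolynomial (Fin n) ℤ} {m : Fin n →₀ ℕ} (hm : m ∈ F.support) : m ≤ dg F :=
  fun i => MvPolynomial.le_degreeOf_of_mem_support i hm

/-- the reversed polynomial -/
noncomputable def rv (F : MvPolynomial (Fin n) ℤ) : MvPolynomial (Fin n) ℤ :=
  ∑ m ∈ F.support, MvPolynomial.monomial (dg F - m) (F.coeff m)

theorem fsub_sub {a b : Fin n →₀ ℕ} (h : a ≤ b) : b - (b - a) = a := by
  ext i
  have h1 := h i
  simp only [Finsupp.tsub_apply]
  omega

theorem rv_coeff (F : MvPolynomial (Fin n) ℤ) {m : Fin n →₀ ℕ} (hm : m ≤ dg F) :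
    (rv F).coeff m = F.coeff (dg F - m) := by
  unfold rv
  rw [MvPolynomial.coeff_sum]
  by_cases h : dg F - m ∈ F.support
  · rw [Finset.sum_eq_single (dg F - m)]
    · rw [MvPolynomial.coeff_monomial, if_pos (fsub_sub hm)]
    · intro m' hm' hne
      rw [MvPolynomial.coeff_monomial, if_neg]
      intro h'
      apply hne
      rw [← h', fsub_sub (le_dg hm')]
    · intro h'; exact absurd h h'
  · rw [MvPolynomial.notMem_support_iff.mp h]
    refine Finset.sum_eq_zero fun m' hm' => ?_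
    rw [MvPolynomial.coeff_monomial, if_neg]
    intro h'
    apply h
    rw [← h', fsub_sub (le_dg hm')]
    exact hm'

theorem rv_coeff_ne {F : MvPolynomial (Fin n) ℤ} {m : Fin n →₀ ℕ} (h : (rv F).coeff m ≠ 0) :
    m ≤ dg F := by
  by_contra hm
  apply h
  unfold rv
  rw [MvPolynomial.coeff_sum]
  refine Finset.sum_eq_zero fun m' _ => ?_
  rw [MvPolynomial.coeff_monomial, if_neg]
  intro h'
  apply hm
  rw [← h']
  exact tsub_le_self

theorem rv_ne_zero {F : MvPolynomial (Fin n) ℤ} (hF : F ≠ 0) : rv F ≠ 0 := by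
  obtain ⟨m, hm⟩ := MvPolynomial.support_nonempty.mpr hF
  intro h
  have h1 := rv_coeff F (m := dg F - m) tsub_le_self
  rw [h, MvPolynomial.coeff_zero, fsub_sub (le_dg hm)] at h1
  exact MvPolynomial.mem_support_iff.mp hm h1.symm

theorem recip_of_dvd {F : MvPolynomial (Fin n) ℤ} (hF : F ≠ 0) (h : F ∣ rv F) : Recip F := by
  obtain ⟨c, hc⟩ := h
  have hc0 : c ≠ 0 := by
    rintro rfl
    rw [mul_zero] at hc
    exact rv_ne_zero hF hc
  have hdeg : ∀ i, c.degreeOf i = 0 := by
    intro i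
    have h1 : (rv F).degreeOf i ≤ F.degreeOf i := by
      rw [MvPolynomial.degreeOf_le_iff]
      intro m hm
      exact rv_coeff_ne (MvPolynomial.mem_support_iff.mp hm) i
    rw [hc, MvPolynomial.degreeOf_mul_eq hF hc0] at h1
    omega
  have hcC : c = MvPolynomial.C (c.coeff 0) := by
    ext m
    rw [MvPolynomial.coeff_C]
    by_cases hm : 0 = m
    · rw [if_pos hm, hm]
    · rw [if_neg hm]
      by_contra hne
      apply hm
      symm
      ext i
      have h1 := MvPolynomial.le_degreeOf_of_mem_support i (MvPolynomial.mem_support_iff.mpr hne)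
      rw [hdeg i] at h1
      simpa using h1
  obtain ⟨c0, hc0'⟩ : ∃ c0, c0 = c.coeff 0 := ⟨_, rfl⟩
  rw [← hc0'] at hcC
  have key : ∀ m, m ≤ dg F → F.coeff (dg F - m) = c0 * F.coeff m := by
    intro m hm
    rw [← rv_coeff F hm, hc, hcC, mul_comm, MvPolynomial.coeff_C_mul]
  obtain ⟨m, hm⟩ := MvPolynomial.support_nonempty.mpr hF
  have hsq : c0 = 1 ∨ c0 = -1 := by
    have h1 := key m (le_dg hm)
    have h2 := key (dg F - m) tsub_le_self
    rw [fsub_sub (le_dg hm), h1, ← mul_assoc] at h2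
    have h3 : c0 * c0 = 1 := by
      have h4 : (c0 * c0 - 1) * F.coeff m = 0 := by linarith
      rcases mul_eq_zero.mp h4 with h5 | h5
      · linarith
      · exact absurd h5 (MvPolynomial.mem_support_iff.mp hm)
    exact mul_self_eq_one_iff.mp h3
  exact ⟨dg F, c0, hsq, fun m hm => le_dg hm, key⟩

theorem dvd_of_dvd_mul_rv {F B : MvPolynomial (Fin n) ℤ} (hirr : Irreducible F)
    (hrec : ¬ Recip F) (h : F ∣ B * rv F) : F ∣ B := by
  rcases (UniqueFactorizationMonoid.irreducible_iff_prime.mp hirr).dvd_or_dvd h with h1 | h1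
  · exact h1
  · exact absurd (recip_of_dvd hirr.ne_zero h1) hrec

theorem iot_add (m m' : Fin n →₀ ℕ) : iot (m + m') = iot m + iot m' := by
  funext i
  simp [iot]

theorem iot_zero : iot (0 : Fin n →₀ ℕ) = 0 := by
  funext i
  simp [iot]

theorem iot_sub {m m' : Fin n →₀ ℕ} (h : m' ≤ m) : iot (m - m') = iot m - iot m' := by
  funext i
  have h1 := h i
  simp only [iot, Pi.sub_apply, Finsupp.tsub_apply]
  omega

/-- Laurent polynomials as a ring hom -/
noncomputable def JJ (n : ℕ) : MvPolynomial (Fin n) ℤ →+* AddMonoidAlgebra ℂ (Fin n → ℤ) :=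
  MvPolynomial.eval₂Hom (Int.castRingHom _)
    (fun i => AddMonoidAlgebra.single (Pi.single i (1 : ℤ)) (1 : ℂ))

theorem JJ_monomial (m : Fin n →₀ ℕ) (c : ℤ) :
    JJ n (MvPolynomial.monomial m c) = AddMonoidAlgebra.single (iot m) (c : ℂ) := by
  have h1 : ∀ m : Fin n →₀ ℕ, JJ n (MvPolynomial.monomial m 1) =
      AddMonoidAlgebra.single (iot m) (1 : ℂ) := by
    intro m
    induction m using Finsupp.induction_linear with
    | zero =>
      rw [iot_zero]
      exact map_one _
    | add f g hf hg =>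
      have : MvPolynomial.monomial (f + g) (1 : ℤ) =
          MvPolynomial.monomial f 1 * MvPolynomial.monomial g 1 := by
        rw [MvPolynomial.monomial_mul, one_mul]
      rw [this, map_mul, hf, hg, AddMonoidAlgebra.single_mul_single, iot_add, one_mul]
    | single i k =>
      have h2 : MvPolynomial.monomial (Finsupp.single i k) (1 : ℤ) = MvPolynomial.X i ^ k := by
        rw [MvPolynomial.X_pow_eq_monomial]
      rw [h2, map_pow]
      unfold JJ
      rw [MvPolynomial.coe_eval₂Hom, MvPolynomial.eval₂_X, AddMonoidAlgebra.single_pow, one_pow]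
      congr 1
      funext j
      rw [Pi.smul_apply]
      by_cases hj : j = i
      · subst hj
        simp [iot]
      · simp [iot, Pi.single_eq_of_ne hj, Finsupp.single_eq_of_ne hj]
  have h3 : MvPolynomial.monomial m c = MvPolynomial.C c * MvPolynomial.monomial m 1 := by
    rw [MvPolynomial.C_mul_monomial, mul_one]
  rw [h3, map_mul, h1]
  have h4 : JJ n (MvPolynomial.C c) = AddMonoidAlgebra.single 0 (c : ℂ) := by
    unfold JJ
    rw [MvPolynomial.coe_eval₂Hom, MvPolynomial.eval₂_C]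
    rw [eq_intCast]
    exact (map_intCast (AddMonoidAlgebra.singleZeroRingHom (R := ℂ) (M := Fin n → ℤ)) c).symm
  rw [h4, AddMonoidAlgebra.single_mul_single, zero_add, mul_one]

theorem JJ_sum {ι : Type*} (s : Finset ι) (e : ι → (Fin n →₀ ℕ)) (c : ι → ℤ) :
    JJ n (∑ i ∈ s, MvPolynomial.monomial (e i) (c i)) =
      ∑ i ∈ s, AddMonoidAlgebra.single (iot (e i)) ((c i : ℤ) : ℂ) := by
  rw [map_sum]
  exact Finset.sum_congr rfl fun i _ => JJ_monomial _ _

theorem JJ_eq_lp (F : MvPolynomial (Fin n) ℤ) : JJ n F = lp F := by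
  conv_lhs => rw [← MvPolynomial.support_sum_monomial_coeff F]
  exact JJ_sum _ _ _

theorem JJ_injective : Function.Injective (JJ n) := by
  rw [injective_iff_map_eq_zero]
  intro F hF
  by_contra hne
  obtain ⟨m, hm⟩ := MvPolynomial.support_nonempty.mpr hne
  rw [JJ_eq_lp] at hF
  have h1 : (lp F).coeff (iot m) = ((F.coeff m : ℤ) : ℂ) :=
    coeff_sum_eq _ (fun m => iot m) _ hm fun _ _ h => iot_injective h
  rw [hF] at h1
  have h2 : ((F.coeff m : ℤ) : ℂ) = 0 := h1.symm
  exact MvPolynomial.mem_support_iff.mp hm (by exact_mod_cast h2)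

/-- monomials as Laurent polynomials -/
noncomputable abbrev mo (w : Fin n → ℤ) : AddMonoidAlgebra ℂ (Fin n → ℤ) :=
  AddMonoidAlgebra.single w 1

theorem mo_mul (w w' : Fin n → ℤ) : mo w * mo w' = mo (w + w') := by
  rw [AddMonoidAlgebra.single_mul_single, one_mul]

theorem mo_zero : mo (0 : Fin n → ℤ) = 1 := rfl

theorem mo_mul_sum {ι : Type*} (s : Finset ι) (w : Fin n → ℤ) (e : ι → (Fin n → ℤ)) (c : ι → ℂ) :
    mo w * ∑ i ∈ s, AddMonoidAlgebra.single (e i) (c i) =
      ∑ i ∈ s, AddMonoidAlgebra.single (w + e i) (c i) := by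
  rw [Finset.mul_sum]
  refine Finset.sum_congr rfl fun i _ => ?_
  rw [AddMonoidAlgebra.single_mul_single, one_mul]

theorem la_eq (F : MvPolynomial (Fin n) ℤ) (w : Fin n → ℤ) : la F w = mo (-w) * JJ n F := by
  rw [JJ_eq_lp]
  unfold la lp
  rw [mo_mul_sum]
  refine Finset.sum_congr rfl fun m _ => ?_
  congr 1
  abel

theorem lb_eq (F : MvPolynomial (Fin n) ℤ) (w : Fin n → ℤ) :
    lb F w = mo (w - iot (dg F)) * JJ n (rv F) := by
  unfold lb rv
  rw [JJ_sum, mo_mul_sum]
  refine Finset.sum_congr rfl fun m hm => ?_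
  congr 1
  rw [iot_sub (le_dg hm)]
  abel

end Pool.Agent.H87.MM
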