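import Pool.Agent.H87.MM.Spec

/-!
# Mahler measures of specialisations
-/

set_option autoImplicit false

open MeasureTheory Filter Topology

namespace Pool.Agent.H87.MM

variable {n : ℕ}

/-- squared modulus on the torus -/
noncomputable def ff (F : MvPolynomial (Fin n) ℤ) (t : Fin n → ℝ) : ℝ := ‖ev (chr t) (lp F)‖ ^ 2

/-- the length -/
noncomputable def len (F : MvPolynomial (Fin n) ℤ) : ℝ := ∑ m ∈ F.support, |((F.coeff m : ℤ) : ℝ)|

theorem norm_ev_le {χ : Multiplicative (Fin n → ℤ) →* ℂ} (hχ : ∀ x, ‖χ x‖ = 1)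
    (F : MvPolynomial (Fin n) ℤ) : ‖ev χ (lp F)‖ ≤ len F := by
  rw [ev_lp]
  refine (norm_sum_le _ _).trans (Finset.sum_le_sum fun m _ => ?_)
  rw [norm_mul, hχ, mul_one, Complex.norm_intCast]

theorem continuous_ev (F : MvPolynomial (Fin n) ℤ) :
    Continuous fun t : Fin n → ℝ => ev (chr t) (lp F) := by
  simp only [ev_lp]
  exact continuous_finsetSum _ fun m _ => continuous_const.mul (continuous_chr _)

theorem continuous_ff (F : MvPolynomial (Fin n) ℤ) : Continuous (ff F) :=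
  (continuous_ev F).norm.pow 2

theorem ff_nonneg (F : MvPolynomial (Fin n) ℤ) (t : Fin n → ℝ) : 0 ≤ ff F t := sq_nonneg _

theorem ff_le (F : MvPolynomial (Fin n) ℤ) (t : Fin n → ℝ) : ff F t ≤ len F ^ 2 := by
  unfold ff
  have := norm_ev_le (norm_chr t) F
  gcongr

/-- the specialised polynomial -/
noncomputable def sp (F : MvPolynomial (Fin n) ℤ) (σ : (Fin n → ℤ) →+ ℤ) (c : ℤ) :
    Polynomial ℤ :=
  ∑ m ∈ F.support, Polynomial.monomial (σ (iot m) - c).toNat (F.coeff m)

/-- the conditions on a specialisation -/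
structure Good (F : MvPolynomial (Fin n) ℤ) (σ : (Fin n → ℤ) →+ ℤ) (c : ℤ) : Prop where
  le : ∀ m ∈ F.support, c ≤ σ (iot m)
  inj : ∀ m ∈ F.support, ∀ m' ∈ F.support, σ (iot m) = σ (iot m') → m = m'

theorem sp_coeff {F : MvPolynomial (Fin n) ℤ} {σ : (Fin n → ℤ) →+ ℤ} {c : ℤ} (hg : Good F σ c)
    {m : Fin n →₀ ℕ} (hm : m ∈ F.support) :
    (sp F σ c).coeff (σ (iot m) - c).toNat = F.coeff m := by
  unfold sp
  rw [Polynomial.finsetSum_coeff, Finset.sum_eq_single m]
  · rw [Polynomial.coeff_monomial, if_pos rfl]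
  · intro m' hm' hne
    rw [Polynomial.coeff_monomial, if_neg]
    intro h
    have h1 := hg.le m hm
    have h2 := hg.le m' hm'
    exact hne (hg.inj m' hm' m hm (by omega))
  · intro h; exact absurd hm h

theorem sp_ne_zero {F : MvPolynomial (Fin n) ℤ} {σ : (Fin n → ℤ) →+ ℤ} {c : ℤ}
    (hg : Good F σ c) (hF : F ≠ 0) : sp F σ c ≠ 0 := by
  obtain ⟨m, hm⟩ := MvPolynomial.support_nonempty.mpr hF
  intro h
  have h1 := sp_coeff hg hm
  rw [h, Polynomial.coeff_zero] at h1
  exact (MvPolynomial.mem_support_iff.mp hm) h1.symm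

theorem sp_eval {F : MvPolynomial (Fin n) ℤ} {σ : (Fin n → ℤ) →+ ℤ} {c : ℤ}
    (hg : Good F σ c) {z : ℂ} (hz : z ≠ 0) :
    ((sp F σ c).map (Int.castRingHom ℂ)).eval z = z ^ (-c) * ev (chz σ z hz) (lp F) := by
  unfold sp
  rw [ev_lp, Polynomial.map_sum, Polynomial.eval_finsetSum, Finset.mul_sum]
  refine Finset.sum_congr rfl fun m hm => ?_
  rw [Polynomial.map_monomial, Polynomial.eval_monomial]
  have h1 : z ^ (σ (iot m) - c).toNat = z ^ (-c) * z ^ (σ (iot m)) := by
    rw [← zpow_add₀ hz, ← zpow_natCast, Int.toNat_of_nonneg (by have := hg.le m hm; omega)]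
    congr 1
    ring
  rw [h1]
  change ((F.coeff m : ℤ) : ℂ) * (z ^ (-c) * z ^ (σ (iot m))) =
    z ^ (-c) * (((F.coeff m : ℤ) : ℂ) * z ^ (σ (iot m)))
  ring

theorem norm_chz (σ : (Fin n → ℤ) →+ ℤ) (θ : ℝ) (x : Multiplicative (Fin n → ℤ)) :
    ‖chz σ (circleMap 0 1 θ) (circleMap_ne θ) x‖ = 1 := by
  change ‖(circleMap 0 1 θ) ^ (σ x.toAdd)‖ = 1
  rw [norm_zpow, norm_circleMap, one_zpow]

theorem log_le_of {F : MvPolynomial (Fin n) ℤ} (hF : F ≠ 0) {q : Polynomial ℝ}
    (hq : ∀ s, 0 < s → s ≤ len F ^ 2 → Real.log s / 2 ≤ q.eval s)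
    {σ : (Fin n → ℤ) →+ ℤ} {c : ℤ} (hg : Good F σ c)
    (hσ : ∀ x ∈ (qF q F).coeff.support, σ x = 0 → x = 0) :
    ((sp F σ c).map (Int.castRingHom ℂ)).logMahlerMeasure ≤
      ∫ t in cube n, q.eval (ff F t) := by
  obtain ⟨p, hp⟩ : ∃ p, p = (sp F σ c).map (Int.castRingHom ℂ) := ⟨_, rfl⟩
  have hp0 : p ≠ 0 := by
    rw [hp]
    exact (Polynomial.map_ne_zero_iff (Int.cast_injective)).mpr (sp_ne_zero hg hF)
  have hmean := mean_eq σ q F hσ
  rw [show (∫ t in cube n, q.eval (ff F t)) = ∫ t in cube n, q.eval (‖ev (chr t) (lp F)‖ ^ 2)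
    from rfl, ← hmean, ← hp, Polynomial.logMahlerMeasure_def, Real.circleAverage_def,
    smul_eq_mul]
  refine mul_le_mul_of_nonneg_left ?_ (by positivity)
  have hnorm : ∀ θ : ℝ, ‖p.eval (circleMap 0 1 θ)‖ =
      ‖ev (chz σ (circleMap 0 1 θ) (circleMap_ne θ)) (lp F)‖ := by
    intro θ
    rw [hp, sp_eval hg (circleMap_ne θ), norm_mul, norm_zpow, norm_circleMap, one_zpow, one_mul]
  refine intervalIntegral.integral_mono_ae (by positivity) p.intervalIntegrable_mahlerMeasure ?_ ?_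
  · refine Continuous.intervalIntegrable ?_ _ _
    refine q.continuous.comp ?_
    refine Continuous.pow ?_ 2
    have h1 : (fun θ : ℝ => ‖ev (chz σ (circleMap 0 1 θ) (circleMap_ne θ)) (lp F)‖) =
        fun θ => ‖p.eval (circleMap 0 1 θ)‖ := by
      funext θ; exact (hnorm θ).symm
    rw [h1]
    exact (p.continuous.comp (continuous_circleMap 0 1)).norm
  · have hfin : {z : ℂ | p.eval z = 0}.Countable := by
      refine (Set.Finite.subset (p.roots.toFinset.finite_toSet) ?_).countable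
      intro z hz
      rw [Finset.mem_coe, Multiset.mem_toFinset, Polynomial.mem_roots hp0]
      exact hz
    have hae := (hfin.preimage_circleMap 0 (one_ne_zero)).ae_notMem (volume : Measure ℝ)
    filter_upwards [hae] with θ hθ
    have hne : p.eval (circleMap 0 1 θ) ≠ 0 := hθ
    have hpos : 0 < ‖ev (chz σ (circleMap 0 1 θ) (circleMap_ne θ)) (lp F)‖ := by
      rw [← hnorm]
      exact norm_pos_iff.mpr hne
    rw [hnorm]
    have h2 := hq (‖ev (chz σ (circleMap 0 1 θ) (circleMap_ne θ)) (lp F)‖ ^ 2) (by positivity)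
      (by
        have := norm_ev_le (norm_chz σ θ) F
        gcongr)
    rw [Real.log_pow] at h2
    push_cast at h2
    linarith

theorem one_le_log {F : MvPolynomial (Fin n) ℤ} (hF : F ≠ 0)
    {σ : (Fin n → ℤ) →+ ℤ} {c : ℤ} (hg : Good F σ c) :
    0 ≤ ((sp F σ c).map (Int.castRingHom ℂ)).logMahlerMeasure := by
  rw [Polynomial.logMahlerMeasure_eq_log_MahlerMeasure]
  exact Real.log_nonneg (Polynomial.one_le_mahlerMeasure_of_ne_zero (sp_ne_zero hg hF))

theorem volume_cube : (volume : Measure (Fin n → ℝ)) (cube n) = 1 := by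
  unfold cube
  rw [volume_pi_pi]
  simp

/-- truncated logarithm -/
noncomputable def tl (k : ℕ) (s : ℝ) : ℝ := Real.log (max s (Real.exp (-(2 * k : ℝ)))) / 2

theorem tl_pos_arg (k : ℕ) (s : ℝ) : 0 < max s (Real.exp (-(2 * k : ℝ))) :=
  lt_of_lt_of_le (Real.exp_pos _) (le_max_right _ _)

theorem continuous_tl (k : ℕ) : Continuous (tl k) := by
  unfold tl
  exact (Continuous.log (continuous_id.max continuous_const)
    fun s => (tl_pos_arg k s).ne').div_const _

theorem tl_anti (s : ℝ) : Antitone fun k => tl k s := by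
  intro k l hkl
  change Real.log _ / 2 ≤ Real.log _ / 2
  have h1 : max s (Real.exp (-(2 * l : ℝ))) ≤ max s (Real.exp (-(2 * k : ℝ))) := by
    refine max_le_max le_rfl (Real.exp_le_exp.mpr ?_)
    have : (k : ℝ) ≤ l := by exact_mod_cast hkl
    linarith
  have := Real.log_le_log (tl_pos_arg l s) h1
  linarith

theorem le_tl (k : ℕ) {s : ℝ} (hs : 0 < s) : Real.log s / 2 ≤ tl k s := by
  unfold tl
  have := Real.log_le_log hs (le_max_left s (Real.exp (-(2 * k : ℝ))))
  linarith

theorem tl_zero_right (k : ℕ) : tl k 0 = -k := by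
  unfold tl
  rw [max_eq_right (Real.exp_pos _).le, Real.log_exp]
  ring

theorem tl_eq {k : ℕ} {s : ℝ} (h : Real.exp (-(2 * k : ℝ)) ≤ s) : tl k s = Real.log s / 2 := by
  unfold tl
  rw [max_eq_left h]

theorem tl_eventually {s : ℝ} (hs : 0 < s) : ∀ᶠ k : ℕ in atTop, tl k s = Real.log s / 2 := by
  obtain ⟨k0, hk0⟩ := exists_nat_gt (-(Real.log s / 2))
  filter_upwards [eventually_ge_atTop k0] with k hk
  apply tl_eq
  rw [← Real.le_log_iff_exp_le hs]
  have : (k0 : ℝ) ≤ k := by exact_mod_cast hk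
  linarith

theorem exists_q (F : MvPolynomial (Fin n) ℤ) (k : ℕ) {ε : ℝ} (hε : 0 < ε) :
    ∃ q : Polynomial ℝ, (∀ s, 0 < s → s ≤ len F ^ 2 → Real.log s / 2 ≤ q.eval s) ∧
      ∫ t in cube n, q.eval (ff F t) ≤ (∫ t in cube n, tl k (ff F t)) + ε := by
  obtain ⟨p, hp⟩ := exists_polynomial_near_of_continuousOn 0 (len F ^ 2) (tl k)
    (continuous_tl k).continuousOn (ε / 2) (by positivity)
  refine ⟨p + Polynomial.C (ε / 2), ?_, ?_⟩
  · intro s hs hs'
    have h1 := (abs_lt.mp (hp s ⟨hs.le, hs'⟩)).1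
    have h2 := le_tl k hs
    rw [Polynomial.eval_add, Polynomial.eval_C]
    linarith
  · have hi1 : Integrable (fun t => tl k (ff F t)) (volume.restrict (cube n)) :=
      ((continuous_tl k).comp (continuous_ff F)).continuousOn.integrableOn_compact
        (isCompact_univ_pi fun _ => isCompact_Icc)
    have hi2 : Integrable (fun t => (p + Polynomial.C (ε / 2)).eval (ff F t))
        (volume.restrict (cube n)) :=
      ((Polynomial.continuous _).comp (continuous_ff F)).continuousOn.integrableOn_compact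
        (isCompact_univ_pi fun _ => isCompact_Icc)
    have h1 : ∫ t in cube n, (p + Polynomial.C (ε / 2)).eval (ff F t) ≤
        ∫ t in cube n, (tl k (ff F t) + ε) := by
      refine integral_mono hi2 (hi1.add (integrable_const _)) fun t => ?_
      have h2 := (abs_lt.mp (hp (ff F t) ⟨ff_nonneg F t, ff_le F t⟩)).2
      change (p + Polynomial.C (ε / 2)).eval (ff F t) ≤ tl k (ff F t) + ε
      rw [Polynomial.eval_add, Polynomial.eval_C]
      linarith
    refine h1.trans (le_of_eq ?_)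
    rw [integral_add hi1 (integrable_const _), integral_const, measureReal_restrict_apply_univ,
      measureReal_def, volume_cube]
    simp

end Pool.Agent.H87.MM
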