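import Pool.Agent.H87.MM.Lattice

/-!
# The chain of subgroups
-/

set_option autoImplicit false

open Finset

namespace Pool.Agent.H87.MM

variable {G : Type*} [AddCommGroup G]

/-- energy of a set -/
noncomputable def En (g h : G → ℂ) (T : Set G) : ℝ :=
  ∑' x, ‖Set.indicator T g x‖ ^ 2 + ∑' x, ‖Set.indicator T h x‖ ^ 2

theorem tsum_ind_add {f : G → ℂ} (hf : Sq f) {T T' W : Set G} (hd : Disjoint T T') (hT : T ⊆ W)
    (hT' : T' ⊆ W) : ∑' x, ‖Set.indicator T f x‖ ^ 2 + ∑' x, ‖Set.indicator T' f x‖ ^ 2 ≤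
      ∑' x, ‖Set.indicator W f x‖ ^ 2 := by
  rw [← Summable.tsum_add (hf.indicator T) (hf.indicator T')]
  refine Summable.tsum_le_tsum (fun x => ?_) ((hf.indicator T).add (hf.indicator T'))
    (hf.indicator W)
  by_cases h1 : x ∈ T
  · have h2 : x ∉ T' := fun h => (Set.disjoint_left.mp hd) h1 h
    rw [Set.indicator_of_mem h1, Set.indicator_of_notMem h2, Set.indicator_of_mem (hT h1)]
    simp
  · by_cases h2 : x ∈ T'
    · rw [Set.indicator_of_mem h2, Set.indicator_of_notMem h1, Set.indicator_of_mem (hT' h2)]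
      simp
    · rw [Set.indicator_of_notMem h1, Set.indicator_of_notMem h2]
      simp

theorem En_add {g h : G → ℂ} (hg : Sq g) (hh : Sq h) {T T' W : Set G} (hd : Disjoint T T')
    (hT : T ⊆ W) (hT' : T' ⊆ W) : En g h T + En g h T' ≤ En g h W := by
  have h1 := tsum_ind_add hg hd hT hT'
  have h2 := tsum_ind_add hh hd hT hT'
  unfold En
  linarith

theorem En_le {g h : G → ℂ} (hg : Sq g) (hh : Sq h) (hg1 : ∑' x, ‖g x‖ ^ 2 ≤ 1)
    (hh1 : ∑' x, ‖h x‖ ^ 2 ≤ 1) (T : Set G) : En g h T ≤ 2 := by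
  have hle : ∀ (f : G → ℂ), Sq f → ∑' x, ‖f x‖ ^ 2 ≤ 1 →
      ∑' x, ‖Set.indicator T f x‖ ^ 2 ≤ 1 := by
    intro f hf hf1
    refine le_trans (Summable.tsum_le_tsum (fun x => ?_) (hf.indicator T) hf) hf1
    by_cases hx : x ∈ T
    · rw [Set.indicator_of_mem hx]
    · rw [Set.indicator_of_notMem hx]; simp
  have h1 := hle g hg hg1
  have h2 := hle h hh hh1
  unfold En
  linarith

theorem En_nonneg (g h : G → ℂ) (T : Set G) : 0 ≤ En g h T := by
  unfold En
  exact add_nonneg (tsum_nonneg fun x => sq_nonneg _) (tsum_nonneg fun x => sq_nonneg _)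

theorem chain {ρ : G →+ ℝ} {a b : AddMonoidAlgebra ℂ G} {g h : G → ℂ} (S : Sol ρ a b g h)
    (hg1 : ∑' x, ‖g x‖ ^ 2 ≤ 1) (hh1 : ∑' x, ‖h x‖ ^ 2 ≤ 1) {κ : ℝ} (hκ : 0 < κ)
    (hκ' : κ * ‖b.coeff 0‖ ^ 2 ≤ ‖h 0‖ ^ 2)
    (hint : ∀ (V : AddSubgroup G) (v : G), (dd V a b).coeff v ≠ 0 → 1 ≤ ‖(dd V a b).coeff v‖)
    (k : ℕ) (hk : ∀ s : Finset G, s.card < k → dd (AddSubgroup.closure (s : Set G)) a b ≠ 0) :
    k * (κ ^ 2 / 2) ≤ 2 := by
  classical
  have claim : ∀ j : ℕ, j ≤ k → ∃ s : Finset G, s.card ≤ j ∧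
      j * (κ ^ 2 / 2) ≤ En g h (AddSubgroup.closure (s : Set G) : Set G) := by
    intro j
    induction j with
    | zero =>
      intro _
      refine ⟨∅, by simp, ?_⟩
      simpa using En_nonneg g h _
    | succ j ih =>
      intro hj
      obtain ⟨s, hs, hE⟩ := ih (by omega)
      obtain ⟨V, hV⟩ : ∃ V, V = AddSubgroup.closure (s : Set G) := ⟨_, rfl⟩
      rw [← hV] at hE
      have hne : dd V a b ≠ 0 := by
        rw [hV]; exact hk s (by omega)
      have hsupp : (dd V a b).coeff.support.Nonempty := by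
        rw [Finset.nonempty_iff_ne_empty]
        intro h0
        rw [Finsupp.support_eq_empty] at h0
        apply hne
        have := congrArg AddMonoidAlgebra.ofCoeff h0
        rw [AddMonoidAlgebra.ofCoeff_coeff] at this
        rw [this]
        rfl
      obtain ⟨v, hv, hmin⟩ := Finset.exists_min_image _ (fun w => ρ w) hsupp
      rw [Finsupp.mem_support_iff] at hv
      have hvV : v ∉ V := fun hmem => hv (dd_coeff_mem V a b hmem)
      have hstep := step_ineq S hg1 hh1 V hv
        (fun w hw => hmin w (Finsupp.mem_support_iff.mpr hw)) hκ (by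
          refine hκ'.trans ?_
          have h1 := hint V v hv
          nlinarith [sq_nonneg ‖h 0‖])
      refine ⟨insert v s, (Finset.card_insert_le _ _).trans (by omega), ?_⟩
      have hW : V ≤ AddSubgroup.closure ((insert v s : Finset G) : Set G) := by
        rw [hV]
        exact AddSubgroup.closure_mono (by simp)
      have hvW : v ∈ AddSubgroup.closure ((insert v s : Finset G) : Set G) :=
        AddSubgroup.subset_closure (by simp)
      have hadd := En_add (T := (V : Set G)) (T' := {x | x - v ∈ V})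
        (W := (AddSubgroup.closure ((insert v s : Finset G) : Set G) : Set G)) S.g_sq S.h_sq (by
          rw [Set.disjoint_left]
          intro x hx hx'
          apply hvV
          have := V.sub_mem hx hx'
          rwa [sub_sub_cancel] at this) hW (by
          intro x hx
          have h1 := (AddSubgroup.closure ((insert v s : Finset G) : Set G)).add_mem (hW hx) hvW
          rwa [sub_add_cancel] at h1)
      have h2 : κ ^ 2 / 2 ≤ En g h {x | x - v ∈ V} := hstep
      have h3 : ((j + 1 : ℕ) : ℝ) = (j : ℝ) + 1 := by push_cast; ring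
      rw [h3]
      linarith
  obtain ⟨s, -, hE⟩ := claim k le_rfl
  exact hE.trans (En_le S.g_sq S.h_sq hg1 hh1 _)

end Pool.Agent.H87.MM
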