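import Pool.Agent.H87.MM.Gen

/-!
# The core of the closedness theorem
-/

set_option autoImplicit false

open Finset Filter Topology

namespace Pool.Agent.H87.MM

variable {n d : ℕ}

instance : NoZeroDivisors (AddMonoidAlgebra ℂ (Fin n → ℤ)) := inferInstance

theorem mo_ne (z : Fin n → ℤ) : (mo z : AddMonoidAlgebra ℂ (Fin n → ℤ)) ≠ 0 := by
  intro h
  have h1 := mo_mul (-z) z
  rw [h, mul_zero, neg_add_cancel, mo_zero] at h1
  exact zero_ne_one h1

theorem JJ_ne {P : MvPolynomial (Fin n) ℤ} (hP : P ≠ 0) : JJ n P ≠ 0 := by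
  intro h
  exact hP (JJ_injective (h.trans (map_zero _).symm))

theorem exists_poly (σ : (Fin d → ℤ) →+ (Fin n → ℤ)) (A B : MvPolynomial (Fin d) ℤ) :
    ∃ (z : Fin n →₀ ℕ) (P Q : MvPolynomial (Fin n) ℤ), JJ n P = mo (iot z) * SP σ A ∧
      JJ n Q = mo (iot z) * SP σ B := by
  classical
  obtain ⟨z, hz⟩ : ∃ z : Fin n →₀ ℕ, ∀ i, z i =
      ∑ m ∈ A.support ∪ B.support, (σ (iot m) i).natAbs :=
    ⟨Finsupp.equivFunOnFinite.symm fun i => ∑ m ∈ A.support ∪ B.support, (σ (iot m) i).natAbs,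
      fun i => rfl⟩
  obtain ⟨q, hq⟩ : ∃ q : (Fin d →₀ ℕ) → (Fin n →₀ ℕ), ∀ m i, q m i =
      ((z i : ℤ) + σ (iot m) i).toNat :=
    ⟨fun m => Finsupp.equivFunOnFinite.symm fun i => ((z i : ℤ) + σ (iot m) i).toNat,
      fun m i => rfl⟩
  have hq2 : ∀ m ∈ A.support ∪ B.support, iot (q m) = iot z + σ (iot m) := by
    intro m hm
    funext i
    have h1 : (σ (iot m) i).natAbs ≤ ∑ m ∈ A.support ∪ B.support, (σ (iot m) i).natAbs :=
      single_le_sum (f := fun m => (σ (iot m) i).natAbs) (fun _ _ => Nat.zero_le _) hm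
    rw [← hz] at h1
    simp only [iot, Pi.add_apply, hq]
    omega
  have key : ∀ P : MvPolynomial (Fin d) ℤ, P.support ⊆ A.support ∪ B.support →
      JJ n (∑ m ∈ P.support, MvPolynomial.monomial (q m) (P.coeff m)) = mo (iot z) * SP σ P := by
    intro P hP
    rw [JJ_sum, SP_eq_sum, mo_mul_sum]
    exact sum_congr rfl fun m hm => by rw [hq2 m (hP hm)]
  exact ⟨z, _, _, key A subset_union_left, key B subset_union_right⟩

theorem level_minor {F : MvPolynomial (Fin n) ℤ} (hF : F ≠ 0) (σ : (Fin d → ℤ) →+ (Fin n → ℤ))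
    {A B : MvPolynomial (Fin d) ℤ} (hA : A ≠ 0) (hB : B ≠ 0) (hcop : IsRelPrime A B)
    (hrel : SP σ A * JJ n (rv F) = SP σ B * JJ n F) {u : Fin d →₀ ℕ} (hu : dg A ⊔ dg B ≤ u)
    (hσ : ∀ m ≤ u + (dg A ⊔ dg B), ∀ m' ≤ u + (dg A ⊔ dg B), σ (iot m) = σ (iot m') → m = m')
    (Y : Kx A B u → ↥(Iic u)) (hY : Function.Injective Y) :
    |((LM A B u Y).det : ℝ)| ≤
      Real.exp (((2 * (Iic u).card - (Iic (u - (dg A ⊔ dg B))).card : ℕ) : ℝ) * mm F) := by
  obtain ⟨m0, hm0, hmin⟩ := exists_low hF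
  obtain ⟨m1, hm1, hmax⟩ := exists_high hF
  obtain ⟨g, h, S, hg1, hh1, hh0⟩ := exists_sol hm0 hm1 hmin hmax
  have hb0 : (lb F (iot m1)).coeff 0 = ((F.coeff m1 : ℤ) : ℂ) := by
    have := lb_coeff (w := iot m1) hm1
    rwa [sub_self] at this
  have Fa := fm_of_sol S (int_la F _) (int_lb F _) hg1 hh1 (Real.exp_pos (-mm F)) (by
    rw [hb0, mul_comm]
    exact hh0)
  have h1 : JJ n (rv F) = mo (iot (dg F) - iot m1) * lb F (iot m1) := by
    rw [lb_eq, ← mul_assoc, mo_mul, show iot (dg F) - iot m1 + (iot m1 - iot (dg F)) = 0 by abel,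
      mo_zero, one_mul]
  have h2 : JJ n F = mo (iot m0) * la F (iot m0) := by
    rw [la_eq, ← mul_assoc, mo_mul, add_neg_cancel, mo_zero, one_mul]
  rw [h1, h2] at hrel
  have hla : la F (iot m0) ≠ 0 := by
    intro h
    rw [h, mul_zero] at h2
    exact JJ_ne hF h2
  have hmb := minor_bound Fa σ (iot (dg F) - iot m1) (iot m0) hla hA hB hcop hrel hu hσ Y hY
  obtain ⟨r, hr⟩ : ∃ r, r = 2 * (Iic u).card - (Iic (u - (dg A ⊔ dg B))).card := ⟨_, rfl⟩
  rw [← hr] at hmb ⊢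
  have h3 : Real.exp (-mm F) ^ r = (Real.exp (r * mm F))⁻¹ := by
    rw [← Real.exp_neg, ← Real.exp_nat_mul]
    congr 1
    ring
  rw [h3, inv_mul_le_iff₀ (Real.exp_pos _), mul_one] at hmb
  exact hmb

/-- coprime to the reversal (in a weak form) -/
def Cop (F : MvPolynomial (Fin n) ℤ) : Prop := F ≠ 0 ∧ ∀ B, F ∣ B * rv F → F ∣ B

section core

variable {𝒰 : Ultrafilter ℕ} {k : ℕ → ℕ} {σ : ∀ n, (Fin d → ℤ) →+ (Fin (k n) → ℤ)}
  {F : ∀ n, MvPolynomial (Fin (k n)) ℤ}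

theorem core_lower (hσ : ∀ x, x ≠ 0 → ∀ᶠ n in (𝒰 : Filter ℕ), σ n x ≠ 0)
    (hF : ∀ᶠ n in (𝒰 : Filter ℕ), F n ≠ 0) {A B : MvPolynomial (Fin d) ℤ} (hA : A ≠ 0)
    (hB : B ≠ 0) (hcop : IsRelPrime A B)
    (hrel : ∀ᶠ n in (𝒰 : Filter ℕ), SP (σ n) A * JJ _ (rv (F n)) = SP (σ n) B * JJ _ (F n))
    {μ : ℝ} (hμ : Tendsto (fun n => mm (F n)) (𝒰 : Filter ℕ) (𝓝 μ)) : mm B ≤ μ := by
  classical
  have hμ0 : 0 ≤ μ := ge_of_tendsto hμ (hF.mono fun n hn => mm_nonneg hn)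
  refine asym (w := dg A ⊔ dg B) hμ0 fun L hL => ?_
  obtain ⟨u, hu⟩ : ∃ u, u = cst d L := ⟨_, rfl⟩
  rw [← hu] at hL ⊢
  obtain ⟨r, hr⟩ : ∃ r, r = 2 * (Iic u).card - (Iic (u - (dg A ⊔ dg B))).card := ⟨_, rfl⟩
  obtain ⟨K, hK⟩ : ∃ K, K = (Iic (u - (dg A ⊔ dg B))).card := ⟨_, rfl⟩
  obtain ⟨C, hC⟩ : ∃ C, C = (Iic u).card.choose K := ⟨_, rfl⟩
  rw [← hr, ← hK, ← hC]
  have hC0 : (0 : ℝ) < C := by
    rw [hC]
    exact_mod_cast Nat.choose_pos (by
      rw [hK]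
      exact card_le_card (Iic_subset_Iic.mpr tsub_le_self))
  have hlim : Tendsto (fun n => Real.log (C : ℝ) + 2 * (r : ℝ) * mm (F n)) (𝒰 : Filter ℕ)
      (𝓝 (Real.log (C : ℝ) + 2 * (r : ℝ) * μ)) := (hμ.const_mul _).const_add _
  refine ge_of_tendsto hlim ?_
  filter_upwards [hF, hrel, ev_inj_exp hσ (Iic (u + (dg A ⊔ dg B)))] with n h1 h2 h3
  have h4 := szego (A := A) hB hL (W := Real.exp ((r : ℝ) * mm (F n))) (fun Y hY => by
    rw [hr]
    exact level_minor h1 (σ n) hA hB hcop h2 hL (fun m hm m' hm' h => h3 m (mem_Iic.mpr hm) m'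
      (mem_Iic.mpr hm') h) Y hY)
  rw [← hK, ← hC, ← Real.exp_nat_mul] at h4
  have h5 := Real.log_le_log (Real.exp_pos _) h4
  rw [Real.log_exp, Real.log_mul hC0.ne' (Real.exp_pos _).ne', Real.log_exp] at h5
  push_cast at h5
  linarith

theorem core_upper (hσ : ∀ x, x ≠ 0 → ∀ᶠ n in (𝒰 : Filter ℕ), σ n x ≠ 0)
    (hF : ∀ᶠ n in (𝒰 : Filter ℕ), Cop (F n)) {A B : MvPolynomial (Fin d) ℤ} (hA : A ≠ 0)
    (hB : B ≠ 0)
    (hrel : ∀ᶠ n in (𝒰 : Filter ℕ), SP (σ n) A * JJ _ (rv (F n)) = SP (σ n) B * JJ _ (F n))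
    {μ : ℝ} (hμ : Tendsto (fun n => mm (F n)) (𝒰 : Filter ℕ) (𝓝 μ)) : μ ≤ mm B := by
  classical
  refine le_of_forall_pos_le_add fun ε hε => ?_
  obtain ⟨Z, hZ⟩ := usc hB hε
  refine le_of_tendsto hμ ?_
  filter_upwards [hF, hrel, ev_inj_box hσ Z, ev_inj_exp hσ A.support, ev_inj_exp hσ B.support]
    with n h1 h2 h3 h4 h5
  obtain ⟨z, P, Q, hP, hQ⟩ := exists_poly (σ n) A B
  have hP0 : P ≠ 0 := by
    rintro rfl
    rw [map_zero] at hP
    exact mul_ne_zero (mo_ne _) (SP_ne_zero (σ n) hA h4) hP.symm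
  have hQ0 : Q ≠ 0 := by
    rintro rfl
    rw [map_zero] at hQ
    exact mul_ne_zero (mo_ne _) (SP_ne_zero (σ n) hB h5) hQ.symm
  have hPQ : P * rv (F n) = Q * F n := by
    refine JJ_injective ?_
    rw [map_mul, map_mul, hP, hQ, mul_assoc, mul_assoc, h2]
  have hdvd : F n ∣ P := h1.2 P (hPQ ▸ dvd_mul_left _ _)
  have e1 := mm_le_of_dvd hP0 hdvd
  have e2 := mm_mul hP0 (rv_ne_zero h1.1)
  have e3 := mm_mul hQ0 h1.1
  rw [hPQ, e3, mm_rv] at e2
  have e4 := hZ (k n) (σ n) (iot z) Q h3 hQ0 hQ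
  linarith

theorem dvd_A_of_recip {A G : MvPolynomial (Fin d) ℤ} (hG : Irreducible G) (hrec : Recip G)
    (hpos : 0 < mm G) (hGA : G ∣ rv A) : G ∣ A := by
  classical
  have hmono : ∀ w : Fin d →₀ ℕ, ¬ G ∣ MvPolynomial.monomial w (1 : ℤ) := by
    intro w h
    have h0 : MvPolynomial.monomial w (1 : ℤ) ≠ 0 := by
      rw [Ne, MvPolynomial.monomial_eq_zero]
      exact one_ne_zero
    have h1 := mm_le_of_dvd h0 h
    have h2 : mm (MvPolynomial.monomial w (1 : ℤ)) = 0 := by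
      unfold mm
      have h3 : ∀ t : Fin d → ℝ, Real.log ‖ev (chr t) (lp (MvPolynomial.monomial w (1 : ℤ)))‖ =
          0 := by
        intro t
        rw [← JJ_eq_lp, JJ_monomial, AddMonoidAlgebra.lift_single, Int.cast_one, one_smul,
          norm_chr, Real.log_one]
      simp only [h3]
      simp
    linarith
  obtain ⟨H, hH⟩ := hGA
  obtain ⟨a, ε, hε, hsa, hca⟩ := hrec
  -- the involution of G
  have hG1 : mo (iot a) * tau (JJ d G) = AddMonoidAlgebra.single 0 ((ε : ℤ) : ℂ) * JJ d G := by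
    have h1 : JJ d G = ∑ m ∈ Iic a, AddMonoidAlgebra.single (iot m) ((G.coeff m : ℤ) : ℂ) := by
      rw [← SP_id]
      exact SP_box _ hsa
    rw [h1, map_sum, Finset.mul_sum, Finset.mul_sum]
    refine sum_nbij' (fun m => a - m) (fun m => a - m) ?_ ?_ ?_ ?_ ?_
    · intro m _; exact mem_Iic.mpr tsub_le_self
    · intro m _; exact mem_Iic.mpr tsub_le_self
    · intro m hm; exact fsub_sub (mem_Iic.mp hm)
    · intro m hm; exact fsub_sub (mem_Iic.mp hm)
    · intro m hm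
      rw [mem_Iic] at hm
      rw [tau_single, AddMonoidAlgebra.single_mul_single, AddMonoidAlgebra.single_mul_single,
        one_mul, zero_add, iot_sub hm, sub_eq_add_neg]
      congr 1
      rw [hca m hm]
      rcases hε with h | h <;> simp [h]
  have h2 : mo (-iot (dg A)) * JJ d A = tau (JJ d G) * tau (JJ d H) := by
    rw [← tau_JJ_rv, hH, map_mul, map_mul]
  -- the involution of H
  have h3 := tau_JJ H
  have h4 : JJ d (MvPolynomial.monomial (a + dg H) 1 * A) =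
      JJ d (MvPolynomial.C ε * MvPolynomial.monomial (dg A) 1 * G * rv H) := by
    simp only [map_mul, JJ_monomial]
    have e0 : JJ d (MvPolynomial.C ε) = AddMonoidAlgebra.single 0 ((ε : ℤ) : ℂ) := by
      have := JJ_monomial (n := d) 0 ε
      rwa [iot_zero] at this
    rw [e0, Int.cast_one, iot_add]
    have e1 : JJ d A = mo (iot (dg A)) * (tau (JJ d G) * tau (JJ d H)) := by
      rw [← h2, ← mul_assoc, mo_mul, add_neg_cancel, mo_zero, one_mul]
    have e2 : JJ d (rv H) = mo (iot (dg H)) * tau (JJ d H) := by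
      rw [h3, ← mul_assoc, mo_mul, add_neg_cancel, mo_zero, one_mul]
    have e3 : AddMonoidAlgebra.single (iot a + iot (dg H)) (1 : ℂ) =
        mo (iot a) * mo (iot (dg H)) := (mo_mul _ _).symm
    rw [e1, e2, e3]
    calc mo (iot a) * mo (iot (dg H)) * (mo (iot (dg A)) * (tau (JJ d G) * tau (JJ d H)))
        = mo (iot (dg A)) * (mo (iot a) * tau (JJ d G)) * (mo (iot (dg H)) * tau (JJ d H)) := by
          ring
      _ = mo (iot (dg A)) * (AddMonoidAlgebra.single 0 ((ε : ℤ) : ℂ) * JJ d G) *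
          (mo (iot (dg H)) * tau (JJ d H)) := by rw [hG1]
      _ = _ := by ring
  have h5 : G ∣ MvPolynomial.monomial (a + dg H) 1 * A := by
    rw [JJ_injective h4]
    exact ((dvd_mul_left G _).mul_right (rv H))
  rcases (UniqueFactorizationMonoid.irreducible_iff_prime.mp hG).dvd_or_dvd h5 with h6 | h6
  · exact absurd h6 (hmono _)
  · exact h6

theorem core_recip (hσ : ∀ x, x ≠ 0 → ∀ᶠ n in (𝒰 : Filter ℕ), σ n x ≠ 0)
    (hF : ∀ᶠ n in (𝒰 : Filter ℕ), F n ≠ 0) {A B : MvPolynomial (Fin d) ℤ}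
    (hcop : IsRelPrime A B)
    (hrel : ∀ᶠ n in (𝒰 : Filter ℕ), SP (σ n) A * JJ _ (rv (F n)) = SP (σ n) B * JJ _ (F n))
    {G : MvPolynomial (Fin d) ℤ} (hG : Irreducible G) (hpos : 0 < mm G) (hGB : G ∣ B) :
    ¬ Recip G := by
  classical
  intro hrec
  obtain ⟨X, hX⟩ : ∃ X, X = A * rv A * MvPolynomial.monomial (dg B) 1 := ⟨_, rfl⟩
  obtain ⟨Y, hY⟩ : ∃ Y, Y = B * rv B * MvPolynomial.monomial (dg A) 1 := ⟨_, rfl⟩
  have heq : X = Y := by
    by_contra hne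
    have hev : ∀ᶠ n in (𝒰 : Filter ℕ), False := by
      filter_upwards [hF, hrel, ev_inj_exp hσ (X - Y).support] with n h1 h2 h3
      refine SP_ne_zero (σ n) (sub_ne_zero.mpr hne) h3 ?_
      rw [map_sub, sub_eq_zero, hX, hY]
      simp only [map_mul, SP_monomial]
      have h4 := congrArg tau h2
      rw [map_mul, map_mul, tau_SP, tau_SP, tau_JJ_rv, tau_JJ] at h4
      have hf1 := JJ_ne h1
      have hf2 := JJ_ne (rv_ne_zero h1)
      obtain ⟨zA, hzA⟩ : ∃ zA, zA = σ n (iot (dg A)) := ⟨_, rfl⟩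
      obtain ⟨zB, hzB⟩ : ∃ zB, zB = σ n (iot (dg B)) := ⟨_, rfl⟩
      obtain ⟨zF, hzF⟩ : ∃ zF, zF = iot (dg (F n)) := ⟨_, rfl⟩
      rw [← hzA, ← hzB, ← hzF] at h4
      rw [← hzA, ← hzB, Int.cast_one]
      have e1 : mo zA * mo (-zA) = (1 : AddMonoidAlgebra ℂ (Fin (k n) → ℤ)) := by
        rw [mo_mul, add_neg_cancel, mo_zero]
      have e2 : mo zB * mo (-zB) = (1 : AddMonoidAlgebra ℂ (Fin (k n) → ℤ)) := by
        rw [mo_mul, add_neg_cancel, mo_zero]
      have e3 : mo zF * mo (-zF) = (1 : AddMonoidAlgebra ℂ (Fin (k n) → ℤ)) := by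
        rw [mo_mul, add_neg_cancel, mo_zero]
      have h5 : (SP (σ n) A * SP (σ n) (rv A) * mo zB) * (JJ (k n) (rv (F n)) * JJ (k n) (F n)) =
          (SP (σ n) B * SP (σ n) (rv B) * mo zA) * (JJ (k n) (rv (F n)) * JJ (k n) (F n)) := by
        have h6 : SP (σ n) (rv A) * JJ (k n) (F n) * mo zB =
            SP (σ n) (rv B) * JJ (k n) (rv (F n)) * mo zA := by
          have h7 := congrArg (fun x => mo zA * mo zB * mo zF * x) h4
          calc SP (σ n) (rv A) * JJ (k n) (F n) * mo zB =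
              (mo zA * mo (-zA)) * (mo zF * mo (-zF)) *
                (SP (σ n) (rv A) * JJ (k n) (F n) * mo zB) := by
                rw [e1, e3, one_mul, one_mul]
            _ = mo zA * mo zB * mo zF * (AddMonoidAlgebra.single (-zA) 1 * SP (σ n) (rv A) *
                (mo (-zF) * JJ (k n) (F n))) := by ring
            _ = mo zA * mo zB * mo zF * (AddMonoidAlgebra.single (-zB) 1 * SP (σ n) (rv B) *
                (mo (-zF) * JJ (k n) (rv (F n)))) := h7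
            _ = (mo zB * mo (-zB)) * (mo zF * mo (-zF)) *
                (SP (σ n) (rv B) * JJ (k n) (rv (F n)) * mo zA) := by ring
            _ = _ := by rw [e2, e3, one_mul, one_mul]
        calc (SP (σ n) A * SP (σ n) (rv A) * mo zB) * (JJ (k n) (rv (F n)) * JJ (k n) (F n)) =
            (SP (σ n) A * JJ (k n) (rv (F n))) *
              (SP (σ n) (rv A) * JJ (k n) (F n) * mo zB) := by ring
          _ = (SP (σ n) B * JJ (k n) (F n)) *
              (SP (σ n) (rv B) * JJ (k n) (rv (F n)) * mo zA) := by rw [h2, h6]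
          _ = _ := by ring
      exact mul_right_cancel₀ (mul_ne_zero hf2 hf1) h5
    obtain ⟨n, hn⟩ := hev.exists
    exact hn
  have hprime := UniqueFactorizationMonoid.irreducible_iff_prime.mp hG
  have hGX : G ∣ A * rv A * MvPolynomial.monomial (dg B) 1 := by
    rw [← hX, heq, hY]
    exact (hGB.mul_right _).mul_right _
  have hnot : ¬ G ∣ A := fun h => hG.not_isUnit (hcop h hGB)
  rcases hprime.dvd_or_dvd hGX with h1 | h1
  · rcases hprime.dvd_or_dvd h1 with h2 | h2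
    · exact hnot h2
    · exact hnot (dvd_A_of_recip hG hrec hpos h2)
  · have h0 : MvPolynomial.monomial (dg B) (1 : ℤ) ≠ 0 := by
      rw [Ne, MvPolynomial.monomial_eq_zero]
      exact one_ne_zero
    have h2 := mm_le_of_dvd h0 h1
    have h3 : mm (MvPolynomial.monomial (dg B) (1 : ℤ)) = 0 := by
      unfold mm
      have h4 : ∀ t : Fin d → ℝ, Real.log ‖ev (chr t) (lp (MvPolynomial.monomial (dg B) (1 : ℤ)))‖ =
          0 := by
        intro t
        rw [← JJ_eq_lp, JJ_monomial, AddMonoidAlgebra.lift_single, Int.cast_one, one_smul,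
          norm_chr, Real.log_one]
      simp only [h4]
      simp
    linarith

/-- the core theorem -/
theorem core (hσ : ∀ x, x ≠ 0 → ∀ᶠ n in (𝒰 : Filter ℕ), σ n x ≠ 0)
    (hF : ∀ᶠ n in (𝒰 : Filter ℕ), Cop (F n)) {A B : MvPolynomial (Fin d) ℤ} (hA : A ≠ 0)
    (hB : B ≠ 0)
    (hrel : ∀ᶠ n in (𝒰 : Filter ℕ), SP (σ n) A * JJ _ (rv (F n)) = SP (σ n) B * JJ _ (F n))
    {μ : ℝ} (hμ : Tendsto (fun n => mm (F n)) (𝒰 : Filter ℕ) (𝓝 μ)) :
    ∃ B1 : MvPolynomial (Fin d) ℤ, B1 ≠ 0 ∧ mm B1 = μ ∧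
      ∀ G : MvPolynomial (Fin d) ℤ, Irreducible G → G ∣ B1 → 0 < mm G → ¬ Recip G := by
  classical
  obtain ⟨A1, B1, c, hcop, hcA, hcB⟩ := UniqueFactorizationMonoid.exists_reduced_factors A hA B
  have hc0 : c ≠ 0 := by
    rintro rfl
    rw [zero_mul] at hcA
    exact hA hcA.symm
  have hA1 : A1 ≠ 0 := by
    rintro rfl
    rw [mul_zero] at hcA
    exact hA hcA.symm
  have hB1 : B1 ≠ 0 := by
    rintro rfl
    rw [mul_zero] at hcB
    exact hB hcB.symm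
  have hrel1 : ∀ᶠ n in (𝒰 : Filter ℕ),
      SP (σ n) A1 * JJ _ (rv (F n)) = SP (σ n) B1 * JJ _ (F n) := by
    filter_upwards [hrel, ev_inj_exp hσ c.support] with n h1 h2
    have h3 := SP_ne_zero (σ n) hc0 h2
    rw [← hcA, ← hcB, map_mul, map_mul, mul_assoc, mul_assoc] at h1
    exact mul_left_cancel₀ h3 h1
  have hF0 : ∀ᶠ n in (𝒰 : Filter ℕ), F n ≠ 0 := hF.mono fun n hn => hn.1
  refine ⟨B1, hB1, le_antisymm (core_lower hσ hF0 hA1 hB1 hcop hrel1 hμ)
    (core_upper hσ hF hA1 hB1 hrel1 hμ), fun G hG hGB hpos => ?_⟩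
  exact core_recip hσ hF0 hcop hrel1 hG hpos hGB

end core

end Pool.Agent.H87.MM
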