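import Mathlib

/-!
# Determinants and row sums
-/

set_option autoImplicit false

open Finset
open scoped ComplexOrder

namespace Pool.Agent.H87.MM

theorem prod_le_of_sum_le {ι : Type*} [Fintype ι] (x : ι → ℝ) (hx : ∀ i, 0 ≤ x i) {c : ℝ}
    (hc : 0 < c) (h : ∑ i, x i ≤ c * Fintype.card ι) : ∏ i, x i ≤ c ^ Fintype.card ι := by
  have h1 : ∏ i, (x i / c) ≤ 1 := by
    calc ∏ i, (x i / c) ≤ ∏ i, Real.exp (x i / c - 1) := by
          refine prod_le_prod (fun i _ => div_nonneg (hx i) hc.le) fun i _ => ?_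
          have := Real.add_one_le_exp (x i / c - 1)
          linarith
      _ = Real.exp (∑ i, (x i / c - 1)) := (Real.exp_sum _ _).symm
      _ ≤ 1 := by
          rw [Real.exp_le_one_iff, sum_sub_distrib, ← sum_div]
          simp only [sum_const, card_univ, nsmul_eq_mul, mul_one]
          rw [sub_nonpos, div_le_iff₀ hc]
          linarith
  rw [prod_div_distrib, prod_const, card_univ, div_le_one (by positivity)] at h1
  exact h1

theorem det_sq_le {ι : Type*} [Fintype ι] [DecidableEq ι] (M : Matrix ι ι ℂ) {c : ℝ} (hc : 0 < c)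
    (h : ∑ i, ∑ j, ‖M i j‖ ^ 2 ≤ c * Fintype.card ι) : ‖M.det‖ ^ 2 ≤ c ^ Fintype.card ι := by
  have hA : (M * M.conjTranspose).PosSemidef := Matrix.posSemidef_self_mul_conjTranspose M
  have h1 := hA.isHermitian.det_eq_prod_eigenvalues
  have h2 := hA.isHermitian.trace_eq_sum_eigenvalues
  have h3 : (M * M.conjTranspose).det = ((‖M.det‖ ^ 2 : ℝ) : ℂ) := by
    rw [Matrix.det_mul, Matrix.det_conjTranspose]
    rw [RCLike.star_def, Complex.mul_conj, Complex.normSq_eq_norm_sq]
  have h4 : (M * M.conjTranspose).trace = ((∑ i, ∑ j, ‖M i j‖ ^ 2 : ℝ) : ℂ) := by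
    rw [Matrix.trace]
    push_cast
    refine sum_congr rfl fun i _ => ?_
    rw [Matrix.diag_apply, Matrix.mul_apply]
    refine sum_congr rfl fun j _ => ?_
    rw [Matrix.conjTranspose_apply, RCLike.star_def, Complex.mul_conj, Complex.normSq_eq_norm_sq]
    push_cast
    rfl
  have h5 : ‖M.det‖ ^ 2 = ∏ i, hA.isHermitian.eigenvalues i := by
    rw [h3] at h1
    have h6 : (∏ i, (hA.isHermitian.eigenvalues i : ℂ)) =
        ((∏ i, hA.isHermitian.eigenvalues i : ℝ) : ℂ) := by push_cast; rfl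
    exact Complex.ofReal_injective (h1.trans h6)
  have h7 : ∑ i, ∑ j, ‖M i j‖ ^ 2 = ∑ i, hA.isHermitian.eigenvalues i := by
    rw [h4] at h2
    have h6 : (∑ i, (hA.isHermitian.eigenvalues i : ℂ)) =
        ((∑ i, hA.isHermitian.eigenvalues i : ℝ) : ℂ) := by push_cast; rfl
    exact Complex.ofReal_injective (h2.trans h6)
  rw [h5]
  exact prod_le_of_sum_le _ (fun i => hA.eigenvalues_nonneg i) hc (h7 ▸ h)

end Pool.Agent.H87.MM
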