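import Pool.Agent.H87.MM.Alg
import Pool.Agent.H87.MM.Chain

/-!
# The dimension of irreducible nonreciprocal polynomials
-/

set_option autoImplicit false

namespace Pool.Agent.H87.MM

section res

variable {G : Type*} [AddCommGroup G] {ι : Type*}

theorem res_add (V : Set G) (c d : AddMonoidAlgebra ℂ G) :
    res V (c + d) = res V c + res V d := by
  classical
  unfold res
  rw [AddMonoidAlgebra.coeff_add, Finsupp.filter_add, AddMonoidAlgebra.ofCoeff_add]

open Classical in
theorem res_single (V : Set G) (y : G) (r : ℂ) :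
    res V (AddMonoidAlgebra.single y r) = if y ∈ V then AddMonoidAlgebra.single y r else 0 := by
  unfold res
  rw [AddMonoidAlgebra.coeff_single]
  split_ifs with h
  · rw [Finsupp.filter_single_of_pos _ h]
    rfl
  · rw [Finsupp.filter_single_of_neg _ h]
    rfl

theorem res_zero (V : Set G) : res V (0 : AddMonoidAlgebra ℂ G) = 0 := by
  classical
  unfold res
  rw [AddMonoidAlgebra.coeff_zero, Finsupp.filter_zero]
  rfl

open Classical in
theorem res_sum (V : Set G) (s : Finset ι) (e : ι → G) (c : ι → ℂ) :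
    res V (∑ i ∈ s, AddMonoidAlgebra.single (e i) (c i)) =
      ∑ i ∈ s.filter (fun i => e i ∈ V), AddMonoidAlgebra.single (e i) (c i) := by
  induction s using Finset.induction_on with
  | empty => simp [res_zero]
  | insert i s hi ih =>
    rw [Finset.sum_insert hi, res_add, ih, res_single, Finset.filter_insert]
    split_ifs with h
    · rw [Finset.sum_insert (fun h' => hi (Finset.mem_filter.mp h').1)]
    · rw [zero_add]

end res

variable {n : ℕ}

open Classical in
/-- part of `F` with exponents in a coset -/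
noncomputable def FV (V : Set (Fin n → ℤ)) (F : MvPolynomial (Fin n) ℤ) (w : Fin n → ℤ) :
    MvPolynomial (Fin n) ℤ :=
  ∑ m ∈ F.support.filter (fun m => iot m - w ∈ V), MvPolynomial.monomial m (F.coeff m)

open Classical in
/-- part of the reversed polynomial -/
noncomputable def GV (V : Set (Fin n → ℤ)) (F : MvPolynomial (Fin n) ℤ) (w : Fin n → ℤ) :
    MvPolynomial (Fin n) ℤ :=
  ∑ m ∈ F.support.filter (fun m => w - iot m ∈ V), MvPolynomial.monomial (dg F - m) (F.coeff m)

theorem res_la (V : Set (Fin n → ℤ)) (F : MvPolynomial (Fin n) ℤ) (w : Fin n → ℤ) :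
    res V (la F w) = mo (-w) * JJ n (FV V F w) := by
  classical
  unfold la FV
  rw [JJ_sum, mo_mul_sum, res_sum]
  refine Finset.sum_congr rfl fun m _ => ?_
  congr 1
  abel

theorem res_lb (V : Set (Fin n → ℤ)) (F : MvPolynomial (Fin n) ℤ) (w : Fin n → ℤ) :
    res V (lb F w) = mo (w - iot (dg F)) * JJ n (GV V F w) := by
  classical
  unfold lb GV
  rw [JJ_sum, mo_mul_sum, res_sum]
  refine Finset.sum_congr rfl fun m hm => ?_
  congr 1
  rw [iot_sub (le_dg (Finset.mem_filter.mp hm).1)]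
  abel

theorem dd_eq (V : AddSubgroup (Fin n → ℤ)) (F : MvPolynomial (Fin n) ℤ) (w w' : Fin n → ℤ) :
    dd V (la F w) (lb F w') = mo (-w + (w' - iot (dg F))) *
      JJ n (F * GV (V : Set (Fin n → ℤ)) F w' - FV (V : Set (Fin n → ℤ)) F w * rv F) := by
  unfold dd
  rw [res_la, res_lb, la_eq, lb_eq, map_sub, map_mul, map_mul, ← mo_mul]
  ring

theorem coeff_mo_mul (w v : Fin n → ℤ) (c : AddMonoidAlgebra ℂ (Fin n → ℤ)) :
    (mo w * c).coeff v = c.coeff (v - w) := by
  rw [coeff_mul_eq, conv_single, one_mul]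

theorem JJ_coeff_int (P : MvPolynomial (Fin n) ℤ) (v : Fin n → ℤ) (h : (JJ n P).coeff v ≠ 0) :
    1 ≤ ‖(JJ n P).coeff v‖ := by
  rw [JJ_eq_lp] at h ⊢
  obtain ⟨m, hm, rfl⟩ := coeff_sum_ne _ _ _ h
  have h1 : (lp P).coeff (iot m) = ((P.coeff m : ℤ) : ℂ) :=
    coeff_sum_eq _ (fun m => iot m) _ hm fun _ _ h => iot_injective h
  rw [h1, Complex.norm_intCast]
  have h2 : P.coeff m ≠ 0 := MvPolynomial.mem_support_iff.mp hm
  exact_mod_cast Int.one_le_abs h2

theorem dd_int (V : AddSubgroup (Fin n → ℤ)) (F : MvPolynomial (Fin n) ℤ) (w w' v : Fin n → ℤ)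
    (h : (dd V (la F w) (lb F w')).coeff v ≠ 0) :
    1 ≤ ‖(dd V (la F w) (lb F w')).coeff v‖ := by
  rw [dd_eq, coeff_mo_mul] at h ⊢
  exact JJ_coeff_int _ _ h

theorem mo_mul_eq_zero {w : Fin n → ℤ} {c : AddMonoidAlgebra ℂ (Fin n → ℤ)} (h : mo w * c = 0) :
    c = 0 := by
  have h1 : mo (-w) * (mo w * c) = c := by
    rw [← mul_assoc, mo_mul, neg_add_cancel, mo_zero, one_mul]
  rw [← h1, h, mul_zero]

/-- extreme terms of a product -/
theorem exists_top {Γ : Type*} [AddCommGroup Γ] [LinearOrder Γ] [IsOrderedCancelAddMonoid Γ]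
    (D : (Fin n → ℤ) →+ Γ) (hD : Function.Injective D) {f g : MvPolynomial (Fin n) ℤ}
    (hf : f ≠ 0) (hg : g ≠ 0) : ∃ m ∈ f.support, ∃ m' ∈ g.support,
      (∀ u ∈ f.support, D (iot u) ≤ D (iot m)) ∧ (∀ u ∈ g.support, D (iot u) ≤ D (iot m')) ∧
        m + m' ∈ (f * g).support := by
  classical
  obtain ⟨m, hm, hmax⟩ := Finset.exists_max_image f.support (fun u => D (iot u))
    (MvPolynomial.support_nonempty.mpr hf)
  obtain ⟨m', hm', hmax'⟩ := Finset.exists_max_image g.support (fun u => D (iot u))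
    (MvPolynomial.support_nonempty.mpr hg)
  refine ⟨m, hm, m', hm', hmax, hmax', ?_⟩
  rw [MvPolynomial.mem_support_iff, MvPolynomial.coeff_mul, Finset.sum_eq_single (m, m')]
  · exact mul_ne_zero (MvPolynomial.mem_support_iff.mp hm) (MvPolynomial.mem_support_iff.mp hm')
  · rintro ⟨u, u'⟩ hu hne
    rw [Finset.HasAntidiagonal.mem_antidiagonal] at hu
    by_contra hc
    have h1 : u ∈ f.support := MvPolynomial.mem_support_iff.mpr (left_ne_zero_of_mul hc)
    have h2 : u' ∈ g.support := MvPolynomial.mem_support_iff.mpr (right_ne_zero_of_mul hc)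
    have h3 := hmax u h1
    have h4 := hmax' u' h2
    have h5 : D (iot u) + D (iot u') = D (iot m) + D (iot m') := by
      rw [← map_add, ← map_add, ← iot_add, ← iot_add]
      exact congrArg (fun x => D (iot x)) hu
    have h6 : D (iot u) = D (iot m) := by
      refine le_antisymm h3 ?_
      by_contra hlt
      push Not at hlt
      have := add_lt_add_of_lt_of_le hlt h4
      rw [h5] at this
      exact lt_irrefl _ this
    have h7 : u = m := iot_injective (hD h6)
    subst h7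
    have h8 : u' = m' := add_left_cancel hu
    exact hne (by rw [h8])
  · intro h
    exact absurd (by rw [Finset.HasAntidiagonal.mem_antidiagonal]) h

/-- a polynomial dividing a `ψ`-homogeneous polynomial is `ψ`-homogeneous -/
theorem const_of_dvd (ψ : (Fin n → ℤ) →+ ℚ) {f P : MvPolynomial (Fin n) ℤ} (hP : P ≠ 0)
    (hd : f ∣ P) {r : ℚ} (hr : ∀ m ∈ P.support, ψ (iot m) = r) :
    ∀ u ∈ f.support, ∀ u' ∈ f.support, ψ (iot u) = ψ (iot u') := by
  obtain ⟨g, rfl⟩ := hd
  have hf := left_ne_zero_of_mul hP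
  have hg := right_ne_zero_of_mul hP
  let D : (Fin n → ℤ) →+ (ℚ ×ₗ ℝ) :=
    { toFun := fun x => toLex (ψ x, rho n x)
      map_zero' := by rw [map_zero, map_zero]; rfl
      map_add' := fun x y => by rw [map_add, map_add]; rfl }
  have hDi : Function.Injective D := by
    intro x y hxy
    have h1 : (ψ x, rho n x) = (ψ y, rho n y) := toLex.injective hxy
    exact rho_injective (congrArg Prod.snd h1)
  have hDi' : Function.Injective (-D) := by
    intro x y hxy
    have h1 : -(D x) = -(D y) := hxy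
    exact hDi (neg_injective h1)
  have hle : ∀ x y, D x ≤ D y → ψ x ≤ ψ y := by
    intro x y h
    rcases (Prod.Lex.le_iff).mp h with h1 | h1
    · exact le_of_lt h1
    · exact le_of_eq h1.1
  obtain ⟨m, hm, m', hm', h1, h2, h3⟩ := exists_top D hDi hf hg
  obtain ⟨k, hk, k', hk', h4, h5, h6⟩ := exists_top (-D) hDi' hf hg
  have e1 := hr _ h3
  have e2 := hr _ h6
  rw [iot_add, map_add] at e1 e2
  have l1 : ∀ u ∈ f.support, ψ (iot u) ≤ ψ (iot m) := fun u hu => hle _ _ (h1 u hu)
  have l2 : ∀ u ∈ g.support, ψ (iot u) ≤ ψ (iot m') := fun u hu => hle _ _ (h2 u hu)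
  have l3 : ∀ u ∈ f.support, ψ (iot k) ≤ ψ (iot u) := by
    intro u hu
    have : -(D (iot u)) ≤ -(D (iot k)) := h4 u hu
    exact hle _ _ (neg_le_neg_iff.mp this)
  have l5 : ψ (iot k') ≤ ψ (iot m') := l2 k' hk'
  have l6 : ψ (iot k) ≤ ψ (iot m) := l1 k hk
  intro u hu u' hu'
  have a1 := l1 u hu
  have a2 := l3 u hu
  have a3 := l1 u' hu'
  have a4 := l3 u' hu'
  linarith

/-- the dimension of `F`: the rank of the differences of its exponents -/
noncomputable def dimF (F : MvPolynomial (Fin n) ℤ) : ℕ :=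
  Module.finrank ℚ (Submodule.span ℚ {v : Fin n → ℚ | ∃ m ∈ F.support, ∃ m' ∈ F.support,
    v = fun i => (m i : ℚ) - (m' i : ℚ)})

theorem exists_psi (F : MvPolynomial (Fin n) ℤ) (s : Finset (Fin n → ℤ)) (hs : s.card < dimF F) :
    ∃ ψ : (Fin n → ℤ) →+ ℚ, (∀ x ∈ AddSubgroup.closure (s : Set (Fin n → ℤ)), ψ x = 0) ∧
      ∃ m ∈ F.support, ∃ m' ∈ F.support, ψ (iot m) ≠ ψ (iot m') := by
  classical
  let q : (Fin n → ℤ) →+ (Fin n → ℚ) :=
    { toFun := fun x i => (x i : ℚ)
      map_zero' := by funext i; simp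
      map_add' := fun x y => by funext i; simp }
  let W : Submodule ℚ (Fin n → ℚ) := Submodule.span ℚ ((s.image q : Finset (Fin n → ℚ)) : Set _)
  have hW : Module.finrank ℚ W ≤ s.card := by
    have h1 := finrank_span_finset_le_card (R := ℚ) (s.image q)
    exact h1.trans Finset.card_image_le
  have hne : ¬ Submodule.span ℚ {v : Fin n → ℚ | ∃ m ∈ F.support, ∃ m' ∈ F.support,
      v = fun i => (m i : ℚ) - (m' i : ℚ)} ≤ W := by
    intro h
    have h1 := Submodule.finrank_mono h
    unfold dimF at hs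
    omega
  rw [Submodule.span_le, Set.not_subset] at hne
  obtain ⟨v, ⟨m, hm, m', hm', rfl⟩, hv⟩ := hne
  obtain ⟨f, hf, hWf⟩ := Submodule.exists_le_ker_of_notMem hv
  refine ⟨f.toAddMonoidHom.comp q, ?_, m, hm, m', hm', ?_⟩
  · intro x hx
    have h1 : AddSubgroup.closure (s : Set (Fin n → ℤ)) ≤ (f.toAddMonoidHom.comp q).ker := by
      rw [AddSubgroup.closure_le]
      intro y hy
      have h2 : q y ∈ W := Submodule.subset_span (Finset.mem_coe.mpr
        (Finset.mem_image_of_mem q (Finset.mem_coe.mp hy)))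
      exact hWf h2
    exact h1 hx
  · intro h
    apply hf
    have h1 : (fun i => (m i : ℚ) - (m' i : ℚ)) = q (iot m) - q (iot m') := by
      funext i
      change (m i : ℚ) - (m' i : ℚ) = (((m i : ℕ) : ℤ) : ℚ) - (((m' i : ℕ) : ℤ) : ℚ)
      push_cast
      rfl
    rw [h1, map_sub]
    exact sub_eq_zero.mpr h

theorem dd_ne_zero {F : MvPolynomial (Fin n) ℤ} (hirr : Irreducible F) (hrec : ¬ Recip F)
    {m0 m1 : Fin n →₀ ℕ} (hm0 : m0 ∈ F.support) (s : Finset (Fin n → ℤ))
    (hs : s.card < dimF F) :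
    dd (AddSubgroup.closure (s : Set (Fin n → ℤ))) (la F (iot m0)) (lb F (iot m1)) ≠ 0 := by
  classical
  intro h0
  obtain ⟨V, hV⟩ : ∃ V, V = AddSubgroup.closure (s : Set (Fin n → ℤ)) := ⟨_, rfl⟩
  rw [← hV, dd_eq] at h0
  have h1 := JJ_injective ((mo_mul_eq_zero h0).trans (map_zero _).symm)
  have h2 : F ∣ FV (V : Set (Fin n → ℤ)) F (iot m0) * rv F := by
    rw [← sub_eq_zero.mp h1]
    exact dvd_mul_right _ _
  have h3 := dvd_of_dvd_mul_rv hirr hrec h2
  obtain ⟨ψ, hψ, m, hm, m', hm', hne⟩ := exists_psi F s hs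
  have hsupp : ∀ u ∈ (FV (V : Set (Fin n → ℤ)) F (iot m0)).support, iot u - iot m0 ∈ V := by
    intro u hu
    unfold FV at hu
    have h4 := MvPolynomial.support_sum hu
    obtain ⟨k, hk, hk'⟩ := Finset.mem_biUnion.mp h4
    have h5 := MvPolynomial.support_monomial_subset hk'
    rw [Finset.mem_singleton] at h5
    subst h5
    exact (Finset.mem_filter.mp hk).2
  have hne0 : FV (V : Set (Fin n → ℤ)) F (iot m0) ≠ 0 := by
    intro h
    have h4 : (FV (V : Set (Fin n → ℤ)) F (iot m0)).coeff m0 = F.coeff m0 := by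
      unfold FV
      rw [MvPolynomial.coeff_sum, Finset.sum_eq_single m0]
      · rw [MvPolynomial.coeff_monomial, if_pos rfl]
      · intro k _ hk
        rw [MvPolynomial.coeff_monomial, if_neg hk]
      · intro h5
        exfalso
        apply h5
        rw [Finset.mem_filter]
        refine ⟨hm0, ?_⟩
        rw [sub_self]
        exact V.zero_mem
    rw [h, MvPolynomial.coeff_zero] at h4
    exact MvPolynomial.mem_support_iff.mp hm0 h4.symm
  have h6 := const_of_dvd ψ hne0 h3 (r := ψ (iot m0)) (by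
    intro u hu
    have h7 := hψ _ (hV ▸ hsupp u hu)
    rw [map_sub] at h7
    linarith)
  exact hne (h6 m hm m' hm')

theorem dim_irred {F : MvPolynomial (Fin n) ℤ} (hirr : Irreducible F) (hrec : ¬ Recip F) :
    (dimF F : ℝ) ≤ 4 * Real.exp (4 * mm F) := by
  obtain ⟨m0, hm0, hmin⟩ := exists_low hirr.ne_zero
  obtain ⟨m1, hm1, hmax⟩ := exists_high hirr.ne_zero
  obtain ⟨g, h, S, hg1, hh1, hh0⟩ := exists_sol hm0 hm1 hmin hmax
  have hb0 : (lb F (iot m1)).coeff 0 = ((F.coeff m1 : ℤ) : ℂ) := by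
    have := lb_coeff (w := iot m1) hm1
    rwa [sub_self] at this
  have hc := chain S hg1 hh1 (κ := Real.exp (-(2 * mm F))) (Real.exp_pos _) (by
    rw [hb0]
    have h1 : (‖((F.coeff m1 : ℤ) : ℂ)‖ * Real.exp (-mm F)) ^ 2 ≤ ‖h 0‖ ^ 2 := by
      gcongr
    calc Real.exp (-(2 * mm F)) * ‖((F.coeff m1 : ℤ) : ℂ)‖ ^ 2 =
        (‖((F.coeff m1 : ℤ) : ℂ)‖ * Real.exp (-mm F)) ^ 2 := by
          rw [mul_pow, ← Real.exp_nat_mul, mul_comm]
          congr 2
          push_cast
          ring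
      _ ≤ _ := h1) (fun V v hv => dd_int V F _ _ v hv) (dimF F)
    (fun s hs => dd_ne_zero hirr hrec hm0 s hs)
  have h2 : Real.exp (-(2 * mm F)) ^ 2 = (Real.exp (4 * mm F))⁻¹ := by
    rw [← Real.exp_neg, ← Real.exp_nat_mul]
    congr 1
    push_cast
    ring
  rw [h2] at hc
  have h3 : 0 < Real.exp (4 * mm F) := Real.exp_pos _
  have h4 : (dimF F : ℝ) * ((Real.exp (4 * mm F))⁻¹ / 2) = dimF F / (2 * Real.exp (4 * mm F)) := by
    field_simp
  rw [h4, div_le_iff₀ (by positivity)] at hc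
  linarith

/-- the dimension bound -/
theorem dim_bound {F G : MvPolynomial (Fin n) ℤ} (hF : F ≠ 0) (hG : Irreducible G)
    (hrec : ¬ Recip G) (h : G ∣ F) : (dimF G : ℝ) ≤ 4 * Real.exp (4 * mm F) := by
  have h1 := dim_irred hG hrec
  have h2 := mm_le_of_dvd hF h
  have h3 : Real.exp (4 * mm G) ≤ Real.exp (4 * mm F) := Real.exp_le_exp.mpr (by linarith)
  linarith

end Pool.Agent.H87.MM
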