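import Pool.Agent.H87.MM.Anal

/-!
# Directions
-/

set_option autoImplicit false

open MeasureTheory Filter Topology

namespace Pool.Agent.H87.MM

variable {n : ℕ}

/-- a transcendental number -/
noncomputable def ta : ℝ := liouvilleNumber (2 : ℕ)

/-- the direction -/
noncomputable def rho (n : ℕ) : (Fin n → ℤ) →+ ℝ where
  toFun x := ∑ i, (x i : ℝ) * ta ^ (i : ℕ)
  map_zero' := by simp
  map_add' x y := by
    rw [← Finset.sum_add_distrib]
    refine Finset.sum_congr rfl fun i _ => ?_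
    rw [Pi.add_apply]
    push_cast
    ring

theorem rho_apply (x : Fin n → ℤ) : rho n x = ∑ i, (x i : ℝ) * ta ^ (i : ℕ) := rfl

theorem rho_injective : Function.Injective (rho n) := by
  rw [injective_iff_map_eq_zero]
  intro x hx
  have htr : Transcendental ℤ ta := transcendental_liouvilleNumber le_rfl
  let p : Polynomial ℤ := ∑ i : Fin n, Polynomial.monomial (i : ℕ) (x i)
  have hp : Polynomial.aeval ta p = 0 := by
    change Polynomial.aeval ta (∑ i : Fin n, Polynomial.monomial (i : ℕ) (x i)) = 0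
    rw [map_sum, ← hx, rho_apply]
    refine Finset.sum_congr rfl fun i _ => ?_
    rw [Polynomial.aeval_monomial]
    rfl
  have hp0 : p = 0 := by
    by_contra h
    exact htr ⟨p, h, hp⟩
  funext i
  have h1 : p.coeff (i : ℕ) = x i := by
    change (∑ i : Fin n, Polynomial.monomial (i : ℕ) (x i)).coeff (i : ℕ) = x i
    rw [Polynomial.finsetSum_coeff, Finset.sum_eq_single i]
    · rw [Polynomial.coeff_monomial, if_pos rfl]
    · intro j _ hj
      rw [Polynomial.coeff_monomial, if_neg]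
      intro h
      exact hj (Fin.ext h)
    · intro h; exact absurd (Finset.mem_univ _) h
  rw [← h1, hp0]
  rfl

/-- the approximating integer directions -/
noncomputable def sg (n T : ℕ) : (Fin n → ℤ) →+ ℤ where
  toFun x := ∑ i, x i * ⌊(T : ℝ) * ta ^ (i : ℕ)⌋
  map_zero' := by simp
  map_add' x y := by
    rw [← Finset.sum_add_distrib]
    refine Finset.sum_congr rfl fun i _ => ?_
    rw [Pi.add_apply]
    ring

theorem sg_apply (T : ℕ) (x : Fin n → ℤ) : sg n T x = ∑ i, x i * ⌊(T : ℝ) * ta ^ (i : ℕ)⌋ := rfl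

theorem sg_ge (T : ℕ) (x : Fin n → ℤ) :
    (T : ℝ) * rho n x - ∑ i, |(x i : ℝ)| ≤ (sg n T x : ℝ) := by
  rw [sg_apply, rho_apply, Finset.mul_sum, ← Finset.sum_sub_distrib]
  push_cast
  refine Finset.sum_le_sum fun i _ => ?_
  have h1 := Int.floor_le ((T : ℝ) * ta ^ (i : ℕ))
  have h2 := Int.sub_one_lt_floor ((T : ℝ) * ta ^ (i : ℕ))
  obtain ⟨f, hf⟩ : ∃ f : ℝ, f = (⌊(T : ℝ) * ta ^ (i : ℕ)⌋ : ℝ) := ⟨_, rfl⟩
  rw [← hf] at h1 h2 ⊢
  have h3 : (T : ℝ) * ((x i : ℝ) * ta ^ (i : ℕ)) - (x i : ℝ) * f =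
      (x i : ℝ) * ((T : ℝ) * ta ^ (i : ℕ) - f) := by ring
  have h4 : |(x i : ℝ) * ((T : ℝ) * ta ^ (i : ℕ) - f)| ≤ |(x i : ℝ)| := by
    rw [abs_mul]
    have h5 : |(T : ℝ) * ta ^ (i : ℕ) - f| ≤ 1 := by
      rw [abs_le]; constructor <;> linarith
    calc |(x i : ℝ)| * |(T : ℝ) * ta ^ (i : ℕ) - f| ≤ |(x i : ℝ)| * 1 :=
          mul_le_mul_of_nonneg_left h5 (abs_nonneg _)
      _ = _ := mul_one _
  have h6 := (abs_le.mp h4).2
  linarith

theorem sg_pos {x : Fin n → ℤ} (hx : 0 < rho n x) : ∀ᶠ T in atTop, 0 < sg n T x := by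
  obtain ⟨T0, hT0⟩ := exists_nat_gt ((∑ i, |(x i : ℝ)|) / rho n x)
  filter_upwards [eventually_ge_atTop T0] with T hT
  have h1 := sg_ge T x
  have h2 : (∑ i, |(x i : ℝ)|) < T * rho n x := by
    have h3 : (T0 : ℝ) ≤ T := by exact_mod_cast hT
    rw [div_lt_iff₀ hx] at hT0
    have h4 : (T0 : ℝ) * rho n x ≤ T * rho n x := mul_le_mul_of_nonneg_right h3 hx.le
    linarith
  have h5 : (0 : ℝ) < (sg n T x : ℝ) := by linarith
  exact_mod_cast h5

theorem sg_neg {x : Fin n → ℤ} (hx : rho n x < 0) : ∀ᶠ T in atTop, sg n T x < 0 := by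
  have h1 : 0 < rho n (-x) := by rw [map_neg]; linarith
  filter_upwards [sg_pos h1] with T hT
  rw [map_neg] at hT
  linarith

theorem sg_ne {x : Fin n → ℤ} (hx : x ≠ 0) : ∀ᶠ T in atTop, sg n T x ≠ 0 := by
  have h1 : rho n x ≠ 0 := by
    intro h
    exact hx (rho_injective (by rw [h, map_zero]))
  rcases lt_or_gt_of_ne h1 with h2 | h2
  · filter_upwards [sg_neg h2] with T hT
    exact hT.ne
  · filter_upwards [sg_pos h2] with T hT
    exact hT.ne'

theorem sg_nonneg {x : Fin n → ℤ} (hx : 0 ≤ rho n x) : ∀ᶠ T in atTop, 0 ≤ sg n T x := by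
  rcases hx.eq_or_lt with h | h
  · have h1 : x = 0 := rho_injective (by rw [← h, map_zero])
    rw [h1]
    simp
  · filter_upwards [sg_pos h] with T hT
    exact hT.le

theorem sg_inj_finset (Z : Finset (Fin n → ℤ)) :
    ∀ᶠ T in atTop, ∀ x ∈ Z, sg n T x = 0 → x = 0 := by
  rw [Filter.eventually_all_finset]
  intro x _
  by_cases h : x = 0
  · exact Eventually.of_forall fun T _ => h
  · filter_upwards [sg_ne h] with T hT h0
    exact absurd h0 hT

/-- the lowest exponent -/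
theorem exists_low {F : MvPolynomial (Fin n) ℤ} (hF : F ≠ 0) : ∃ m0 ∈ F.support,
    ∀ m ∈ F.support, rho n (iot m0) ≤ rho n (iot m) :=
  Finset.exists_min_image _ _ (MvPolynomial.support_nonempty.mpr hF)

/-- the highest exponent -/
theorem exists_high {F : MvPolynomial (Fin n) ℤ} (hF : F ≠ 0) : ∃ m1 ∈ F.support,
    ∀ m ∈ F.support, rho n (iot m) ≤ rho n (iot m1) :=
  Finset.exists_max_image _ _ (MvPolynomial.support_nonempty.mpr hF)

theorem good_eventually {F : MvPolynomial (Fin n) ℤ} {m0 : Fin n →₀ ℕ}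
    (hmin : ∀ m ∈ F.support, rho n (iot m0) ≤ rho n (iot m)) :
    ∀ᶠ T in atTop, Good F (sg n T) (sg n T (iot m0)) := by
  have h1 : ∀ᶠ T in atTop, ∀ m ∈ F.support, sg n T (iot m0) ≤ sg n T (iot m) := by
    rw [Filter.eventually_all_finset]
    intro m hm
    have h2 : 0 ≤ rho n (iot m - iot m0) := by
      rw [map_sub]; linarith [hmin m hm]
    filter_upwards [sg_nonneg h2] with T hT
    rw [map_sub] at hT
    linarith
  have h3 : ∀ᶠ T in atTop, ∀ m ∈ F.support, ∀ m' ∈ F.support,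
      sg n T (iot m) = sg n T (iot m') → m = m' := by
    rw [Filter.eventually_all_finset]
    intro m _
    rw [Filter.eventually_all_finset]
    intro m' _
    by_cases h : m = m'
    · exact Eventually.of_forall fun T _ => h
    · have h4 : iot m - iot m' ≠ 0 := by
        intro h5
        exact h (iot_injective (sub_eq_zero.mp h5))
      filter_upwards [sg_ne h4] with T hT h5
      rw [map_sub, h5, sub_self] at hT
      exact absurd rfl hT
  filter_upwards [h1, h3] with T hT hT'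
  exact ⟨hT, hT'⟩

theorem integral_q_nonneg {F : MvPolynomial (Fin n) ℤ} (hF : F ≠ 0) {q : Polynomial ℝ}
    (hq : ∀ s, 0 < s → s ≤ len F ^ 2 → Real.log s / 2 ≤ q.eval s) :
    0 ≤ ∫ t in cube n, q.eval (ff F t) := by
  obtain ⟨m0, _, hmin⟩ := exists_low hF
  obtain ⟨T, hT1, hT2⟩ := ((good_eventually hmin).and
    (sg_inj_finset (qF q F).coeff.support)).exists
  exact (one_le_log hF hT1).trans (log_le_of hF hq hT1 hT2)

theorem integral_tl_nonneg {F : MvPolynomial (Fin n) ℤ} (hF : F ≠ 0) (k : ℕ) :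
    0 ≤ ∫ t in cube n, tl k (ff F t) := by
  refine le_of_forall_pos_le_add fun ε hε => ?_
  obtain ⟨q, hq, hq'⟩ := exists_q F k hε
  exact (integral_q_nonneg hF hq).trans hq'

end Pool.Agent.H87.MM
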