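import Pool.Agent.H87.MM.Szego

/-!
# Generic sequences of homomorphisms
-/

set_option autoImplicit false

open Finset Filter Topology

namespace Pool.Agent.H87.MM

/-- relations valid along the ultrafilter -/
def relSub {J : Type} [Fintype J] (𝒰 : Ultrafilter ℕ) (k : ℕ → ℕ)
    (P : ∀ n, (J → ℤ) →+ (Fin (k n) → ℤ)) : Submodule ℤ (J → ℤ) where
  carrier := {x | ∀ᶠ n in (𝒰 : Filter ℕ), P n x = 0}
  add_mem' := by
    intro x y hx hy
    change ∀ᶠ n in (𝒰 : Filter ℕ), P n (x + y) = 0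
    filter_upwards [hx, hy] with n h1 h2
    rw [map_add, h1, h2, add_zero]
  zero_mem' := by
    change ∀ᶠ n in (𝒰 : Filter ℕ), P n 0 = 0
    exact Eventually.of_forall fun n => map_zero _
  smul_mem' := by
    intro c x hx
    change ∀ᶠ n in (𝒰 : Filter ℕ), P n (c • x) = 0
    filter_upwards [hx] with n h1
    rw [map_zsmul, h1, smul_zero]

theorem mem_relSub {J : Type} [Fintype J] {𝒰 : Ultrafilter ℕ} {k : ℕ → ℕ}
    {P : ∀ n, (J → ℤ) →+ (Fin (k n) → ℤ)} {x : J → ℤ} :
    x ∈ relSub 𝒰 k P ↔ ∀ᶠ n in (𝒰 : Filter ℕ), P n x = 0 := Iff.rfl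

theorem exists_generic {J : Type} [Fintype J] [DecidableEq J] (𝒰 : Ultrafilter ℕ) (k : ℕ → ℕ)
    (P : ∀ n, (J → ℤ) →+ (Fin (k n) → ℤ)) :
    ∃ (d : ℕ) (π : (J → ℤ) →+ (Fin d → ℤ)) (σ : ∀ n, (Fin d → ℤ) →+ (Fin (k n) → ℤ)),
      (∀ᶠ n in (𝒰 : Filter ℕ), ∀ x, P n x = σ n (π x)) ∧
      ∀ x, x ≠ 0 → ∀ᶠ n in (𝒰 : Filter ℕ), σ n x ≠ 0 := by
  obtain ⟨R, hR⟩ : ∃ R, R = relSub 𝒰 k P := ⟨_, rfl⟩
  have htf : Module.IsTorsionFree ℤ ((J → ℤ) ⧸ R) := by
    rw [Module.isTorsionFree_iff_smul_eq_zero]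
    intro c x hcx
    obtain ⟨y, rfl⟩ := R.mkQ_surjective x
    by_cases hc : c = 0
    · exact Or.inl hc
    · right
      rw [← map_smul] at hcx
      have h1 : c • y ∈ R := (Submodule.Quotient.mk_eq_zero R).mp hcx
      have h2 : y ∈ R := by
        rw [hR, mem_relSub] at h1 ⊢
        filter_upwards [h1] with n hn
        rw [map_zsmul] at hn
        exact (smul_eq_zero.mp hn).resolve_left hc
      exact (Submodule.Quotient.mk_eq_zero R).mpr h2
  have hfree : Module.Free ℤ ((J → ℤ) ⧸ R) := Module.free_of_finite_type_torsion_free'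
  obtain ⟨d, hd⟩ : ∃ d, d = Module.finrank ℤ ((J → ℤ) ⧸ R) := ⟨_, rfl⟩
  obtain ⟨e⟩ : Nonempty (((J → ℤ) ⧸ R) ≃ₗ[ℤ] (Fin d → ℤ)) := by
    rw [hd]
    exact ⟨(Module.finBasis ℤ ((J → ℤ) ⧸ R)).equivFun⟩
  obtain ⟨π, hπ⟩ : ∃ π : (J → ℤ) →ₗ[ℤ] (Fin d → ℤ), π = e.toLinearMap ∘ₗ R.mkQ := ⟨_, rfl⟩
  have hπs : Function.Surjective π := by
    rw [hπ]
    exact e.surjective.comp R.mkQ_surjective
  obtain ⟨τ, hτ⟩ := Module.projective_lifting_property π (LinearMap.id : (Fin d → ℤ) →ₗ[ℤ] _) hπs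
  have hτ' : ∀ x, π (τ x) = x := fun x => LinearMap.congr_fun hτ x
  have hker : ∀ x, π x = 0 ↔ x ∈ R := by
    intro x
    rw [hπ, LinearMap.comp_apply]
    change e (R.mkQ x) = 0 ↔ _
    rw [LinearEquiv.map_eq_zero_iff]
    exact Submodule.Quotient.mk_eq_zero R
  refine ⟨d, π.toAddMonoidHom, fun n => (P n).comp τ.toAddMonoidHom, ?_, ?_⟩
  · have h1 : ∀ᶠ n in (𝒰 : Filter ℕ), ∀ j : J,
        P n (Pi.single j 1 - τ (π (Pi.single j 1))) = 0 := by
      rw [eventually_all]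
      intro j
      have h2 : (Pi.single j 1 - τ (π (Pi.single j 1)) : J → ℤ) ∈ R := by
        rw [← hker, map_sub, hτ', sub_self]
      rw [hR, mem_relSub] at h2
      exact h2
    filter_upwards [h1] with n hn
    have h3 : (P n).toIntLinearMap = (P n).toIntLinearMap ∘ₗ τ ∘ₗ π := by
      refine (Pi.basisFun ℤ J).ext fun j => ?_
      rw [Pi.basisFun_apply]
      have h4 := hn j
      rw [map_sub, sub_eq_zero] at h4
      exact h4
    intro x
    exact LinearMap.congr_fun h3 x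
  · intro x hx
    have h1 : τ x ∉ R := by
      rw [← hker, hτ']
      exact hx
    rw [hR, mem_relSub] at h1
    exact (Ultrafilter.eventually_not).mpr h1

theorem ev_inj_box {d : ℕ} {𝒰 : Ultrafilter ℕ} {k : ℕ → ℕ}
    {σ : ∀ n, (Fin d → ℤ) →+ (Fin (k n) → ℤ)}
    (hσ : ∀ x, x ≠ 0 → ∀ᶠ n in (𝒰 : Filter ℕ), σ n x ≠ 0) (Z : Finset (Fin d → ℤ)) :
    ∀ᶠ n in (𝒰 : Filter ℕ), ∀ x ∈ Z, σ n x = 0 → x = 0 := by
  rw [Filter.eventually_all_finset]
  intro x _
  by_cases h : x = 0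
  · exact Eventually.of_forall fun n _ => h
  · filter_upwards [hσ x h] with n hn h0
    exact absurd h0 hn

theorem ev_inj_exp {d : ℕ} {𝒰 : Ultrafilter ℕ} {k : ℕ → ℕ}
    {σ : ∀ n, (Fin d → ℤ) →+ (Fin (k n) → ℤ)}
    (hσ : ∀ x, x ≠ 0 → ∀ᶠ n in (𝒰 : Filter ℕ), σ n x ≠ 0) (Z : Finset (Fin d →₀ ℕ)) :
    ∀ᶠ n in (𝒰 : Filter ℕ), ∀ m ∈ Z, ∀ m' ∈ Z, σ n (iot m) = σ n (iot m') → m = m' := by
  classical
  filter_upwards [ev_inj_box hσ ((Z ×ˢ Z).image fun p => iot p.1 - iot p.2)] with n hn m hm m' hm' h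
  have h1 := hn (iot m - iot m') (mem_image.mpr ⟨(m, m'), mem_product.mpr ⟨hm, hm'⟩, rfl⟩) (by
    rw [map_sub, h, sub_self])
  exact iot_injective (sub_eq_zero.mp h1)

/-- representation of a polynomial of bounded length -/
theorem poly_repr {n : ℕ} (N : ℕ) : ∀ P : MvPolynomial (Fin n) ℤ, len P ≤ N →
    ∃ (α : Fin N → ℤ) (p : Fin N → (Fin n →₀ ℕ)), (∀ j, α j ∈ ({-1, 0, 1} : Finset ℤ)) ∧
      P = ∑ j, MvPolynomial.monomial (p j) (α j) := by
  classical
  induction N with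
  | zero =>
    intro P hP
    refine ⟨Fin.elim0, Fin.elim0, fun j => Fin.elim0 j, ?_⟩
    rw [Fin.sum_univ_zero]
    by_contra hne
    obtain ⟨m, hm⟩ := MvPolynomial.support_nonempty.mpr hne
    have h1 : (1 : ℝ) ≤ len P := by
      unfold len
      refine le_trans ?_ (single_le_sum (fun m _ => abs_nonneg _) hm)
      exact_mod_cast Int.one_le_abs (MvPolynomial.mem_support_iff.mp hm)
    rw [Nat.cast_zero] at hP
    linarith
  | succ N ih =>
    intro P hP
    by_cases h0 : P = 0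
    · refine ⟨fun _ => 0, fun _ => 0, fun j => by simp, ?_⟩
      rw [h0]
      simp
    · obtain ⟨m, hm⟩ := MvPolynomial.support_nonempty.mpr h0
      obtain ⟨c, hc⟩ : ∃ c, c = (P.coeff m).sign := ⟨_, rfl⟩
      have hcm : P.coeff m ≠ 0 := MvPolynomial.mem_support_iff.mp hm
      have hcmem : c ∈ ({-1, 0, 1} : Finset ℤ) := by
        rw [hc]
        rcases lt_trichotomy (P.coeff m) 0 with h | h | h
        · rw [Int.sign_eq_neg_one_of_neg h]; simp
        · exact absurd h hcm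
        · rw [Int.sign_eq_one_of_pos h]; simp
      obtain ⟨P', hP'⟩ : ∃ P', P' = P - MvPolynomial.monomial m c := ⟨_, rfl⟩
      have hsupp : P'.support ⊆ P.support := by
        intro x hx
        rw [MvPolynomial.mem_support_iff, hP', MvPolynomial.coeff_sub,
          MvPolynomial.coeff_monomial] at hx
        by_cases hxm : m = x
        · rw [← hxm]; exact hm
        · rw [if_neg hxm, sub_zero] at hx
          exact MvPolynomial.mem_support_iff.mpr hx
      have hlen : len P' = len P - 1 := by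
        rw [len_eq hsupp, len_eq (P := P) (subset_refl _), ← add_sum_erase _ _ hm,
          ← add_sum_erase P.support (fun m => |((P.coeff m : ℤ) : ℝ)|) hm]
        have h1 : ∑ x ∈ P.support.erase m, |((P'.coeff x : ℤ) : ℝ)| =
            ∑ x ∈ P.support.erase m, |((P.coeff x : ℤ) : ℝ)| := by
          refine sum_congr rfl fun x hx => ?_
          rw [hP', MvPolynomial.coeff_sub, MvPolynomial.coeff_monomial,
            if_neg (fun h => (ne_of_mem_erase hx) h.symm), sub_zero]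
        have h2 : |((P'.coeff m : ℤ) : ℝ)| = |((P.coeff m : ℤ) : ℝ)| - 1 := by
          rw [hP', MvPolynomial.coeff_sub, MvPolynomial.coeff_monomial, if_pos rfl, hc]
          have h3 : |P.coeff m - (P.coeff m).sign| = |P.coeff m| - 1 := by
            rcases lt_trichotomy (P.coeff m) 0 with h | h | h
            · rw [Int.sign_eq_neg_one_of_neg h, abs_of_neg h, abs_of_nonpos (by omega)]
              ring
            · exact absurd h hcm
            · rw [Int.sign_eq_one_of_pos h, abs_of_pos h, abs_of_nonneg (by omega)]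
          exact_mod_cast h3
        rw [h1, h2]
        ring
      obtain ⟨α, p, hα, hp⟩ := ih P' (by
        rw [hlen]
        push_cast at hP
        linarith)
      refine ⟨Fin.cons c α, Fin.cons m p, fun j => ?_, ?_⟩
      · refine Fin.cases ?_ (fun j => ?_) j
        · exact hcmem
        · exact hα j
      · rw [Fin.sum_univ_succ]
        simp only [Fin.cons_zero, Fin.cons_succ]
        rw [← hp, hP']
        ring

section tau

variable {G : Type*} [AddCommGroup G] {d n : ℕ}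

/-- the involution of the group algebra -/
noncomputable def tau : AddMonoidAlgebra ℂ G →+* AddMonoidAlgebra ℂ G :=
  AddMonoidAlgebra.mapDomainRingHom ℂ (-AddMonoidHom.id G)

theorem tau_single (x : G) (r : ℂ) :
    tau (AddMonoidAlgebra.single x r) = AddMonoidAlgebra.single (-x) r := by
  unfold tau
  rw [AddMonoidAlgebra.mapDomainRingHom_apply, AddMonoidAlgebra.mapDomain_single]
  rfl

theorem tau_SP (σ : (Fin d → ℤ) →+ G) (A : MvPolynomial (Fin d) ℤ) :
    tau (SP σ A) = AddMonoidAlgebra.single (-σ (iot (dg A))) 1 * SP σ (rv A) := by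
  rw [SP_eq_sum, map_sum]
  unfold rv
  rw [SP_sum, Finset.mul_sum]
  refine sum_congr rfl fun m hm => ?_
  rw [tau_single, AddMonoidAlgebra.single_mul_single, one_mul]
  congr 1
  rw [iot_sub (le_dg hm), map_sub]
  abel

theorem SP_id (F : MvPolynomial (Fin n) ℤ) : SP (AddMonoidHom.id (Fin n → ℤ)) F = JJ n F := by
  rw [SP_eq_sum, JJ_eq_lp]
  rfl

theorem tau_JJ (F : MvPolynomial (Fin n) ℤ) : tau (JJ n F) = mo (-iot (dg F)) * JJ n (rv F) := by
  have h := tau_SP (AddMonoidHom.id (Fin n → ℤ)) F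
  rw [SP_id, SP_id] at h
  exact h

theorem tau_tau (x : AddMonoidAlgebra ℂ G) : tau (tau x) = x := by
  induction x using AddMonoidAlgebra.induction_linear with
  | zero => rw [map_zero, map_zero]
  | add c d h h' => rw [map_add, map_add, h, h']
  | single y r => rw [tau_single, tau_single, neg_neg]

theorem tau_JJ_rv (F : MvPolynomial (Fin n) ℤ) :
    tau (JJ n (rv F)) = mo (-iot (dg F)) * JJ n F := by
  have h1 : JJ n (rv F) = mo (iot (dg F)) * tau (JJ n F) := by
    rw [tau_JJ, ← mul_assoc, mo_mul, add_neg_cancel, mo_zero, one_mul]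
  rw [h1, map_mul, tau_tau, tau_single]

end tau

end Pool.Agent.H87.MM
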