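import Pool.Agent.H87.MM.Int

/-!
# A lower bound for Gram determinants
-/

set_option autoImplicit false

open MeasureTheory Filter Topology
open scoped ComplexOrder

namespace Pool.Agent.H87.MM

variable {n : ℕ}

theorem integrable_of_cont {E : Type*} [NormedAddCommGroup E] {f : (Fin n → ℝ) → E}
    (hf : Continuous f) : Integrable f (volume.restrict (cube n)) :=
  hf.continuousOn.integrableOn_compact (isCompact_univ_pi fun _ => isCompact_Icc)

theorem measurableSet_cube : MeasurableSet (cube n) :=
  MeasurableSet.univ_pi fun _ => measurableSet_Icc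

theorem conj_chr (t : Fin n → ℝ) (x : Fin n → ℤ) :
    starRingEnd ℂ (chr t (.ofAdd x)) = chr t (.ofAdd (-x)) :=
  (char_neg (norm_chr t) x).symm

theorem integral_chr_mul (x y : Fin n → ℤ) :
    ∫ t in cube n, chr t (.ofAdd x) * starRingEnd ℂ (chr t (.ofAdd y)) = if x = y then 1 else 0 := by
  have h : ∀ t : Fin n → ℝ, chr t (.ofAdd x) * starRingEnd ℂ (chr t (.ofAdd y)) =
      chr t (.ofAdd (x - y)) := by
    intro t
    rw [conj_chr, ← map_mul, ← ofAdd_add, sub_eq_add_neg]
  simp only [h]
  rw [integral_chr]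
  by_cases hxy : x = y
  · rw [if_pos hxy, if_pos (sub_eq_zero.mpr hxy)]
  · rw [if_neg hxy, if_neg (fun h => hxy (sub_eq_zero.mp h))]

variable {κ : Type} [Fintype κ] [DecidableEq κ]

/-- the density attached to a vector -/
noncomputable def dens (s : κ → (Fin n → ℤ)) (w : κ → ℂ) (t : Fin n → ℝ) : ℝ :=
  ‖∑ i, starRingEnd ℂ (w i) * chr t (.ofAdd (s i))‖ ^ 2

theorem dens_nonneg (s : κ → (Fin n → ℤ)) (w : κ → ℂ) (t : Fin n → ℝ) : 0 ≤ dens s w t :=
  sq_nonneg _

theorem continuous_dens (s : κ → (Fin n → ℤ)) (w : κ → ℂ) : Continuous (dens s w) := by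
  unfold dens
  refine (continuous_norm.comp ?_).pow 2
  exact continuous_finsetSum _ fun i _ => continuous_const.mul (continuous_chr (s i))

theorem dens_eq (s : κ → (Fin n → ℤ)) (w : κ → ℂ) (t : Fin n → ℝ) :
    ((dens s w t : ℝ) : ℂ) = ∑ i, ∑ j, starRingEnd ℂ (w i) *
      (chr t (.ofAdd (s i)) * starRingEnd ℂ (chr t (.ofAdd (s j)))) * w j := by
  unfold dens
  rw [← Complex.normSq_eq_norm_sq, ← Complex.mul_conj, map_sum, Finset.sum_mul_sum]
  refine Finset.sum_congr rfl fun i _ => Finset.sum_congr rfl fun j _ => ?_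
  rw [map_mul, Complex.conj_conj]
  ring

/-- quadratic form as an integral -/
theorem form_eq (s : κ → (Fin n → ℤ)) (w : κ → ℂ) (f : (Fin n → ℝ) → ℝ) (hf : Continuous f) :
    ∑ i, ∑ j, starRingEnd ℂ (w i) * (∫ t in cube n, chr t (.ofAdd (s i)) *
      starRingEnd ℂ (chr t (.ofAdd (s j))) * ((f t : ℝ) : ℂ)) * w j =
      ((∫ t in cube n, dens s w t * f t : ℝ) : ℂ) := by
  have hc : ∀ i j, Continuous fun t : Fin n → ℝ => chr t (.ofAdd (s i)) *
      starRingEnd ℂ (chr t (.ofAdd (s j))) * ((f t : ℝ) : ℂ) := by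
    intro i j
    exact ((continuous_chr (s i)).mul (Complex.continuous_conj.comp (continuous_chr (s j)))).mul
      (Complex.continuous_ofReal.comp hf)
  rw [← integral_complex_ofReal]
  have h1 : ∀ t : Fin n → ℝ, ((dens s w t * f t : ℝ) : ℂ) = ∑ i, ∑ j, starRingEnd ℂ (w i) *
      (chr t (.ofAdd (s i)) * starRingEnd ℂ (chr t (.ofAdd (s j))) * ((f t : ℝ) : ℂ)) * w j := by
    intro t
    rw [Complex.ofReal_mul, dens_eq, Finset.sum_mul]
    refine Finset.sum_congr rfl fun i _ => ?_
    rw [Finset.sum_mul]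
    refine Finset.sum_congr rfl fun j _ => ?_
    ring
  simp only [h1]
  rw [integral_finsetSum _ fun i _ => integrable_finsetSum _ fun j _ =>
    ((integrable_of_cont (hc i j)).const_mul _).mul_const _]
  refine Finset.sum_congr rfl fun i _ => ?_
  rw [integral_finsetSum _ fun j _ => ((integrable_of_cont (hc i j)).const_mul _).mul_const _]
  refine Finset.sum_congr rfl fun j _ => ?_
  rw [integral_mul_const, integral_const_mul]

theorem integral_dens (s : κ → (Fin n → ℤ)) (hs : Function.Injective s) (w : κ → ℂ) :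
    ∫ t in cube n, dens s w t = ∑ i, ‖w i‖ ^ 2 := by
  have h := form_eq s w (fun _ => 1) continuous_const
  simp only [Complex.ofReal_one, mul_one] at h
  have h2 : ((∫ t in cube n, dens s w t : ℝ) : ℂ) = ((∑ i, ‖w i‖ ^ 2 : ℝ) : ℂ) := by
    rw [← h]
    push_cast
    refine Finset.sum_congr rfl fun i _ => ?_
    rw [Finset.sum_eq_single i]
    · rw [integral_chr_mul, if_pos rfl, mul_one]
      rw [mul_comm, Complex.mul_conj, Complex.normSq_eq_norm_sq]
      push_cast
      rfl
    · intro j _ hj
      rw [integral_chr_mul, if_neg (fun h => hj (hs h).symm), mul_zero, zero_mul]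
    · intro h; exact absurd (Finset.mem_univ _) h
  exact Complex.ofReal_injective h2

/-- Jensen's inequality -/
theorem jensen {F : MvPolynomial (Fin n) ℤ} (hF : F ≠ 0) {p : (Fin n → ℝ) → ℝ}
    (hp : Continuous p) (hp0 : ∀ t, 0 ≤ p t) (hp1 : ∫ t in cube n, p t = 1) :
    0 < ∫ t in cube n, p t * ff F t ∧
      ∫ t in cube n, p t * Real.log (ff F t) ≤ Real.log (∫ t in cube n, p t * ff F t) := by
  have hpf : Integrable (fun t => p t * ff F t) (volume.restrict (cube n)) :=
    integrable_of_cont (hp.mul (continuous_ff F))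
  have hnn : 0 ≤ ∫ t in cube n, p t * ff F t :=
    integral_nonneg fun t => mul_nonneg (hp0 t) (ff_nonneg F t)
  have hpos : 0 < ∫ t in cube n, p t * ff F t := by
    refine lt_of_le_of_ne hnn ?_
    intro h0
    have h1 := (integral_eq_zero_iff_of_nonneg (fun t => mul_nonneg (hp0 t) (ff_nonneg F t))
      hpf).mp h0.symm
    have h2 : p =ᵐ[volume.restrict (cube n)] 0 := by
      filter_upwards [h1, ae_ff_pos hF] with t h3 h4
      rcases mul_eq_zero.mp h3 with h5 | h5
      · exact h5
      · exact absurd h5 h4.ne'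
    rw [integral_congr_ae h2] at hp1
    simp at hp1
  refine ⟨hpos, ?_⟩
  obtain ⟨L, hL⟩ : ∃ L, L = ∫ t in cube n, p t * ff F t := ⟨_, rfl⟩
  rw [← hL] at hpos ⊢
  have hlog : Integrable (fun t => Real.log (ff F t)) (volume.restrict (cube n)) := by
    have := (integrable_log' hF).mul_const 2
    refine this.congr (ae_of_all _ fun t => ?_)
    change Real.log (ff F t) / 2 * 2 = _
    ring
  obtain ⟨M, hM⟩ : ∃ M, ∀ t ∈ cube n, ‖p t‖ ≤ M :=
    (isCompact_univ_pi fun _ => isCompact_Icc).exists_bound_of_continuousOn hp.continuousOn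
  have hplog : Integrable (fun t => p t * Real.log (ff F t)) (volume.restrict (cube n)) := by
    refine hlog.bdd_mul (c := M) hp.aestronglyMeasurable ?_
    rw [ae_restrict_iff' measurableSet_cube]
    exact ae_of_all _ hM
  have hr : Integrable (fun t => p t * ff F t * L⁻¹ + p t * (Real.log L - 1))
      (volume.restrict (cube n)) :=
    (hpf.mul_const _).add ((integrable_of_cont hp).mul_const _)
  calc ∫ t in cube n, p t * Real.log (ff F t) ≤
      ∫ t in cube n, (p t * ff F t * L⁻¹ + p t * (Real.log L - 1)) := by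
        refine integral_mono_ae hplog hr ?_
        filter_upwards [ae_ff_pos hF] with t ht
        have h1 := Real.log_le_sub_one_of_pos (div_pos ht hpos)
        rw [Real.log_div ht.ne' hpos.ne'] at h1
        have h2 : Real.log (ff F t) ≤ ff F t * L⁻¹ + (Real.log L - 1) := by
          rw [← div_eq_mul_inv]; linarith
        calc p t * Real.log (ff F t) ≤ p t * (ff F t * L⁻¹ + (Real.log L - 1)) :=
              mul_le_mul_of_nonneg_left h2 (hp0 t)
          _ = _ := by ring
    _ = L * L⁻¹ + 1 * (Real.log L - 1) := by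
        rw [integral_add (hpf.mul_const _) ((integrable_of_cont hp).mul_const _),
          integral_mul_const, integral_mul_const, hp1, ← hL]
    _ = Real.log L := by
        rw [mul_inv_cancel₀ hpos.ne']; ring

/-- the lower bound for Gram determinants -/
theorem gram_lower (s : κ → (Fin n → ℤ)) (hs : Function.Injective s) {F : MvPolynomial (Fin n) ℤ}
    (hF : F ≠ 0) (T : Matrix κ κ ℂ) (hT : ∀ i j, T i j = ∫ t in cube n, chr t (.ofAdd (s i)) *
      starRingEnd ℂ (chr t (.ofAdd (s j))) * ((ff F t : ℝ) : ℂ)) :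
    ∃ D : ℝ, T.det = (D : ℂ) ∧ Real.exp (2 * Fintype.card κ * mm F) ≤ D := by
  have hH : T.IsHermitian := by
    ext i j
    rw [Matrix.conjTranspose_apply, hT, hT, RCLike.star_def, ← integral_conj]
    refine integral_congr_ae (ae_of_all _ fun t => ?_)
    simp only [map_mul, Complex.conj_conj, Complex.conj_ofReal]
    ring
  obtain ⟨w, hw⟩ : ∃ w : κ → κ → ℂ, ∀ l, w l = ⇑(hH.eigenvectorBasis l) := ⟨_, fun _ => rfl⟩
  have hlam : ∀ l, hH.eigenvalues l = ∫ t in cube n, dens s (w l) t * ff F t := by
    intro l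
    have h1 := form_eq s (w l) (ff F) (continuous_ff F)
    have h2 : ((hH.eigenvalues l : ℝ) : ℂ) = star (w l) ⬝ᵥ (T.mulVec (w l)) := by
      rw [hw, Matrix.IsHermitian.mulVec_eigenvectorBasis, dotProduct_smul, dotProduct_comm,
        ← EuclideanSpace.inner_eq_star_dotProduct, inner_self_eq_norm_sq_to_K,
        hH.eigenvectorBasis.orthonormal.1 l]
      simp
    have h3 : star (w l) ⬝ᵥ (T.mulVec (w l)) = ∑ i, ∑ j, starRingEnd ℂ (w l i) *
        (∫ t in cube n, chr t (.ofAdd (s i)) * starRingEnd ℂ (chr t (.ofAdd (s j))) *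
          ((ff F t : ℝ) : ℂ)) * w l j := by
      rw [dotProduct]
      refine Finset.sum_congr rfl fun i _ => ?_
      rw [Matrix.mulVec, dotProduct, Finset.mul_sum]
      refine Finset.sum_congr rfl fun j _ => ?_
      rw [hT, Pi.star_apply, RCLike.star_def]
      ring
    exact Complex.ofReal_injective (h2.trans (h3.trans h1))
  have hnorm : ∀ l, ∫ t in cube n, dens s (w l) t = 1 := by
    intro l
    rw [integral_dens s hs]
    have h1 := hH.eigenvectorBasis.orthonormal.1 l
    have h2 : ‖hH.eigenvectorBasis l‖ ^ 2 = ∑ i, ‖w l i‖ ^ 2 := by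
      rw [EuclideanSpace.norm_sq_eq, hw]
    rw [← h2, h1, one_pow]
  have hsum : ∀ t, ∑ l, dens s (w l) t = Fintype.card κ := by
    intro t
    have h1 := hH.eigenvectorBasis.sum_sq_norm_inner_right
      (WithLp.toLp 2 fun i => chr t (.ofAdd (s i)))
    have h2 : ‖(WithLp.toLp 2 fun i => chr t (.ofAdd (s i)) : EuclideanSpace ℂ κ)‖ ^ 2 =
        Fintype.card κ := by
      rw [EuclideanSpace.norm_sq_eq]
      simp only [norm_chr, one_pow]
      simp
    rw [h2] at h1
    rw [← h1]
    refine Finset.sum_congr rfl fun l _ => ?_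
    unfold dens
    congr 2
    rw [PiLp.inner_apply]
    refine Finset.sum_congr rfl fun i _ => ?_
    rw [hw]
    simp [mul_comm]
  have hj := fun l => jensen hF (continuous_dens s (w l)) (dens_nonneg s (w l)) (hnorm l)
  refine ⟨∏ l, hH.eigenvalues l, ?_, ?_⟩
  · rw [hH.det_eq_prod_eigenvalues]
    push_cast
    rfl
  · have hpos : ∀ l, 0 < hH.eigenvalues l := fun l => by rw [hlam]; exact (hj l).1
    rw [← Real.le_log_iff_exp_le (Finset.prod_pos fun l _ => hpos l),
      Real.log_prod (fun l _ => (hpos l).ne')]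
    have hlog : Integrable (fun t => Real.log (ff F t)) (volume.restrict (cube n)) := by
      have := (integrable_log' hF).mul_const 2
      refine this.congr (ae_of_all _ fun t => ?_)
      change Real.log (ff F t) / 2 * 2 = _
      ring
    have hplog : ∀ l, Integrable (fun t => dens s (w l) t * Real.log (ff F t))
        (volume.restrict (cube n)) := by
      intro l
      obtain ⟨M, hM⟩ : ∃ M, ∀ t ∈ cube n, ‖dens s (w l) t‖ ≤ M :=
        (isCompact_univ_pi fun _ => isCompact_Icc).exists_bound_of_continuousOn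
          (continuous_dens s (w l)).continuousOn
      refine hlog.bdd_mul (c := M) (continuous_dens s (w l)).aestronglyMeasurable ?_
      rw [ae_restrict_iff' measurableSet_cube]
      exact ae_of_all _ hM
    have h1 : 2 * (Fintype.card κ : ℝ) * mm F =
        ∑ l, ∫ t in cube n, dens s (w l) t * Real.log (ff F t) := by
      rw [← integral_finsetSum _ fun l _ => hplog l]
      have h2 : ∀ t, ∑ l, dens s (w l) t * Real.log (ff F t) =
          2 * (Fintype.card κ : ℝ) * Real.log ‖ev (chr t) (lp F)‖ := by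
        intro t
        rw [← Finset.sum_mul, hsum, ← log_ff]
        ring
      simp only [h2]
      rw [integral_const_mul]
      rfl
    rw [h1]
    refine Finset.sum_le_sum fun l _ => ?_
    rw [hlam]
    exact (hj l).2

end Pool.Agent.H87.MM
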