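import Mathlib

/-!
# Polynomial growth and a regularity lemma
-/

set_option autoImplicit false

open Finset
open scoped Pointwise

namespace Pool.Agent.H87.MM

theorem regular (φ : ℕ → ℕ) {δ : ℝ} (hδ : 0 < δ) : ∃ B : ℕ, ∀ (G : Type) (e : G → ℝ),
    (∀ Y : Finset G, ∑ x ∈ Y, e x ≤ 2) →
    ∃ T : Finset G, T.card ≤ B ∧ ∀ Y : Finset G, Disjoint T Y → Y.card ≤ φ T.card →
      ∑ x ∈ Y, e x ≤ δ := by
  classical
  obtain ⟨b, hb⟩ : ∃ b : ℕ → ℕ, b = fun k => Nat.rec 0
      (fun _ m => m + ∑ n ∈ range (m + 1), φ n) k := ⟨_, rfl⟩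
  have hb1 : ∀ k, b (k + 1) = b k + ∑ n ∈ range (b k + 1), φ n := by
    intro k; rw [hb]
  have hb0 : ∀ k, b k ≤ b (k + 1) := fun k => by rw [hb1]; exact Nat.le_add_right _ _
  obtain ⟨k, hk⟩ := exists_nat_gt (2 / δ)
  refine ⟨b k, fun G e he => ?_⟩
  have claim : ∀ k : ℕ, (∃ T : Finset G, T.card ≤ b k ∧ ∀ Y : Finset G, Disjoint T Y →
      Y.card ≤ φ T.card → ∑ x ∈ Y, e x ≤ δ) ∨
      ∃ T : Finset G, T.card ≤ b k ∧ (k : ℝ) * δ ≤ ∑ x ∈ T, e x := by
    intro k
    induction k with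
    | zero => exact Or.inr ⟨∅, by simp, by simp⟩
    | succ k ih =>
      rcases ih with ⟨T, hT, hT'⟩ | ⟨T, hT, hT'⟩
      · exact Or.inl ⟨T, hT.trans (hb0 k), hT'⟩
      · by_cases h : ∀ Y : Finset G, Disjoint T Y → Y.card ≤ φ T.card → ∑ x ∈ Y, e x ≤ δ
        · exact Or.inl ⟨T, hT.trans (hb0 k), h⟩
        · push Not at h
          obtain ⟨Y, h1, h2, h3⟩ := h
          refine Or.inr ⟨T ∪ Y, ?_, ?_⟩
          · refine (card_union_le _ _).trans ?_
            rw [hb1]
            refine add_le_add hT (h2.trans ?_)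
            exact single_le_sum (f := fun n => φ n) (fun _ _ => Nat.zero_le _)
              (mem_range.mpr (Nat.lt_succ_of_le hT))
          · rw [sum_union h1]
            push_cast
            linarith
  rcases claim k with h | ⟨T, -, hT⟩
  · exact h
  · exfalso
    have h1 := he T
    rw [div_lt_iff₀ hδ] at hk
    linarith

/-- the boxes generated by `T` -/
noncomputable def bx {G : Type} [AddCommGroup G] [DecidableEq G] (T : Finset G) (k : ℕ) :
    Finset G :=
  (Fintype.piFinset fun _ : T => range k).image fun c => ∑ t : T, c t • (t : G)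

theorem card_bx {G : Type} [AddCommGroup G] [DecidableEq G] (T : Finset G) (k : ℕ) :
    (bx T k).card ≤ k ^ T.card := by
  refine card_image_le.trans ?_
  rw [Fintype.card_piFinset]
  simp

theorem bx_one {G : Type} [AddCommGroup G] [DecidableEq G] (T : Finset G) :
    1 ≤ (bx T 1).card := by
  rw [Nat.one_le_iff_ne_zero, Finset.card_ne_zero]
  refine ⟨_, mem_image_of_mem _ (a := fun _ => 0) ?_⟩
  rw [Fintype.mem_piFinset]
  intro _
  simp

theorem bx_add {G : Type} [AddCommGroup G] [DecidableEq G] (T : Finset G) (k : ℕ) :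
    bx T k + T ⊆ bx T (k + 1) := by
  intro x hx
  obtain ⟨y, hy, t, ht, rfl⟩ := mem_add.mp hx
  obtain ⟨c, hc, rfl⟩ := mem_image.mp hy
  rw [Fintype.mem_piFinset] at hc
  refine mem_image.mpr ⟨Function.update c ⟨t, ht⟩ (c ⟨t, ht⟩ + 1), ?_, ?_⟩
  · rw [Fintype.mem_piFinset]
    intro s
    have h1 := hc s
    have h2 := hc ⟨t, ht⟩
    rw [mem_range] at h1 h2 ⊢
    by_cases hs : s = ⟨t, ht⟩
    · rw [hs, Function.update_self]; omega
    · rw [Function.update_of_ne hs]; omega
  · rw [← add_sum_erase univ _ (mem_univ (⟨t, ht⟩ : T)),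
      ← add_sum_erase univ (fun s : T => c s • (s : G)) (mem_univ (⟨t, ht⟩ : T)),
      Function.update_self, add_smul, one_smul]
    have h : ∑ s ∈ univ.erase (⟨t, ht⟩ : T),
        Function.update c ⟨t, ht⟩ (c ⟨t, ht⟩ + 1) s • (s : G) =
        ∑ s ∈ univ.erase (⟨t, ht⟩ : T), c s • (s : G) := by
      refine sum_congr rfl fun s hs => ?_
      rw [Function.update_of_ne (ne_of_mem_erase hs)]
    rw [h]
    abel

theorem exists_k (t : ℕ) : ∃ k : ℕ, (k + 1) ^ t * 2 ^ k < 3 ^ k := by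
  have h1 : Filter.Tendsto (fun n : ℕ => ((n : ℝ) ^ t) * (2 / 3 : ℝ) ^ n) Filter.atTop
      (nhds 0) := by
    have := tendsto_pow_const_mul_const_pow_of_abs_lt_one t (r := (2 / 3 : ℝ)) (by
      rw [abs_of_pos (by norm_num)]; norm_num)
    exact this
  have h2 := (Filter.tendsto_add_atTop_iff_nat (f := fun n : ℕ => ((n : ℝ) ^ t) *
    (2 / 3 : ℝ) ^ n) 1).mpr h1
  obtain ⟨k, hk⟩ := ((tendsto_order.mp h2).2 (2 / 3) (by norm_num)).exists
  refine ⟨k, ?_⟩
  rw [pow_succ] at hk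
  have h3 : ((k + 1 : ℕ) : ℝ) ^ t * (2 / 3 : ℝ) ^ k < 1 := by
    nlinarith
  rw [div_pow, mul_div_assoc', div_lt_one (by positivity)] at h3
  exact_mod_cast h3

theorem growth (t : ℕ) : ∃ F : ℕ, ∀ (G : Type) [AddCommGroup G] [DecidableEq G] (T : Finset G),
    T.card = t → ∃ S : Finset G, S.Nonempty ∧ S.card ≤ F ∧ 2 * (S + T).card ≤ 3 * S.card := by
  obtain ⟨k, hk⟩ := exists_k t
  refine ⟨(k + 1) ^ t, fun G _ _ T hT => ?_⟩
  by_contra hcon
  push Not at hcon
  have h1 : ∀ j, j ≤ k → 3 ^ j ≤ 2 ^ j * (bx T (j + 1)).card := by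
    intro j
    induction j with
    | zero =>
      intro _
      have := bx_one T
      simpa using this
    | succ j ih =>
      intro hj
      have h2 := ih (by omega)
      have hne : (bx T (j + 1)).Nonempty := by
        rw [← Finset.card_pos]
        by_contra h0
        have h3 : (bx T (j + 1)).card = 0 := by omega
        rw [h3] at h2
        have : 0 < 3 ^ j := by positivity
        omega
      have h3 := hcon (bx T (j + 1)) hne (by
        refine (card_bx T (j + 1)).trans ?_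
        rw [hT]
        exact Nat.pow_le_pow_left (by omega) t)
      have h4 := card_le_card (bx_add T (j + 1))
      have h5 : 3 * (bx T (j + 1)).card ≤ 2 * (bx T (j + 1 + 1)).card := by omega
      calc 3 ^ (j + 1) = 3 * 3 ^ j := by ring
        _ ≤ 3 * (2 ^ j * (bx T (j + 1)).card) := by omega
        _ = 2 ^ j * (3 * (bx T (j + 1)).card) := by ring
        _ ≤ 2 ^ j * (2 * (bx T (j + 1 + 1)).card) := Nat.mul_le_mul_left _ h5
        _ = 2 ^ (j + 1) * (bx T (j + 1 + 1)).card := by ring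
  have h2 := h1 k le_rfl
  have h3 := card_bx T (k + 1)
  rw [hT] at h3
  have h4 : 2 ^ k * (bx T (k + 1)).card ≤ 2 ^ k * (k + 1) ^ t := Nat.mul_le_mul_left _ h3
  have h5 : 2 ^ k * (k + 1) ^ t = (k + 1) ^ t * 2 ^ k := by ring
  omega

end Pool.Agent.H87.MM
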