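import Pool.Agent.H87.MM.Dir

/-!
# The Mahler measure in several variables
-/

set_option autoImplicit false

open MeasureTheory Filter Topology

namespace Pool.Agent.H87.MM

variable {n : ℕ}

theorem integrable_tl (F : MvPolynomial (Fin n) ℤ) (k : ℕ) :
    Integrable (fun t => tl k (ff F t)) (volume.restrict (cube n)) :=
  ((continuous_tl k).comp (continuous_ff F)).continuousOn.integrableOn_compact
    (isCompact_univ_pi fun _ => isCompact_Icc)

theorem lint_bound {F : MvPolynomial (Fin n) ℤ} (hF : F ≠ 0) (k : ℕ) :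
    ∫⁻ t in cube n, ENNReal.ofReal (tl 0 (ff F t) - tl k (ff F t)) ≤
      ENNReal.ofReal (∫ t in cube n, tl 0 (ff F t)) := by
  have h0 := ofReal_integral_eq_lintegral_ofReal (μ := volume.restrict (cube n))
    (f := fun t => tl 0 (ff F t) - tl k (ff F t)) ((integrable_tl F 0).sub (integrable_tl F k))
    (ae_of_all _ fun t => sub_nonneg.mpr (tl_anti (ff F t) (Nat.zero_le k)))
  rw [← h0]
  refine ENNReal.ofReal_le_ofReal ?_
  rw [integral_sub (integrable_tl F 0) (integrable_tl F k)]
  have := integral_tl_nonneg hF k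
  linarith

theorem measurable_tl (F : MvPolynomial (Fin n) ℤ) (k : ℕ) :
    Measurable fun t => tl k (ff F t) :=
  ((continuous_tl k).comp (continuous_ff F)).measurable

theorem measurable_u (F : MvPolynomial (Fin n) ℤ) (k : ℕ) :
    Measurable fun t => ENNReal.ofReal (tl 0 (ff F t) - tl k (ff F t)) :=
  ((measurable_tl F 0).sub (measurable_tl F k)).ennreal_ofReal

theorem lint_sup {F : MvPolynomial (Fin n) ℤ} (hF : F ≠ 0) :
    ∫⁻ t in cube n, ⨆ k, ENNReal.ofReal (tl 0 (ff F t) - tl k (ff F t)) ≤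
      ENNReal.ofReal (∫ t in cube n, tl 0 (ff F t)) := by
  rw [lintegral_iSup (measurable_u F)]
  · exact iSup_le fun k => lint_bound hF k
  · intro k l hkl t
    refine ENNReal.ofReal_le_ofReal ?_
    have := tl_anti (ff F t) hkl
    change tl l (ff F t) ≤ tl k (ff F t) at this
    linarith

theorem ae_ff_pos {F : MvPolynomial (Fin n) ℤ} (hF : F ≠ 0) :
    ∀ᵐ t ∂(volume.restrict (cube n)), 0 < ff F t := by
  have h := ae_lt_top (Measurable.iSup (measurable_u F))
    (lt_of_le_of_lt (lint_sup hF) ENNReal.ofReal_lt_top).ne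
  filter_upwards [h] with t ht
  refine lt_of_le_of_ne (ff_nonneg F t) fun h0 => ?_
  rw [← h0] at ht
  obtain ⟨k, hk⟩ := ENNReal.exists_nat_gt ht.ne
  have h1 : ENNReal.ofReal (tl 0 0 - tl k 0) = k := by
    rw [tl_zero_right, tl_zero_right]
    simp
  have h2 := le_iSup (fun k => ENNReal.ofReal (tl 0 0 - tl k 0)) k
  rw [h1] at h2
  exact absurd (lt_of_le_of_lt h2 hk) (lt_irrefl _)

theorem integrable_log' {F : MvPolynomial (Fin n) ℤ} (hF : F ≠ 0) :
    Integrable (fun t => Real.log (ff F t) / 2) (volume.restrict (cube n)) := by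
  have h1 : Integrable (fun t => tl 0 (ff F t) - Real.log (ff F t) / 2)
      (volume.restrict (cube n)) := by
    refine ⟨((measurable_tl F 0).sub
      ((Real.measurable_log.comp (continuous_ff F).measurable).div_const 2)).aestronglyMeasurable,
      ?_⟩
    refine lt_of_le_of_lt ?_ (lt_of_le_of_lt (lint_sup hF) ENNReal.ofReal_lt_top)
    refine lintegral_mono_ae ?_
    filter_upwards [ae_ff_pos hF] with t ht
    obtain ⟨k, hk⟩ := (tl_eventually ht).exists
    refine le_trans (le_of_eq ?_) (le_iSup (fun k => ENNReal.ofReal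
      (tl 0 (ff F t) - tl k (ff F t))) k)
    rw [hk, Real.enorm_eq_ofReal]
    have := le_tl 0 ht
    linarith
  have h2 := (integrable_tl F 0).sub h1
  refine h2.congr (ae_of_all _ fun t => ?_)
  change tl 0 (ff F t) - (tl 0 (ff F t) - Real.log (ff F t) / 2) = _
  ring

/-- the Mahler measure -/
noncomputable def mm (F : MvPolynomial (Fin n) ℤ) : ℝ :=
  ∫ t in cube n, Real.log ‖ev (chr t) (lp F)‖

theorem log_ff (F : MvPolynomial (Fin n) ℤ) (t : Fin n → ℝ) :
    Real.log (ff F t) / 2 = Real.log ‖ev (chr t) (lp F)‖ := by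
  unfold ff
  rw [Real.log_pow]
  push_cast
  ring

theorem integrable_log {F : MvPolynomial (Fin n) ℤ} (hF : F ≠ 0) :
    Integrable (fun t => Real.log ‖ev (chr t) (lp F)‖) (volume.restrict (cube n)) := by
  simpa only [log_ff] using integrable_log' hF

theorem tendsto_tl {F : MvPolynomial (Fin n) ℤ} (hF : F ≠ 0) :
    Tendsto (fun k : ℕ => ∫ t in cube n, tl k (ff F t)) atTop (𝓝 (mm F)) := by
  have h := integral_tendsto_of_tendsto_of_antitone (μ := volume.restrict (cube n))
    (f := fun k t => tl k (ff F t)) (F := fun t => Real.log (ff F t) / 2)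
    (fun k => integrable_tl F k) (integrable_log' hF)
    (ae_of_all _ fun t => tl_anti (ff F t)) (by
      filter_upwards [ae_ff_pos hF] with t ht
      exact tendsto_const_nhds.congr' (by
        filter_upwards [tl_eventually ht] with k hk
        exact hk.symm))
  simp only [log_ff] at h
  exact h

theorem mm_nonneg {F : MvPolynomial (Fin n) ℤ} (hF : F ≠ 0) : 0 ≤ mm F :=
  ge_of_tendsto' (tendsto_tl hF) fun k => integral_tl_nonneg hF k

theorem exists_q_mm {F : MvPolynomial (Fin n) ℤ} (hF : F ≠ 0) {ε : ℝ} (hε : 0 < ε) :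
    ∃ q : Polynomial ℝ, (∀ s, 0 < s → s ≤ len F ^ 2 → Real.log s / 2 ≤ q.eval s) ∧
      ∫ t in cube n, q.eval (ff F t) ≤ mm F + ε := by
  obtain ⟨k, hk⟩ := ((tendsto_order.mp (tendsto_tl hF)).2 (mm F + ε / 2) (by linarith)).exists
  obtain ⟨q, hq, hq'⟩ := exists_q F k (half_pos hε)
  exact ⟨q, hq, by linarith⟩

/-- the main estimate for specialisations -/
theorem log_sp_le {F : MvPolynomial (Fin n) ℤ} (hF : F ≠ 0) {m0 : Fin n →₀ ℕ}
    (hmin : ∀ m ∈ F.support, rho n (iot m0) ≤ rho n (iot m)) {ε : ℝ} (hε : 0 < ε) :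
    ∀ᶠ T in atTop, ((sp F (sg n T) (sg n T (iot m0))).map (Int.castRingHom ℂ)).logMahlerMeasure ≤
      mm F + ε := by
  obtain ⟨q, hq, hq'⟩ := exists_q_mm hF hε
  filter_upwards [good_eventually hmin, sg_inj_finset (qF q F).coeff.support] with T hT1 hT2
  exact (log_le_of hF hq hT1 hT2).trans hq'

theorem ev_eq_eval (F : MvPolynomial (Fin n) ℤ) (t : Fin n → ℝ) :
    ev (chr t) (lp F) = MvPolynomial.eval
      (fun i => Complex.exp (((2 * Real.pi * t i : ℝ) : ℂ) * Complex.I))
      (MvPolynomial.map (Int.castRingHom ℂ) F) := by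
  rw [ev_lp, MvPolynomial.eval_map, MvPolynomial.eval₂_eq']
  refine Finset.sum_congr rfl fun m _ => ?_
  rw [chr_apply]
  change _ = ((F.coeff m : ℤ) : ℂ) * _
  congr 1

theorem mm_eq (F : MvPolynomial (Fin n) ℤ) :
    mm F = ∫ t : Fin n → ℝ in Set.univ.pi (fun _ => Set.Icc (0 : ℝ) 1),
      Real.log ‖MvPolynomial.eval
        (fun i => Complex.exp (((2 * Real.pi * t i : ℝ) : ℂ) * Complex.I))
        (MvPolynomial.map (Int.castRingHom ℂ) F)‖ := by
  unfold mm
  simp only [ev_eq_eval]
  rfl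

theorem mm_mul {F G : MvPolynomial (Fin n) ℤ} (hF : F ≠ 0) (hG : G ≠ 0) :
    mm (F * G) = mm F + mm G := by
  unfold mm
  rw [← integral_add (integrable_log hF) (integrable_log hG)]
  refine integral_congr_ae ?_
  filter_upwards [ae_ff_pos hF, ae_ff_pos hG] with t h1 h2
  have h1' : ‖ev (chr t) (lp F)‖ ≠ 0 := by
    intro h
    unfold ff at h1
    rw [h] at h1
    simp at h1
  have h2' : ‖ev (chr t) (lp G)‖ ≠ 0 := by
    intro h
    unfold ff at h2
    rw [h] at h2
    simp at h2
  rw [← Real.log_mul h1' h2', ← norm_mul, ev_eq_eval, ev_eq_eval, ev_eq_eval, map_mul, map_mul]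

theorem mm_le_of_dvd {F G : MvPolynomial (Fin n) ℤ} (hF : F ≠ 0) (h : G ∣ F) : mm G ≤ mm F := by
  obtain ⟨H, rfl⟩ := h
  have h1 := left_ne_zero_of_mul hF
  have h2 := right_ne_zero_of_mul hF
  rw [mm_mul h1 h2]
  linarith [mm_nonneg h2]

end Pool.Agent.H87.MM
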