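import Mathlib

/-!
# Convolution of square summable functions on an ordered group: the coset inequality
-/

set_option autoImplicit false

open Finset

namespace Pool.Agent.H87.MM

variable {G : Type*} [AddCommGroup G]

/-- action of a Laurent polynomial on a function -/
noncomputable def conv (c : AddMonoidAlgebra ℂ G) (f : G → ℂ) (x : G) : ℂ :=
  c.coeff.sum fun y r => r * f (x - y)

theorem conv_zero_left (f : G → ℂ) : conv (0 : AddMonoidAlgebra ℂ G) f = 0 := by
  funext x
  simp [conv]

theorem conv_add_left (c d : AddMonoidAlgebra ℂ G) (f : G → ℂ) :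
    conv (c + d) f = conv c f + conv d f := by
  funext x
  unfold conv
  rw [AddMonoidAlgebra.coeff_add, Finsupp.sum_add_index']
  · rfl
  · intro y; simp
  · intro y r s; ring

theorem conv_single (y : G) (r : ℂ) (f : G → ℂ) (x : G) :
    conv (AddMonoidAlgebra.single y r) f x = r * f (x - y) := by
  unfold conv
  rw [AddMonoidAlgebra.coeff_single, Finsupp.sum_single_index (by simp)]

theorem conv_neg_left (c : AddMonoidAlgebra ℂ G) (f : G → ℂ) : conv (-c) f = -conv c f := by
  have h : conv (-c) f + conv c f = 0 := by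
    rw [← conv_add_left, neg_add_cancel, conv_zero_left]
  exact eq_neg_of_add_eq_zero_left h

theorem conv_sub_left (c d : AddMonoidAlgebra ℂ G) (f : G → ℂ) :
    conv (c - d) f = conv c f - conv d f := by
  rw [sub_eq_add_neg, conv_add_left, conv_neg_left, sub_eq_add_neg]

theorem conv_add_right (c : AddMonoidAlgebra ℂ G) (f f' : G → ℂ) :
    conv c (f + f') = conv c f + conv c f' := by
  funext x
  unfold conv
  rw [Pi.add_apply, ← Finsupp.sum_add]
  refine Finsupp.sum_congr fun y _ => ?_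
  rw [Pi.add_apply]; ring

theorem conv_neg_right (c : AddMonoidAlgebra ℂ G) (f : G → ℂ) : conv c (-f) = -conv c f := by
  funext x
  unfold conv
  rw [Pi.neg_apply, Finsupp.sum, Finsupp.sum, ← Finset.sum_neg_distrib]
  refine Finset.sum_congr rfl fun y _ => ?_
  rw [Pi.neg_apply]; ring

theorem conv_sub_right (c : AddMonoidAlgebra ℂ G) (f f' : G → ℂ) :
    conv c (f - f') = conv c f - conv c f' := by
  rw [sub_eq_add_neg, conv_add_right, conv_neg_right, sub_eq_add_neg]

theorem conv_mul (c d : AddMonoidAlgebra ℂ G) (f : G → ℂ) :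
    conv (c * d) f = conv c (conv d f) := by
  induction c using AddMonoidAlgebra.induction_linear with
  | zero => rw [zero_mul, conv_zero_left, conv_zero_left]
  | add c c' h h' => rw [add_mul, conv_add_left, conv_add_left, h, h']
  | single y r =>
    induction d using AddMonoidAlgebra.induction_linear with
    | zero =>
      rw [mul_zero, conv_zero_left]
      funext x
      rw [conv_single]
      simp
    | add d d' h h' => rw [mul_add, conv_add_left, conv_add_left, h, h', conv_add_right]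
    | single z s =>
      funext x
      rw [AddMonoidAlgebra.single_mul_single, conv_single, conv_single, conv_single]
      rw [show x - y - z = x - (y + z) by abel]
      ring

theorem conv_comm (c d : AddMonoidAlgebra ℂ G) (f : G → ℂ) :
    conv c (conv d f) = conv d (conv c f) := by
  rw [← conv_mul, ← conv_mul, mul_comm]

/-- coefficients of a product -/
theorem coeff_mul_eq (c d : AddMonoidAlgebra ℂ G) (x : G) :
    (c * d).coeff x = conv c (fun y => d.coeff y) x := by
  induction c using AddMonoidAlgebra.induction_linear with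
  | zero => rw [zero_mul, conv_zero_left]; simp
  | add c c' h h' => rw [add_mul, conv_add_left, Pi.add_apply, ← h, ← h']; simp
  | single y r =>
    rw [conv_single]
    induction d using AddMonoidAlgebra.induction_linear with
    | zero => simp
    | add d d' h h' =>
      rw [mul_add, AddMonoidAlgebra.coeff_add, Finsupp.add_apply, h, h',
        AddMonoidAlgebra.coeff_add, Finsupp.add_apply]
      ring
    | single z s =>
      classical
      rw [AddMonoidAlgebra.single_mul_single, AddMonoidAlgebra.coeff_single,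
        AddMonoidAlgebra.coeff_single, Finsupp.single_apply, Finsupp.single_apply]
      by_cases h : z = x - y
      · rw [if_pos h, if_pos (by rw [h]; abel)]
      · rw [if_neg h, if_neg (fun h' => h (by rw [← h']; abel)), mul_zero]

open Classical in
/-- restriction of a Laurent polynomial to a set -/
noncomputable def res (V : Set G) (c : AddMonoidAlgebra ℂ G) : AddMonoidAlgebra ℂ G :=
  AddMonoidAlgebra.ofCoeff (c.coeff.filter (· ∈ V))

theorem res_coeff_of_mem {V : Set G} (c : AddMonoidAlgebra ℂ G) {x : G} (h : x ∈ V) :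
    (res V c).coeff x = c.coeff x := by
  classical
  unfold res
  rw [AddMonoidAlgebra.coeff_ofCoeff]
  exact Finsupp.filter_apply_pos _ _ h

theorem res_coeff_of_notMem {V : Set G} (c : AddMonoidAlgebra ℂ G) {x : G} (h : x ∉ V) :
    (res V c).coeff x = 0 := by
  classical
  unfold res
  rw [AddMonoidAlgebra.coeff_ofCoeff]
  exact Finsupp.filter_apply_neg _ _ h

theorem res_supp {V : Set G} (c : AddMonoidAlgebra ℂ G) {x : G} (h : (res V c).coeff x ≠ 0) :
    x ∈ V ∧ c.coeff x ≠ 0 := by
  by_cases hx : x ∈ V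
  · rw [res_coeff_of_mem c hx] at h; exact ⟨hx, h⟩
  · exact absurd (res_coeff_of_notMem c hx) h

theorem conv_eq_sum (c : AddMonoidAlgebra ℂ G) (f : G → ℂ) (x : G) :
    conv c f x = ∑ y ∈ c.coeff.support, c.coeff y * f (x - y) := rfl

/-- a subset on which `c` acts inside -/
theorem conv_res_indicator (V : AddSubgroup G) (c : AddMonoidAlgebra ℂ G) (v : G) (f : G → ℂ) :
    conv (res (V : Set G) c) (Set.indicator {x | x - v ∈ V} f) =
      Set.indicator {x | x - v ∈ V} (conv (res (V : Set G) c) f) := by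
  classical
  funext x
  by_cases hx : x - v ∈ V
  · rw [Set.indicator_of_mem (show x ∈ {x | x - v ∈ V} from hx), conv_eq_sum, conv_eq_sum]
    refine Finset.sum_congr rfl fun y hy => ?_
    have hyV : y ∈ V := (res_supp c (Finsupp.mem_support_iff.mp hy)).1
    have h : x - y - v ∈ V := by
      have := V.sub_mem hx hyV
      rwa [show x - v - y = x - y - v by abel] at this
    rw [Set.indicator_of_mem (show x - y ∈ {x | x - v ∈ V} from h)]
  · rw [Set.indicator_of_notMem (show x ∉ {x | x - v ∈ V} from hx), conv_eq_sum]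
    refine Finset.sum_eq_zero fun y hy => ?_
    have hyV : y ∈ V := (res_supp c (Finsupp.mem_support_iff.mp hy)).1
    have h : x - y - v ∉ V := by
      intro h
      apply hx
      have := V.add_mem h hyV
      rwa [show x - y - v + y = x - v by abel] at this
    rw [Set.indicator_of_notMem (show x - y ∉ {x | x - v ∈ V} from h), mul_zero]

/-- convolution of two square summable functions -/
noncomputable def star (p q : G → ℂ) (x : G) : ℂ := ∑' w, p w * q (x - w)

/-- square summable -/
def Sq (p : G → ℂ) : Prop := Summable fun x => ‖p x‖ ^ 2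

theorem Sq.shift {p : G → ℂ} (hp : Sq p) (x : G) : Summable fun w => ‖p (x - w)‖ ^ 2 :=
  (Equiv.summable_iff (Equiv.subLeft x) (f := fun w => ‖p w‖ ^ 2)).mpr hp

theorem star_summable {p q : G → ℂ} (hp : Sq p) (hq : Sq q) (x : G) :
    Summable fun w => p w * q (x - w) := by
  refine Summable.of_norm_bounded (g := fun w => ‖p w‖ ^ 2 + ‖q (x - w)‖ ^ 2)
    (hp.add (hq.shift x)) fun w => ?_
  rw [norm_mul]
  nlinarith [sq_nonneg (‖p w‖ - ‖q (x - w)‖), sq_nonneg ‖p w‖, sq_nonneg ‖q (x - w)‖]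

theorem star_comm (p q : G → ℂ) : star p q = star q p := by
  funext x
  unfold star
  rw [← Equiv.tsum_eq (Equiv.subLeft x) (fun w => q w * p (x - w))]
  refine tsum_congr fun w => ?_
  change p w * q (x - w) = q (x - w) * p (x - (x - w))
  rw [sub_sub_cancel, mul_comm]

theorem conv_star {p q : G → ℂ} (hp : Sq p) (hq : Sq q) (c : AddMonoidAlgebra ℂ G) :
    conv c (star p q) = star p (conv c q) := by
  funext x
  rw [conv_eq_sum]
  unfold star
  have h1 : ∀ w, p w * conv c q (x - w) = ∑ y ∈ c.coeff.support,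
      c.coeff y * (p w * q (x - y - w)) := by
    intro w
    rw [conv_eq_sum, Finset.mul_sum]
    refine Finset.sum_congr rfl fun y _ => ?_
    rw [show x - w - y = x - y - w by abel]
    ring
  rw [tsum_congr h1, Summable.tsum_finsetSum]
  · refine Finset.sum_congr rfl fun y _ => ?_
    rw [tsum_mul_left]
  · intro y _
    exact (star_summable hp hq (x - y)).mul_left _

theorem Sq.conv {q : G → ℂ} (hq : Sq q) (c : AddMonoidAlgebra ℂ G) : Sq (MM.conv c q) := by
  induction c using AddMonoidAlgebra.induction_linear with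
  | zero => rw [conv_zero_left]; unfold Sq; simp [summable_zero]
  | add c d h h' =>
    rw [conv_add_left]
    refine Summable.of_nonneg_of_le (fun x => sq_nonneg _) (fun x => ?_)
      ((h.mul_left 2).add (h'.mul_left 2))
    rw [Pi.add_apply]
    have h1 := norm_add_le (MM.conv c q x) (MM.conv d q x)
    have h2 : ‖MM.conv c q x + MM.conv d q x‖ ^ 2 ≤ (‖MM.conv c q x‖ + ‖MM.conv d q x‖) ^ 2 := by
      gcongr
    nlinarith [sq_nonneg (‖MM.conv c q x‖ - ‖MM.conv d q x‖)]
  | single y r =>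
    have h : (fun x => ‖MM.conv (AddMonoidAlgebra.single y r) q x‖ ^ 2) =
        fun x => ‖r‖ ^ 2 * ‖q (x - y)‖ ^ 2 := by
      funext x
      rw [conv_single, norm_mul, mul_pow]
    unfold Sq
    rw [h]
    exact ((Equiv.summable_iff (Equiv.subRight y) (f := fun w => ‖q w‖ ^ 2)).mpr hq).mul_left _

theorem Sq.indicator {q : G → ℂ} (hq : Sq q) (S : Set G) : Sq (S.indicator q) := by
  classical
  refine Summable.of_nonneg_of_le (fun x => sq_nonneg _) (fun x => ?_) hq
  by_cases hx : x ∈ S
  · rw [Set.indicator_of_mem hx]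
  · rw [Set.indicator_of_notMem hx]; simp

/-- the order lemma -/
theorem order_lemma (ρ : G →+ ℝ) (hρ : Function.Injective ρ) {b : AddMonoidAlgebra ℂ G}
    (hb : ∀ y, b.coeff y ≠ 0 → 0 ≤ ρ y) (hb0 : b.coeff 0 ≠ 0) {f : G → ℂ}
    (hf : ∀ x, ρ x < 0 → f x = 0) {r : ℝ} (h : ∀ x, ρ x < r → conv b f x = 0) :
    (∀ x, ρ x < r → f x = 0) ∧ ∀ x, ρ x = r → b.coeff 0 * f x = conv b f x := by
  classical
  -- splitting off the constant term
  have hsplit : ∀ x, conv b f x = b.coeff 0 * f x +
      ∑ y ∈ b.coeff.support.erase 0, b.coeff y * f (x - y) := by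
    intro x
    rw [conv_eq_sum, ← Finset.add_sum_erase _ _ (Finsupp.mem_support_iff.mpr hb0), sub_zero]
  obtain ⟨δ, hδ, hδ'⟩ : ∃ δ : ℝ, 0 < δ ∧ ∀ y ∈ b.coeff.support.erase 0, δ ≤ ρ y := by
    rcases (b.coeff.support.erase 0).eq_empty_or_nonempty with he | hne
    · refine ⟨1, one_pos, fun y hy => ?_⟩
      rw [he] at hy
      simp at hy
    · obtain ⟨y0, hy0, hmin⟩ := Finset.exists_min_image _ (fun y => ρ y) hne
      refine ⟨ρ y0, ?_, hmin⟩
      have h1 := hb y0 (Finsupp.mem_support_iff.mp (Finset.mem_of_mem_erase hy0))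
      have h2 : ρ y0 ≠ 0 := by
        intro h3
        have : ρ y0 = ρ 0 := by rw [h3, map_zero]
        exact (Finset.ne_of_mem_erase hy0) (hρ this)
      exact lt_of_le_of_ne h1 (Ne.symm h2)
  have claim : ∀ k : ℕ, ∀ x, ρ x < k * δ → ρ x < r → f x = 0 := by
    intro k
    induction k with
    | zero =>
      intro x hx _
      exact hf x (by simpa using hx)
    | succ k ih =>
      intro x hx hxr
      have h1 := hsplit x
      rw [h x hxr] at h1
      have h2 : ∑ y ∈ b.coeff.support.erase 0, b.coeff y * f (x - y) = 0 := by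
        refine Finset.sum_eq_zero fun y hy => ?_
        have h3 := hδ' y hy
        rw [ih (x - y) ?_ ?_, mul_zero]
        · rw [map_sub]; push_cast at hx; linarith
        · rw [map_sub]; linarith
      rw [h2, add_zero] at h1
      exact (mul_eq_zero.mp h1.symm).resolve_left hb0
  have hzero : ∀ x, ρ x < r → f x = 0 := by
    intro x hx
    obtain ⟨k, hk⟩ := exists_nat_gt (ρ x / δ)
    exact claim k x (by rwa [div_lt_iff₀ hδ] at hk) hx
  refine ⟨hzero, fun x hx => ?_⟩
  rw [hsplit x]
  have h2 : ∑ y ∈ b.coeff.support.erase 0, b.coeff y * f (x - y) = 0 := by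
    refine Finset.sum_eq_zero fun y hy => ?_
    have h3 := hδ' y hy
    rw [hzero (x - y) (by rw [map_sub]; linarith), mul_zero]
  rw [h2, add_zero]

theorem star_eq_zero {p q : G → ℂ} {x : G} (h : ∀ w, p w = 0 ∨ q (x - w) = 0) :
    star p q x = 0 := by
  unfold star
  rw [← tsum_zero]
  refine tsum_congr fun w => ?_
  rcases h w with h1 | h1 <;> simp [h1]

theorem star_eq_single {p q : G → ℂ} {x : G} (h : ∀ w, w ≠ 0 → p w = 0 ∨ q (x - w) = 0) :
    star p q x = p 0 * q x := by
  unfold star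
  rw [tsum_eq_single 0]
  · rw [sub_zero]
  · intro w hw
    rcases h w hw with h1 | h1 <;> simp [h1]

theorem norm_star_le {p q : G → ℂ} (hp : Sq p) (hq : Sq q) (x : G) {t : ℝ} (ht : 0 < t) :
    ‖star p q x‖ ≤ t / 2 * ∑' w, ‖p w‖ ^ 2 + 1 / (2 * t) * ∑' w, ‖q w‖ ^ 2 := by
  have h1 : ∑' w, ‖q w‖ ^ 2 = ∑' w, ‖q (x - w)‖ ^ 2 :=
    (Equiv.tsum_eq (Equiv.subLeft x) (fun w => ‖q w‖ ^ 2)).symm
  rw [h1, ← tsum_mul_left, ← tsum_mul_left,
    ← Summable.tsum_add (hp.mul_left _) ((hq.shift x).mul_left _)]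
  refine tsum_of_norm_bounded (((hp.mul_left _).add ((hq.shift x).mul_left _)).hasSum)
    fun w => ?_
  rw [norm_mul]
  have h2 : 0 ≤ (t * ‖p w‖ - ‖q (x - w)‖) ^ 2 / (2 * t) := by positivity
  have h3 : (t * ‖p w‖ - ‖q (x - w)‖) ^ 2 / (2 * t) =
      t / 2 * ‖p w‖ ^ 2 + 1 / (2 * t) * ‖q (x - w)‖ ^ 2 - ‖p w‖ * ‖q (x - w)‖ := by
    field_simp
    ring
  linarith

/-- data: a solution of `a * h = b * g` in the half space -/
structure Sol (ρ : G →+ ℝ) (a b : AddMonoidAlgebra ℂ G) (g h : G → ℂ) : Prop where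
  inj : Function.Injective ρ
  a_supp : ∀ y, a.coeff y ≠ 0 → 0 ≤ ρ y
  b_supp : ∀ y, b.coeff y ≠ 0 → 0 ≤ ρ y
  b_zero : b.coeff 0 ≠ 0
  g_supp : ∀ x, ρ x < 0 → g x = 0
  h_supp : ∀ x, ρ x < 0 → h x = 0
  g_sq : Sq g
  h_sq : Sq h
  eqn : conv a h = conv b g

theorem conv_supp {ρ : G →+ ℝ} {c : AddMonoidAlgebra ℂ G} (hc : ∀ y, c.coeff y ≠ 0 → 0 ≤ ρ y)
    {f : G → ℂ} {r : ℝ} (hf : ∀ x, ρ x < r → f x = 0) : ∀ x, ρ x < r → conv c f x = 0 := by
  intro x hx
  rw [conv_eq_sum]
  refine Finset.sum_eq_zero fun y hy => ?_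
  have h1 := hc y (Finsupp.mem_support_iff.mp hy)
  rw [hf (x - y) (by rw [map_sub]; linarith), mul_zero]

/-- the polynomial `D` -/
noncomputable def dd (V : AddSubgroup G) (a b : AddMonoidAlgebra ℂ G) : AddMonoidAlgebra ℂ G :=
  a * res (V : Set G) b - res (V : Set G) a * b

theorem dd_coeff_mem (V : AddSubgroup G) (a b : AddMonoidAlgebra ℂ G) {w : G} (hw : w ∈ V) :
    (dd V a b).coeff w = 0 := by
  have h1 : ∀ c d : AddMonoidAlgebra ℂ G, (res (V : Set G) c * d).coeff w =
      (res (V : Set G) c * res (V : Set G) d).coeff w := by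
    intro c d
    rw [coeff_mul_eq, coeff_mul_eq, conv_eq_sum, conv_eq_sum]
    refine Finset.sum_congr rfl fun y hy => ?_
    have hyV : y ∈ V := (res_supp c (Finsupp.mem_support_iff.mp hy)).1
    rw [res_coeff_of_mem d (show w - y ∈ (V : Set G) from V.sub_mem hw hyV)]
  unfold dd
  rw [AddMonoidAlgebra.coeff_sub, Finsupp.sub_apply, mul_comm a, h1 b a, h1 a b, mul_comm, sub_self]

theorem step_eq {ρ : G →+ ℝ} {a b : AddMonoidAlgebra ℂ G} {g h : G → ℂ} (S : Sol ρ a b g h)
    (V : AddSubgroup G) {v : G} (hv : (dd V a b).coeff v ≠ 0)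
    (hmin : ∀ w, (dd V a b).coeff w ≠ 0 → ρ v ≤ ρ w) :
    b.coeff 0 * (b.coeff 0 * (star (Set.indicator (V : Set G) h)
      (Set.indicator {x | x - v ∈ V} g) v - star (Set.indicator (V : Set G) g)
      (Set.indicator {x | x - v ∈ V} h) v)) = h 0 * h 0 * (dd V a b).coeff v := by
  classical
  have hvV : v ∉ V := fun hmem => hv (dd_coeff_mem V a b hmem)
  obtain ⟨aV, haV⟩ : ∃ aV, aV = res (V : Set G) a := ⟨_, rfl⟩
  obtain ⟨bV, hbV⟩ : ∃ bV, bV = res (V : Set G) b := ⟨_, rfl⟩
  have haVs : ∀ y, aV.coeff y ≠ 0 → 0 ≤ ρ y := by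
    intro y hy
    rw [haV] at hy
    exact S.a_supp y (res_supp a hy).2
  have hbVs : ∀ y, bV.coeff y ≠ 0 → 0 ≤ ρ y := by
    intro y hy
    rw [hbV] at hy
    exact S.b_supp y (res_supp b hy).2
  have hbV0 : bV.coeff 0 = b.coeff 0 := by
    rw [hbV]; exact res_coeff_of_mem b V.zero_mem
  -- the remainder
  let R : G → ℂ := conv aV h - conv bV g
  have hRs : ∀ x, ρ x < 0 → R x = 0 := by
    intro x hx
    change conv aV h x - conv bV g x = 0
    rw [conv_supp haVs S.h_supp x hx, conv_supp hbVs S.g_supp x hx, sub_zero]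
  have hRD : conv b R = -conv (dd V a b) h := by
    change conv b (conv aV h - conv bV g) = _
    unfold dd
    rw [conv_sub_right, conv_sub_left, conv_comm b bV, ← S.eqn, ← haV, ← hbV, conv_mul, conv_mul,
      conv_comm bV a, conv_comm b aV, neg_sub]
  have hDlow : ∀ x, ρ x < ρ v → conv (dd V a b) h x = 0 := by
    intro x hx
    rw [conv_eq_sum]
    refine Finset.sum_eq_zero fun y hy => ?_
    have h1 := hmin y (Finsupp.mem_support_iff.mp hy)
    rw [S.h_supp (x - y) (by rw [map_sub]; linarith), mul_zero]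
  have hDv : conv (dd V a b) h v = (dd V a b).coeff v * h 0 := by
    rw [conv_eq_sum, Finset.sum_eq_single v]
    · rw [sub_self]
    · intro y hy hyv
      have h1 := hmin y (Finsupp.mem_support_iff.mp hy)
      have h2 : ρ v ≠ ρ y := fun h3 => hyv (S.inj h3).symm
      have h3 : ρ v < ρ y := lt_of_le_of_ne h1 h2
      rw [S.h_supp (v - y) (by rw [map_sub]; linarith), mul_zero]
    · intro h1
      exact absurd (Finsupp.notMem_support_iff.mp h1) hv
  obtain ⟨hRlow, hRv⟩ := order_lemma ρ S.inj S.b_supp S.b_zero hRs (r := ρ v) (by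
    intro x hx
    rw [hRD, Pi.neg_apply, hDlow x hx, neg_zero])
  have hRv' : b.coeff 0 * R v = -((dd V a b).coeff v * h 0) := by
    rw [hRv v rfl, hRD, Pi.neg_apply, hDv]
  -- restrictions
  let hV : G → ℂ := Set.indicator (V : Set G) h
  let gV : G → ℂ := Set.indicator (V : Set G) g
  let hc : G → ℂ := Set.indicator {x | x - v ∈ V} h
  let gc : G → ℂ := Set.indicator {x | x - v ∈ V} g
  let RV : G → ℂ := Set.indicator (V : Set G) R
  let Rc : G → ℂ := Set.indicator {x | x - v ∈ V} R
  have hV0 : {x : G | x - 0 ∈ V} = (V : Set G) := by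
    ext x
    simp
  have key : ∀ w : G, conv bV (Set.indicator {x | x - w ∈ V} g) =
      conv aV (Set.indicator {x | x - w ∈ V} h) - Set.indicator {x | x - w ∈ V} R := by
    intro w
    have hRg : conv bV g = conv aV h - R := by
      change _ = conv aV h - (conv aV h - conv bV g)
      rw [sub_sub_cancel]
    have h1 := conv_res_indicator V b w g
    have h2 := conv_res_indicator V a w h
    rw [← hbV] at h1
    rw [← haV] at h2
    rw [h1, hRg, h2]
    funext x
    by_cases hx : x - w ∈ V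
    · have hx' : x ∈ {x | x - w ∈ V} := hx
      simp [Set.indicator_of_mem hx']
    · have hx' : x ∉ {x | x - w ∈ V} := hx
      simp [Set.indicator_of_notMem hx']
  have keyc : conv bV gc = conv aV hc - Rc := key v
  have keyV : conv bV gV = conv aV hV - RV := by
    have := key 0
    rw [hV0] at this
    exact this
  have hRsq : Sq R := by
    have h1 := S.h_sq.conv aV
    have h2 := S.g_sq.conv bV
    refine Summable.of_nonneg_of_le (fun x => sq_nonneg _) (fun x => ?_)
      ((h1.mul_left 2).add (h2.mul_left 2))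
    change ‖conv aV h x - conv bV g x‖ ^ 2 ≤ _
    have h3 := norm_sub_le (conv aV h x) (conv bV g x)
    have h4 : ‖conv aV h x - conv bV g x‖ ^ 2 ≤ (‖conv aV h x‖ + ‖conv bV g x‖) ^ 2 := by
      gcongr
    nlinarith [sq_nonneg (‖conv aV h x‖ - ‖conv bV g x‖)]
  have sqhV : Sq hV := S.h_sq.indicator _
  have sqgV : Sq gV := S.g_sq.indicator _
  have sqhc : Sq hc := S.h_sq.indicator _
  have sqgc : Sq gc := S.g_sq.indicator _
  have sqRV : Sq RV := hRsq.indicator _
  have sqRc : Sq Rc := hRsq.indicator _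
  -- the function Q
  let Q : G → ℂ := star hV gc - star gV hc
  have star_sub_right : ∀ p q q' : G → ℂ, Sq p → Sq q → Sq q' →
      star p (q - q') = star p q - star p q' := by
    intro p q q' hp hq hq'
    funext x
    change star p (q - q') x = star p q x - star p q' x
    unfold star
    rw [← Summable.tsum_sub (star_summable hp hq x) (star_summable hp hq' x)]
    refine tsum_congr fun w => ?_
    rw [Pi.sub_apply]; ring
  have hbQ : conv bV Q = star RV hc - star hV Rc := by
    change conv bV (star hV gc - star gV hc) = _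
    rw [conv_sub_right, conv_star sqhV sqgc, keyc,
      star_sub_right _ _ _ sqhV (sqhc.conv _) sqRc, star_comm gV hc, conv_star sqhc sqgV, keyV,
      star_sub_right _ _ _ sqhc (sqhV.conv _) sqRV, ← conv_star sqhV sqhc,
      ← conv_star sqhc sqhV, star_comm hc hV, star_comm hc RV]
    abel
  have hRVlow : ∀ w, ρ w < ρ v → RV w = 0 := by
    intro w hw
    by_cases hwV : w ∈ (V : Set G)
    · change Set.indicator (V : Set G) R w = 0
      rw [Set.indicator_of_mem hwV, hRlow w hw]
    · exact Set.indicator_of_notMem hwV _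
  have hRclow : ∀ w, ρ w < ρ v → Rc w = 0 := by
    intro w hw
    by_cases hwV : w ∈ {x | x - v ∈ V}
    · change Set.indicator {x | x - v ∈ V} R w = 0
      rw [Set.indicator_of_mem hwV, hRlow w hw]
    · exact Set.indicator_of_notMem hwV _
  have hVs : ∀ w, ρ w < 0 → hV w = 0 := by
    intro w hw
    by_cases hwV : w ∈ (V : Set G)
    · change Set.indicator (V : Set G) h w = 0
      rw [Set.indicator_of_mem hwV, S.h_supp w hw]
    · exact Set.indicator_of_notMem hwV _
  have gVs : ∀ w, ρ w < 0 → gV w = 0 := by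
    intro w hw
    by_cases hwV : w ∈ (V : Set G)
    · change Set.indicator (V : Set G) g w = 0
      rw [Set.indicator_of_mem hwV, S.g_supp w hw]
    · exact Set.indicator_of_notMem hwV _
  have hcs : ∀ w, ρ w < 0 → hc w = 0 := by
    intro w hw
    by_cases hwV : w ∈ {x | x - v ∈ V}
    · change Set.indicator {x | x - v ∈ V} h w = 0
      rw [Set.indicator_of_mem hwV, S.h_supp w hw]
    · exact Set.indicator_of_notMem hwV _
  have gcs : ∀ w, ρ w < 0 → gc w = 0 := by
    intro w hw
    by_cases hwV : w ∈ {x | x - v ∈ V}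
    · change Set.indicator {x | x - v ∈ V} g w = 0
      rw [Set.indicator_of_mem hwV, S.g_supp w hw]
    · exact Set.indicator_of_notMem hwV _
  have hQs : ∀ x, ρ x < 0 → Q x = 0 := by
    intro x hx
    change star hV gc x - star gV hc x = 0
    rw [star_eq_zero, star_eq_zero, sub_zero]
    · intro w
      by_cases hw : ρ w < 0
      · exact Or.inl (gVs w hw)
      · refine Or.inr (hcs _ ?_)
        rw [map_sub]; push Not at hw; linarith
    · intro w
      by_cases hw : ρ w < 0
      · exact Or.inl (hVs w hw)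
      · refine Or.inr (gcs _ ?_)
        rw [map_sub]; push Not at hw; linarith
  have hbQlow : ∀ x, ρ x < ρ v → conv bV Q x = 0 := by
    intro x hx
    rw [hbQ]
    change star RV hc x - star hV Rc x = 0
    rw [star_eq_zero, star_eq_zero, sub_zero]
    · intro w
      by_cases hw : ρ w < 0
      · exact Or.inl (hVs w hw)
      · refine Or.inr (hRclow _ ?_)
        rw [map_sub]; push Not at hw; linarith
    · intro w
      by_cases hw : ρ w < ρ v
      · exact Or.inl (hRVlow w hw)
      · refine Or.inr (hcs _ ?_)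
        rw [map_sub]; push Not at hw; linarith
  have hbQv : conv bV Q v = -(h 0 * R v) := by
    rw [hbQ]
    change star RV hc v - star hV Rc v = _
    rw [star_eq_zero, star_eq_single, zero_sub]
    · have h1 : hV 0 = h 0 := Set.indicator_of_mem V.zero_mem _
      have h2 : Rc v = R v := by
        have hm : v ∈ {x | x - v ∈ V} := by
          change v - v ∈ V
          rw [sub_self]; exact V.zero_mem
        exact Set.indicator_of_mem hm _
      rw [h1, h2]
    · intro w hw
      by_cases hw0 : ρ w < 0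
      · exact Or.inl (hVs w hw0)
      · refine Or.inr (hRclow _ ?_)
        have h3 : ρ w ≠ 0 := by
          intro h4
          apply hw
          apply S.inj
          rw [h4, map_zero]
        push Not at hw0
        have h5 : 0 < ρ w := lt_of_le_of_ne hw0 (Ne.symm h3)
        rw [map_sub]; linarith
    · intro w
      by_cases hw : ρ w < ρ v
      · exact Or.inl (hRVlow w hw)
      · push Not at hw
        by_cases hwv : w = v
        · subst hwv
          exact Or.inl (Set.indicator_of_notMem hvV _)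
        · refine Or.inr (hcs _ ?_)
          have h3 : ρ v ≠ ρ w := fun h4 => hwv (S.inj h4).symm
          have h5 : ρ v < ρ w := lt_of_le_of_ne hw h3
          rw [map_sub]; linarith
  obtain ⟨-, hQv⟩ := order_lemma ρ S.inj hbVs (by rw [hbV0]; exact S.b_zero) hQs (r := ρ v) hbQlow
  have h1 := hQv v rfl
  rw [hbV0, hbQv] at h1
  change b.coeff 0 * (b.coeff 0 * Q v) = _
  rw [h1]
  linear_combination (-h 0) * hRv'

/-- the coset inequality -/
theorem step_ineq {ρ : G →+ ℝ} {a b : AddMonoidAlgebra ℂ G} {g h : G → ℂ} (S : Sol ρ a b g h)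
    (hg1 : ∑' x, ‖g x‖ ^ 2 ≤ 1) (hh1 : ∑' x, ‖h x‖ ^ 2 ≤ 1)
    (V : AddSubgroup G) {v : G} (hv : (dd V a b).coeff v ≠ 0)
    (hmin : ∀ w, (dd V a b).coeff w ≠ 0 → ρ v ≤ ρ w) {κ : ℝ} (hκ : 0 < κ)
    (hκ' : κ * ‖b.coeff 0‖ ^ 2 ≤ ‖h 0‖ ^ 2 * ‖(dd V a b).coeff v‖) :
    κ ^ 2 / 2 ≤ ∑' x, ‖Set.indicator {x | x - v ∈ V} g x‖ ^ 2 +
      ∑' x, ‖Set.indicator {x | x - v ∈ V} h x‖ ^ 2 := by
  have h1 := congrArg norm (step_eq S V hv hmin)
  obtain ⟨q, hq⟩ : ∃ q, q = star (Set.indicator (V : Set G) h)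
      (Set.indicator {x | x - v ∈ V} g) v - star (Set.indicator (V : Set G) g)
      (Set.indicator {x | x - v ∈ V} h) v := ⟨_, rfl⟩
  rw [← hq] at h1
  simp only [norm_mul] at h1
  have hb0 : 0 < ‖b.coeff 0‖ := norm_pos_iff.mpr S.b_zero
  have hκq : κ ≤ ‖q‖ := by
    have h2 : κ * ‖b.coeff 0‖ ^ 2 ≤ ‖q‖ * ‖b.coeff 0‖ ^ 2 := by
      calc κ * ‖b.coeff 0‖ ^ 2 ≤ ‖h 0‖ ^ 2 * ‖(dd V a b).coeff v‖ := hκ'
        _ = ‖q‖ * ‖b.coeff 0‖ ^ 2 := by rw [sq, ← h1]; ring
    exact le_of_mul_le_mul_right h2 (by positivity)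
  have hle : ∀ (f : G → ℂ) (T : Set G), Sq f → ∑' x, ‖f x‖ ^ 2 ≤ 1 →
      ∑' x, ‖Set.indicator T f x‖ ^ 2 ≤ 1 := by
    intro f T hf hf1
    refine le_trans (Summable.tsum_le_tsum (fun x => ?_) (hf.indicator T) hf) hf1
    by_cases hx : x ∈ T
    · rw [Set.indicator_of_mem hx]
    · rw [Set.indicator_of_notMem hx]; simp
  obtain ⟨Eg, hEg⟩ : ∃ Eg, Eg = ∑' x, ‖Set.indicator {x | x - v ∈ V} g x‖ ^ 2 := ⟨_, rfl⟩
  obtain ⟨Eh, hEh⟩ : ∃ Eh, Eh = ∑' x, ‖Set.indicator {x | x - v ∈ V} h x‖ ^ 2 := ⟨_, rfl⟩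
  have ht : 0 < κ / 2 := by positivity
  have b1 := norm_star_le (S.h_sq.indicator (V : Set G))
    (S.g_sq.indicator {x | x - v ∈ V}) v ht
  have b2 := norm_star_le (S.g_sq.indicator (V : Set G))
    (S.h_sq.indicator {x | x - v ∈ V}) v ht
  rw [← hEg] at b1
  rw [← hEh] at b2
  have c1 := hle h (V : Set G) S.h_sq hh1
  have c2 := hle g (V : Set G) S.g_sq hg1
  have h3 : ‖q‖ ≤ κ / 2 + 1 / (2 * (κ / 2)) * (Eg + Eh) := by
    rw [hq]
    refine (norm_sub_le _ _).trans ?_
    have d1 : κ / 2 / 2 * ∑' w, ‖Set.indicator (V : Set G) h w‖ ^ 2 ≤ κ / 2 / 2 * 1 :=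
      mul_le_mul_of_nonneg_left c1 (by positivity)
    have d2 : κ / 2 / 2 * ∑' w, ‖Set.indicator (V : Set G) g w‖ ^ 2 ≤ κ / 2 / 2 * 1 :=
      mul_le_mul_of_nonneg_left c2 (by positivity)
    calc _ ≤ (κ / 2 / 2 * 1 + 1 / (2 * (κ / 2)) * Eg) + (κ / 2 / 2 * 1 + 1 / (2 * (κ / 2)) * Eh) := by
          linarith
      _ = _ := by ring
  rw [← hEg, ← hEh]
  have h4 : 1 / (2 * (κ / 2)) = 1 / κ := by
    congr 1; ring
  rw [h4] at h3
  have h5 : κ / 2 ≤ 1 / κ * (Eg + Eh) := by linarith
  have h6 : κ * (κ / 2) ≤ κ * (1 / κ * (Eg + Eh)) := mul_le_mul_of_nonneg_left h5 hκ.le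
  have h7 : κ * (1 / κ * (Eg + Eh)) = Eg + Eh := by
    field_simp
  rw [h7] at h6
  calc κ ^ 2 / 2 = κ * (κ / 2) := by ring
    _ ≤ Eg + Eh := h6

end Pool.Agent.H87.MM
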