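import Mathlib

/-!
# One-variable factorisation: `P / P^*` as a quotient of two Blaschke products
-/

set_option autoImplicit false

open Polynomial

namespace Pool.Agent.H87.MM

/-- Blaschke factor as a power series -/
noncomputable def blas (β : ℂ) : PowerSeries ℂ :=
  (PowerSeries.X - PowerSeries.C β) *
    (1 - PowerSeries.C (starRingEnd ℂ β) * PowerSeries.X)⁻¹

theorem one_sub_cc (γ : ℂ) :
    PowerSeries.constantCoeff (1 - PowerSeries.C γ * PowerSeries.X : PowerSeries ℂ) ≠ 0 := by
  simp

theorem blas_mul (β : ℂ) :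
    blas β * (1 - PowerSeries.C (starRingEnd ℂ β) * PowerSeries.X) =
      PowerSeries.X - PowerSeries.C β := by
  unfold blas
  rw [mul_assoc, PowerSeries.inv_mul_cancel _ (one_sub_cc _), mul_one]

theorem blas_coeff_zero (β : ℂ) : PowerSeries.coeff 0 (blas β) = -β := by
  have h := congrArg (PowerSeries.coeff 0) (blas_mul β)
  simpa using h

theorem step_identity (β x y : ℂ) :
    ‖x - (starRingEnd ℂ β) * y‖ ^ 2 - ‖y - β * x‖ ^ 2 = (1 - ‖β‖ ^ 2) * (‖x‖ ^ 2 - ‖y‖ ^ 2) := by
  simp only [Complex.sq_norm, Complex.normSq_apply, Complex.sub_re, Complex.sub_im,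
    Complex.mul_re, Complex.mul_im, Complex.conj_re, Complex.conj_im]
  ring

theorem blas_contr {β : ℂ} (hβ : ‖β‖ ≤ 1) (f : PowerSeries ℂ) (N : ℕ) :
    ∑ n ∈ Finset.range N, ‖PowerSeries.coeff n (blas β * f)‖ ^ 2 ≤
      ∑ n ∈ Finset.range N, ‖PowerSeries.coeff n f‖ ^ 2 := by
  obtain ⟨y, hy⟩ : ∃ y : PowerSeries ℂ,
      f = y - PowerSeries.C (starRingEnd ℂ β) * (PowerSeries.X * y) := by
    refine ⟨(1 - PowerSeries.C (starRingEnd ℂ β) * PowerSeries.X)⁻¹ * f, ?_⟩
    have h := PowerSeries.mul_inv_cancel _ (one_sub_cc (starRingEnd ℂ β))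
    calc f = ((1 - PowerSeries.C (starRingEnd ℂ β) * PowerSeries.X) *
          (1 - PowerSeries.C (starRingEnd ℂ β) * PowerSeries.X)⁻¹) * f := by rw [h, one_mul]
      _ = _ := by ring
  have hw : blas β * f = PowerSeries.X * y - PowerSeries.C β * y := by
    have h := blas_mul β
    calc blas β * f = (blas β * (1 - PowerSeries.C (starRingEnd ℂ β) * PowerSeries.X)) * y := by
          rw [hy]; ring
      _ = _ := by rw [h]; ring
  have key : ∀ N : ℕ, ∑ n ∈ Finset.range (N + 1), ‖PowerSeries.coeff n f‖ ^ 2 -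
      ∑ n ∈ Finset.range (N + 1), ‖PowerSeries.coeff n (blas β * f)‖ ^ 2 =
      (1 - ‖β‖ ^ 2) * ‖PowerSeries.coeff N y‖ ^ 2 := by
    intro N
    induction N with
    | zero =>
      rw [Finset.sum_range_one, Finset.sum_range_one, hw, hy]
      simp only [map_sub, PowerSeries.coeff_zero_X_mul, PowerSeries.coeff_C_mul, mul_zero,
        sub_zero, zero_sub, norm_neg, norm_mul]
      ring
    | succ N ih =>
      rw [Finset.sum_range_succ _ (N + 1), Finset.sum_range_succ _ (N + 1)]
      have h1 : PowerSeries.coeff (N + 1) f = PowerSeries.coeff (N + 1) y -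
          (starRingEnd ℂ β) * PowerSeries.coeff N y := by
        rw [hy]
        simp only [map_sub, PowerSeries.coeff_C_mul, PowerSeries.coeff_succ_X_mul]
      have h2 : PowerSeries.coeff (N + 1) (blas β * f) = PowerSeries.coeff N y -
          β * PowerSeries.coeff (N + 1) y := by
        rw [hw]
        simp only [map_sub, PowerSeries.coeff_C_mul, PowerSeries.coeff_succ_X_mul]
      rw [h1, h2]
      have h3 := step_identity β (PowerSeries.coeff (N + 1) y) (PowerSeries.coeff N y)
      linarith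
  cases N with
  | zero => simp
  | succ N =>
    have h := key N
    have h1 : 0 ≤ (1 - ‖β‖ ^ 2) * ‖PowerSeries.coeff N y‖ ^ 2 := by
      refine mul_nonneg ?_ (sq_nonneg _)
      nlinarith [norm_nonneg β]
    linarith

theorem blas_prod_le (s : Multiset ℂ) (hs : ∀ β ∈ s, ‖β‖ ≤ 1) (N : ℕ) :
    ∑ n ∈ Finset.range N, ‖PowerSeries.coeff n ((s.map blas).prod)‖ ^ 2 ≤ 1 := by
  induction s using Multiset.induction_on with
  | empty =>
    rw [Multiset.map_zero, Multiset.prod_zero]
    cases N with
    | zero => simp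
    | succ N =>
      rw [Finset.sum_range_succ']
      simp [PowerSeries.coeff_one]
  | cons β s ih =>
    rw [Multiset.map_cons, Multiset.prod_cons]
    exact (blas_contr (hs β (Multiset.mem_cons_self _ _)) _ N).trans
      (ih fun γ hγ => hs γ (Multiset.mem_cons_of_mem hγ))

theorem blas_prod_coeff_zero (s : Multiset ℂ) :
    ‖PowerSeries.coeff 0 ((s.map blas).prod)‖ = (s.map fun β => ‖β‖).prod := by
  induction s using Multiset.induction_on with
  | empty => simp
  | cons β s ih =>
    rw [Multiset.map_cons, Multiset.prod_cons, Multiset.map_cons, Multiset.prod_cons, ← ih,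
      PowerSeries.coeff_zero_eq_constantCoeff, map_mul, norm_mul,
      ← PowerSeries.coeff_zero_eq_constantCoeff, blas_coeff_zero, norm_neg]

/-- the reverse of a split polynomial -/
theorem reverse_prod_X_sub_C (s : Multiset ℂ) (hs : ∀ α ∈ s, α ≠ 0) :
    ((s.map fun α => (X - C α : ℂ[X])).prod).reverse = (s.map fun α => (1 - C α * X : ℂ[X])).prod := by
  induction s using Multiset.induction_on with
  | empty =>
    rw [Multiset.map_zero, Multiset.prod_zero, Multiset.map_zero, Multiset.prod_zero]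
    exact Polynomial.reverse_C (1 : ℂ)
  | cons α s ih =>
    rw [Multiset.map_cons, Multiset.prod_cons, Multiset.map_cons, Multiset.prod_cons,
      Polynomial.reverse_mul_of_domain, ih fun β hβ => hs β (Multiset.mem_cons_of_mem hβ)]
    congr 1
    ext n
    rw [Polynomial.coeff_reverse, natDegree_X_sub_C]
    rcases n with _ | _ | n
    · simp
    · have h : revAt 1 (0 + 1) = 0 := by simp [revAt_le (le_refl 1)]
      rw [h]; simp [coeff_one]
    · have h : revAt 1 (n + 1 + 1) = n + 1 + 1 := revAt_eq_self_of_lt (by omega)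
      rw [h]; simp [coeff_X, coeff_one]

theorem conj_roots (P : ℝ[X]) :
    ((P.map (algebraMap ℝ ℂ)).roots.map (starRingEnd ℂ)) = (P.map (algebraMap ℝ ℂ)).roots := by
  have h := (IsAlgClosed.splits (P.map (algebraMap ℝ ℂ))).roots_map (starRingEnd ℂ)
  have h1 : (P.map (algebraMap ℝ ℂ)).map (starRingEnd ℂ) = P.map (algebraMap ℝ ℂ) := by
    rw [Polynomial.map_map]
    congr 1
    ext x
    simp
  rw [h1] at h
  exact h.symm

theorem conj_filter {s : Multiset ℂ} (hs : s.map (starRingEnd ℂ) = s) (q : ℝ → Prop)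
    [DecidablePred fun z : ℂ => q ‖z‖] :
    (s.filter fun z => q ‖z‖).map (starRingEnd ℂ) = s.filter fun z => q ‖z‖ := by
  conv_rhs => rw [← hs]
  rw [Multiset.filter_map]
  congr 1
  refine Multiset.filter_congr ?_
  intro x _
  simp

/-- the factorisation -/
theorem oneVar (P : ℝ[X]) (h0 : P.coeff 0 ≠ 0) :
    ∃ g h : PowerSeries ℂ,
      ((P.map (algebraMap ℝ ℂ) : ℂ[X]) : PowerSeries ℂ) * h =
        (((P.map (algebraMap ℝ ℂ)).reverse : ℂ[X]) : PowerSeries ℂ) * g ∧
      (∀ N, ∑ n ∈ Finset.range N, ‖PowerSeries.coeff n g‖ ^ 2 ≤ 1) ∧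
      (∀ N, ∑ n ∈ Finset.range N, ‖PowerSeries.coeff n h‖ ^ 2 ≤ 1) ∧
      ‖PowerSeries.coeff 0 h‖ * (P.map (algebraMap ℝ ℂ)).mahlerMeasure = ‖P.leadingCoeff‖ := by
  classical
  obtain ⟨p, hp⟩ : ∃ p, p = P.map (algebraMap ℝ ℂ) := ⟨_, rfl⟩
  have hconj := conj_roots P
  rw [← hp] at hconj ⊢
  have hp0 : p.coeff 0 ≠ 0 := by
    rw [hp, Polynomial.coeff_map]
    simpa using h0
  have hpne : p ≠ 0 := by
    intro h; rw [h] at hp0; simp at hp0
  have hroot : ∀ α ∈ p.roots, α ≠ 0 := by
    intro α hα h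
    rw [h] at hα
    have h1 := Polynomial.isRoot_of_mem_roots hα
    rw [Polynomial.IsRoot.def, ← Polynomial.coeff_zero_eq_eval_zero] at h1
    exact hp0 h1
  obtain ⟨u, hu⟩ : ∃ u, u = p.leadingCoeff := ⟨_, rfl⟩
  -- the two parts of the roots
  let s1 := p.roots.filter fun z => ‖z‖ < 1
  let s2 := p.roots.filter fun z => ¬ ‖z‖ < 1
  have hs : s1 + s2 = p.roots := Multiset.filter_add_not _ _
  have hs1 : s1.map (starRingEnd ℂ) = s1 := conj_filter hconj (fun r => r < 1)
  have hs2 : s2.map (starRingEnd ℂ) = s2 := conj_filter hconj (fun r => ¬ r < 1)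
  have hs1' : ∀ α ∈ s1, ‖α‖ < 1 := fun α hα => (Multiset.mem_filter.mp hα).2
  have hs2' : ∀ α ∈ s2, 1 ≤ ‖α‖ := fun α hα => not_lt.mp (Multiset.mem_filter.mp hα).2
  have hs2ne : ∀ α ∈ s2, α ≠ 0 := by
    intro α hα h
    have h1 := hs2' α hα
    rw [h, norm_zero] at h1
    linarith
  -- power series versions
  have hX : ∀ α : ℂ, ((X - C α : ℂ[X]) : PowerSeries ℂ) = PowerSeries.X - PowerSeries.C α := by
    intro α; simp
  have hX' : ∀ α : ℂ, ((1 - C α * X : ℂ[X]) : PowerSeries ℂ) =
      1 - PowerSeries.C α * PowerSeries.X := by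
    intro α; simp
  have hprodc : ∀ (s : Multiset ℂ) (f : ℂ → ℂ[X]),
      (((s.map f).prod : ℂ[X]) : PowerSeries ℂ) = (s.map fun α => (f α : PowerSeries ℂ)).prod := by
    intro s f
    induction s using Multiset.induction_on with
    | empty => simp
    | cons a s ih => simp [ih]
  have hP1 : (p : PowerSeries ℂ) = PowerSeries.C u *
      ((s1.map fun α => (PowerSeries.X - PowerSeries.C α)).prod *
       (s2.map fun α => (PowerSeries.X - PowerSeries.C (starRingEnd ℂ α))).prod) := by
    have h1 : p = C u * (p.roots.map fun α => (X - C α : ℂ[X])).prod := by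
      rw [hu]; exact (IsAlgClosed.splits p).eq_prod_roots
    have h2 : (s2.map fun α => (PowerSeries.X - PowerSeries.C (starRingEnd ℂ α) :
        PowerSeries ℂ)).prod = (s2.map fun α => (PowerSeries.X - PowerSeries.C α :
        PowerSeries ℂ)).prod := by
      conv_rhs => rw [← hs2]
      rw [Multiset.map_map]
      rfl
    rw [h2, ← Multiset.prod_add, ← Multiset.map_add, hs]
    conv_lhs => rw [h1]
    rw [Polynomial.coe_mul, Polynomial.coe_C, hprodc]
    simp only [hX]
  have hP2 : ((p.reverse : ℂ[X]) : PowerSeries ℂ) = PowerSeries.C u *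
      ((s1.map fun α => (1 - PowerSeries.C (starRingEnd ℂ α) * PowerSeries.X)).prod *
       (s2.map fun α => (1 - PowerSeries.C α * PowerSeries.X)).prod) := by
    have h1 : p.reverse = C u * (p.roots.map fun α => (1 - C α * X : ℂ[X])).prod := by
      have h2 : p = C u * (p.roots.map fun α => (X - C α : ℂ[X])).prod := by
        rw [hu]; exact (IsAlgClosed.splits p).eq_prod_roots
      conv_lhs => rw [h2]
      rw [Polynomial.reverse_mul_of_domain, Polynomial.reverse_C, reverse_prod_X_sub_C _ hroot]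
    have h2 : (s1.map fun α => (1 - PowerSeries.C (starRingEnd ℂ α) * PowerSeries.X :
        PowerSeries ℂ)).prod = (s1.map fun α => (1 - PowerSeries.C α * PowerSeries.X :
        PowerSeries ℂ)).prod := by
      conv_rhs => rw [← hs1]
      rw [Multiset.map_map]
      rfl
    rw [h2, ← Multiset.prod_add, ← Multiset.map_add, hs, h1, Polynomial.coe_mul,
      Polynomial.coe_C, hprodc]
    simp only [hX']
  -- the Blaschke products
  let g0 : PowerSeries ℂ := (s1.map blas).prod
  let h : PowerSeries ℂ := ((s2.map fun α => α⁻¹).map blas).prod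
  let κ : ℂ := (s2.map fun α => (starRingEnd ℂ α) / α).prod
  have hκ : ‖κ‖ = 1 := by
    change ‖(s2.map fun α => (starRingEnd ℂ α) / α).prod‖ = 1
    have : ∀ s : Multiset ℂ, (∀ α ∈ s, α ≠ 0) →
        ‖(s.map fun α => (starRingEnd ℂ α) / α).prod‖ = 1 := by
      intro s
      induction s using Multiset.induction_on with
      | empty => simp
      | cons a s ih =>
        intro hs
        rw [Multiset.map_cons, Multiset.prod_cons, norm_mul,
          ih fun b hb => hs b (Multiset.mem_cons_of_mem hb), mul_one, norm_div]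
        have ha : ‖a‖ ≠ 0 := norm_ne_zero_iff.mpr (hs a (Multiset.mem_cons_self _ _))
        rw [Complex.norm_conj, div_self ha]
    exact this s2 hs2ne
  have e1 : (s1.map fun α => (PowerSeries.X - PowerSeries.C α : PowerSeries ℂ)).prod =
      g0 * (s1.map fun α => (1 - PowerSeries.C (starRingEnd ℂ α) * PowerSeries.X :
        PowerSeries ℂ)).prod := by
    change _ = (s1.map blas).prod * _
    rw [← Multiset.prod_map_mul]
    congr 1
    refine Multiset.map_congr rfl fun α _ => ?_
    exact (blas_mul α).symm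
  have e2 : (s2.map fun α => (PowerSeries.X - PowerSeries.C (starRingEnd ℂ α) :
      PowerSeries ℂ)).prod * h = PowerSeries.C κ *
      (s2.map fun α => (1 - PowerSeries.C α * PowerSeries.X : PowerSeries ℂ)).prod := by
    have hcκ : PowerSeries.C κ = (s2.map fun α => (PowerSeries.C ((starRingEnd ℂ α) / α) :
        PowerSeries ℂ)).prod := by
      change PowerSeries.C ((s2.map fun α => (starRingEnd ℂ α) / α).prod) = _
      rw [map_multiset_prod, Multiset.map_map]
      rfl
    change _ * ((s2.map fun α => α⁻¹).map blas).prod = _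
    rw [hcκ, Multiset.map_map, ← Multiset.prod_map_mul, ← Multiset.prod_map_mul]
    congr 1
    refine Multiset.map_congr rfl fun α hα => ?_
    have hα0 : α ≠ 0 := hs2ne α hα
    have hα0' : (starRingEnd ℂ α) ≠ 0 := by simpa using hα0
    have h1 := blas_mul α⁻¹
    -- multiply by the invertible series
    have h2 : IsUnit (1 - PowerSeries.C (starRingEnd ℂ α⁻¹) * PowerSeries.X :
        PowerSeries ℂ) := by
      rw [PowerSeries.isUnit_iff_constantCoeff]
      simp
    refine h2.mul_right_cancel ?_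
    change (PowerSeries.X - PowerSeries.C (starRingEnd ℂ α)) * blas α⁻¹ *
      (1 - PowerSeries.C (starRingEnd ℂ α⁻¹) * PowerSeries.X) = _
    rw [mul_assoc, h1]
    have h3 : (PowerSeries.C ((starRingEnd ℂ α) / α) : PowerSeries ℂ) =
        PowerSeries.C (starRingEnd ℂ α) * PowerSeries.C α⁻¹ := by
      rw [← map_mul, div_eq_mul_inv]
    have h4 : (PowerSeries.C (starRingEnd ℂ α) * PowerSeries.C (starRingEnd ℂ α⁻¹) :
        PowerSeries ℂ) = 1 := by
      rw [← map_mul, ← map_mul, mul_inv_cancel₀ hα0, map_one, map_one]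
    have h5 : (PowerSeries.C α * PowerSeries.C α⁻¹ : PowerSeries ℂ) = 1 := by
      rw [← map_mul, mul_inv_cancel₀ hα0, map_one]
    rw [h3]
    linear_combination (PowerSeries.X * PowerSeries.C (starRingEnd ℂ α) -
      PowerSeries.X * PowerSeries.X) * h5 + (PowerSeries.X * PowerSeries.C α⁻¹ -
      PowerSeries.X * PowerSeries.X * (PowerSeries.C α * PowerSeries.C α⁻¹)) * h4
  refine ⟨PowerSeries.C κ * g0, h, ?_, ?_, ?_, ?_⟩
  · rw [hP1, hP2, e1]
    linear_combination (PowerSeries.C u * g0 * (s1.map fun α => (1 - PowerSeries.C (starRingEnd ℂ α) * PowerSeries.X : PowerSeries ℂ)).prod) * e2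
  · intro N
    refine le_trans (le_of_eq ?_) (blas_prod_le s1 (fun α hα => (hs1' α hα).le) N)
    refine Finset.sum_congr rfl fun n _ => ?_
    rw [PowerSeries.coeff_C_mul, norm_mul, hκ, one_mul]
  · intro N
    refine blas_prod_le _ ?_ N
    intro β hβ
    obtain ⟨α, hα, rfl⟩ := Multiset.mem_map.mp hβ
    rw [norm_inv]
    exact inv_le_one_of_one_le₀ (hs2' α hα)
  · rw [Polynomial.mahlerMeasure_eq_leadingCoeff_mul_prod_roots, ← hs, Multiset.map_add,
      Multiset.prod_add]
    have h1 : (s1.map fun a => max 1 ‖a‖).prod = 1 := by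
      refine Multiset.prod_eq_one ?_
      intro x hx
      obtain ⟨α, hα, rfl⟩ := Multiset.mem_map.mp hx
      exact max_eq_left (hs1' α hα).le
    have h2 : (s2.map fun a => max 1 ‖a‖).prod = (s2.map fun a => ‖a‖).prod := by
      congr 1
      exact Multiset.map_congr rfl fun α hα => max_eq_right (hs2' α hα)
    have h3 : ‖PowerSeries.coeff 0 h‖ * (s2.map fun a => ‖a‖).prod = 1 := by
      change ‖PowerSeries.coeff 0 ((s2.map fun α => α⁻¹).map blas).prod‖ * _ = 1
      rw [blas_prod_coeff_zero, Multiset.map_map, ← Multiset.prod_map_mul]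
      refine Multiset.prod_eq_one ?_
      intro x hx
      obtain ⟨α, hα, rfl⟩ := Multiset.mem_map.mp hx
      change ‖α⁻¹‖ * ‖α‖ = 1
      rw [norm_inv, inv_mul_cancel₀ (norm_ne_zero_iff.mpr (hs2ne α hα))]
    have h4 : ‖p.leadingCoeff‖ = ‖P.leadingCoeff‖ := by
      rw [hp, Polynomial.leadingCoeff_map]
      simp
    rw [h1, h2, one_mul, h4, mul_left_comm, h3, mul_one]

end Pool.Agent.H87.MM
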