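import Pool.Agent.H87.MM.Int
import Pool.Agent.H87.MM.OneVar
import Pool.Agent.H87.MM.Lattice

/-!
# The limit solution
-/

set_option autoImplicit false

open MeasureTheory Filter Topology

namespace Pool.Agent.H87.MM

section sums

set_option linter.unusedSectionVars false

variable {G : Type*} [AddCommGroup G] {ι : Type*}

theorem conv_sum (s : Finset ι) (e : ι → G) (c : ι → ℂ) (f : G → ℂ) (x : G) :
    conv (∑ i ∈ s, AddMonoidAlgebra.single (e i) (c i)) f x = ∑ i ∈ s, c i * f (x - e i) := by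
  classical
  induction s using Finset.induction_on with
  | empty => rw [Finset.sum_empty, conv_zero_left]; simp
  | insert i s hi ih =>
    rw [Finset.sum_insert hi, conv_add_left, Pi.add_apply, conv_single, ih, Finset.sum_insert hi]

theorem coeff_sum_ne (s : Finset ι) (e : ι → G) (c : ι → ℂ) {y : G}
    (h : (∑ i ∈ s, AddMonoidAlgebra.single (e i) (c i)).coeff y ≠ 0) : ∃ i ∈ s, e i = y := by
  classical
  by_contra hne
  push Not at hne
  apply h
  have h1 : (∑ i ∈ s, AddMonoidAlgebra.single (e i) (c i)).coeff y =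
      ∑ i ∈ s, (AddMonoidAlgebra.single (e i) (c i)).coeff y := by
    rw [AddMonoidAlgebra.coeff_sum, Finsupp.finsetSum_apply]
  rw [h1]
  refine Finset.sum_eq_zero fun i hi => ?_
  rw [AddMonoidAlgebra.coeff_single, Finsupp.single_apply, if_neg (hne i hi)]

theorem coeff_sum_eq (s : Finset ι) (e : ι → G) (c : ι → ℂ) {i : ι} (hi : i ∈ s)
    (hinj : ∀ j ∈ s, e j = e i → j = i) :
    (∑ i ∈ s, AddMonoidAlgebra.single (e i) (c i)).coeff (e i) = c i := by
  classical
  rw [AddMonoidAlgebra.coeff_sum, Finsupp.finsetSum_apply, Finset.sum_eq_single i]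
  · rw [AddMonoidAlgebra.coeff_single, Finsupp.single_apply, if_pos rfl]
  · intro j hj hne
    rw [AddMonoidAlgebra.coeff_single, Finsupp.single_apply, if_neg]
    intro h
    exact hne (hinj j hj h)
  · intro h; exact absurd hi h

end sums

/-- coefficients extended by zero -/
noncomputable def cf (f : PowerSeries ℂ) (k : ℤ) : ℂ :=
  if 0 ≤ k then PowerSeries.coeff k.toNat f else 0

theorem cf_neg (f : PowerSeries ℂ) {k : ℤ} (hk : k < 0) : cf f k = 0 :=
  if_neg (by omega)

theorem cf_natCast (f : PowerSeries ℂ) (k : ℕ) : cf f k = PowerSeries.coeff k f := by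
  unfold cf
  rw [if_pos (by omega), Int.toNat_natCast]

theorem cf_add (f f' : PowerSeries ℂ) (k : ℤ) : cf (f + f') k = cf f k + cf f' k := by
  unfold cf
  split_ifs <;> simp

theorem cf_zero (k : ℤ) : cf 0 k = 0 := by
  unfold cf
  split_ifs <;> simp

theorem cf_monomial_mul (d : ℕ) (c : ℂ) (f : PowerSeries ℂ) (k : ℤ) :
    cf (((Polynomial.monomial d c : Polynomial ℂ) : PowerSeries ℂ) * f) k = c * cf f (k - d) := by
  rw [Polynomial.coe_monomial, PowerSeries.monomial_eq_mk]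
  by_cases hk : 0 ≤ k
  · obtain ⟨k, rfl⟩ := Int.eq_ofNat_of_zero_le hk
    rw [cf_natCast]
    have h1 : (PowerSeries.mk fun m => if m = d then c else 0 : PowerSeries ℂ) =
        PowerSeries.C c * PowerSeries.X ^ d := by
      ext m
      rw [PowerSeries.coeff_mk, PowerSeries.coeff_C_mul, PowerSeries.coeff_X_pow]
      split_ifs <;> simp
    rw [h1, mul_assoc, PowerSeries.coeff_C_mul, PowerSeries.coeff_X_pow_mul']
    by_cases hd : d ≤ k
    · rw [if_pos hd, show ((k : ℤ) - d) = ((k - d : ℕ) : ℤ) by omega, cf_natCast]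
    · rw [if_neg hd, cf_neg _ (by omega)]
  · rw [cf_neg _ (by omega), cf_neg _ (by omega), mul_zero]

theorem cf_sum_mul {ι : Type*} (s : Finset ι) (d : ι → ℕ) (c : ι → ℂ) (f : PowerSeries ℂ)
    (k : ℤ) :
    cf (((∑ i ∈ s, Polynomial.monomial (d i) (c i) : Polynomial ℂ) : PowerSeries ℂ) * f) k =
      ∑ i ∈ s, c i * cf f (k - d i) := by
  classical
  induction s using Finset.induction_on with
  | empty => simp [cf_zero]
  | insert i s hi ih =>
    rw [Finset.sum_insert hi, Polynomial.coe_add, add_mul, cf_add, cf_monomial_mul, ih,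
      Finset.sum_insert hi]

theorem sum_cf_le {f : PowerSeries ℂ}
    (hf : ∀ N, ∑ m ∈ Finset.range N, ‖PowerSeries.coeff m f‖ ^ 2 ≤ 1) (Z : Finset ℤ) :
    ∑ k ∈ Z, ‖cf f k‖ ^ 2 ≤ 1 := by
  classical
  have h1 : ∑ k ∈ Z, ‖cf f k‖ ^ 2 = ∑ k ∈ Z.filter (fun k => 0 ≤ k), ‖cf f k‖ ^ 2 := by
    rw [Finset.sum_filter]
    refine Finset.sum_congr rfl fun k _ => ?_
    split_ifs with h
    · rfl
    · rw [cf_neg f (by omega)]; simp
  obtain ⟨N, hN⟩ : ∃ N : ℕ, ∀ k ∈ Z.filter (fun k => 0 ≤ k), k.toNat < N := by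
    refine ⟨(Z.filter (fun k => 0 ≤ k)).sup Int.toNat + 1, fun k hk => ?_⟩
    have := Finset.le_sup (f := Int.toNat) hk
    omega
  have h2 : ∑ k ∈ Z.filter (fun k => 0 ≤ k), ‖cf f k‖ ^ 2 =
      ∑ m ∈ (Z.filter (fun k => 0 ≤ k)).image Int.toNat, ‖PowerSeries.coeff m f‖ ^ 2 := by
    rw [Finset.sum_image]
    · refine Finset.sum_congr rfl fun k hk => ?_
      unfold cf
      rw [if_pos (Finset.mem_filter.mp hk).2]
    · intro k hk l hl h
      have h3 := (Finset.mem_filter.mp (Finset.mem_coe.mp hk)).2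
      have h4 := (Finset.mem_filter.mp (Finset.mem_coe.mp hl)).2
      have h5 : k.toNat = l.toNat := h
      omega
  rw [h1, h2]
  refine le_trans (Finset.sum_le_sum_of_subset_of_nonneg ?_ fun _ _ _ => sq_nonneg _) (hf N)
  intro m hm
  obtain ⟨k, hk, rfl⟩ := Finset.mem_image.mp hm
  exact Finset.mem_range.mpr (hN k hk)

variable {n : ℕ}

/-- the first Laurent polynomial -/
noncomputable def la (F : MvPolynomial (Fin n) ℤ) (w : Fin n → ℤ) :
    AddMonoidAlgebra ℂ (Fin n → ℤ) :=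
  ∑ m ∈ F.support, AddMonoidAlgebra.single (iot m - w) ((F.coeff m : ℤ) : ℂ)

/-- the second Laurent polynomial -/
noncomputable def lb (F : MvPolynomial (Fin n) ℤ) (w : Fin n → ℤ) :
    AddMonoidAlgebra ℂ (Fin n → ℤ) :=
  ∑ m ∈ F.support, AddMonoidAlgebra.single (w - iot m) ((F.coeff m : ℤ) : ℂ)

theorem map_sp (F : MvPolynomial (Fin n) ℤ) (σ : (Fin n → ℤ) →+ ℤ) (c : ℤ) :
    (sp F σ c).map (Int.castRingHom ℂ) =
      ∑ m ∈ F.support, Polynomial.monomial (σ (iot m) - c).toNat ((F.coeff m : ℤ) : ℂ) := by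
  unfold sp
  rw [Polynomial.map_sum]
  refine Finset.sum_congr rfl fun m _ => ?_
  rw [Polynomial.map_monomial]
  rfl

theorem reflect_sum {ι : Type*} (s : Finset ι) (d : ι → ℕ) (c : ι → ℂ) (N : ℕ)
    (hd : ∀ i ∈ s, d i ≤ N) :
    Polynomial.reflect N (∑ i ∈ s, Polynomial.monomial (d i) (c i)) =
      ∑ i ∈ s, Polynomial.monomial (N - d i) (c i) := by
  classical
  induction s using Finset.induction_on with
  | empty => simp
  | insert i s hi ih =>
    rw [Finset.sum_insert hi, Finset.sum_insert hi, Polynomial.reflect_add,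
      ih fun j hj => hd j (Finset.mem_insert_of_mem hj)]
    congr 1
    rw [← Polynomial.C_mul_X_pow_eq_monomial, Polynomial.reflect_C_mul_X_pow,
      Polynomial.revAt_le (hd i (Finset.mem_insert_self _ _)),
      Polynomial.C_mul_X_pow_eq_monomial]

/-- the level `T` solution -/
theorem level {F : MvPolynomial (Fin n) ℤ} {m0 m1 : Fin n →₀ ℕ}
    (hm0 : m0 ∈ F.support) (hm1 : m1 ∈ F.support) {σ : (Fin n → ℤ) →+ ℤ}
    (hg : Good F σ (σ (iot m0))) (hmax : ∀ m ∈ F.support, σ (iot m) ≤ σ (iot m1)) :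
    ∃ p : ((Fin n → ℤ) → ℂ) × ((Fin n → ℤ) → ℂ),
      conv (la F (iot m0)) p.2 = conv (lb F (iot m1)) p.1 ∧
      (∀ x, σ x < 0 → p.1 x = 0 ∧ p.2 x = 0) ∧
      (∀ S : Finset (Fin n → ℤ), (∀ x ∈ S, ∀ y ∈ S, σ x = σ y → x = y) →
        ∑ x ∈ S, ‖p.1 x‖ ^ 2 ≤ 1 ∧ ∑ x ∈ S, ‖p.2 x‖ ^ 2 ≤ 1) ∧
      ‖p.2 0‖ * ((sp F σ (σ (iot m0))).map (Int.castRingHom ℂ)).mahlerMeasure =
        ‖((F.coeff m1 : ℤ) : ℂ)‖ := by
  obtain ⟨c, hc⟩ : ∃ c, c = σ (iot m0) := ⟨_, rfl⟩
  rw [← hc] at hg ⊢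
  let P : Polynomial ℝ := (sp F σ c).map (Int.castRingHom ℝ)
  have hP : P.map (algebraMap ℝ ℂ) = (sp F σ c).map (Int.castRingHom ℂ) := by
    change ((sp F σ c).map (Int.castRingHom ℝ)).map (algebraMap ℝ ℂ) = _
    rw [Polynomial.map_map]
    congr 1
  have hcoeff : ∀ m ∈ F.support, P.coeff (σ (iot m) - c).toNat = ((F.coeff m : ℤ) : ℝ) := by
    intro m hm
    change ((sp F σ c).map (Int.castRingHom ℝ)).coeff _ = _
    rw [Polynomial.coeff_map, sp_coeff hg hm]
    rfl
  have h0 : P.coeff 0 ≠ 0 := by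
    have := hcoeff m0 hm0
    rw [← hc, sub_self, Int.toNat_zero] at this
    rw [this]
    exact_mod_cast MvPolynomial.mem_support_iff.mp hm0
  have hdeg : P.natDegree = (σ (iot m1) - c).toNat := by
    refine le_antisymm ?_ ?_
    · rw [Polynomial.natDegree_le_iff_coeff_eq_zero]
      intro N hN
      change ((sp F σ c).map (Int.castRingHom ℝ)).coeff _ = _
      rw [Polynomial.coeff_map]
      unfold sp
      rw [Polynomial.finsetSum_coeff, Finset.sum_eq_zero, map_zero]
      intro m hm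
      rw [Polynomial.coeff_monomial, if_neg]
      have := hmax m hm
      omega
    · refine Polynomial.le_natDegree_of_ne_zero ?_
      rw [hcoeff m1 hm1]
      exact_mod_cast MvPolynomial.mem_support_iff.mp hm1
  have hlead : P.leadingCoeff = ((F.coeff m1 : ℤ) : ℝ) := by
    unfold Polynomial.leadingCoeff
    rw [hdeg, hcoeff m1 hm1]
  obtain ⟨g, h, heq, hg1, hh1, hM⟩ := oneVar P h0
  rw [hP] at heq hM
  refine ⟨(fun x => cf g (σ x), fun x => cf h (σ x)), ?_, ?_, ?_, ?_⟩
  · funext x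
    change conv (la F (iot m0)) (fun x => cf h (σ x)) x =
      conv (lb F (iot m1)) (fun x => cf g (σ x)) x
    unfold la lb
    rw [conv_sum, conv_sum]
    have h1 : cf _ (σ x) = cf _ (σ x) := congrArg (fun f => cf f (σ x)) heq
    have hrev : ((sp F σ c).map (Int.castRingHom ℂ)).reverse =
        ∑ m ∈ F.support, Polynomial.monomial ((σ (iot m1) - c).toNat - (σ (iot m) - c).toNat)
          ((F.coeff m : ℤ) : ℂ) := by
      unfold Polynomial.reverse
      have hd : ((sp F σ c).map (Int.castRingHom ℂ)).natDegree = (σ (iot m1) - c).toNat := by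
        rw [← hP, Polynomial.natDegree_map_eq_of_injective (algebraMap ℝ ℂ).injective, hdeg]
      rw [hd, map_sp, reflect_sum]
      intro m hm
      have := hmax m hm
      omega
    rw [hrev, map_sp, cf_sum_mul, cf_sum_mul] at h1
    convert h1 using 1
    · refine Finset.sum_congr rfl fun m hm => ?_
      congr 2
      rw [map_sub, map_sub, ← hc, Int.toNat_of_nonneg (by have := hg.le m hm; omega)]
    · refine Finset.sum_congr rfl fun m hm => ?_
      congr 2
      have h2 := hg.le m hm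
      have h3 := hmax m hm
      rw [map_sub, map_sub]
      omega
  · intro x hx
    exact ⟨cf_neg g hx, cf_neg h hx⟩
  · intro S hS
    have key : ∀ f : PowerSeries ℂ, (∀ N, ∑ m ∈ Finset.range N, ‖PowerSeries.coeff m f‖ ^ 2 ≤ 1) →
        ∑ x ∈ S, ‖cf f (σ x)‖ ^ 2 ≤ 1 := by
      intro f hf
      have h1 := sum_cf_le hf (S.image σ)
      rwa [Finset.sum_image (fun x hx y hy hxy => hS x hx y hy hxy)] at h1
    exact ⟨key g hg1, key h hh1⟩
  · change ‖cf h (σ 0)‖ * _ = _
    have h1 : cf h (σ 0) = PowerSeries.coeff 0 h := by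
      rw [map_zero]
      exact cf_natCast h 0
    rw [h1, hM, hlead]
    simp

end Pool.Agent.H87.MM
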