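import Pool.Agent.H87.MM.Lim

/-!
# The limit solution (continued)
-/

set_option autoImplicit false

open MeasureTheory Filter Topology

namespace Pool.Agent.H87.MM

theorem exists_ulim {ι : Type*} (𝒰 : Ultrafilter ι) (u : ι → ℂ)
    (hu : ∀ᶠ i in (𝒰 : Filter ι), ‖u i‖ ≤ 1) :
    ∃ y, Tendsto u (𝒰 : Filter ι) (𝓝 y) := by
  have h := (isCompact_closedBall (0 : ℂ) 1).ultrafilter_le_nhds (𝒰.map u) (by
    rw [le_principal_iff, Ultrafilter.coe_map, Filter.mem_map]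
    filter_upwards [hu] with i hi
    simpa using hi)
  obtain ⟨y, _, hy⟩ := h
  exact ⟨y, hy⟩

variable {n : ℕ}

theorem la_coeff_ne {F : MvPolynomial (Fin n) ℤ} {w y : Fin n → ℤ} (h : (la F w).coeff y ≠ 0) :
    ∃ m ∈ F.support, iot m - w = y := coeff_sum_ne _ _ _ h

theorem lb_coeff_ne {F : MvPolynomial (Fin n) ℤ} {w y : Fin n → ℤ} (h : (lb F w).coeff y ≠ 0) :
    ∃ m ∈ F.support, w - iot m = y := coeff_sum_ne _ _ _ h

theorem la_coeff {F : MvPolynomial (Fin n) ℤ} {w : Fin n → ℤ} {m : Fin n →₀ ℕ}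
    (hm : m ∈ F.support) : (la F w).coeff (iot m - w) = ((F.coeff m : ℤ) : ℂ) :=
  coeff_sum_eq _ (fun m => iot m - w) _ hm fun _ _ h => iot_injective (sub_left_injective h)

theorem lb_coeff {F : MvPolynomial (Fin n) ℤ} {w : Fin n → ℤ} {m : Fin n →₀ ℕ}
    (hm : m ∈ F.support) : (lb F w).coeff (w - iot m) = ((F.coeff m : ℤ) : ℂ) :=
  coeff_sum_eq _ (fun m => w - iot m) _ hm fun _ _ h => iot_injective (sub_right_injective h)

theorem exists_sol {F : MvPolynomial (Fin n) ℤ} {m0 m1 : Fin n →₀ ℕ}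
    (hm0 : m0 ∈ F.support) (hm1 : m1 ∈ F.support)
    (hmin : ∀ m ∈ F.support, rho n (iot m0) ≤ rho n (iot m))
    (hmax : ∀ m ∈ F.support, rho n (iot m) ≤ rho n (iot m1)) :
    ∃ g h : (Fin n → ℤ) → ℂ, Sol (rho n) (la F (iot m0)) (lb F (iot m1)) g h ∧
      ∑' x, ‖g x‖ ^ 2 ≤ 1 ∧ ∑' x, ‖h x‖ ^ 2 ≤ 1 ∧
      ‖((F.coeff m1 : ℤ) : ℂ)‖ * Real.exp (-mm F) ≤ ‖h 0‖ := by
  classical
  have hF : F ≠ 0 := by
    rintro rfl
    simp at hm0
  have hmax' : ∀ᶠ T in atTop, ∀ m ∈ F.support, sg n T (iot m) ≤ sg n T (iot m1) := by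
    rw [Filter.eventually_all_finset]
    intro m hm
    have h2 : 0 ≤ rho n (iot m1 - iot m) := by
      rw [map_sub]; linarith [hmax m hm]
    filter_upwards [sg_nonneg h2] with T hT
    rw [map_sub] at hT
    linarith
  have hlev : ∀ᶠ T in atTop, ∃ p : ((Fin n → ℤ) → ℂ) × ((Fin n → ℤ) → ℂ),
      conv (la F (iot m0)) p.2 = conv (lb F (iot m1)) p.1 ∧
      (∀ x, sg n T x < 0 → p.1 x = 0 ∧ p.2 x = 0) ∧
      (∀ S : Finset (Fin n → ℤ), (∀ x ∈ S, ∀ y ∈ S, sg n T x = sg n T y → x = y) →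
        ∑ x ∈ S, ‖p.1 x‖ ^ 2 ≤ 1 ∧ ∑ x ∈ S, ‖p.2 x‖ ^ 2 ≤ 1) ∧
      ‖p.2 0‖ * ((sp F (sg n T) (sg n T (iot m0))).map (Int.castRingHom ℂ)).mahlerMeasure =
        ‖((F.coeff m1 : ℤ) : ℂ)‖ := by
    filter_upwards [good_eventually hmin, hmax'] with T hT hT'
    exact level hm0 hm1 hT hT'
  obtain ⟨p, hp⟩ := hlev.choice
  obtain ⟨𝒰, h𝒰⟩ : ∃ 𝒰 : Ultrafilter ℕ, (𝒰 : Filter ℕ) ≤ atTop :=
    ⟨hyperfilter ℕ, Nat.hyperfilter_le_atTop⟩
  have hp' := h𝒰 hp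
  have hp'' : ∀ᶠ T in (𝒰 : Filter ℕ), conv (la F (iot m0)) (p T).2 = conv (lb F (iot m1)) (p T).1 ∧
      (∀ x, sg n T x < 0 → (p T).1 x = 0 ∧ (p T).2 x = 0) ∧
      (∀ S : Finset (Fin n → ℤ), (∀ x ∈ S, ∀ y ∈ S, sg n T x = sg n T y → x = y) →
        ∑ x ∈ S, ‖(p T).1 x‖ ^ 2 ≤ 1 ∧ ∑ x ∈ S, ‖(p T).2 x‖ ^ 2 ≤ 1) ∧
      ‖(p T).2 0‖ * ((sp F (sg n T) (sg n T (iot m0))).map (Int.castRingHom ℂ)).mahlerMeasure =
        ‖((F.coeff m1 : ℤ) : ℂ)‖ := hp'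
  -- bounds
  have hsq1 : ∀ {r : ℝ}, 0 ≤ r → r ^ 2 ≤ 1 → r ≤ 1 := by
    intro r hr h
    nlinarith
  have hb : ∀ x, ∀ᶠ T in (𝒰 : Filter ℕ), ‖(p T).1 x‖ ≤ 1 ∧ ‖(p T).2 x‖ ≤ 1 := by
    intro x
    filter_upwards [hp''] with T hT
    have h1 := hT.2.2.1 {x} (by
      intro a ha b hb _
      rw [Finset.mem_singleton.mp ha, Finset.mem_singleton.mp hb])
    rw [Finset.sum_singleton, Finset.sum_singleton] at h1
    exact ⟨hsq1 (norm_nonneg _) h1.1, hsq1 (norm_nonneg _) h1.2⟩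
  have hgl : ∀ x, ∃ y, Tendsto (fun T => (p T).1 x) (𝒰 : Filter ℕ) (𝓝 y) := fun x =>
    exists_ulim 𝒰 _ ((hb x).mono fun T hT => hT.1)
  have hhl : ∀ x, ∃ y, Tendsto (fun T => (p T).2 x) (𝒰 : Filter ℕ) (𝓝 y) := fun x =>
    exists_ulim 𝒰 _ ((hb x).mono fun T hT => hT.2)
  choose g hg using hgl
  choose h hh using hhl
  -- partial sums
  have hinjS : ∀ S : Finset (Fin n → ℤ), ∀ᶠ T in (𝒰 : Filter ℕ),
      ∀ x ∈ S, ∀ y ∈ S, sg n T x = sg n T y → x = y := by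
    intro S
    have h0 : ∀ᶠ T in atTop, ∀ x ∈ S, ∀ y ∈ S, sg n T x = sg n T y → x = y := by
      rw [Filter.eventually_all_finset]
      intro x _
      rw [Filter.eventually_all_finset]
      intro y _
      by_cases hxy : x = y
      · exact Eventually.of_forall fun T _ => hxy
      · filter_upwards [sg_ne (sub_ne_zero.mpr hxy)] with T hT h5
        rw [map_sub, h5, sub_self] at hT
        exact absurd rfl hT
    exact h𝒰 h0
  have hsum : ∀ S : Finset (Fin n → ℤ), ∑ x ∈ S, ‖g x‖ ^ 2 ≤ 1 ∧ ∑ x ∈ S, ‖h x‖ ^ 2 ≤ 1 := by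
    intro S
    have t1 : Tendsto (fun T => ∑ x ∈ S, ‖(p T).1 x‖ ^ 2) (𝒰 : Filter ℕ)
        (𝓝 (∑ x ∈ S, ‖g x‖ ^ 2)) :=
      tendsto_finsetSum _ fun x _ => (hg x).norm.pow 2
    have t2 : Tendsto (fun T => ∑ x ∈ S, ‖(p T).2 x‖ ^ 2) (𝒰 : Filter ℕ)
        (𝓝 (∑ x ∈ S, ‖h x‖ ^ 2)) :=
      tendsto_finsetSum _ fun x _ => (hh x).norm.pow 2
    refine ⟨le_of_tendsto t1 ?_, le_of_tendsto t2 ?_⟩
    · filter_upwards [hp'', hinjS S] with T hT hT'
      exact (hT.2.2.1 S hT').1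
    · filter_upwards [hp'', hinjS S] with T hT hT'
      exact (hT.2.2.1 S hT').2
  have sg' : Sq g := summable_of_sum_le (fun x => sq_nonneg _) fun S => (hsum S).1
  have sh' : Sq h := summable_of_sum_le (fun x => sq_nonneg _) fun S => (hsum S).2
  have hneg : ∀ x, rho n x < 0 → g x = 0 ∧ h x = 0 := by
    intro x hx
    have h1 : ∀ᶠ T in (𝒰 : Filter ℕ), sg n T x < 0 := h𝒰 (sg_neg hx)
    constructor
    · refine tendsto_nhds_unique (hg x) (tendsto_const_nhds.congr' ?_)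
      filter_upwards [hp'', h1] with T hT hT'
      exact (hT.2.1 x hT').1.symm
    · refine tendsto_nhds_unique (hh x) (tendsto_const_nhds.congr' ?_)
      filter_upwards [hp'', h1] with T hT hT'
      exact (hT.2.1 x hT').2.symm
  refine ⟨g, h, ⟨rho_injective, ?_, ?_, ?_, fun x hx => (hneg x hx).1, fun x hx => (hneg x hx).2,
    sg', sh', ?_⟩, ?_, ?_, ?_⟩
  · intro y hy
    obtain ⟨m, hm, rfl⟩ := la_coeff_ne hy
    rw [map_sub]
    linarith [hmin m hm]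
  · intro y hy
    obtain ⟨m, hm, rfl⟩ := lb_coeff_ne hy
    rw [map_sub]
    linarith [hmax m hm]
  · have h1 := lb_coeff (w := iot m1) hm1
    rw [sub_self] at h1
    rw [h1]
    exact_mod_cast MvPolynomial.mem_support_iff.mp hm1
  · funext x
    have t1 : Tendsto (fun T => conv (la F (iot m0)) (p T).2 x) (𝒰 : Filter ℕ)
        (𝓝 (conv (la F (iot m0)) h x)) := by
      simp only [conv_eq_sum]
      exact tendsto_finsetSum _ fun y _ => (hh (x - y)).const_mul _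
    have t2 : Tendsto (fun T => conv (lb F (iot m1)) (p T).1 x) (𝒰 : Filter ℕ)
        (𝓝 (conv (lb F (iot m1)) g x)) := by
      simp only [conv_eq_sum]
      exact tendsto_finsetSum _ fun y _ => (hg (x - y)).const_mul _
    refine tendsto_nhds_unique t1 (t2.congr' ?_)
    filter_upwards [hp''] with T hT
    rw [hT.1]
  · exact Real.tsum_le_of_sum_le (fun x => sq_nonneg _) fun S => (hsum S).1
  · exact Real.tsum_le_of_sum_le (fun x => sq_nonneg _) fun S => (hsum S).2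
  · -- the constant term
    have key : ∀ ε > 0, ‖((F.coeff m1 : ℤ) : ℂ)‖ * Real.exp (-(mm F + ε)) ≤ ‖h 0‖ := by
      intro ε hε
      refine ge_of_tendsto (hh 0).norm ?_
      filter_upwards [hp'', h𝒰 (log_sp_le hF hmin hε), h𝒰 (good_eventually hmin)] with T hT hT' hT2
      obtain ⟨P, hP⟩ : ∃ P, P = (sp F (sg n T) (sg n T (iot m0))).map (Int.castRingHom ℂ) :=
        ⟨_, rfl⟩
      rw [← hP] at hT hT'
      have hP0 : P ≠ 0 := by
        rw [hP]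
        exact (Polynomial.map_ne_zero_iff (Int.cast_injective)).mpr (sp_ne_zero hT2 hF)
      have h1 := hT.2.2.2
      rw [Polynomial.mahlerMeasure_def_of_ne_zero hP0] at h1
      rw [← h1, mul_assoc, ← Real.exp_add]
      have h2 : Real.exp (P.logMahlerMeasure + -(mm F + ε)) ≤ 1 := by
        rw [Real.exp_le_one_iff]
        linarith
      calc ‖(p T).2 0‖ * Real.exp (P.logMahlerMeasure + -(mm F + ε)) ≤ ‖(p T).2 0‖ * 1 :=
            mul_le_mul_of_nonneg_left h2 (norm_nonneg _)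
        _ = _ := mul_one _
    have t3 : Tendsto (fun ε : ℝ => ‖((F.coeff m1 : ℤ) : ℂ)‖ * Real.exp (-(mm F + ε))) (𝓝[>] 0)
        (𝓝 (‖((F.coeff m1 : ℤ) : ℂ)‖ * Real.exp (-(mm F + 0)))) := by
      refine Tendsto.mono_left ?_ nhdsWithin_le_nhds
      exact (Continuous.tendsto (by fun_prop) 0)
    rw [add_zero] at t3
    refine le_of_tendsto t3 ?_
    filter_upwards [self_mem_nhdsWithin] with ε hε
    exact key ε hε

end Pool.Agent.H87.MM
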