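import Pool.Agent.H87.MM.Spz
import Pool.Agent.H87.MM.Dual

/-!
# Bound for the minors of the relation lattice
-/

set_option autoImplicit false

open Finset

namespace Pool.Agent.H87.MM

variable {d : ℕ} {G : Type} [AddCommGroup G]

/-- index type of the relations in a box -/
abbrev Ix (u : Fin d →₀ ℕ) : Type := ↥(Iic u) ⊕ ↥(Iic u)

/-- the embedding -/
def fi (σ : (Fin d → ℤ) →+ G) (z1 z2 : G) (u : Fin d →₀ ℕ) : Ix u → G ⊕ G :=
  Sum.map (fun m => σ (iot (m : Fin d →₀ ℕ)) + z1) (fun m => σ (iot (m : Fin d →₀ ℕ)) + z2)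

theorem sum_coe_Iic {M : Type*} [AddCommMonoid M] (u : Fin d →₀ ℕ) (f : (Fin d →₀ ℕ) → M) :
    ∑ m : ↥(Iic u), f m = ∑ m ∈ Iic u, f m :=
  sum_coe_sort (Iic u) f

theorem SP_box (σ : (Fin d → ℤ) →+ G) {P : MvPolynomial (Fin d) ℤ} {u : Fin d →₀ ℕ}
    (hP : ∀ m ∈ P.support, m ≤ u) :
    SP σ P = ∑ m ∈ Iic u, AddMonoidAlgebra.single (σ (iot m)) ((P.coeff m : ℤ) : ℂ) := by
  rw [SP_eq_sum]
  refine sum_subset (fun m hm => mem_Iic.mpr (hP m hm)) fun m _ hm => ?_
  rw [MvPolynomial.notMem_support_iff.mp hm]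
  simp

theorem lin_eq (σ : (Fin d → ℤ) →+ G) (z1 z2 : G) (a b : AddMonoidAlgebra ℂ G) {u : Fin d →₀ ℕ}
    {A B : MvPolynomial (Fin d) ℤ} (hA : ∀ m ∈ A.support, m ≤ u) (hB : ∀ m ∈ B.support, m ≤ u)
    (c : Ix u → ℤ) (hc1 : ∀ m : ↥(Iic u), c (Sum.inl m) = A.coeff m)
    (hc2 : ∀ m : ↥(Iic u), c (Sum.inr m) = B.coeff m) :
    ∑ i, (c i : ℂ) • DD a b (fi σ z1 z2 u i) =
      SP σ A * (AddMonoidAlgebra.single z1 1 * b) - SP σ B * (AddMonoidAlgebra.single z2 1 * a) := by
  rw [Fintype.sum_sum_type, SP_box σ hA, SP_box σ hB, Finset.sum_mul, Finset.sum_mul,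
    ← sum_coe_Iic u, ← sum_coe_Iic u, sub_eq_add_neg, ← sum_neg_distrib]
  congr 1
  · refine sum_congr rfl fun m _ => ?_
    rw [hc1]
    unfold fi DD
    rw [Sum.map_inl, Sum.elim_inl, ← smul_mul_assoc, ← mul_assoc,
      AddMonoidAlgebra.single_mul_single, AddMonoidAlgebra.smul_single, smul_eq_mul, mul_one]
  · refine sum_congr rfl fun m _ => ?_
    rw [hc2]
    unfold fi DD
    rw [Sum.map_inr, Sum.elim_inr, smul_neg, ← smul_mul_assoc, ← mul_assoc,
      AddMonoidAlgebra.single_mul_single, AddMonoidAlgebra.smul_single, smul_eq_mul, mul_one]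

/-- the basis of the relations -/
noncomputable def Lam (A B : MvPolynomial (Fin d) ℤ) (u : Fin d →₀ ℕ) (s : Fin d →₀ ℕ) :
    Ix u → ℤ :=
  Sum.elim (fun m => (MvPolynomial.monomial s 1 * A).coeff (m : Fin d →₀ ℕ))
    (fun m => (MvPolynomial.monomial s 1 * B).coeff (m : Fin d →₀ ℕ))

/-- index type of the basic relations -/
abbrev Kx (A B : MvPolynomial (Fin d) ℤ) (u : Fin d →₀ ℕ) : Type := ↥(Iic (u - (dg A ⊔ dg B)))

/-- the square blocks of the relation matrix -/
noncomputable def LM (A B : MvPolynomial (Fin d) ℤ) (u : Fin d →₀ ℕ) (Y : Kx A B u → ↥(Iic u)) :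
    Matrix (Kx A B u) (Kx A B u) ℤ :=
  Matrix.of fun s s' => Lam A B u (s : Fin d →₀ ℕ) (Sum.inr (Y s'))

theorem supp_mul_le {P Q : MvPolynomial (Fin d) ℤ} {u v : Fin d →₀ ℕ}
    (hP : ∀ m ∈ P.support, m ≤ u) (hQ : ∀ m ∈ Q.support, m ≤ v) :
    ∀ m ∈ (P * Q).support, m ≤ u + v := by
  classical
  intro m hm
  obtain ⟨a, ha, b, hb, rfl⟩ := mem_add.mp (MvPolynomial.support_mul P Q hm)
  exact add_le_add (hP a ha) (hQ b hb)

theorem supp_sub_le {P Q : MvPolynomial (Fin d) ℤ} {u : Fin d →₀ ℕ}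
    (hP : ∀ m ∈ P.support, m ≤ u) (hQ : ∀ m ∈ Q.support, m ≤ u) :
    ∀ m ∈ (P - Q).support, m ≤ u := by
  classical
  intro m hm
  rcases mem_union.mp (MvPolynomial.support_sub _ P Q hm) with h | h
  · exact hP m h
  · exact hQ m h

theorem supp_mono_le {A : MvPolynomial (Fin d) ℤ} {u w s : Fin d →₀ ℕ} (hw : w ≤ u)
    (hA : ∀ m ∈ A.support, m ≤ w) (hs : s ≤ u - w) :
    ∀ m ∈ (MvPolynomial.monomial s (1 : ℤ) * A).support, m ≤ u := by
  intro m hm
  have h1 := supp_mul_le (P := MvPolynomial.monomial s (1 : ℤ)) (Q := A) (u := s) (v := w)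
    (fun m' hm' => by
      have := MvPolynomial.support_monomial_subset hm'
      rw [mem_singleton] at this
      exact this.le) hA m hm
  refine h1.trans ?_
  calc s + w ≤ (u - w) + w := add_le_add_left hs w
    _ = u := tsub_add_cancel_of_le hw

section level

variable [NoZeroDivisors (AddMonoidAlgebra ℂ G)] (σ : (Fin d → ℤ) →+ G) (z1 z2 : G)
  {a b : AddMonoidAlgebra ℂ G} {A B : MvPolynomial (Fin d) ℤ}

/-- all relations in a box are combinations of the basic ones -/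
theorem rel_box (ha : a ≠ 0) (hA : A ≠ 0) (hB : B ≠ 0) (hcop : IsRelPrime A B)
    (hrel : SP σ A * (AddMonoidAlgebra.single z1 1 * b) =
      SP σ B * (AddMonoidAlgebra.single z2 1 * a)) {u : Fin d →₀ ℕ}
    (hσ : ∀ m ≤ u + (dg A ⊔ dg B), ∀ m' ≤ u + (dg A ⊔ dg B), σ (iot m) = σ (iot m') → m = m')
    (c : Ix u → ℤ) (hc : ∑ i, (c i : ℂ) • DD a b (fi σ z1 z2 u i) = 0) :
    ∃ x : ↥(Iic (u - (dg A ⊔ dg B))) → ℤ, ∀ i, c i = ∑ s, x s * Lam A B u s i := by
  classical
  have hdA : ∀ m ∈ A.support, m ≤ dg A ⊔ dg B := fun m hm => (le_dg hm).trans le_sup_left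
  have hdB : ∀ m ∈ B.support, m ≤ dg A ⊔ dg B := fun m hm => (le_dg hm).trans le_sup_right
  obtain ⟨A', hA'⟩ : ∃ A' : MvPolynomial (Fin d) ℤ, A' = ∑ m : ↥(Iic u),
      MvPolynomial.monomial (m : Fin d →₀ ℕ) (c (Sum.inl m)) := ⟨_, rfl⟩
  obtain ⟨B', hB'⟩ : ∃ B' : MvPolynomial (Fin d) ℤ, B' = ∑ m : ↥(Iic u),
      MvPolynomial.monomial (m : Fin d →₀ ℕ) (c (Sum.inr m)) := ⟨_, rfl⟩
  have hcoef : ∀ (f : ↥(Iic u) → ℤ) (m : ↥(Iic u)), (∑ m : ↥(Iic u),
      MvPolynomial.monomial (m : Fin d →₀ ℕ) (f m)).coeff (m : Fin d →₀ ℕ) = f m := by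
    intro f m
    rw [MvPolynomial.coeff_sum, sum_eq_single m]
    · rw [MvPolynomial.coeff_monomial, if_pos rfl]
    · intro m' _ hne
      rw [MvPolynomial.coeff_monomial, if_neg (fun h => hne (Subtype.ext h))]
    · intro h; exact absurd (mem_univ _) h
  have hsup : ∀ (f : ↥(Iic u) → ℤ), ∀ m ∈ (∑ m : ↥(Iic u),
      MvPolynomial.monomial (m : Fin d →₀ ℕ) (f m)).support, m ≤ u := by
    intro f m hm
    obtain ⟨m', _, hm'⟩ := mem_biUnion.mp (MvPolynomial.support_sum hm)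
    have := MvPolynomial.support_monomial_subset hm'
    rw [mem_singleton] at this
    rw [this]
    exact mem_Iic.mp m'.2
  have hsA : ∀ m ∈ A'.support, m ≤ u := by rw [hA']; exact hsup _
  have hsB : ∀ m ∈ B'.support, m ≤ u := by rw [hB']; exact hsup _
  have h1 := lin_eq σ z1 z2 a b hsA hsB c (fun m => by rw [hA', hcoef fun m => c (Sum.inl m)])
    (fun m => by rw [hB', hcoef fun m => c (Sum.inr m)])
  rw [hc] at h1
  have h1' := sub_eq_zero.mp h1.symm
  have hne2 : AddMonoidAlgebra.single z2 (1 : ℂ) * a ≠ 0 := by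
    refine mul_ne_zero ?_ ha
    intro h
    have := congrArg (fun x => x.coeff z2) h
    simp at this
  have h2 : SP σ (A' * B - A * B') = 0 := by
    have h3 : SP σ (A' * B - A * B') * (AddMonoidAlgebra.single z2 1 * a) = 0 := by
      rw [map_sub, map_mul, map_mul, sub_mul]
      calc SP σ A' * SP σ B * (AddMonoidAlgebra.single z2 1 * a) -
            SP σ A * SP σ B' * (AddMonoidAlgebra.single z2 1 * a)
          = SP σ A' * (SP σ B * (AddMonoidAlgebra.single z2 1 * a)) -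
            SP σ A * (SP σ B' * (AddMonoidAlgebra.single z2 1 * a)) := by ring
        _ = 0 := by rw [← hrel, ← h1']; ring
    exact (mul_eq_zero.mp h3).resolve_right hne2
  have h3 : A' * B = A * B' := by
    by_contra hne
    refine SP_ne_zero σ (sub_ne_zero.mpr hne) ?_ h2
    have hs : ∀ m ∈ (A' * B - A * B').support, m ≤ u + (dg A ⊔ dg B) :=
      supp_sub_le (supp_mul_le hsA hdB) (by
        rw [add_comm]
        exact supp_mul_le hdA hsB)
    exact fun m hm m' hm' h => hσ m (hs m hm) m' (hs m' hm') h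
  have h4 : A ∣ A' := hcop.dvd_of_dvd_mul_right (h3 ▸ dvd_mul_right A B')
  obtain ⟨c', hc'⟩ := h4
  have h5 : B' = B * c' := by
    have h6 : A * B' = A * (B * c') := by rw [← h3, hc']; ring
    exact mul_left_cancel₀ hA h6
  have hdeg : ∀ m ∈ c'.support, m ≤ u - (dg A ⊔ dg B) := by
    intro m hm
    have hc0 : c' ≠ 0 := by
      rintro rfl
      simp at hm
    intro i
    have e1 : A'.degreeOf i ≤ u i := (MvPolynomial.degreeOf_le_iff).mpr fun m hm => hsA m hm i
    have e2 : B'.degreeOf i ≤ u i := (MvPolynomial.degreeOf_le_iff).mpr fun m hm => hsB m hm i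
    rw [hc', MvPolynomial.degreeOf_mul_eq hA hc0] at e1
    rw [h5, MvPolynomial.degreeOf_mul_eq hB hc0] at e2
    have e3 := MvPolynomial.le_degreeOf_of_mem_support i hm
    have e4 : (dg A ⊔ dg B) i = max (A.degreeOf i) (B.degreeOf i) := rfl
    rw [Finsupp.tsub_apply, e4]
    omega
  have hcsum : c' = ∑ s : ↥(Iic (u - (dg A ⊔ dg B))),
      MvPolynomial.C (c'.coeff (s : Fin d →₀ ℕ)) * MvPolynomial.monomial (s : Fin d →₀ ℕ) 1 := by
    conv_lhs => rw [c'.as_sum]
    have e1 : ∑ s : ↥(Iic (u - (dg A ⊔ dg B))),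
        MvPolynomial.C (c'.coeff (s : Fin d →₀ ℕ)) * MvPolynomial.monomial (s : Fin d →₀ ℕ) (1 : ℤ) =
        ∑ s ∈ Iic (u - (dg A ⊔ dg B)), MvPolynomial.monomial s (c'.coeff s) := by
      rw [← sum_coe_Iic]
      refine sum_congr rfl fun s _ => ?_
      rw [MvPolynomial.C_mul_monomial, mul_one]
    rw [e1]
    refine sum_subset (fun m hm => mem_Iic.mpr (hdeg m hm)) fun m _ hm => ?_
    rw [MvPolynomial.notMem_support_iff.mp hm, MvPolynomial.monomial_zero]
  refine ⟨fun s => c'.coeff (s : Fin d →₀ ℕ), fun i => ?_⟩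
  have hfin : ∀ (P : MvPolynomial (Fin d) ℤ) (m : Fin d →₀ ℕ), (P * c').coeff m =
      ∑ s : ↥(Iic (u - (dg A ⊔ dg B))), c'.coeff (s : Fin d →₀ ℕ) *
        (MvPolynomial.monomial (s : Fin d →₀ ℕ) 1 * P).coeff m := by
    intro P m
    conv_lhs => rw [hcsum, Finset.mul_sum, MvPolynomial.coeff_sum]
    refine sum_congr rfl fun s _ => ?_
    rw [show P * (MvPolynomial.C (c'.coeff (s : Fin d →₀ ℕ)) *
      MvPolynomial.monomial (s : Fin d →₀ ℕ) 1) = MvPolynomial.C (c'.coeff (s : Fin d →₀ ℕ)) *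
      (MvPolynomial.monomial (s : Fin d →₀ ℕ) 1 * P) by ring, MvPolynomial.coeff_C_mul]
  rcases i with m | m
  · have e1 : c (Sum.inl m) = A'.coeff (m : Fin d →₀ ℕ) := by
      rw [hA', hcoef fun m => c (Sum.inl m)]
    rw [e1, hc', hfin]
    rfl
  · have e1 : c (Sum.inr m) = B'.coeff (m : Fin d →₀ ℕ) := by
      rw [hB', hcoef fun m => c (Sum.inr m)]
    rw [e1, h5, hfin]
    rfl

omit [NoZeroDivisors (AddMonoidAlgebra ℂ G)] in
/-- the basic relations -/
theorem rel_basic (hrel : SP σ A * (AddMonoidAlgebra.single z1 1 * b) =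
      SP σ B * (AddMonoidAlgebra.single z2 1 * a)) {u : Fin d →₀ ℕ} (hu : dg A ⊔ dg B ≤ u)
    {s : Fin d →₀ ℕ} (hs : s ≤ u - (dg A ⊔ dg B)) :
    ∑ i, ((Lam A B u s i : ℤ) : ℂ) • DD a b (fi σ z1 z2 u i) = 0 := by
  rw [lin_eq σ z1 z2 a b (supp_mono_le hu (fun m hm => (le_dg hm).trans le_sup_left) hs)
    (supp_mono_le hu (fun m hm => (le_dg hm).trans le_sup_right) hs) (Lam A B u s)
    (fun m => rfl) (fun m => rfl), map_mul, map_mul, mul_assoc, mul_assoc, hrel, sub_self]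

end level

theorem minor_bound [NoZeroDivisors (AddMonoidAlgebra ℂ G)] {ρ : G →+ ℝ}
    {a b : AddMonoidAlgebra ℂ G} {g h : G → ℂ} {η : ℝ} (F : Fm ρ b h η (DD a b) (RR g h))
    (σ : (Fin d → ℤ) →+ G) (z1 z2 : G) {A B : MvPolynomial (Fin d) ℤ} (ha : a ≠ 0) (hA : A ≠ 0)
    (hB : B ≠ 0) (hcop : IsRelPrime A B)
    (hrel : SP σ A * (AddMonoidAlgebra.single z1 1 * b) =
      SP σ B * (AddMonoidAlgebra.single z2 1 * a)) {u : Fin d →₀ ℕ} (hu : dg A ⊔ dg B ≤ u)
    (hσ : ∀ m ≤ u + (dg A ⊔ dg B), ∀ m' ≤ u + (dg A ⊔ dg B), σ (iot m) = σ (iot m') → m = m')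
    (Y : Kx A B u → ↥(Iic u)) (hY : Function.Injective Y) :
    η ^ (2 * (Iic u).card - (Iic (u - (dg A ⊔ dg B))).card) *
      |(((LM A B u Y).det : ℤ) : ℝ)| ≤ 1 := by
  classical
  obtain ⟨w, hw⟩ : ∃ w, w = dg A ⊔ dg B := ⟨_, rfl⟩
  have hη := F.pos
  by_cases hdet0 : (LM A B u Y).det = 0
  · rw [hdet0]
    simp
  -- enumeration of the complement
  obtain ⟨y, hy⟩ : ∃ y : ↥(Iic (u - (dg A ⊔ dg B))) → Ix u, ∀ s, y s = Sum.inr (Y s) :=
    ⟨_, fun _ => rfl⟩
  have hyinj : Function.Injective y := by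
    intro s s' h
    rw [hy, hy] at h
    exact hY (Sum.inr_injective h)
  obtain ⟨O, hO⟩ : ∃ O : Finset (Ix u), O = univ \ univ.image y := ⟨_, rfl⟩
  obtain ⟨r, hr⟩ : ∃ r, r = 2 * (Iic u).card - (Iic (u - (dg A ⊔ dg B))).card := ⟨_, rfl⟩
  have hOcard : O.card = r := by
    rw [hO, card_sdiff_of_subset (subset_univ _), card_image_of_injective _ hyinj, card_univ,
      card_univ, Fintype.card_sum, Fintype.card_coe, Fintype.card_coe, hr]
    congr 1
    ring
  rw [← hr]
  obtain ⟨e'⟩ : Nonempty (Fin r ≃ O) := ⟨(O.equivFinOfCardEq hOcard).symm⟩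
  obtain ⟨e, he⟩ : ∃ e : Fin r → Ix u, ∀ l, e l = e' l := ⟨_, fun _ => rfl⟩
  have heinj : Function.Injective e := by
    intro l l' h
    rw [he, he] at h
    exact e'.injective (Subtype.ext h)
  have hey : ∀ l s, e l ≠ y s := by
    intro l s h
    have h1 := (e' l).2
    rw [← he, h, hO, mem_sdiff] at h1
    exact h1.2 (mem_image_of_mem y (mem_univ s))
  have hcov : ∀ i, (∃ l, e l = i) ∨ ∃ s, y s = i := by
    intro i
    by_cases hi : i ∈ univ.image y
    · obtain ⟨s, -, hs⟩ := mem_image.mp hi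
      exact Or.inr ⟨s, hs⟩
    · have hiO : i ∈ O := by rw [hO, mem_sdiff]; exact ⟨mem_univ _, hi⟩
      exact Or.inl ⟨e'.symm ⟨i, hiO⟩, by rw [he]; simp⟩
  have hsum : ∀ {M : Type} [AddCommMonoid M] (f : Ix u → M),
      ∑ i, f i = ∑ s, f (y s) + ∑ l, f (e l) := by
    intro M _ f
    have h1 : (univ : Finset (Ix u)) = univ.image y ∪ univ.image e := by
      ext i
      simp only [mem_univ, mem_union, mem_image, true_and, true_iff]
      rcases hcov i with h2 | h2
      · exact Or.inr h2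
      · exact Or.inl h2
    rw [h1, sum_union, sum_image fun a _ b _ h => hyinj h, sum_image fun a _ b _ h => heinj h]
    rw [disjoint_left]
    intro i hi hi'
    obtain ⟨s, -, rfl⟩ := mem_image.mp hi
    obtain ⟨l, -, hl⟩ := mem_image.mp hi'
    exact hey l s hl
  have hfi : Function.Injective (fi σ z1 z2 u) := by
    have hiot : ∀ (z : G), Function.Injective fun m : ↥(Iic u) => σ (iot (m : Fin d →₀ ℕ)) + z := by
      intro z m m' h
      have h1 := add_right_cancel h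
      have h2 : u ≤ u + (dg A ⊔ dg B) := le_self_add
      exact Subtype.ext (hσ _ ((mem_Iic.mp m.2).trans h2) _ ((mem_Iic.mp m'.2).trans h2) h1)
    exact Function.Injective.sumMap (hiot z1) (hiot z2)
  -- the complement is independent
  have hind : LinearIndependent ℂ fun l : Fin r => DD a b (fi σ z1 z2 u (e l)) := by
    by_contra hdep
    have hφe : Function.Injective fun l => fi σ z1 z2 u (e l) := hfi.comp heinj
    have hJ : ¬ LinearIndepOn ℂ (DD a b)
        ((univ.image fun l => fi σ z1 z2 u (e l) : Finset (G ⊕ G)) : Set (G ⊕ G)) := by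
      intro h1
      apply hdep
      have h2 : LinearIndependent ℂ fun x : ((univ.image fun l => fi σ z1 z2 u (e l) :
        Finset (G ⊕ G)) : Set (G ⊕ G)) => DD a b x := h1
      exact h2.comp (fun l => ⟨fi σ z1 z2 u (e l), mem_coe.mpr (mem_image_of_mem _ (mem_univ l))⟩)
        fun l l' h => hφe (congrArg Subtype.val h)
    obtain ⟨r', E, m, hE1, hE2, -, hm0, -, hrel'⟩ := F.exists_relation _ hJ
    have hE3 : ∀ k, ∃ l, fi σ z1 z2 u (e l) = E k := by
      intro k
      obtain ⟨l, -, hl⟩ := mem_image.mp (hE2 k)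
      exact ⟨l, hl⟩
    choose L hL using hE3
    have hLinj : Function.Injective L := by
      intro k k' h
      exact hE1 (by rw [← hL, ← hL, h])
    obtain ⟨c, hc⟩ : ∃ c : Ix u → ℤ, ∀ i, c i = ∑ k, if e (L k) = i then m k else 0 :=
      ⟨_, fun _ => rfl⟩
    have hcy : ∀ s, c (y s) = 0 := by
      intro s
      rw [hc]
      exact sum_eq_zero fun k _ => if_neg (hey _ _)
    have hc0 : c (e (L 0)) = m 0 := by
      rw [hc, sum_eq_single 0]
      · rw [if_pos rfl]
      · intro k _ hk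
        rw [if_neg (fun h => hk (hLinj (heinj h)))]
      · intro h; exact absurd (mem_univ _) h
    have hcrel : ∑ i, (c i : ℂ) • DD a b (fi σ z1 z2 u i) = 0 := by
      rw [← hrel']
      have h1 : ∀ i, (c i : ℂ) • DD a b (fi σ z1 z2 u i) =
          ∑ k, if e (L k) = i then (m k : ℂ) • DD a b (fi σ z1 z2 u i) else 0 := by
        intro i
        rw [hc, Int.cast_sum, Finset.sum_smul]
        refine sum_congr rfl fun k _ => ?_
        split_ifs
        · rfl
        · simp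
      rw [sum_congr rfl fun i _ => h1 i, sum_comm]
      refine sum_congr rfl fun k _ => ?_
      rw [sum_ite_eq, if_pos (mem_univ _), hL]
    obtain ⟨x, hx⟩ := rel_box σ z1 z2 ha hA hB hcop hrel hσ c hcrel
    have hx0 : Matrix.vecMul x (LM A B u Y) = 0 := by
      funext s'
      have h1 := hx (y s')
      rw [hcy] at h1
      rw [Matrix.vecMul, dotProduct, Pi.zero_apply, h1, hy]
      rfl
    have hx1 : x = 0 := by
      by_contra hne
      exact hdet0 (Matrix.exists_vecMul_eq_zero_iff.mp ⟨x, hne, hx0⟩)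
    have h2 := hx (e (L 0))
    rw [hc0, hx1] at h2
    simp at h2
    exact hm0 h2
  -- pivots
  obtain ⟨v, hv1, hv2⟩ := pivots F.bs r (fun l => DD a b (fi σ z1 z2 u (e l)))
    (fun l => RR g h (fi σ z1 z2 u (e l))) (fun l => F.pr _) hind
  have hvinj := inj_of_det (X := fun l => (DD a b (fi σ z1 z2 u (e l))).coeff) hv1
  have hmin := F.minor_le (e := fun l => fi σ z1 z2 u (e l)) hvinj hv2
  choose z hz using F.int
  obtain ⟨P, hP⟩ : ∃ P : Ix u → Fin r → ℤ, ∀ i l, P i l = z (fi σ z1 z2 u i) (v l) :=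
    ⟨_, fun _ _ => rfl⟩
  have hPc : ∀ i l, (DD a b (fi σ z1 z2 u i)).coeff (v l) = P i l := by
    intro i l
    rw [hz, hP]
  have hdetP : Matrix.det (Matrix.of fun l j => (DD a b (fi σ z1 z2 u (e l))).coeff (v j)) =
      ((Matrix.det (Matrix.of fun l j => P (e l) j) : ℤ) : ℂ) := by
    have h1 : (Matrix.of fun l j => (DD a b (fi σ z1 z2 u (e l))).coeff (v j)) =
        (Int.castRingHom ℂ).mapMatrix (Matrix.of fun l j => P (e l) j) := by
      ext l j
      rw [Matrix.of_apply, hPc]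
      rfl
    rw [h1, ← RingHom.map_det]
    rfl
  rw [hdetP, Complex.norm_intCast] at hmin
  have hdetPne : Matrix.det (Matrix.of fun l j => P (e l) j) ≠ 0 := by
    intro h0
    rw [hdetP, h0] at hv1
    simp at hv1
  -- everything lies in the span of the complement
  have hspan : ∀ i, DD a b (fi σ z1 z2 u i) ∈
      Submodule.span ℂ (Set.range fun l : Fin r => DD a b (fi σ z1 z2 u (e l))) := by
    intro i
    rcases hcov i with ⟨l, rfl⟩ | ⟨s0, rfl⟩
    · exact Submodule.subset_span ⟨l, rfl⟩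
    · obtain ⟨N, hN⟩ : ∃ N : Matrix ↥(Iic (u - (dg A ⊔ dg B))) ↥(Iic (u - (dg A ⊔ dg B))) ℂ,
          N = (Int.castRingHom ℂ).mapMatrix (LM A B u Y) :=
        ⟨_, rfl⟩
      have hNdet : IsUnit N.det := by
        rw [hN, ← RingHom.map_det, isUnit_iff_ne_zero, eq_intCast]
        exact_mod_cast hdet0
      have h1 : ∀ s : ↥(Iic (u - (dg A ⊔ dg B))),
          ∑ s', N s s' • DD a b (fi σ z1 z2 u (y s')) ∈
          Submodule.span ℂ (Set.range fun l : Fin r => DD a b (fi σ z1 z2 u (e l))) := by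
        intro s
        have h2 := rel_basic σ z1 z2 hrel hu (mem_Iic.mp s.2)
        rw [hsum] at h2
        have h3 : ∑ s', N s s' • DD a b (fi σ z1 z2 u (y s')) =
            -∑ l, ((Lam A B u s (e l) : ℤ) : ℂ) • DD a b (fi σ z1 z2 u (e l)) := by
          rw [← eq_neg_of_add_eq_zero_left h2]
          refine sum_congr rfl fun s' _ => ?_
          rw [hN, hy]
          rfl
        rw [h3]
        refine Submodule.neg_mem _ (Submodule.sum_mem _ fun l _ => Submodule.smul_mem _ _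
          (Submodule.subset_span ⟨l, rfl⟩))
      have h2 : DD a b (fi σ z1 z2 u (y s0)) = ∑ s, N⁻¹ s0 s •
          ∑ s', N s s' • DD a b (fi σ z1 z2 u (y s')) := by
        simp only [Finset.smul_sum, smul_smul]
        rw [sum_comm]
        simp only [← Finset.sum_smul]
        have h3 : ∀ s', ∑ s, N⁻¹ s0 s * N s s' = if s0 = s' then 1 else 0 := by
          intro s'
          have h4 := congrFun (congrFun (Matrix.nonsing_inv_mul N hNdet) s0) s'
          rw [Matrix.mul_apply, Matrix.one_apply] at h4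
          exact h4
        simp only [h3, ite_smul, one_smul, zero_smul]
        rw [sum_ite_eq, if_pos (mem_univ _)]
      rw [h2]
      exact Submodule.sum_mem _ fun s _ => Submodule.smul_mem _ _ (h1 s)
  have H : ∀ c : Ix u → ℤ, (∀ l, ∑ i, c i * P i l = 0) →
      ∃ x : ↥(Iic (u - (dg A ⊔ dg B))) → ℤ, ∀ i, c i = ∑ s, x s * Lam A B u s i := by
    intro c hc
    refine rel_box σ z1 z2 ha hA hB hcop hrel hσ c ?_
    obtain ⟨X, hX⟩ : ∃ X, X = ∑ i, (c i : ℂ) • DD a b (fi σ z1 z2 u i) := ⟨_, rfl⟩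
    rw [← hX]
    have hXs : X ∈ Submodule.span ℂ (Set.range fun l : Fin r => DD a b (fi σ z1 z2 u (e l))) := by
      rw [hX]
      exact Submodule.sum_mem _ fun i _ => Submodule.smul_mem _ _ (hspan i)
    obtain ⟨k, hk⟩ := (Submodule.mem_span_range_iff_exists_fun ℂ).mp hXs
    have hXv : ∀ l, X.coeff (v l) = 0 := by
      intro l
      rw [hX, AddMonoidAlgebra.coeff_sum, Finsupp.finsetSum_apply]
      have h1 : ∑ i, ((c i : ℂ) • DD a b (fi σ z1 z2 u i)).coeff (v l) =
          ((∑ i, c i * P i l : ℤ) : ℂ) := by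
        push_cast
        refine sum_congr rfl fun i _ => ?_
        rw [AddMonoidAlgebra.coeff_smul, Finsupp.smul_apply, smul_eq_mul, hPc]
      rw [h1, hc l, Int.cast_zero]
    have hk0 : Matrix.vecMul k (Matrix.of fun l j => (DD a b (fi σ z1 z2 u (e l))).coeff (v j)) =
        0 := by
      funext j
      rw [Matrix.vecMul, dotProduct, Pi.zero_apply, ← hXv j, ← hk, AddMonoidAlgebra.coeff_sum,
        Finsupp.finsetSum_apply]
      refine sum_congr rfl fun l _ => ?_
      rw [AddMonoidAlgebra.coeff_smul, Finsupp.smul_apply, smul_eq_mul, Matrix.of_apply]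
    have hk1 : k = 0 := by
      by_contra hne
      exact hv1 (Matrix.exists_vecMul_eq_zero_iff.mp ⟨k, hne, hk0⟩)
    rw [← hk, hk1]
    simp
  have hfinal := dual_det P e y heinj hyinj hey hcov (fun s => Lam A B u s) H hdetPne
  have hfinal' : |(((LM A B u Y).det : ℤ) : ℝ)| ≤
      |((Matrix.det (Matrix.of fun l j => P (e l) j) : ℤ) : ℝ)| := by
    have h1 : (Matrix.of fun (s s' : Kx A B u) => Lam A B u (s : Fin d →₀ ℕ) (y s')) =
        LM A B u Y := by
      ext s s'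
      unfold LM
      rw [Matrix.of_apply, Matrix.of_apply, hy]
    rw [h1] at hfinal
    exact_mod_cast hfinal
  exact (mul_le_mul_of_nonneg_left hfinal' (pow_nonneg hη.le r)).trans hmin

end Pool.Agent.H87.MM
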