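import Pool.Agent.H87.MM.Unif
import Pool.Agent.H87.MM.Dim

/-!
# Short multiples of nonreciprocal polynomials
-/

set_option autoImplicit false

open Finset

namespace Pool.Agent.H87.MM

variable {n : ℕ}

theorem int_la (F : MvPolynomial (Fin n) ℤ) (w x : Fin n → ℤ) : ∃ z : ℤ, (la F w).coeff x = z := by
  classical
  by_cases h : (la F w).coeff x = 0
  · exact ⟨0, by simpa using h⟩
  · obtain ⟨m, hm, rfl⟩ := la_coeff_ne h
    exact ⟨F.coeff m, la_coeff hm⟩

theorem int_lb (F : MvPolynomial (Fin n) ℤ) (w x : Fin n → ℤ) : ∃ z : ℤ, (lb F w).coeff x = z := by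
  classical
  by_cases h : (lb F w).coeff x = 0
  · exact ⟨0, by simpa using h⟩
  · obtain ⟨m, hm, rfl⟩ := lb_coeff_ne h
    exact ⟨F.coeff m, lb_coeff hm⟩

theorem len_eq {P : MvPolynomial (Fin n) ℤ} {s : Finset (Fin n →₀ ℕ)} (hs : P.support ⊆ s) :
    len P = ∑ m ∈ s, |((P.coeff m : ℤ) : ℝ)| := by
  unfold len
  refine sum_subset hs fun m _ hm => ?_
  rw [MvPolynomial.notMem_support_iff.mp hm]
  simp

theorem len_add_le (P Q : MvPolynomial (Fin n) ℤ) : len (P + Q) ≤ len P + len Q := by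
  classical
  rw [len_eq (P := P + Q) (s := P.support ∪ Q.support) MvPolynomial.support_add,
    len_eq (P := P) (s := P.support ∪ Q.support) subset_union_left,
    len_eq (P := Q) (s := P.support ∪ Q.support) subset_union_right, ← sum_add_distrib]
  refine sum_le_sum fun m _ => ?_
  rw [MvPolynomial.coeff_add]
  push_cast
  exact abs_add_le _ _

theorem len_monomial (m : Fin n →₀ ℕ) (c : ℤ) :
    len (MvPolynomial.monomial m c) = |(c : ℝ)| := by
  classical
  rw [len_eq (s := {m}) (MvPolynomial.support_monomial_subset)]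
  simp

theorem len_zero : len (0 : MvPolynomial (Fin n) ℤ) = 0 := by simp [len]

theorem len_sum_le {ι : Type*} (s : Finset ι) (e : ι → (Fin n →₀ ℕ)) (c : ι → ℤ) :
    len (∑ i ∈ s, MvPolynomial.monomial (e i) (c i)) ≤ ∑ i ∈ s, |(c i : ℝ)| := by
  classical
  induction s using Finset.induction_on with
  | empty => simp [len_zero]
  | insert i s hi ih =>
    rw [sum_insert hi, sum_insert hi]
    refine (len_add_le _ _).trans ?_
    rw [len_monomial]
    linarith

theorem exists_shift {r : ℕ} (p : Fin (r + 1) → (Fin n → ℤ)) :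
    ∃ (u : Fin n →₀ ℕ) (q : Fin (r + 1) → (Fin n →₀ ℕ)), ∀ k, iot (q k) = iot u + p k := by
  classical
  refine ⟨Finsupp.equivFunOnFinite.symm fun i => ∑ k, (p k i).natAbs,
    fun k => Finsupp.equivFunOnFinite.symm fun i =>
      (((∑ k, (p k i).natAbs : ℕ) : ℤ) + p k i).toNat, fun k => ?_⟩
  funext i
  have h1 : (p k i).natAbs ≤ ∑ k, (p k i).natAbs :=
    single_le_sum (f := fun k => (p k i).natAbs) (fun _ _ => Nat.zero_le _) (mem_univ k)
  simp only [iot, Finsupp.equivFunOnFinite_symm_apply_apply, Pi.add_apply]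
  omega

/-- the relation for polynomials -/
theorem poly_relation {F : MvPolynomial (Fin n) ℤ} (hF : F ≠ 0) (m0 m1 : Fin n →₀ ℕ)
    {r : ℕ} (E : Fin (r + 1) → (Fin n → ℤ) ⊕ (Fin n → ℤ)) (m : Fin (r + 1) → ℤ)
    (hE : Function.Injective E) (hm : m 0 ≠ 0)
    (hrel : ∑ k, (m k : ℂ) • DD (la F (iot m0)) (lb F (iot m1)) (E k) = 0) :
    ∃ A B : MvPolynomial (Fin n) ℤ, A ≠ 0 ∧ len A ≤ ∑ k, |(m k : ℝ)| ∧
      len B ≤ ∑ k, |(m k : ℝ)| ∧ A * rv F = B * F := by
  classical
  obtain ⟨p, hp⟩ : ∃ p : Fin (r + 1) → (Fin n → ℤ), ∀ k, p k = Sum.elim id id (E k) :=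
    ⟨_, fun _ => rfl⟩
  obtain ⟨mA, hmA⟩ : ∃ mA : Fin (r + 1) → ℤ, ∀ k, mA k = Sum.elim (fun _ => m k) (fun _ => 0) (E k) :=
    ⟨_, fun _ => rfl⟩
  obtain ⟨mB, hmB⟩ : ∃ mB : Fin (r + 1) → ℤ, ∀ k, mB k = Sum.elim (fun _ => 0) (fun _ => m k) (E k) :=
    ⟨_, fun _ => rfl⟩
  obtain ⟨u, q, hq⟩ := exists_shift p
  obtain ⟨A', hA'⟩ : ∃ A' : MvPolynomial (Fin n) ℤ, A' = ∑ k, MvPolynomial.monomial (q k) (mA k) :=
    ⟨_, rfl⟩
  obtain ⟨B', hB'⟩ : ∃ B' : MvPolynomial (Fin n) ℤ, B' = ∑ k, MvPolynomial.monomial (q k) (mB k) :=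
    ⟨_, rfl⟩
  have hJA : JJ n A' = mo (iot u) * ∑ k, AddMonoidAlgebra.single (p k) ((mA k : ℤ) : ℂ) := by
    rw [hA', JJ_sum, mo_mul_sum]
    exact sum_congr rfl fun k _ => by rw [hq]
  have hJB : JJ n B' = mo (iot u) * ∑ k, AddMonoidAlgebra.single (p k) ((mB k : ℤ) : ℂ) := by
    rw [hB', JJ_sum, mo_mul_sum]
    exact sum_congr rfl fun k _ => by rw [hq]
  have hsplit : (∑ k, AddMonoidAlgebra.single (p k) ((mA k : ℤ) : ℂ)) * lb F (iot m1) =
      (∑ k, AddMonoidAlgebra.single (p k) ((mB k : ℤ) : ℂ)) * la F (iot m0) := by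
    rw [← sub_eq_zero, ← hrel, Finset.sum_mul, Finset.sum_mul, ← sum_sub_distrib]
    refine sum_congr rfl fun k _ => ?_
    rw [hp, hmA, hmB]
    rcases E k with s | s
    · simp only [Sum.elim_inl, id, Int.cast_zero, AddMonoidAlgebra.single_zero, zero_mul, sub_zero]
      unfold DD
      rw [Sum.elim_inl, ← smul_mul_assoc, AddMonoidAlgebra.smul_single, smul_eq_mul, mul_one]
    · simp only [Sum.elim_inr, id, Int.cast_zero, AddMonoidAlgebra.single_zero, zero_mul, zero_sub]
      unfold DD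
      rw [Sum.elim_inr, smul_neg, ← smul_mul_assoc, AddMonoidAlgebra.smul_single, smul_eq_mul,
        mul_one]
  have hJ : JJ n (A' * MvPolynomial.monomial (m0 + m1) 1 * rv F) =
      JJ n (B' * MvPolynomial.monomial (dg F) 1 * F) := by
    rw [map_mul, map_mul, map_mul, map_mul, JJ_monomial, JJ_monomial, hJA, hJB, Int.cast_one]
    have h1 : JJ n (rv F) = mo (iot (dg F) - iot m1) * lb F (iot m1) := by
      rw [lb_eq, ← mul_assoc, mo_mul, show iot (dg F) - iot m1 + (iot m1 - iot (dg F)) = 0 by abel,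
        mo_zero, one_mul]
    have h2 : JJ n F = mo (iot m0) * la F (iot m0) := by
      rw [la_eq, ← mul_assoc, mo_mul, add_neg_cancel, mo_zero, one_mul]
    rw [h1, h2, iot_add]
    have h3 : mo (iot m0 + iot m1) * mo (iot (dg F) - iot m1) =
        (mo (iot (dg F)) * mo (iot m0) : AddMonoidAlgebra ℂ (Fin n → ℤ)) := by
      rw [mo_mul, mo_mul]
      congr 1
      abel
    calc _ = (mo (iot u) * (mo (iot m0 + iot m1) * mo (iot (dg F) - iot m1))) *
          ((∑ k, AddMonoidAlgebra.single (p k) ((mA k : ℤ) : ℂ)) * lb F (iot m1)) := by ring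
      _ = (mo (iot u) * (mo (iot (dg F)) * mo (iot m0))) *
          ((∑ k, AddMonoidAlgebra.single (p k) ((mB k : ℤ) : ℂ)) * la F (iot m0)) := by
          rw [h3, hsplit]
      _ = _ := by ring
  have heq := JJ_injective hJ
  have hinj : ∀ k k', q k = q k' → p k = p k' := by
    intro k k' h
    have h1 := hq k
    have h2 := hq k'
    rw [h, h2] at h1
    exact (add_left_cancel h1).symm
  have hAB : A' ≠ 0 ∨ B' ≠ 0 := by
    by_contra hcon
    push Not at hcon
    obtain ⟨h1, h2⟩ := hcon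
    rcases hE0 : E 0 with s | s
    · have h3 : A'.coeff (q 0) = m 0 := by
        rw [hA', MvPolynomial.coeff_sum, sum_eq_single 0]
        · rw [MvPolynomial.coeff_monomial, if_pos rfl, hmA, hE0, Sum.elim_inl]
        · intro k _ hk
          rw [MvPolynomial.coeff_monomial]
          split_ifs with h4
          · have h5 := hinj k 0 h4
            rw [hp, hp, hE0, Sum.elim_inl, id] at h5
            rw [hmA]
            rcases hEk : E k with t | t
            · rw [hEk, Sum.elim_inl, id] at h5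
              exact absurd (hE (hEk.trans ((congrArg Sum.inl h5).trans hE0.symm))) hk
            · rw [Sum.elim_inr]
          · rfl
        · intro h; exact absurd (mem_univ _) h
      rw [h1, MvPolynomial.coeff_zero] at h3
      exact hm h3.symm
    · have h3 : B'.coeff (q 0) = m 0 := by
        rw [hB', MvPolynomial.coeff_sum, sum_eq_single 0]
        · rw [MvPolynomial.coeff_monomial, if_pos rfl, hmB, hE0, Sum.elim_inr]
        · intro k _ hk
          rw [MvPolynomial.coeff_monomial]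
          split_ifs with h4
          · have h5 := hinj k 0 h4
            rw [hp, hp, hE0, Sum.elim_inr, id] at h5
            rw [hmB]
            rcases hEk : E k with t | t
            · rw [Sum.elim_inl]
            · rw [hEk, Sum.elim_inr, id] at h5
              exact absurd (hE (hEk.trans ((congrArg Sum.inr h5).trans hE0.symm))) hk
          · rfl
        · intro h; exact absurd (mem_univ _) h
      rw [h2, MvPolynomial.coeff_zero] at h3
      exact hm h3.symm
  have hmon : ∀ w : Fin n →₀ ℕ, (MvPolynomial.monomial w (1 : ℤ)) ≠ 0 := by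
    intro w h
    rw [MvPolynomial.monomial_eq_zero] at h
    exact one_ne_zero h
  have hA0 : A' ≠ 0 := by
    intro h
    rw [h, zero_mul, zero_mul] at heq
    have h1 : B' ≠ 0 := by
      rcases hAB with h2 | h2
      · exact absurd h h2
      · exact h2
    exact mul_ne_zero (mul_ne_zero h1 (hmon _)) hF heq.symm
  have hlen : ∀ (c : Fin (r + 1) → ℤ) (w : Fin n →₀ ℕ), (∀ k, |(c k : ℝ)| ≤ |(m k : ℝ)|) →
      len ((∑ k, MvPolynomial.monomial (q k) (c k)) * MvPolynomial.monomial w 1) ≤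
        ∑ k, |(m k : ℝ)| := by
    intro c w hc
    rw [Finset.sum_mul]
    have h1 : ∑ k, MvPolynomial.monomial (q k) (c k) * MvPolynomial.monomial w (1 : ℤ) =
        ∑ k, MvPolynomial.monomial (q k + w) (c k) :=
      sum_congr rfl fun k _ => by rw [MvPolynomial.monomial_mul, mul_one]
    rw [h1]
    exact (len_sum_le _ _ _).trans (sum_le_sum fun k _ => hc k)
  refine ⟨A' * MvPolynomial.monomial (m0 + m1) 1, B' * MvPolynomial.monomial (dg F) 1,
    mul_ne_zero hA0 (hmon _), ?_, ?_, heq⟩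
  · rw [hA']
    refine hlen mA _ fun k => ?_
    rw [hmA]
    rcases E k with s | s
    · exact le_rfl
    · rw [Sum.elim_inr, Int.cast_zero, abs_zero]
      exact abs_nonneg _
  · rw [hB']
    refine hlen mB _ fun k => ?_
    rw [hmB]
    rcases E k with s | s
    · rw [Sum.elim_inl, Int.cast_zero, abs_zero]
      exact abs_nonneg _
    · exact le_rfl

/-- nonreciprocal irreducible polynomials of bounded measure have short multiples -/
theorem short_pair (C : ℝ) : ∃ K : ℝ, ∀ (n : ℕ) (F : MvPolynomial (Fin n) ℤ), F ≠ 0 →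
    mm F ≤ C → ∃ A B : MvPolynomial (Fin n) ℤ, A ≠ 0 ∧ len A ≤ K ∧ len B ≤ K ∧
      A * rv F = B * F := by
  obtain ⟨C', hC'⟩ : ∃ C', C' = max C 0 := ⟨_, rfl⟩
  have hC1 : C ≤ C' := hC' ▸ le_max_left _ _
  have hC2 : 0 ≤ C' := hC' ▸ le_max_right _ _
  have hη1 : Real.exp (-C') ≤ 1 := Real.exp_le_one_iff.mpr (by linarith)
  obtain ⟨K, hK⟩ := uniform (Real.exp_pos (-C')) hη1
  refine ⟨K * Real.exp (C' * K), fun n F hF0 hF => ?_⟩
  obtain ⟨m0, hm0, hmin⟩ := exists_low hF0
  obtain ⟨m1, hm1, hmax⟩ := exists_high hF0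
  obtain ⟨g, h, S, hg1, hh1, hh0⟩ := exists_sol hm0 hm1 hmin hmax
  have hb0 : (lb F (iot m1)).coeff 0 = ((F.coeff m1 : ℤ) : ℂ) := by
    have := lb_coeff (w := iot m1) hm1
    rwa [sub_self] at this
  obtain ⟨r, E, m, hE, hr, hm, hm', hrel⟩ := hK (Fin n → ℤ) (rho n) _ _ g h S (int_la F _)
    (int_lb F _) hg1 hh1 (by
      rw [hb0]
      refine le_trans ?_ hh0
      rw [mul_comm]
      gcongr
      linarith)
  obtain ⟨A, B, hA, hlA, hlB, hAB⟩ := poly_relation hF0 m0 m1 E m hE hm hrel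
  have hsum : ∑ k, |(m k : ℝ)| ≤ K * Real.exp (C' * K) := by
    have h1 : ∀ k, |(m k : ℝ)| ≤ Real.exp (C' * K) := by
      intro k
      have h2 := hm' k
      have h3 : Real.exp (-C') ^ r = Real.exp (-(C' * r)) := by
        rw [← Real.exp_nat_mul]
        congr 1
        ring
      rw [h3, Real.exp_neg] at h2
      have h4 : |(m k : ℝ)| ≤ Real.exp (C' * r) := by
        have h5 := Real.exp_pos (C' * r)
        rw [inv_mul_le_iff₀ h5, mul_one] at h2
        exact h2
      refine h4.trans (Real.exp_le_exp.mpr ?_)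
      have h6 : (r : ℝ) ≤ K := by exact_mod_cast (Nat.le_succ r).trans hr
      exact mul_le_mul_of_nonneg_left h6 hC2
    calc ∑ k, |(m k : ℝ)| ≤ ∑ k : Fin (r + 1), Real.exp (C' * K) := sum_le_sum fun k _ => h1 k
      _ = ((r + 1 : ℕ) : ℝ) * Real.exp (C' * K) := by simp
      _ ≤ K * Real.exp (C' * K) := by
        have h6 : ((r + 1 : ℕ) : ℝ) ≤ K := by exact_mod_cast hr
        exact mul_le_mul_of_nonneg_right h6 (Real.exp_pos _).le
  exact ⟨A, B, hA, hlA.trans hsum, hlB.trans hsum, hAB⟩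

theorem short_multiple (C : ℝ) : ∃ K : ℝ, ∀ (n : ℕ) (F : MvPolynomial (Fin n) ℤ),
    Irreducible F → ¬ Recip F → mm F ≤ C → ∃ H : MvPolynomial (Fin n) ℤ, H ≠ 0 ∧ F ∣ H ∧
      len H ≤ K := by
  obtain ⟨K, hK⟩ := short_pair C
  refine ⟨K, fun n F hirr hrec hF => ?_⟩
  obtain ⟨A, B, hA, hlA, -, hAB⟩ := hK n F hirr.ne_zero hF
  exact ⟨A, hA, dvd_of_dvd_mul_rv hirr hrec (hAB ▸ dvd_mul_left F B), hlA⟩

end Pool.Agent.H87.MM
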