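import Pool.Agent.H87.MM.Lattice

/-!
# Pivots
-/

set_option autoImplicit false

open Finset

namespace Pool.Agent.H87.MM

variable {G : Type*} [AddCommGroup G]

/-- the order lemma with an arbitrary lower bound -/
theorem order_lemma' (ρ : G →+ ℝ) (hρ : Function.Injective ρ) {b : AddMonoidAlgebra ℂ G}
    (hb : ∀ y, b.coeff y ≠ 0 → 0 ≤ ρ y) (hb0 : b.coeff 0 ≠ 0) {f : G → ℂ} {c : ℝ}
    (hf : ∀ x, ρ x < c → f x = 0) {r : ℝ} (h : ∀ x, ρ x < r → conv b f x = 0) :
    (∀ x, ρ x < r → f x = 0) ∧ ∀ x, ρ x = r → b.coeff 0 * f x = conv b f x := by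
  classical
  have hsplit : ∀ x, conv b f x = b.coeff 0 * f x +
      ∑ y ∈ b.coeff.support.erase 0, b.coeff y * f (x - y) := by
    intro x
    rw [conv_eq_sum, ← Finset.add_sum_erase _ _ (Finsupp.mem_support_iff.mpr hb0), sub_zero]
  obtain ⟨δ, hδ, hδ'⟩ : ∃ δ : ℝ, 0 < δ ∧ ∀ y ∈ b.coeff.support.erase 0, δ ≤ ρ y := by
    rcases (b.coeff.support.erase 0).eq_empty_or_nonempty with he | hne
    · refine ⟨1, one_pos, fun y hy => ?_⟩
      rw [he] at hy
      simp at hy
    · obtain ⟨y0, hy0, hmin⟩ := Finset.exists_min_image _ (fun y => ρ y) hne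
      refine ⟨ρ y0, ?_, hmin⟩
      have h1 := hb y0 (Finsupp.mem_support_iff.mp (Finset.mem_of_mem_erase hy0))
      have h2 : ρ y0 ≠ 0 := by
        intro h3
        have : ρ y0 = ρ 0 := by rw [h3, map_zero]
        exact (Finset.ne_of_mem_erase hy0) (hρ this)
      exact lt_of_le_of_ne h1 (Ne.symm h2)
  have claim : ∀ k : ℕ, ∀ x, ρ x < c + k * δ → ρ x < r → f x = 0 := by
    intro k
    induction k with
    | zero =>
      intro x hx _
      exact hf x (by simpa using hx)
    | succ k ih =>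
      intro x hx hxr
      have h1 := hsplit x
      rw [h x hxr] at h1
      have h2 : ∑ y ∈ b.coeff.support.erase 0, b.coeff y * f (x - y) = 0 := by
        refine Finset.sum_eq_zero fun y hy => ?_
        have h3 := hδ' y hy
        rw [ih (x - y) ?_ ?_, mul_zero]
        · rw [map_sub]; push_cast at hx; linarith
        · rw [map_sub]; linarith
      rw [h2, add_zero] at h1
      exact (mul_eq_zero.mp h1.symm).resolve_left hb0
  have hzero : ∀ x, ρ x < r → f x = 0 := by
    intro x hx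
    obtain ⟨k, hk⟩ := exists_nat_gt ((ρ x - c) / δ)
    rw [div_lt_iff₀ hδ] at hk
    exact claim k x (by linarith) hx
  refine ⟨hzero, fun x hx => ?_⟩
  rw [hsplit x]
  have h2 : ∑ y ∈ b.coeff.support.erase 0, b.coeff y * f (x - y) = 0 := by
    refine Finset.sum_eq_zero fun y hy => ?_
    have h3 := hδ' y hy
    rw [hzero (x - y) (by rw [map_sub]; linarith), mul_zero]
  rw [h2, add_zero]

/-- standing assumptions -/
structure Bs (ρ : G →+ ℝ) (b : AddMonoidAlgebra ℂ G) (h : G → ℂ) : Prop where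
  inj : Function.Injective ρ
  b_supp : ∀ y, b.coeff y ≠ 0 → 0 ≤ ρ y
  b_zero : b.coeff 0 ≠ 0
  h_supp : ∀ x, ρ x < 0 → h x = 0

/-- admissible pairs -/
structure Pr (ρ : G →+ ℝ) (b : AddMonoidAlgebra ℂ G) (h : G → ℂ) (D : AddMonoidAlgebra ℂ G)
    (R : G → ℂ) : Prop where
  eqn : conv b R = conv D h
  low : ∃ c : ℝ, ∀ x, ρ x < c → R x = 0

theorem conv_smul_left (r : ℂ) (c : AddMonoidAlgebra ℂ G) (f : G → ℂ) :
    conv (r • c) f = r • conv c f := by
  funext x
  unfold conv
  rw [Pi.smul_apply, AddMonoidAlgebra.coeff_smul, Finsupp.sum_smul_index' (by intro i; simp),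
    Finsupp.smul_sum]
  refine Finsupp.sum_congr fun y _ => ?_
  rw [smul_eq_mul, smul_eq_mul]
  ring

theorem conv_smul_right (r : ℂ) (c : AddMonoidAlgebra ℂ G) (f : G → ℂ) :
    conv c (r • f) = r • conv c f := by
  funext x
  unfold conv
  rw [Pi.smul_apply, Finsupp.smul_sum]
  refine Finsupp.sum_congr fun y _ => ?_
  rw [smul_eq_mul, Pi.smul_apply, smul_eq_mul]
  ring

variable {ρ : G →+ ℝ} {b : AddMonoidAlgebra ℂ G} {h : G → ℂ}

theorem Pr.zero : Pr ρ b h 0 0 := by
  refine ⟨?_, 0, fun _ _ => rfl⟩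
  rw [conv_zero_left]
  funext x
  simp [conv]

theorem Pr.add {D D' : AddMonoidAlgebra ℂ G} {R R' : G → ℂ} (P : Pr ρ b h D R)
    (P' : Pr ρ b h D' R') : Pr ρ b h (D + D') (R + R') := by
  obtain ⟨c, hc⟩ := P.low
  obtain ⟨c', hc'⟩ := P'.low
  refine ⟨?_, min c c', fun x hx => ?_⟩
  · rw [conv_add_left, conv_add_right, P.eqn, P'.eqn]
  · rw [Pi.add_apply, hc x (lt_of_lt_of_le hx (min_le_left _ _)),
      hc' x (lt_of_lt_of_le hx (min_le_right _ _)), add_zero]

theorem Pr.smul {D : AddMonoidAlgebra ℂ G} {R : G → ℂ} (P : Pr ρ b h D R) (r : ℂ) :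
    Pr ρ b h (r • D) (r • R) := by
  obtain ⟨c, hc⟩ := P.low
  refine ⟨?_, c, fun x hx => ?_⟩
  · rw [conv_smul_left, conv_smul_right, P.eqn]
  · rw [Pi.smul_apply, hc x hx, smul_zero]

theorem Pr.sub_smul {D D' : AddMonoidAlgebra ℂ G} {R R' : G → ℂ} (P : Pr ρ b h D R)
    (P' : Pr ρ b h D' R') (r : ℂ) : Pr ρ b h (D - r • D') (R - r • R') := by
  have h1 := P.add (P'.smul (-r))
  rwa [neg_smul, neg_smul, ← sub_eq_add_neg, ← sub_eq_add_neg] at h1

theorem Pr.sum {ι : Type*} (s : Finset ι) {D : ι → AddMonoidAlgebra ℂ G} {R : ι → G → ℂ}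
    (P : ∀ i, Pr ρ b h (D i) (R i)) (c : ι → ℂ) :
    Pr ρ b h (∑ i ∈ s, c i • D i) (∑ i ∈ s, c i • R i) := by
  classical
  induction s using Finset.induction_on with
  | empty => simpa using Pr.zero
  | insert i s hi ih =>
    rw [sum_insert hi, sum_insert hi]
    exact ((P i).smul (c i)).add ih

/-- the pivot property -/
theorem Pr.piv (B : Bs ρ b h) {D : AddMonoidAlgebra ℂ G} {R : G → ℂ} (P : Pr ρ b h D R) {r : ℝ}
    (hr : ∀ w, ρ w < r → D.coeff w = 0) :
    (∀ w, ρ w < r → R w = 0) ∧ ∀ v, ρ v = r → b.coeff 0 * R v = D.coeff v * h 0 := by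
  classical
  have h1 : ∀ x, ρ x < r → conv b R x = 0 := by
    intro x hx
    rw [P.eqn, conv_eq_sum]
    refine sum_eq_zero fun y hy => ?_
    rw [Finsupp.mem_support_iff] at hy
    have h2 : r ≤ ρ y := by
      by_contra hlt
      exact hy (hr y (not_le.mp hlt))
    rw [B.h_supp (x - y) (by rw [map_sub]; linarith), mul_zero]
  obtain ⟨c, hc⟩ := P.low
  obtain ⟨h3, h4⟩ := order_lemma' ρ B.inj B.b_supp B.b_zero hc h1
  refine ⟨h3, fun v hv => ?_⟩
  rw [h4 v hv, P.eqn, conv_eq_sum]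
  by_cases hvs : v ∈ D.coeff.support
  · rw [sum_eq_single_of_mem v hvs, sub_self]
    intro y hy hne
    rw [Finsupp.mem_support_iff] at hy
    have h2 : r ≤ ρ y := by
      by_contra hlt
      exact hy (hr y (not_le.mp hlt))
    have h5 : ρ y ≠ r := fun h6 => hne (B.inj (h6.trans hv.symm))
    have h6 : r < ρ y := lt_of_le_of_ne h2 (Ne.symm h5)
    rw [B.h_supp (v - y) (by rw [map_sub]; linarith), mul_zero]
  · rw [Finsupp.notMem_support_iff.mp hvs, zero_mul]
    refine sum_eq_zero fun y hy => ?_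
    have hne : y ≠ v := fun h => hvs (h ▸ hy)
    rw [Finsupp.mem_support_iff] at hy
    have h2 : r ≤ ρ y := by
      by_contra hlt
      exact hy (hr y (not_le.mp hlt))
    have h5 : ρ y ≠ r := fun h6 => hne (B.inj (h6.trans hv.symm))
    have h6 : r < ρ y := lt_of_le_of_ne h2 (Ne.symm h5)
    rw [B.h_supp (v - y) (by rw [map_sub]; linarith), mul_zero]

/-- `R` is determined by `D` -/
theorem Pr.uniq (B : Bs ρ b h) {D : AddMonoidAlgebra ℂ G} {R R' : G → ℂ} (P : Pr ρ b h D R)
    (P' : Pr ρ b h D R') : R = R' := by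
  have h1 := P.sub_smul P' 1
  rw [one_smul, one_smul, sub_self] at h1
  funext x
  have h2 := (h1.piv B (r := ρ x + 1) (fun w _ => by simp)).1 x (by linarith)
  exact sub_eq_zero.mp h2

theorem det_reduce {r : ℕ} (X : Fin (r + 1) → G → ℂ) (i0 : Fin (r + 1)) (v0 : G) (v : Fin r → G)
    (c : Fin (r + 1) → ℂ) (hc : ∀ i, X i v0 = c i * X i0 v0) :
    Matrix.det (Matrix.of fun i j => X i ((Fin.cons v0 v : Fin (r + 1) → G) j)) =
      (-1) ^ (i0 : ℕ) * X i0 v0 * Matrix.det (Matrix.of fun k j =>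
        X (i0.succAbove k) (v j) - c (i0.succAbove k) * X i0 (v j)) := by
  classical
  obtain ⟨w, hw⟩ : ∃ w : Fin (r + 1) → G, w = Fin.cons v0 v := ⟨_, rfl⟩
  rw [← hw]
  have hw0 : w 0 = v0 := by rw [hw]; rfl
  have hws : ∀ j, w (Fin.succ j) = v j := by intro j; rw [hw]; rfl
  have h1 : Matrix.det (Matrix.of fun i j => X i (w j)) = Matrix.det (Matrix.of fun i j =>
      X i (w j) - (if i = i0 then 0 else c i) * X i0 (w j)) := by
    refine Matrix.det_eq_of_forall_row_eq_smul_add_const (fun i => if i = i0 then 0 else c i) i0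
      (by simp) fun i j => ?_
    simp
  rw [h1, Matrix.det_succ_column_zero, sum_eq_single i0]
  · congr 1
    · simp [hw0]
    · congr 1
      ext k j
      simp [hws, Fin.succAbove_ne]
  · intro i _ hi
    rw [Matrix.of_apply, hw0, if_neg hi, hc i]
    ring
  · intro h; exact absurd (mem_univ _) h

theorem pivots (B : Bs ρ b h) : ∀ (r : ℕ) (D : Fin r → AddMonoidAlgebra ℂ G)
    (R : Fin r → G → ℂ), (∀ i, Pr ρ b h (D i) (R i)) → LinearIndependent ℂ D →
    ∃ v : Fin r → G, Matrix.det (Matrix.of fun i j => (D i).coeff (v j)) ≠ 0 ∧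
      Matrix.det (Matrix.of fun i j => R i (v j)) =
        (h 0 / b.coeff 0) ^ r * Matrix.det (Matrix.of fun i j => (D i).coeff (v j)) := by
  classical
  intro r
  induction r with
  | zero =>
    intro D R _ _
    refine ⟨Fin.elim0, ?_, ?_⟩
    · rw [Matrix.det_isEmpty]; exact one_ne_zero
    · rw [Matrix.det_isEmpty, Matrix.det_isEmpty]; simp
  | succ r ih =>
    intro D R hP hD
    have hne : (univ.biUnion fun i => (D i).coeff.support).Nonempty := by
      have h1 : D 0 ≠ 0 := hD.ne_zero 0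
      have h2 : (D 0).coeff.support.Nonempty := by
        rw [Finset.nonempty_iff_ne_empty]
        intro h0
        rw [Finsupp.support_eq_empty] at h0
        apply h1
        have := congrArg AddMonoidAlgebra.ofCoeff h0
        rw [AddMonoidAlgebra.ofCoeff_coeff] at this
        rw [this]
        rfl
      obtain ⟨x, hx⟩ := h2
      exact ⟨x, mem_biUnion.mpr ⟨0, mem_univ _, hx⟩⟩
    obtain ⟨v0, hv0, hmin⟩ := exists_min_image _ (fun w => ρ w) hne
    obtain ⟨i0, -, hi0⟩ := mem_biUnion.mp hv0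
    rw [Finsupp.mem_support_iff] at hi0
    have hlow : ∀ i w, ρ w < ρ v0 → (D i).coeff w = 0 := by
      intro i w hw
      by_contra hne'
      have h1 := hmin w (mem_biUnion.mpr ⟨i, mem_univ _, Finsupp.mem_support_iff.mpr hne'⟩)
      linarith
    have hRv : ∀ i, R i v0 = h 0 / b.coeff 0 * (D i).coeff v0 := by
      intro i
      have h1 := ((hP i).piv B (hlow i)).2 v0 rfl
      have h2 := B.b_zero
      field_simp
      linear_combination h1
    -- the reduced family
    obtain ⟨c, hc⟩ : ∃ c : Fin (r + 1) → ℂ, ∀ i, c i = (D i).coeff v0 / (D i0).coeff v0 :=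
      ⟨fun i => (D i).coeff v0 / (D i0).coeff v0, fun _ => rfl⟩
    obtain ⟨D', hD'⟩ : ∃ D' : Fin r → AddMonoidAlgebra ℂ G, ∀ k, D' k =
        D (i0.succAbove k) - c (i0.succAbove k) • D i0 := ⟨_, fun _ => rfl⟩
    obtain ⟨R', hR'⟩ : ∃ R' : Fin r → G → ℂ, ∀ k, R' k =
        R (i0.succAbove k) - c (i0.succAbove k) • R i0 := ⟨_, fun _ => rfl⟩
    have hP' : ∀ k, Pr ρ b h (D' k) (R' k) := by
      intro k
      rw [hD', hR']
      exact (hP _).sub_smul (hP _) _
    have hD'i : LinearIndependent ℂ D' := by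
      rw [Fintype.linearIndependent_iff]
      intro g hg k
      rw [Fintype.linearIndependent_iff] at hD
      have h1 := hD (i0.insertNth (-∑ k, g k * c (i0.succAbove k)) g) ?_ (i0.succAbove k)
      · rwa [Fin.insertNth_apply_succAbove] at h1
      · rw [Fin.sum_univ_succAbove _ i0, Fin.insertNth_apply_same]
        simp only [Fin.insertNth_apply_succAbove]
        rw [← hg]
        simp only [hD', smul_sub, sum_sub_distrib, smul_smul, neg_smul, sum_smul]
        abel
    obtain ⟨v, hv1, hv2⟩ := ih D' R' hP' hD'i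
    have hc1 : ∀ i, (D i).coeff v0 = c i * (D i0).coeff v0 := by
      intro i
      rw [hc]
      field_simp
    have hc2 : ∀ i, R i v0 = c i * R i0 v0 := by
      intro i
      rw [hRv, hRv, hc1 i]
      ring
    have e1 := det_reduce (fun i => (D i).coeff) i0 v0 v c hc1
    have e2 := det_reduce R i0 v0 v c hc2
    have e3 : (Matrix.of fun k j => (D (i0.succAbove k)).coeff (v j) -
        c (i0.succAbove k) * (D i0).coeff (v j)) = Matrix.of fun i j => (D' i).coeff (v j) := by
      ext k j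
      rw [Matrix.of_apply, Matrix.of_apply, hD', AddMonoidAlgebra.coeff_sub, Finsupp.sub_apply,
        AddMonoidAlgebra.coeff_smul, Finsupp.smul_apply, smul_eq_mul]
    have e4 : (Matrix.of fun k j => R (i0.succAbove k) (v j) -
        c (i0.succAbove k) * R i0 (v j)) = Matrix.of fun i j => R' i (v j) := by
      ext k j
      rw [Matrix.of_apply, Matrix.of_apply, hR', Pi.sub_apply, Pi.smul_apply, smul_eq_mul]
    refine ⟨Fin.cons v0 v, ?_, ?_⟩
    · rw [e1, e3]
      exact mul_ne_zero (mul_ne_zero (pow_ne_zero _ (by norm_num)) hi0) hv1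
    · rw [e1, e2, e3, e4, hv2, hRv]
      ring

end Pool.Agent.H87.MM
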