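import Pool.Agent.H87.MM.Mult

/-!
# Products of nonreciprocal polynomials
-/

set_option autoImplicit false

open Finset

namespace Pool.Agent.H87.MM

variable {n : ℕ}

theorem recip_monomial (m : Fin n →₀ ℕ) (c : ℤ) : Recip (MvPolynomial.monomial m c) := by
  classical
  refine ⟨m + m, 1, Or.inl rfl, fun k hk => ?_, fun k hk => ?_⟩
  · have := MvPolynomial.support_monomial_subset hk
    rw [mem_singleton] at this
    rw [this]
    exact le_self_add
  · rw [one_mul, MvPolynomial.coeff_monomial, MvPolynomial.coeff_monomial]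
    by_cases h : m = k
    · rw [if_pos h, if_pos]
      rw [← h]
      exact (add_tsub_cancel_right m m).symm
    · rw [if_neg h, if_neg]
      intro h1
      apply h
      have h2 : m + m - m = m + m - (m + m - k) := by rw [← h1]
      rw [add_tsub_cancel_right, fsub_sub hk] at h2
      exact h2

theorem dimF_pos {F : MvPolynomial (Fin n) ℤ} (hrec : ¬ Recip F) : 0 < dimF F := by
  classical
  by_contra hcon
  apply hrec
  have h0 : dimF F = 0 := by omega
  unfold dimF at h0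
  rw [Submodule.finrank_eq_zero] at h0
  by_cases hF : F = 0
  · rw [hF, ← MvPolynomial.monomial_zero (s := 0)]
    exact recip_monomial _ _
  · obtain ⟨m, hm⟩ := MvPolynomial.support_nonempty.mpr hF
    have h1 : ∀ m' ∈ F.support, m' = m := by
      intro m' hm'
      have h2 : (fun i => (m' i : ℚ) - (m i : ℚ)) ∈ Submodule.span ℚ {v : Fin n → ℚ |
          ∃ m ∈ F.support, ∃ m' ∈ F.support, v = fun i => (m i : ℚ) - (m' i : ℚ)} :=
        Submodule.subset_span ⟨m', hm', m, hm, rfl⟩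
      rw [h0, Submodule.mem_bot] at h2
      ext i
      have h3 := congrFun h2 i
      simp only [Pi.zero_apply, sub_eq_zero] at h3
      exact_mod_cast h3
    have h2 : F = MvPolynomial.monomial m (F.coeff m) := by
      ext k
      rw [MvPolynomial.coeff_monomial]
      split_ifs with h
      · rw [h]
      · by_contra hne
        exact h (h1 k (MvPolynomial.mem_support_iff.mpr hne)).symm
    rw [h2]
    exact recip_monomial _ _

theorem sum_two_le {G : Type*} {f : G → ℂ} (hf : Sq f) (h1 : ∑' x, ‖f x‖ ^ 2 ≤ 1) {u v : G}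
    (huv : u ≠ v) : ‖f u‖ ^ 2 + ‖f v‖ ^ 2 ≤ 1 := by
  classical
  have h2 := hf.sum_le_tsum {u, v} fun _ _ => sq_nonneg _
  rw [sum_pair huv] at h2
  exact h2.trans h1

theorem tsum_coset_bot {G : Type*} [AddCommGroup G] (f : G → ℂ) (v : G) :
    ∑' x, ‖Set.indicator {x | x - v ∈ (⊥ : AddSubgroup G)} f x‖ ^ 2 = ‖f v‖ ^ 2 := by
  classical
  rw [tsum_eq_single v]
  · rw [Set.indicator_of_mem]
    change v - v ∈ (⊥ : AddSubgroup G)
    rw [sub_self]
    exact AddSubgroup.zero_mem _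
  · intro x hx
    rw [Set.indicator_of_notMem]
    · simp
    · intro h
      exact hx (sub_eq_zero.mp ((AddSubgroup.mem_bot).mp h))

/-- a lower bound for the measure of a nonreciprocal polynomial -/
theorem mm_lower {F : MvPolynomial (Fin n) ℤ} (hirr : Irreducible F) (hrec : ¬ Recip F) :
    1 / 12 ≤ mm F := by
  classical
  obtain ⟨m0, hm0, hmin⟩ := exists_low hirr.ne_zero
  obtain ⟨m1, hm1, hmax⟩ := exists_high hirr.ne_zero
  obtain ⟨g, h, S, hg1, hh1, hh0⟩ := exists_sol hm0 hm1 hmin hmax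
  have ha0 : (la F (iot m0)).coeff 0 = ((F.coeff m0 : ℤ) : ℂ) := by
    have := la_coeff (w := iot m0) hm0
    rwa [sub_self] at this
  have hb0 : (lb F (iot m1)).coeff 0 = ((F.coeff m1 : ℤ) : ℂ) := by
    have := lb_coeff (w := iot m1) hm1
    rwa [sub_self] at this
  have hone : ∀ m ∈ F.support, 1 ≤ ‖((F.coeff m : ℤ) : ℂ)‖ := by
    intro m hm
    rw [Complex.norm_intCast]
    exact_mod_cast Int.one_le_abs (MvPolynomial.mem_support_iff.mp hm)
  have ha1 := hone m0 hm0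
  have hb1 := hone m1 hm1
  obtain ⟨V, hV⟩ : ∃ V, V = (⊥ : AddSubgroup (Fin n → ℤ)) := ⟨_, rfl⟩
  have hne : dd V (la F (iot m0)) (lb F (iot m1)) ≠ 0 := by
    have h1 := dd_ne_zero hirr hrec hm0 (m1 := m1) ∅ (by simpa using dimF_pos hrec)
    have h2 : AddSubgroup.closure ((∅ : Finset (Fin n → ℤ)) : Set (Fin n → ℤ)) = V := by
      rw [hV]; simp
    rwa [h2] at h1
  have hsupp : (dd V (la F (iot m0)) (lb F (iot m1))).coeff.support.Nonempty := by
    rw [Finset.nonempty_iff_ne_empty]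
    intro h0
    rw [Finsupp.support_eq_empty] at h0
    apply hne
    have := congrArg AddMonoidAlgebra.ofCoeff h0
    rw [AddMonoidAlgebra.ofCoeff_coeff] at this
    rw [this]
    rfl
  obtain ⟨v, hv, hvmin⟩ := Finset.exists_min_image _ (fun w => rho n w) hsupp
  rw [Finsupp.mem_support_iff] at hv
  have hv0 : (0 : Fin n → ℤ) ≠ v := by
    intro h0
    apply hv
    rw [← h0]
    exact dd_coeff_mem V _ _ V.zero_mem
  obtain ⟨κ, hκ⟩ : ∃ κ, κ = Real.exp (-(2 * mm F)) := ⟨_, rfl⟩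
  have hκ0 : 0 < κ := hκ ▸ Real.exp_pos _
  have hsq : Real.exp (-mm F) ^ 2 = κ := by
    rw [hκ, ← Real.exp_nat_mul]
    congr 1
    push_cast
    ring
  have hhsq : κ * ‖((F.coeff m1 : ℤ) : ℂ)‖ ^ 2 ≤ ‖h 0‖ ^ 2 := by
    have h1 : (‖((F.coeff m1 : ℤ) : ℂ)‖ * Real.exp (-mm F)) ^ 2 ≤ ‖h 0‖ ^ 2 := by
      gcongr
    rw [mul_pow, hsq] at h1
    linarith
  have hstep := step_ineq S hg1 hh1 V hv
    (fun w hw => hvmin w (Finsupp.mem_support_iff.mpr hw)) hκ0 (by
      rw [hb0]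
      have h1 := dd_int V F (iot m0) (iot m1) v hv
      nlinarith [sq_nonneg ‖h 0‖])
  rw [hV, tsum_coset_bot, tsum_coset_bot] at hstep
  have hg := sum_two_le S.g_sq hg1 hv0
  have hh := sum_two_le S.h_sq hh1 hv0
  have hP : Pr (rho n) (lb F (iot m1)) h (la F (iot m0)) g :=
    ⟨S.eqn.symm, 0, S.g_supp⟩
  have hpiv := (hP.piv ⟨S.inj, S.b_supp, S.b_zero, S.h_supp⟩ (r := 0) (fun w hw => by
    by_contra hne'
    have := S.a_supp w hne'
    linarith)).2 0 (map_zero _)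
  rw [ha0, hb0] at hpiv
  have hg0 : κ ≤ ‖g 0‖ ^ 2 := by
    have h1 := congrArg norm hpiv
    rw [norm_mul, norm_mul] at h1
    have h2 : ‖((F.coeff m1 : ℤ) : ℂ)‖ ^ 2 * ‖g 0‖ ^ 2 =
        ‖((F.coeff m0 : ℤ) : ℂ)‖ ^ 2 * ‖h 0‖ ^ 2 := by
      rw [← mul_pow, ← mul_pow, h1]
    have h3 : ‖h 0‖ ^ 2 ≤ ‖((F.coeff m0 : ℤ) : ℂ)‖ ^ 2 * ‖h 0‖ ^ 2 := by
      have : 1 ≤ ‖((F.coeff m0 : ℤ) : ℂ)‖ ^ 2 := one_le_pow₀ ha1
      nlinarith [sq_nonneg ‖h 0‖]
    have h4 : κ * ‖((F.coeff m1 : ℤ) : ℂ)‖ ^ 2 ≤ ‖g 0‖ ^ 2 * ‖((F.coeff m1 : ℤ) : ℂ)‖ ^ 2 := by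
      linarith
    exact le_of_mul_le_mul_right h4 (by positivity)
  have hh0' : κ ≤ ‖h 0‖ ^ 2 := by
    have : 1 ≤ ‖((F.coeff m1 : ℤ) : ℂ)‖ ^ 2 := one_le_pow₀ hb1
    nlinarith
  by_contra hlt
  push Not at hlt
  have hκ1 : 5 / 6 < κ := by
    have h1 := Real.add_one_le_exp (-(2 * mm F))
    rw [← hκ] at h1
    linarith
  nlinarith

theorem len_nonneg (P : MvPolynomial (Fin n) ℤ) : 0 ≤ len P :=
  sum_nonneg fun _ _ => abs_nonneg _

theorem len_mul_le (P Q : MvPolynomial (Fin n) ℤ) : len (P * Q) ≤ len P * len Q := by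
  classical
  have h1 : P * Q = ∑ x ∈ P.support ×ˢ Q.support,
      MvPolynomial.monomial (x.1 + x.2) (P.coeff x.1 * Q.coeff x.2) := by
    conv_lhs => rw [P.as_sum, Q.as_sum]
    rw [Finset.sum_mul_sum, sum_product]
    refine sum_congr rfl fun m _ => sum_congr rfl fun m' _ => ?_
    rw [MvPolynomial.monomial_mul]
  rw [h1]
  refine (len_sum_le _ _ _).trans ?_
  unfold len
  rw [Finset.sum_mul_sum, sum_product]
  refine sum_le_sum fun m _ => sum_le_sum fun m' _ => ?_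
  push_cast
  rw [abs_mul]

theorem mm_one : mm (1 : MvPolynomial (Fin n) ℤ) = 0 := by
  have h := mm_mul (n := n) (F := 1) (G := 1) one_ne_zero one_ne_zero
  rw [one_mul] at h
  linarith

theorem len_one_le : len (1 : MvPolynomial (Fin n) ℤ) ≤ 1 := by
  have h := len_monomial (n := n) 0 1
  rw [MvPolynomial.monomial_zero', MvPolynomial.C_1] at h
  rw [h]
  simp

/-- products of nonreciprocal polynomials have short multiples -/
theorem short_product (C : ℝ) : ∃ K : ℝ, ∀ (n : ℕ) (F P : MvPolynomial (Fin n) ℤ), F ≠ 0 →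
    mm F ≤ C → P ∣ F → (∀ G : MvPolynomial (Fin n) ℤ, Irreducible G → G ∣ P → ¬ Recip G) →
    ∃ H : MvPolynomial (Fin n) ℤ, H ≠ 0 ∧ P ∣ H ∧ len H ≤ K := by
  obtain ⟨K0, hK0⟩ := short_multiple C
  obtain ⟨K, hK⟩ : ∃ K, K = max K0 1 := ⟨_, rfl⟩
  have hK1 : 1 ≤ K := hK ▸ le_max_right _ _
  obtain ⟨N, hN⟩ := exists_nat_gt (12 * C)
  refine ⟨K ^ N, fun n F P hF hC hP hirr => ?_⟩
  have hP0 : P ≠ 0 := by
    rintro rfl
    exact hF (zero_dvd_iff.mp hP)
  have key : ∀ s : Multiset (MvPolynomial (Fin n) ℤ), (∀ G ∈ s, Irreducible G ∧ ¬ Recip G) →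
      s.prod ∣ F → (s.card : ℝ) * (1 / 12) ≤ mm s.prod ∧ ∃ H : MvPolynomial (Fin n) ℤ, H ≠ 0 ∧
        s.prod ∣ H ∧ len H ≤ K ^ s.card := by
    intro s
    induction s using Multiset.induction_on with
    | empty =>
      intro _ _
      rw [Multiset.prod_zero, mm_one]
      refine ⟨by simp, 1, one_ne_zero, dvd_rfl, ?_⟩
      simpa using len_one_le (n := n)
    | cons G s ih =>
      intro hs hd
      rw [Multiset.prod_cons] at hd ⊢
      obtain ⟨hG, hGr⟩ := hs G (Multiset.mem_cons_self _ _)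
      have hne := ne_zero_of_dvd_ne_zero hF hd
      obtain ⟨h1, H, hH0, hH1, hH2⟩ := ih (fun G' hG' => hs G' (Multiset.mem_cons_of_mem hG'))
        ((dvd_mul_left _ _).trans hd)
      obtain ⟨H', hH'0, hH'1, hH'2⟩ := hK0 n G hG hGr
        ((mm_le_of_dvd hF ((dvd_mul_right _ _).trans hd)).trans hC)
      refine ⟨?_, H' * H, mul_ne_zero hH'0 hH0, mul_dvd_mul hH'1 hH1, ?_⟩
      · rw [mm_mul (left_ne_zero_of_mul hne) (right_ne_zero_of_mul hne), Multiset.card_cons]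
        have := mm_lower hG hGr
        push_cast
        linarith
      · refine (len_mul_le _ _).trans ?_
        rw [Multiset.card_cons, pow_succ, mul_comm]
        exact mul_le_mul hH2 (hH'2.trans (hK ▸ le_max_left _ _)) (len_nonneg _) (by positivity)
  obtain ⟨s, hs, u, hu⟩ := WfDvdMonoid.exists_factors P hP0
  have hsP : s.prod ∣ P := ⟨u, hu.symm⟩
  have hPs : P ∣ s.prod := by
    rw [← hu]
    exact (u.isUnit.dvd_mul_right.mp (dvd_refl _) : s.prod * u ∣ s.prod)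
  obtain ⟨h1, H, hH0, hH1, hH2⟩ := key s (fun G hG => ⟨hs G hG,
    hirr G (hs G hG) ((Multiset.dvd_prod hG).trans hsP)⟩) (hsP.trans hP)
  refine ⟨H, hH0, hPs.trans hH1, hH2.trans ?_⟩
  refine pow_le_pow_right₀ hK1 ?_
  have h2 := mm_le_of_dvd hF (hsP.trans hP)
  have h3 : (s.card : ℝ) < N := by linarith
  exact_mod_cast h3.le

end Pool.Agent.H87.MM
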