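import Pool.Agent.H87.MM.Piv
import Pool.Agent.H87.MM.Det

/-!
# Integer relations between the members of a dependent family
-/

set_option autoImplicit false

open Finset

namespace Pool.Agent.H87.MM

variable {G : Type*} [AddCommGroup G] {ι : Type*}

/-- a family of admissible pairs with integer coefficients and small `R` -/
structure Fm (ρ : G →+ ℝ) (b : AddMonoidAlgebra ℂ G) (h : G → ℂ) (η : ℝ)
    (D : ι → AddMonoidAlgebra ℂ G) (R : ι → G → ℂ) : Prop where
  bs : Bs ρ b h
  pr : ∀ i, Pr ρ b h (D i) (R i)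
  int : ∀ i x, ∃ z : ℤ, (D i).coeff x = z
  sq : ∀ i (Y : Finset G), ∑ x ∈ Y, ‖R i x‖ ^ 2 ≤ 1
  pos : 0 < η
  le : η * ‖b.coeff 0‖ ≤ ‖h 0‖

variable {ρ : G →+ ℝ} {b : AddMonoidAlgebra ℂ G} {h : G → ℂ} {η : ℝ}
  {D : ι → AddMonoidAlgebra ℂ G} {R : ι → G → ℂ}

theorem inj_of_det {r : ℕ} {X : Fin r → G → ℂ} {v : Fin r → G}
    (hd : Matrix.det (Matrix.of fun i j => X i (v j)) ≠ 0) : Function.Injective v := by
  intro i j hij
  by_contra hne
  apply hd
  refine Matrix.det_zero_of_column_eq hne fun k => ?_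
  rw [Matrix.of_apply, Matrix.of_apply, hij]

theorem Fm.row (F : Fm ρ b h η D R) (i : ι) {r : ℕ} {v : Fin r → G} (hv : Function.Injective v) :
    ∑ j, ‖R i (v j)‖ ^ 2 ≤ 1 := by
  classical
  have h1 := F.sq i (univ.map ⟨v, hv⟩)
  rwa [sum_map] at h1

theorem Fm.det_le (F : Fm ρ b h η D R) {r : ℕ} (e : Fin r → ι) {v : Fin r → G}
    (hv : Function.Injective v) : ‖Matrix.det (Matrix.of fun i j => R (e i) (v j))‖ ≤ 1 := by
  have h1 := det_sq_le (Matrix.of fun i j => R (e i) (v j)) one_pos (by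
    rw [one_mul]
    calc ∑ i, ∑ j, ‖(Matrix.of fun i j => R (e i) (v j)) i j‖ ^ 2 ≤ ∑ i : Fin r, (1 : ℝ) :=
          sum_le_sum fun i _ => F.row (e i) hv
      _ = _ := by simp)
  rw [one_pow] at h1
  exact (sq_le_one_iff₀ (norm_nonneg _)).mp h1

theorem Fm.le_norm (F : Fm ρ b h η D R) : η ≤ ‖h 0 / b.coeff 0‖ := by
  rw [norm_div, le_div_iff₀ (norm_pos_iff.mpr F.bs.b_zero)]
  exact F.le

theorem Fm.int_det (F : Fm ρ b h η D R) {r : ℕ} (e : Fin r → ι) (v : Fin r → G) :
    ∃ z : ℤ, Matrix.det (Matrix.of fun i j => (D (e i)).coeff (v j)) = z := by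
  choose z hz using F.int
  refine ⟨Matrix.det (Matrix.of fun i j => z (e i) (v j)), ?_⟩
  have h1 : (Matrix.of fun i j => (D (e i)).coeff (v j)) =
      (Int.castRingHom ℂ).mapMatrix (Matrix.of fun i j => z (e i) (v j)) := by
    ext i j
    rw [Matrix.of_apply, hz]
    rfl
  rw [h1, ← RingHom.map_det]
  rfl

/-- independent families have a large minor -/
theorem Fm.large (F : Fm ρ b h η D R) {r : ℕ} (e : Fin r → ι)
    (hD : LinearIndependent ℂ fun i => D (e i)) : ∃ v : Fin r → G, Function.Injective v ∧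
      η ^ r ≤ ‖Matrix.det (Matrix.of fun i j => R (e i) (v j))‖ := by
  obtain ⟨v, hv1, hv2⟩ := pivots F.bs r (fun i => D (e i)) (fun i => R (e i)) (fun i => F.pr _) hD
  refine ⟨v, inj_of_det (X := fun i => (D (e i)).coeff) hv1, ?_⟩
  rw [hv2, norm_mul, norm_pow]
  obtain ⟨z, hz⟩ := F.int_det e v
  have h1 : 1 ≤ ‖Matrix.det (Matrix.of fun i j => (D (e i)).coeff (v j))‖ := by
    rw [hz] at hv1 ⊢
    have h2 : z ≠ 0 := by
      intro h0
      rw [h0] at hv1
      simp at hv1
    rw [Complex.norm_intCast]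
    exact_mod_cast Int.one_le_abs h2
  have h2 : η ^ r ≤ ‖h 0 / b.coeff 0‖ ^ r := pow_le_pow_left₀ F.pos.le F.le_norm r
  have h3 : 0 < η ^ r := pow_pos F.pos r
  nlinarith

/-- the key transfer between minors -/
theorem Fm.transfer (F : Fm ρ b h η D R) {r : ℕ} {D' : Fin r → AddMonoidAlgebra ℂ G}
    {R' : Fin r → G → ℂ} (hP : ∀ i, Pr ρ b h (D' i) (R' i)) {v : Fin r → G}
    (hv : Matrix.det (Matrix.of fun i j => R' i (v j)) =
        (h 0 / b.coeff 0) ^ r * Matrix.det (Matrix.of fun i j => (D' i).coeff (v j)))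
    (e : Fin r → ι) (he : ∀ i, D (e i) ∈ Submodule.span ℂ (Set.range D')) :
    Matrix.det (Matrix.of fun i j => R (e i) (v j)) =
        (h 0 / b.coeff 0) ^ r * Matrix.det (Matrix.of fun i j => (D (e i)).coeff (v j)) := by
  have h1 : ∀ i, ∃ c : Fin r → ℂ, ∑ l, c l • D' l = D (e i) := fun i =>
    (Submodule.mem_span_range_iff_exists_fun ℂ).mp (he i)
  choose C hC using h1
  have hR : ∀ i, R (e i) = ∑ l, C i l • R' l := by
    intro i
    have h2 := Pr.sum univ hP (C i)
    rw [hC i] at h2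
    exact (F.pr (e i)).uniq F.bs h2
  have e1 : (Matrix.of fun i j => R (e i) (v j)) =
      Matrix.of C * Matrix.of fun i j => R' i (v j) := by
    ext i j
    rw [Matrix.mul_apply, Matrix.of_apply, hR i, Finset.sum_apply]
    rfl
  have e2 : (Matrix.of fun i j => (D (e i)).coeff (v j)) =
      Matrix.of C * Matrix.of fun i j => (D' i).coeff (v j) := by
    ext i j
    rw [Matrix.mul_apply, Matrix.of_apply, ← hC i, AddMonoidAlgebra.coeff_sum, Finsupp.finsetSum_apply]
    refine sum_congr rfl fun l _ => ?_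
    rw [AddMonoidAlgebra.coeff_smul, Finsupp.smul_apply, smul_eq_mul]
    rfl
  rw [e1, e2, Matrix.det_mul, Matrix.det_mul, hv]
  ring

/-- minors at the pivots are bounded -/
theorem Fm.minor_le (F : Fm ρ b h η D R) {r : ℕ} {e : Fin r → ι} {v : Fin r → G}
    (hv : Function.Injective v)
    (hd : Matrix.det (Matrix.of fun i j => R (e i) (v j)) =
        (h 0 / b.coeff 0) ^ r * Matrix.det (Matrix.of fun i j => (D (e i)).coeff (v j))) :
    η ^ r * ‖Matrix.det (Matrix.of fun i j => (D (e i)).coeff (v j))‖ ≤ 1 := by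
  have h1 := F.det_le e hv
  rw [hd, norm_mul, norm_pow] at h1
  have h2 : η ^ r ≤ ‖h 0 / b.coeff 0‖ ^ r := pow_le_pow_left₀ F.pos.le F.le_norm r
  exact (mul_le_mul_of_nonneg_right h2 (norm_nonneg _)).trans h1

theorem Fm.relation (F : Fm ρ b h η D R) {r : ℕ} (E : Fin (r + 1) → ι)
    (hi : LinearIndependent ℂ fun i : Fin r => D (E i.succ))
    (hs : D (E 0) ∈ Submodule.span ℂ (Set.range fun i : Fin r => D (E i.succ))) :
    ∃ m : Fin (r + 1) → ℤ, m 0 ≠ 0 ∧ (∀ k, η ^ r * |(m k : ℝ)| ≤ 1) ∧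
      ∑ k, (m k : ℂ) • D (E k) = 0 := by
  obtain ⟨v, hv1, hv2⟩ := pivots F.bs r (fun i => D (E i.succ)) (fun i => R (E i.succ))
    (fun i => F.pr _) hi
  have hvi := inj_of_det (X := fun i => (D (E (Fin.succ i))).coeff) hv1
  have hspan : ∀ k, D (E k) ∈ Submodule.span ℂ (Set.range fun i : Fin r => D (E i.succ)) := by
    intro k
    refine Fin.cases hs (fun i => ?_) k
    exact Submodule.subset_span ⟨i, rfl⟩
  choose M hM using fun k : Fin (r + 1) => F.int_det (fun i => E (k.succAbove i)) v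
  refine ⟨fun k => (-1) ^ (k : ℕ) * M k, ?_, fun k => ?_, ?_⟩
  · intro h0
    have h1 : M 0 = 0 := by simpa using h0
    apply hv1
    have h2 := hM 0
    rw [h1] at h2
    simp only [Fin.zero_succAbove] at h2
    simpa using h2
  · have h1 := F.transfer (fun i => F.pr _) hv2 (fun i => E (k.succAbove i)) (fun i => hspan _)
    have h2 := F.minor_le hvi h1
    rw [hM k, Complex.norm_intCast] at h2
    have h3 : |(((-1) ^ (k : ℕ) * M k : ℤ) : ℝ)| = |(M k : ℝ)| := by
      push_cast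
      rw [abs_mul, abs_pow, abs_neg, abs_one, one_pow, one_mul]
    rw [h3]
    exact h2
  · -- the determinant with one more column
    have hdet : ∀ x : G, Matrix.det (Matrix.of fun i j => (D (E i)).coeff
        ((Fin.cons x v : Fin (r + 1) → G) j)) = 0 := by
      intro x
      rw [← Matrix.exists_vecMul_eq_zero_iff]
      obtain ⟨c, hc⟩ := (Submodule.mem_span_range_iff_exists_fun ℂ).mp hs
      refine ⟨Fin.cons 1 fun i => -c i, ?_, ?_⟩
      · intro h0
        have := congrFun h0 0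
        simp at this
      · funext j
        rw [Matrix.vecMul, dotProduct, Fin.sum_univ_succ, Pi.zero_apply]
        simp only [Fin.cons_zero, Fin.cons_succ, Matrix.of_apply, one_mul]
        rw [← hc, AddMonoidAlgebra.coeff_sum, Finsupp.finsetSum_apply, ← sum_add_distrib]
        refine sum_eq_zero fun i _ => ?_
        rw [AddMonoidAlgebra.coeff_smul, Finsupp.smul_apply, smul_eq_mul]
        ring
    have h0 : (∑ k : Fin (r + 1), (((-1) ^ (k : ℕ) * M k : ℤ) : ℂ) • D (E k)).coeff = 0 := by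
      ext x
      have h1 := hdet x
      rw [Matrix.det_succ_column_zero] at h1
      rw [AddMonoidAlgebra.coeff_sum, Finsupp.finsetSum_apply, Finsupp.zero_apply, ← h1]
      refine sum_congr rfl fun k _ => ?_
      rw [AddMonoidAlgebra.coeff_smul, Finsupp.smul_apply, smul_eq_mul]
      have h2 : ((Matrix.of fun i j => (D (E i)).coeff
          ((Fin.cons x v : Fin (r + 1) → G) j)).submatrix k.succAbove Fin.succ) =
          Matrix.of fun i j => (D (E (k.succAbove i))).coeff (v j) := by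
        ext i j
        simp
      rw [h2, hM k, Matrix.of_apply, Fin.cons_zero]
      push_cast
      ring
    have h1 := congrArg AddMonoidAlgebra.ofCoeff h0
    rw [AddMonoidAlgebra.ofCoeff_coeff] at h1
    rw [h1]
    rfl

/-- a dependent family has a small integer relation -/
theorem Fm.exists_relation (F : Fm ρ b h η D R) (J : Finset ι)
    (hJ : ¬ LinearIndepOn ℂ D (J : Set ι)) :
    ∃ (r : ℕ) (E : Fin (r + 1) → ι) (m : Fin (r + 1) → ℤ), Function.Injective E ∧
      (∀ k, E k ∈ J) ∧ r + 1 ≤ J.card ∧ m 0 ≠ 0 ∧ (∀ k, η ^ r * |(m k : ℝ)| ≤ 1) ∧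
      ∑ k, (m k : ℂ) • D (E k) = 0 := by
  classical
  obtain ⟨I, hI, hmax⟩ := exists_max_image (J.powerset.filter fun I : Finset ι =>
    LinearIndepOn ℂ D (I : Set ι)) (fun I => I.card) ⟨∅, by
      rw [mem_filter]
      exact ⟨empty_mem_powerset _, by rw [coe_empty]; exact linearIndepOn_empty ℂ D⟩⟩
  rw [mem_filter, mem_powerset] at hI
  obtain ⟨hIJ, hIi⟩ := hI
  obtain ⟨i0, hi0, hi0'⟩ : ∃ i0 ∈ J, i0 ∉ I := by
    by_contra hcon
    push Not at hcon
    exact hJ (hIi.mono (by exact_mod_cast hcon))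
  have hspan : D i0 ∈ Submodule.span ℂ (D '' (I : Set ι)) := by
    by_contra hn
    have h1 : LinearIndepOn ℂ D ((insert i0 I : Finset ι) : Set ι) := by
      rw [coe_insert]
      exact hIi.insert hn
    have h2 := hmax (insert i0 I) (by
      rw [mem_filter, mem_powerset]
      exact ⟨insert_subset hi0 hIJ, h1⟩)
    rw [card_insert_of_notMem hi0'] at h2
    omega
  obtain ⟨r, hr⟩ : ∃ r, r = I.card := ⟨_, rfl⟩
  obtain ⟨e⟩ : Nonempty (Fin r ≃ I) := ⟨(I.equivFinOfCardEq hr.symm).symm⟩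
  have hindep : LinearIndependent ℂ fun i : Fin r => D (e i : ι) := by
    have h1 : LinearIndependent ℂ fun i : I => D i := hIi
    exact h1.comp e e.injective
  have hrange : (Set.range fun i : Fin r => D (e i : ι)) = D '' (I : Set ι) := by
    ext x
    constructor
    · rintro ⟨i, rfl⟩
      exact ⟨e i, (e i).2, rfl⟩
    · rintro ⟨i, hi, rfl⟩
      exact ⟨e.symm ⟨i, hi⟩, by simp⟩
  obtain ⟨m, hm1, hm2, hm3⟩ := F.relation (r := r) (Fin.cons i0 fun i => (e i : ι))
    (by simpa using hindep) (by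
      simp only [Fin.cons_zero, Fin.cons_succ]
      rw [hrange]
      exact hspan)
  refine ⟨r, Fin.cons i0 fun i => (e i : ι), m, ?_, ?_, ?_, hm1, hm2, hm3⟩
  · rw [Fin.cons_injective_iff]
    refine ⟨?_, fun i j hij => e.injective (Subtype.ext hij)⟩
    rintro ⟨i, hi⟩
    exact hi0' (hi ▸ (e i).2)
  · intro k
    refine Fin.cases ?_ (fun i => ?_) k
    · exact hi0
    · exact hIJ (e i).2
  · have h1 : (insert i0 I).card ≤ J.card := card_le_card (insert_subset hi0 hIJ)
    rw [card_insert_of_notMem hi0'] at h1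
    omega

end Pool.Agent.H87.MM
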