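import Mathlib

/-!
# Laurent polynomials, characters and mean values
-/

set_option autoImplicit false

open MeasureTheory

namespace Pool.Agent.H87.MM

variable {n : ℕ}

/-- the exponent vector in `ℤ^n` -/
def iot (m : Fin n →₀ ℕ) : Fin n → ℤ := fun i => (m i : ℤ)

theorem iot_injective : Function.Injective (iot (n := n)) := by
  intro m m' h
  ext i
  have h1 : ((m i : ℕ) : ℤ) = ((m' i : ℕ) : ℤ) := congrFun h i
  exact_mod_cast h1

/-- the Laurent polynomial -/
noncomputable def lp (F : MvPolynomial (Fin n) ℤ) : AddMonoidAlgebra ℂ (Fin n → ℤ) :=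
  ∑ m ∈ F.support, AddMonoidAlgebra.single (iot m) ((F.coeff m : ℤ) : ℂ)

/-- the Laurent polynomial of the inverse variables -/
noncomputable def lpr (F : MvPolynomial (Fin n) ℤ) : AddMonoidAlgebra ℂ (Fin n → ℤ) :=
  ∑ m ∈ F.support, AddMonoidAlgebra.single (-(iot m)) ((F.coeff m : ℤ) : ℂ)

/-- evaluation at a character -/
noncomputable abbrev ev (χ : Multiplicative (Fin n → ℤ) →* ℂ) :
    AddMonoidAlgebra ℂ (Fin n → ℤ) →ₐ[ℂ] ℂ :=
  AddMonoidAlgebra.lift ℂ ℂ (Fin n → ℤ) χ

theorem ev_lp (χ : Multiplicative (Fin n → ℤ) →* ℂ) (F : MvPolynomial (Fin n) ℤ) :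
    ev χ (lp F) = ∑ m ∈ F.support, ((F.coeff m : ℤ) : ℂ) * χ (.ofAdd (iot m)) := by
  unfold ev lp
  rw [map_sum]
  refine Finset.sum_congr rfl fun m _ => ?_
  rw [AddMonoidAlgebra.lift_single, smul_eq_mul]

theorem ev_lpr (χ : Multiplicative (Fin n → ℤ) →* ℂ) (F : MvPolynomial (Fin n) ℤ) :
    ev χ (lpr F) = ∑ m ∈ F.support, ((F.coeff m : ℤ) : ℂ) * χ (.ofAdd (-(iot m))) := by
  unfold ev lpr
  rw [map_sum]
  refine Finset.sum_congr rfl fun m _ => ?_
  rw [AddMonoidAlgebra.lift_single, smul_eq_mul]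

theorem char_neg {χ : Multiplicative (Fin n → ℤ) →* ℂ} (hχ : ∀ x, ‖χ x‖ = 1)
    (x : Fin n → ℤ) : χ (.ofAdd (-x)) = starRingEnd ℂ (χ (.ofAdd x)) := by
  have h1 : χ (.ofAdd (-x)) * χ (.ofAdd x) = 1 := by
    rw [← map_mul, ← ofAdd_add, neg_add_cancel, ofAdd_zero, map_one]
  have h2 : starRingEnd ℂ (χ (.ofAdd x)) * χ (.ofAdd x) = 1 := by
    rw [mul_comm, Complex.mul_conj, Complex.normSq_eq_norm_sq, hχ]
    simp
  have h3 : χ (.ofAdd x) ≠ 0 := by
    intro h
    have := hχ (.ofAdd x)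
    rw [h, norm_zero] at this
    exact zero_ne_one this
  exact mul_right_cancel₀ h3 (h1.trans h2.symm)

theorem ev_mul_lpr {χ : Multiplicative (Fin n → ℤ) →* ℂ} (hχ : ∀ x, ‖χ x‖ = 1)
    (F : MvPolynomial (Fin n) ℤ) :
    ev χ (lp F * lpr F) = ((‖ev χ (lp F)‖ ^ 2 : ℝ) : ℂ) := by
  have h : ev χ (lpr F) = starRingEnd ℂ (ev χ (lp F)) := by
    rw [ev_lpr, ev_lp, map_sum]
    refine Finset.sum_congr rfl fun m _ => ?_
    rw [map_mul, char_neg hχ]
    simp
  rw [map_mul, h, Complex.mul_conj, Complex.normSq_eq_norm_sq]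

/-- `q(|F|^2)` as a Laurent polynomial -/
noncomputable def qF (q : Polynomial ℝ) (F : MvPolynomial (Fin n) ℤ) :
    AddMonoidAlgebra ℂ (Fin n → ℤ) :=
  Polynomial.aeval (lp F * lpr F) (q.map (algebraMap ℝ ℂ))

theorem ev_qF {χ : Multiplicative (Fin n → ℤ) →* ℂ} (hχ : ∀ x, ‖χ x‖ = 1)
    (q : Polynomial ℝ) (F : MvPolynomial (Fin n) ℤ) :
    ev χ (qF q F) = ((q.eval (‖ev χ (lp F)‖ ^ 2) : ℝ) : ℂ) := by
  unfold qF
  rw [← Polynomial.aeval_algHom_apply, ev_mul_lpr hχ, Polynomial.aeval_def,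
    Polynomial.eval₂_eq_eval_map]
  simp only [Algebra.algebraMap_self, Polynomial.map_id]
  rw [Polynomial.eval_map]
  exact Polynomial.eval₂_at_apply (algebraMap ℝ ℂ) _

/-- the cube -/
def cube (n : ℕ) : Set (Fin n → ℝ) := Set.univ.pi fun _ => Set.Icc (0 : ℝ) 1

/-- the character of a point of the torus -/
noncomputable def chr (t : Fin n → ℝ) : Multiplicative (Fin n → ℤ) →* ℂ where
  toFun x := ∏ i, Complex.exp ((2 * Real.pi * t i : ℝ) * Complex.I) ^ (x.toAdd i)
  map_one' := by simp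
  map_mul' x y := by
    rw [← Finset.prod_mul_distrib]
    refine Finset.prod_congr rfl fun i _ => ?_
    rw [toAdd_mul, Pi.add_apply, zpow_add₀ (Complex.exp_ne_zero _)]

theorem chr_apply (t : Fin n → ℝ) (x : Fin n → ℤ) : chr t (.ofAdd x) =
    ∏ i, Complex.exp ((2 * Real.pi * t i : ℝ) * Complex.I) ^ (x i) := rfl

theorem norm_chr (t : Fin n → ℝ) (x : Multiplicative (Fin n → ℤ)) : ‖chr t x‖ = 1 := by
  change ‖∏ i, Complex.exp ((2 * Real.pi * t i : ℝ) * Complex.I) ^ (x.toAdd i)‖ = 1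
  rw [norm_prod]
  refine Finset.prod_eq_one fun i _ => ?_
  rw [norm_zpow, Complex.norm_exp_ofReal_mul_I, one_zpow]

theorem integral_zpow_unit (k : ℤ) :
    ∫ t in Set.Icc (0 : ℝ) 1, Complex.exp ((2 * Real.pi * t : ℝ) * Complex.I) ^ k =
      if k = 0 then 1 else 0 := by
  by_cases hk : k = 0
  · rw [if_pos hk, hk]
    simp
  · rw [if_neg hk, integral_Icc_eq_integral_Ioc,
      ← intervalIntegral.integral_of_le zero_le_one]
    have h1 : ∀ t : ℝ, Complex.exp ((2 * Real.pi * t : ℝ) * Complex.I) ^ k =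
        Complex.exp ((2 * Real.pi * Complex.I * k) * t) := by
      intro t
      rw [← Complex.exp_int_mul]
      congr 1
      push_cast
      ring
    have hc : (2 * Real.pi * Complex.I * k : ℂ) ≠ 0 := by
      have h2 : (Real.pi : ℂ) ≠ 0 := by exact_mod_cast Real.pi_ne_zero
      have h3 : (k : ℂ) ≠ 0 := by exact_mod_cast hk
      simp [h2, h3]
    simp only [h1]
    rw [integral_exp_mul_complex hc]
    have h4 : Complex.exp (2 * Real.pi * Complex.I * k * ((1 : ℝ) : ℂ)) = 1 := by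
      rw [Complex.exp_eq_one_iff]
      exact ⟨k, by push_cast; ring⟩
    rw [h4]
    simp

theorem integral_chr (x : Fin n → ℤ) :
    ∫ t in cube n, chr t (.ofAdd x) = if x = 0 then 1 else 0 := by
  simp only [chr_apply]
  unfold cube
  rw [volume_pi, Measure.restrict_pi_pi,
    integral_fintype_prod_eq_prod (𝕜 := ℂ) (fun i (s : ℝ) =>
      Complex.exp ((2 * Real.pi * s : ℝ) * Complex.I) ^ (x i))]
  simp only [integral_zpow_unit]
  by_cases hx : x = 0
  · rw [if_pos hx, hx]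
    simp
  · rw [if_neg hx]
    obtain ⟨i, hi⟩ : ∃ i, x i ≠ 0 := by
      by_contra h
      push Not at h
      exact hx (funext h)
    exact Finset.prod_eq_zero (Finset.mem_univ i) (if_neg hi)

instance : IsFiniteMeasure ((volume : Measure (Fin n → ℝ)).restrict (cube n)) := by
  constructor
  rw [Measure.restrict_apply_univ]
  exact (isCompact_univ_pi fun _ => isCompact_Icc).measure_lt_top

theorem continuous_chr (x : Fin n → ℤ) : Continuous fun t : Fin n → ℝ => chr t (.ofAdd x) := by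
  simp only [chr_apply]
  refine continuous_finsetProd _ fun i _ => ?_
  refine Continuous.zpow₀ ?_ _ fun t => Or.inl (Complex.exp_ne_zero _)
  fun_prop

theorem integrable_chr (x : Fin n → ℤ) :
    Integrable (fun t : Fin n → ℝ => chr t (.ofAdd x)) (volume.restrict (cube n)) :=
  ((continuous_chr x).continuousOn.integrableOn_compact
    (isCompact_univ_pi fun _ => isCompact_Icc))

theorem mean_cube (c : AddMonoidAlgebra ℂ (Fin n → ℤ)) :
    ∫ t in cube n, ev (chr t) c = c.coeff 0 := by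
  induction c using AddMonoidAlgebra.induction_linear with
  | zero => simp
  | add c d h h' =>
    have hint : ∀ c : AddMonoidAlgebra ℂ (Fin n → ℤ),
        Integrable (fun t => ev (chr t) c) (volume.restrict (cube n)) := by
      intro c
      induction c using AddMonoidAlgebra.induction_linear with
      | zero => simp
      | add c d h h' => simp only [map_add]; exact h.add h'
      | single x r =>
        simp only [AddMonoidAlgebra.lift_single, smul_eq_mul]
        exact (integrable_chr x).const_mul r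
    simp only [map_add]
    rw [integral_add (hint c) (hint d), h, h']
    simp
  | single x r =>
    classical
    simp only [AddMonoidAlgebra.lift_single, smul_eq_mul]
    rw [integral_const_mul, integral_chr, AddMonoidAlgebra.coeff_single, Finsupp.single_apply]
    by_cases hx : x = 0
    · rw [if_pos hx, if_pos hx, mul_one]
    · rw [if_neg hx, if_neg hx, mul_zero]

/-- the character `x ↦ z ^ (σ x)` -/
noncomputable def chz (σ : (Fin n → ℤ) →+ ℤ) (z : ℂ) (hz : z ≠ 0) :
    Multiplicative (Fin n → ℤ) →* ℂ where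
  toFun x := z ^ (σ x.toAdd)
  map_one' := by simp
  map_mul' x y := by
    rw [toAdd_mul, map_add, zpow_add₀ hz]

theorem circleMap_ne (θ : ℝ) : circleMap 0 1 θ ≠ 0 := by
  rw [circleMap_zero]
  simp [Complex.exp_ne_zero]

theorem norm_circleMap (θ : ℝ) : ‖circleMap 0 1 θ‖ = 1 := by
  rw [circleMap_zero]
  simp [Complex.norm_exp_ofReal_mul_I]

theorem mean_circle_zpow (k : ℤ) :
    (2 * Real.pi : ℝ)⁻¹ • ∫ θ in (0 : ℝ)..2 * Real.pi, (circleMap 0 1 θ) ^ k =
      (if k = 0 then 1 else 0 : ℂ) := by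
  by_cases hk : k = 0
  · rw [if_pos hk, hk]
    simp only [zpow_zero]
    rw [intervalIntegral.integral_const, sub_zero, smul_smul, inv_mul_cancel₀ (by positivity)]
    simp
  · rw [if_neg hk]
    have h1 : ∀ θ : ℝ, (circleMap 0 1 θ) ^ k = Complex.exp ((Complex.I * k) * θ) := by
      intro θ
      rw [circleMap_zero]
      simp only [Complex.ofReal_one, one_mul]
      rw [← Complex.exp_int_mul]
      congr 1
      ring
    have hc : (Complex.I * k : ℂ) ≠ 0 := by
      have h3 : (k : ℂ) ≠ 0 := by exact_mod_cast hk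
      simp [h3]
    simp only [h1]
    rw [integral_exp_mul_complex hc]
    have h4 : Complex.exp (Complex.I * k * ((2 * Real.pi : ℝ) : ℂ)) = 1 := by
      rw [Complex.exp_eq_one_iff]
      exact ⟨k, by push_cast; ring⟩
    rw [h4]
    simp

theorem mean_circle (σ : (Fin n → ℤ) →+ ℤ) (c : AddMonoidAlgebra ℂ (Fin n → ℤ))
    (hσ : ∀ x ∈ c.coeff.support, σ x = 0 → x = 0) :
    (2 * Real.pi : ℝ)⁻¹ • ∫ θ in (0 : ℝ)..2 * Real.pi,
      ev (chz σ (circleMap 0 1 θ) (circleMap_ne θ)) c = c.coeff 0 := by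
  classical
  have hcont : ∀ k : ℤ, Continuous fun θ : ℝ => (circleMap 0 1 θ) ^ k := by
    intro k
    refine Continuous.zpow₀ (continuous_circleMap 0 1) _ fun t => Or.inl (circleMap_ne t)
  have h1 : ∀ θ : ℝ, ev (chz σ (circleMap 0 1 θ) (circleMap_ne θ)) c =
      ∑ x ∈ c.coeff.support, c.coeff x * (circleMap 0 1 θ) ^ (σ x) := by
    intro θ
    rw [AddMonoidAlgebra.lift_apply]
    rfl
  simp only [h1]
  rw [intervalIntegral.integral_finsetSum (fun x _ =>
    ((hcont (σ x)).const_mul _).intervalIntegrable _ _), Finset.smul_sum]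
  have h2 : ∀ x ∈ c.coeff.support, (2 * Real.pi : ℝ)⁻¹ • ∫ θ in (0 : ℝ)..2 * Real.pi,
      c.coeff x * (circleMap 0 1 θ) ^ (σ x) = if x = 0 then c.coeff 0 else 0 := by
    intro x hx
    rw [intervalIntegral.integral_const_mul, ← mul_smul_comm, mean_circle_zpow]
    by_cases h0 : x = 0
    · rw [if_pos h0, h0]
      simp
    · rw [if_neg h0, if_neg (fun h => h0 (hσ x hx h)), mul_zero]
  rw [Finset.sum_congr rfl h2, Finset.sum_ite_eq' c.coeff.support 0]
  by_cases h0 : (0 : Fin n → ℤ) ∈ c.coeff.support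
  · rw [if_pos h0]
  · rw [if_neg h0]
    exact (Finsupp.notMem_support_iff.mp h0).symm

/-- the key equality of means -/
theorem mean_eq (σ : (Fin n → ℤ) →+ ℤ) (q : Polynomial ℝ) (F : MvPolynomial (Fin n) ℤ)
    (hσ : ∀ x ∈ (qF q F).coeff.support, σ x = 0 → x = 0) :
    (2 * Real.pi)⁻¹ * ∫ θ in (0 : ℝ)..2 * Real.pi,
      q.eval (‖ev (chz σ (circleMap 0 1 θ) (circleMap_ne θ)) (lp F)‖ ^ 2) =
    ∫ t in cube n, q.eval (‖ev (chr t) (lp F)‖ ^ 2) := by
  have h1 := mean_circle σ (qF q F) hσ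
  have h2 := mean_cube (qF q F)
  have hz : ∀ (θ : ℝ) (x : Multiplicative (Fin n → ℤ)),
      ‖chz σ (circleMap 0 1 θ) (circleMap_ne θ) x‖ = 1 := by
    intro θ x
    change ‖(circleMap 0 1 θ) ^ (σ x.toAdd)‖ = 1
    rw [norm_zpow, norm_circleMap, one_zpow]
  rw [← h2] at h1
  simp only [fun θ => ev_qF (hz θ) q F, fun t => ev_qF (norm_chr t) q F] at h1
  rw [intervalIntegral.integral_ofReal, integral_complex_ofReal] at h1
  have h3 : ((((2 * Real.pi)⁻¹ * ∫ θ in (0 : ℝ)..2 * Real.pi,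
      q.eval (‖ev (chz σ (circleMap 0 1 θ) (circleMap_ne θ)) (lp F)‖ ^ 2) : ℝ)) : ℂ) =
      ((∫ t in cube n, q.eval (‖ev (chr t) (lp F)‖ ^ 2) : ℝ) : ℂ) := by
    rw [← h1, Complex.ofReal_mul, Complex.real_smul]
  exact_mod_cast h3

end Pool.Agent.H87.MM
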