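import Pool.Agent.H87.MM.Prod
import Pool.Agent.H87.MM.Gram

/-!
# Specialisations to several variables
-/

set_option autoImplicit false

open MeasureTheory Filter Topology

namespace Pool.Agent.H87.MM

variable {d n : ℕ}

section basic

variable {G : Type*} [AddCommGroup G]

/-- specialisation -/
noncomputable def SP (σ : (Fin d → ℤ) →+ G) : MvPolynomial (Fin d) ℤ →+* AddMonoidAlgebra ℂ G :=
  (AddMonoidAlgebra.mapDomainRingHom ℂ σ).comp (JJ d)

theorem SP_monomial (σ : (Fin d → ℤ) →+ G) (m : Fin d →₀ ℕ) (c : ℤ) :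
    SP σ (MvPolynomial.monomial m c) = AddMonoidAlgebra.single (σ (iot m)) (c : ℂ) := by
  unfold SP
  rw [RingHom.comp_apply, JJ_monomial, AddMonoidAlgebra.mapDomainRingHom_apply,
    AddMonoidAlgebra.mapDomain_single]

theorem SP_sum {ι : Type*} (σ : (Fin d → ℤ) →+ G) (s : Finset ι) (e : ι → (Fin d →₀ ℕ))
    (c : ι → ℤ) : SP σ (∑ i ∈ s, MvPolynomial.monomial (e i) (c i)) =
      ∑ i ∈ s, AddMonoidAlgebra.single (σ (iot (e i))) ((c i : ℤ) : ℂ) := by
  rw [map_sum]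
  exact Finset.sum_congr rfl fun i _ => SP_monomial _ _ _

theorem SP_eq_sum (σ : (Fin d → ℤ) →+ G) (P : MvPolynomial (Fin d) ℤ) :
    SP σ P = ∑ m ∈ P.support, AddMonoidAlgebra.single (σ (iot m)) ((P.coeff m : ℤ) : ℂ) := by
  conv_lhs => rw [← MvPolynomial.support_sum_monomial_coeff P]
  exact SP_sum _ _ _ _

theorem SP_coeff (σ : (Fin d → ℤ) →+ G) {P : MvPolynomial (Fin d) ℤ}
    (hσ : ∀ m ∈ P.support, ∀ m' ∈ P.support, σ (iot m) = σ (iot m') → m = m')
    {m : Fin d →₀ ℕ} (hm : m ∈ P.support) : (SP σ P).coeff (σ (iot m)) = ((P.coeff m : ℤ) : ℂ) := by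
  classical
  rw [SP_eq_sum, AddMonoidAlgebra.coeff_sum, Finsupp.finsetSum_apply, Finset.sum_eq_single m]
  · rw [AddMonoidAlgebra.coeff_single, Finsupp.single_eq_same]
  · intro m' hm' hne
    rw [AddMonoidAlgebra.coeff_single, Finsupp.single_eq_of_ne]
    intro h
    exact hne (hσ m hm m' hm' h).symm
  · intro h; exact absurd hm h

theorem SP_ne_zero (σ : (Fin d → ℤ) →+ G) {P : MvPolynomial (Fin d) ℤ} (hP : P ≠ 0)
    (hσ : ∀ m ∈ P.support, ∀ m' ∈ P.support, σ (iot m) = σ (iot m') → m = m') : SP σ P ≠ 0 := by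
  obtain ⟨m, hm⟩ := MvPolynomial.support_nonempty.mpr hP
  intro h
  have h1 := SP_coeff σ hσ hm
  rw [h] at h1
  have h2 : ((P.coeff m : ℤ) : ℂ) = 0 := h1.symm
  exact MvPolynomial.mem_support_iff.mp hm (by exact_mod_cast h2)

end basic

theorem ev_SP (σ : (Fin d → ℤ) →+ (Fin n → ℤ)) (χ : Multiplicative (Fin n → ℤ) →* ℂ)
    (P : MvPolynomial (Fin d) ℤ) :
    ev χ (SP σ P) = ev (χ.comp (AddMonoidHom.toMultiplicative σ)) (lp P) := by
  rw [SP_eq_sum, ev_lp, map_sum]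
  refine Finset.sum_congr rfl fun m _ => ?_
  rw [AddMonoidAlgebra.lift_single, smul_eq_mul]
  rfl

theorem mean_SP (σ : (Fin d → ℤ) →+ (Fin n → ℤ)) (c : AddMonoidAlgebra ℂ (Fin d → ℤ))
    (hσ : ∀ x ∈ c.coeff.support, σ x = 0 → x = 0) :
    ∫ t in cube n, ev ((chr t).comp (AddMonoidHom.toMultiplicative σ)) c = c.coeff 0 := by
  classical
  have h1 : ∀ t : Fin n → ℝ, ev ((chr t).comp (AddMonoidHom.toMultiplicative σ)) c =
      ∑ x ∈ c.coeff.support, c.coeff x * chr t (.ofAdd (σ x)) := by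
    intro t
    rw [AddMonoidAlgebra.lift_apply]
    rfl
  simp only [h1]
  rw [integral_finsetSum _ fun x _ => (integrable_chr (σ x)).const_mul _]
  have h2 : ∀ x ∈ c.coeff.support, ∫ t in cube n, c.coeff x * chr t (.ofAdd (σ x)) =
      if x = 0 then c.coeff 0 else 0 := by
    intro x hx
    rw [integral_const_mul, integral_chr]
    by_cases h0 : x = 0
    · rw [if_pos h0, h0, if_pos (map_zero σ), mul_one]
    · rw [if_neg h0, if_neg (fun h => h0 (hσ x hx h)), mul_zero]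
  rw [Finset.sum_congr rfl h2, Finset.sum_ite_eq' c.coeff.support 0]
  by_cases h0 : (0 : Fin d → ℤ) ∈ c.coeff.support
  · rw [if_pos h0]
  · rw [if_neg h0]
    exact (Finsupp.notMem_support_iff.mp h0).symm

theorem mm_le_of {P : MvPolynomial (Fin d) ℤ} {Q : MvPolynomial (Fin n) ℤ} (hQ : Q ≠ 0)
    (σ : (Fin d → ℤ) →+ (Fin n → ℤ)) (z : Fin n → ℤ) (hJ : JJ n Q = mo z * SP σ P)
    {q : Polynomial ℝ} (hq : ∀ s, 0 < s → s ≤ len P ^ 2 → Real.log s / 2 ≤ q.eval s)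
    (hσ : ∀ x ∈ (qF q P).coeff.support, σ x = 0 → x = 0) :
    mm Q ≤ ∫ t in cube d, q.eval (ff P t) := by
  obtain ⟨χ, hχ⟩ : ∃ χ : (Fin n → ℝ) → Multiplicative (Fin d → ℤ) →* ℂ,
      ∀ t, χ t = (chr t).comp (AddMonoidHom.toMultiplicative σ) := ⟨_, fun _ => rfl⟩
  have hnχ : ∀ t x, ‖χ t x‖ = 1 := by
    intro t x
    rw [hχ]
    exact norm_chr t _
  have hnorm : ∀ t, ‖ev (chr t) (lp Q)‖ = ‖ev (χ t) (lp P)‖ := by
    intro t
    rw [← JJ_eq_lp, hJ, map_mul, norm_mul, ev_SP, hχ]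
    have : ev (chr t) (mo z) = chr t (.ofAdd z) := by
      rw [AddMonoidAlgebra.lift_single, one_smul]
    rw [this, norm_chr, one_mul]
  have hcont : Continuous fun t : Fin n → ℝ => q.eval (‖ev (χ t) (lp P)‖ ^ 2) := by
    refine q.continuous.comp ?_
    have : (fun t : Fin n → ℝ => ‖ev (χ t) (lp P)‖ ^ 2) = ff Q := by
      funext t
      rw [← hnorm]
      rfl
    rw [this]
    exact continuous_ff Q
  have hmean : ∫ t in cube n, q.eval (‖ev (χ t) (lp P)‖ ^ 2) = ∫ t in cube d, q.eval (ff P t) := by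
    have h1 := mean_SP σ (qF q P) hσ
    have h2 := mean_cube (qF q P)
    rw [← h2] at h1
    simp only [← hχ, fun t => ev_qF (hnχ t) q P, fun t => ev_qF (norm_chr t) q P] at h1
    rw [integral_complex_ofReal, integral_complex_ofReal] at h1
    exact_mod_cast h1
  rw [← hmean]
  refine integral_mono_ae (integrable_log hQ) (integrable_of_cont hcont) ?_
  filter_upwards [ae_ff_pos hQ] with t ht
  have hpos : 0 < ‖ev (χ t) (lp P)‖ := by
    rw [← hnorm]
    unfold ff at ht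
    by_contra hcon
    have h0 : ‖ev (chr t) (lp Q)‖ = 0 := le_antisymm (not_lt.mp hcon) (norm_nonneg _)
    rw [h0] at ht
    simp at ht
  rw [hnorm]
  have h2 := hq (‖ev (χ t) (lp P)‖ ^ 2) (by positivity) (by
    have := norm_ev_le (hnχ t) P
    gcongr)
  rw [Real.log_pow] at h2
  push_cast at h2
  linarith

/-- upper semicontinuity -/
theorem usc {P : MvPolynomial (Fin d) ℤ} (hP : P ≠ 0) {ε : ℝ} (hε : 0 < ε) :
    ∃ Z : Finset (Fin d → ℤ), ∀ (n : ℕ) (σ : (Fin d → ℤ) →+ (Fin n → ℤ)) (z : Fin n → ℤ)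
      (Q : MvPolynomial (Fin n) ℤ), (∀ x ∈ Z, σ x = 0 → x = 0) → Q ≠ 0 →
      JJ n Q = mo z * SP σ P → mm Q ≤ mm P + ε := by
  obtain ⟨q, hq, hq'⟩ := exists_q_mm hP hε
  exact ⟨(qF q P).coeff.support, fun n σ z Q hZ hQ hJ => (mm_le_of hQ σ z hJ hq hZ).trans hq'⟩

theorem mm_rv (F : MvPolynomial (Fin n) ℤ) : mm (rv F) = mm F := by
  unfold mm
  refine integral_congr_ae (ae_of_all _ fun t => ?_)
  have h1 : JJ n (rv F) = mo (iot (dg F)) * lpr F := by
    unfold rv lpr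
    rw [JJ_sum, mo_mul_sum]
    refine Finset.sum_congr rfl fun m hm => ?_
    congr 1
    rw [iot_sub (le_dg hm)]
    abel
  have h2 : ‖ev (chr t) (lpr F)‖ = ‖ev (chr t) (lp F)‖ := by
    have h3 := ev_mul_lpr (norm_chr t) F
    have h4 : ev (chr t) (lpr F) = starRingEnd ℂ (ev (chr t) (lp F)) := by
      rw [ev_lpr, ev_lp, map_sum]
      refine Finset.sum_congr rfl fun m _ => ?_
      rw [map_mul, char_neg (norm_chr t)]
      simp
    rw [h4, RCLike.norm_conj]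
  have h5 : ‖ev (chr t) (lp (rv F))‖ = ‖ev (chr t) (lp F)‖ := by
    rw [← JJ_eq_lp, h1, map_mul, norm_mul, h2]
    have : ev (chr t) (mo (iot (dg F))) = chr t (.ofAdd (iot (dg F))) := by
      rw [AddMonoidAlgebra.lift_single, one_smul]
    rw [this, norm_chr, one_mul]
  change Real.log ‖ev (chr t) (lp (rv F))‖ = Real.log ‖ev (chr t) (lp F)‖
  rw [h5]

end Pool.Agent.H87.MM
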