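import Pool.Agent.H87.MM.Minor

/-!
# From minors to the Mahler measure
-/

set_option autoImplicit false

open Finset MeasureTheory Filter Topology

namespace Pool.Agent.H87.MM

variable {d : ℕ}

theorem ev_box (t : Fin d → ℝ) {P : MvPolynomial (Fin d) ℤ} {u : Fin d →₀ ℕ}
    (hP : ∀ m ∈ P.support, m ≤ u) :
    ev (chr t) (lp P) = ∑ m ∈ Iic u, ((P.coeff m : ℤ) : ℂ) * chr t (.ofAdd (iot m)) := by
  rw [ev_lp]
  refine sum_subset (fun m hm => mem_Iic.mpr (hP m hm)) fun m _ hm => ?_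
  rw [MvPolynomial.notMem_support_iff.mp hm]
  simp

theorem parseval {P Q : MvPolynomial (Fin d) ℤ} {u : Fin d →₀ ℕ} (hP : ∀ m ∈ P.support, m ≤ u)
    (hQ : ∀ m ∈ Q.support, m ≤ u) :
    ∫ t in cube d, ev (chr t) (lp P) * starRingEnd ℂ (ev (chr t) (lp Q)) =
      ∑ m ∈ Iic u, ((P.coeff m : ℤ) : ℂ) * ((Q.coeff m : ℤ) : ℂ) := by
  classical
  have h1 : ∀ t : Fin d → ℝ, ev (chr t) (lp P) * starRingEnd ℂ (ev (chr t) (lp Q)) =
      ∑ m ∈ Iic u, ∑ m' ∈ Iic u, ((P.coeff m : ℤ) : ℂ) * ((Q.coeff m' : ℤ) : ℂ) *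
        (chr t (.ofAdd (iot m)) * starRingEnd ℂ (chr t (.ofAdd (iot m')))) := by
    intro t
    rw [ev_box t hP, ev_box t hQ, map_sum, Finset.sum_mul_sum]
    refine sum_congr rfl fun m _ => sum_congr rfl fun m' _ => ?_
    rw [map_mul]
    have : starRingEnd ℂ ((Q.coeff m' : ℤ) : ℂ) = ((Q.coeff m' : ℤ) : ℂ) := by simp
    rw [this]
    ring
  have hint : ∀ m m' : Fin d →₀ ℕ, Integrable (fun t : Fin d → ℝ =>
      chr t (.ofAdd (iot m)) * starRingEnd ℂ (chr t (.ofAdd (iot m'))))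
      (volume.restrict (cube d)) := fun m m' => integrable_of_cont
    ((continuous_chr _).mul (Complex.continuous_conj.comp (continuous_chr _)))
  simp only [h1]
  rw [integral_finsetSum _ fun m _ => integrable_finsetSum _ fun m' _ => (hint m m').const_mul _]
  refine sum_congr rfl fun m hm => ?_
  rw [integral_finsetSum _ fun m' _ => (hint m m').const_mul _, sum_eq_single m]
  · rw [integral_const_mul, integral_chr_mul, if_pos rfl, mul_one]
  · intro m' _ hne
    rw [integral_const_mul, integral_chr_mul, if_neg (fun h => hne (iot_injective h).symm),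
      mul_zero]
  · intro h; exact absurd hm h

theorem szego {A B : MvPolynomial (Fin d) ℤ} (hB : B ≠ 0) {u : Fin d →₀ ℕ}
    (hu : dg A ⊔ dg B ≤ u) {W : ℝ}
    (hW : ∀ Y : Kx A B u → ↥(Iic u), Function.Injective Y → |((LM A B u Y).det : ℝ)| ≤ W) :
    Real.exp (2 * (Iic (u - (dg A ⊔ dg B))).card * mm B) ≤
      (((Iic u).card.choose (Iic (u - (dg A ⊔ dg B))).card : ℕ) : ℝ) * W ^ 2 := by
  classical
  obtain ⟨X, hX⟩ : ∃ X : Matrix (Kx A B u) ↥(Iic u) ℝ, ∀ s m, X s m =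
      (((MvPolynomial.monomial (s : Fin d →₀ ℕ) (1 : ℤ) * B).coeff (m : Fin d →₀ ℕ) : ℤ) : ℝ) :=
    ⟨_, fun _ _ => rfl⟩
  have hsupp : ∀ s : Kx A B u, ∀ m ∈ (MvPolynomial.monomial (s : Fin d →₀ ℕ) (1 : ℤ) * B).support,
      m ≤ u := fun s => supp_mono_le hu (fun m hm => (le_dg hm).trans le_sup_right) (mem_Iic.mp s.2)
  have hev : ∀ (s : Fin d →₀ ℕ) (t : Fin d → ℝ), ev (chr t)
      (lp (MvPolynomial.monomial s (1 : ℤ) * B)) = chr t (.ofAdd (iot s)) * ev (chr t) (lp B) := by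
    intro s t
    rw [← JJ_eq_lp, map_mul, JJ_monomial, map_mul, JJ_eq_lp, AddMonoidAlgebra.lift_single,
      Int.cast_one, one_smul]
  obtain ⟨D, hD1, hD2⟩ := gram_lower (fun s : Kx A B u => iot (s : Fin d →₀ ℕ))
    (fun s s' h => Subtype.ext (iot_injective h)) hB
    ((X * X.transpose).map (algebraMap ℝ ℂ)) (by
      intro s s'
      rw [Matrix.map_apply, Matrix.mul_apply]
      have h1 := parseval (hsupp s) (hsupp s')
      have h2 : ∀ t : Fin d → ℝ, ev (chr t) (lp (MvPolynomial.monomial (s : Fin d →₀ ℕ) (1 : ℤ) * B)) *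
          starRingEnd ℂ (ev (chr t) (lp (MvPolynomial.monomial (s' : Fin d →₀ ℕ) (1 : ℤ) * B))) =
          chr t (.ofAdd (iot (s : Fin d →₀ ℕ))) *
            starRingEnd ℂ (chr t (.ofAdd (iot (s' : Fin d →₀ ℕ)))) * ((ff B t : ℝ) : ℂ) := by
        intro t
        rw [hev, hev, map_mul]
        unfold ff
        rw [← Complex.normSq_eq_norm_sq, ← Complex.mul_conj]
        ring
      simp only [h2] at h1
      rw [h1, ← sum_coe_Iic u (fun m => (((MvPolynomial.monomial (s : Fin d →₀ ℕ) (1 : ℤ) * B).coeff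
        m : ℤ) : ℂ) * (((MvPolynomial.monomial (s' : Fin d →₀ ℕ) (1 : ℤ) * B).coeff m : ℤ) : ℂ)),
        map_sum]
      refine sum_congr rfl fun m _ => ?_
      rw [Matrix.transpose_apply, hX, hX, map_mul]
      simp)
  have hDeq : (X * X.transpose).det = D := by
    have h1 : ((X * X.transpose).map (algebraMap ℝ ℂ)) =
        (algebraMap ℝ ℂ).mapMatrix (X * X.transpose) := rfl
    rw [h1, ← RingHom.map_det] at hD1
    exact Complex.ofReal_injective hD1
  have h3 := gram_le X (W := W) (by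
    intro e he
    have h4 : (X.submatrix id e) = (Int.castRingHom ℝ).mapMatrix (LM A B u e) := by
      ext s s'
      rw [Matrix.submatrix_apply, hX]
      rfl
    rw [h4, ← RingHom.map_det]
    exact hW e he)
  rw [hDeq, Fintype.card_coe, Fintype.card_coe] at h3
  rw [Fintype.card_coe] at hD2
  exact hD2.trans h3

theorem choose_le_pow {N k : ℕ} (hk : k ≤ N) : N.choose k ≤ N ^ (N - k) := by
  rw [← Nat.choose_symm hk]
  exact Nat.choose_le_pow N (N - k)

theorem one_sub_sum_le {ι : Type*} (s : Finset ι) (a : ι → ℝ) (h0 : ∀ i ∈ s, 0 ≤ a i)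
    (h1 : ∀ i ∈ s, a i ≤ 1) : 1 - ∑ i ∈ s, a i ≤ ∏ i ∈ s, (1 - a i) := by
  classical
  induction s using Finset.induction_on with
  | empty => simp
  | insert i s hi ih =>
    rw [sum_insert hi, prod_insert hi]
    have h2 := ih (fun j hj => h0 j (mem_insert_of_mem hj)) fun j hj => h1 j (mem_insert_of_mem hj)
    have h3 := h0 i (mem_insert_self i s)
    have h4 := h1 i (mem_insert_self i s)
    have h5 : 0 ≤ ∑ j ∈ s, a j := sum_nonneg fun j hj => h0 j (mem_insert_of_mem hj)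
    nlinarith

/-- the constant exponent vector -/
noncomputable def cst (d L : ℕ) : Fin d →₀ ℕ := Finsupp.equivFunOnFinite.symm fun _ => L

theorem card_Iic_eq (v : Fin d →₀ ℕ) : (Iic v).card = ∏ i : Fin d, (v i + 1) := by
  rw [Finsupp.card_Iic]
  have h : ∏ i ∈ v.support, (Iic (v i)).card = ∏ i : Fin d, (Iic (v i)).card := by
    refine prod_subset (subset_univ _) fun i _ hi => ?_
    rw [Finsupp.notMem_support_iff.mp hi]
    rfl
  rw [h]
  exact prod_congr rfl fun i _ => Nat.card_Iic _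

theorem asym {w : Fin d →₀ ℕ} {m μ : ℝ} (hμ : 0 ≤ μ) (h : ∀ L : ℕ, w ≤ cst d L →
    2 * ((Iic (cst d L - w)).card : ℝ) * m ≤
      Real.log (((Iic (cst d L)).card.choose (Iic (cst d L - w)).card : ℕ) : ℝ) +
      2 * ((2 * (Iic (cst d L)).card - (Iic (cst d L - w)).card : ℕ) : ℝ) * μ) : m ≤ μ := by
  by_contra hlt
  push Not at hlt
  obtain ⟨W, hW⟩ : ∃ W : ℝ, W = ∑ i, (w i : ℝ) := ⟨_, rfl⟩
  have hW0 : 0 ≤ W := hW ▸ sum_nonneg fun _ _ => Nat.cast_nonneg _
  have hlim : Tendsto (fun x : ℝ => W * (d * (Real.log x / x) + 4 * μ * (1 / x))) atTop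
      (𝓝 (W * (d * 0 + 4 * μ * 0))) := by
    refine ((Tendsto.const_mul _ ?_).add (Tendsto.const_mul _ ?_)).const_mul W
    · exact Real.isLittleO_log_id_atTop.tendsto_div_nhds_zero
    · exact tendsto_const_nhds.div_atTop tendsto_id
  have hlim2 : ∀ᶠ x : ℝ in atTop, W * (d * (Real.log x / x) + 4 * μ * (1 / x)) < m - μ := by
    refine (tendsto_order.mp hlim).2 _ ?_
    simpa using hlt
  have hlim3 : ∀ᶠ L : ℕ in atTop, W * (d * (Real.log ((L : ℝ) + 1) / ((L : ℝ) + 1)) +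
      4 * μ * (1 / ((L : ℝ) + 1))) < m - μ :=
    (tendsto_atTop_add_const_right _ 1 tendsto_natCast_atTop_atTop).eventually hlim2
  have hbig : ∀ᶠ L : ℕ in atTop, 2 * W ≤ (L : ℝ) :=
    tendsto_natCast_atTop_atTop.eventually (eventually_ge_atTop _)
  obtain ⟨L, hL1, hL2⟩ := (hlim3.and hbig).exists
  have hwL : ∀ i, (w i : ℝ) ≤ L := by
    intro i
    have h1 : (w i : ℝ) ≤ W := by
      rw [hW]
      exact single_le_sum (f := fun i => (w i : ℝ)) (fun _ _ => Nat.cast_nonneg _) (mem_univ i)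
    linarith
  have hle : w ≤ cst d L := by
    intro i
    have h1 := hwL i
    have h2 : w i ≤ L := by exact_mod_cast h1
    exact h2
  have hmain := h L hle
  obtain ⟨x, hx⟩ : ∃ x : ℝ, x = (L : ℝ) + 1 := ⟨_, rfl⟩
  have hx1 : 1 ≤ x := by rw [hx]; linarith [Nat.cast_nonneg (α := ℝ) L]
  obtain ⟨N, hN⟩ : ∃ N, N = (Iic (cst d L)).card := ⟨_, rfl⟩
  obtain ⟨k, hk⟩ : ∃ k, k = (Iic (cst d L - w)).card := ⟨_, rfl⟩
  rw [← hN, ← hk] at hmain
  have hNx : (N : ℝ) = x ^ d := by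
    rw [hN, card_Iic_eq]
    have h1 : ∀ i : Fin d, (cst d L) i = L := fun i => rfl
    simp only [h1, prod_const, card_univ, Fintype.card_fin]
    rw [hx]
    push_cast
    rfl
  have hkN : k ≤ N := by
    rw [hk, hN]
    exact card_le_card (Iic_subset_Iic.mpr tsub_le_self)
  have hN0 : (0 : ℝ) < N := by rw [hNx]; positivity
  have hkx : (k : ℝ) = ∏ i, (x - w i) := by
    rw [hk, card_Iic_eq]
    push_cast
    refine prod_congr rfl fun i _ => ?_
    have h1 : ((⇑(cst d L) - ⇑w) i : ℕ) = L - w i := rfl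
    rw [h1, Nat.cast_sub (by exact_mod_cast hwL i), hx]
    ring
  have hkN2 : (N : ℝ) * (1 - W / x) ≤ k := by
    have h1 := one_sub_sum_le (univ : Finset (Fin d)) (fun i => (w i : ℝ) / x)
      (fun i _ => div_nonneg (Nat.cast_nonneg _) (by linarith)) fun i _ => by
        rw [div_le_one (by linarith)]
        have := hwL i
        linarith
    rw [← sum_div, ← hW] at h1
    have h2 : (k : ℝ) = N * ∏ i, (1 - (w i : ℝ) / x) := by
      rw [hkx, hNx]
      have h3 : x ^ d = ∏ _i : Fin d, x := by simp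
      rw [h3, ← prod_mul_distrib]
      refine prod_congr rfl fun i _ => ?_
      have : x ≠ 0 := by linarith
      field_simp
    rw [h2]
    exact mul_le_mul_of_nonneg_left h1 hN0.le
  have hWx : W / x ≤ 1 / 2 := by
    rw [div_le_iff₀ (by linarith)]
    linarith
  have hk2 : (N : ℝ) / 2 ≤ k := by nlinarith
  have hlogC : Real.log ((N.choose k : ℕ) : ℝ) ≤ ((N : ℝ) - k) * (d * Real.log x) := by
    have h1 : ((N.choose k : ℕ) : ℝ) ≤ (N : ℝ) ^ (N - k) := by exact_mod_cast choose_le_pow hkN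
    have h2 : (0 : ℝ) < ((N.choose k : ℕ) : ℝ) := by exact_mod_cast Nat.choose_pos hkN
    refine (Real.log_le_log h2 h1).trans ?_
    rw [Real.log_pow, hNx, Real.log_pow, Nat.cast_sub hkN, hNx]
  have hr : ((2 * N - k : ℕ) : ℝ) = 2 * N - k := by
    rw [Nat.cast_sub (by omega)]
    push_cast
    ring
  rw [hr] at hmain
  have hlogx : 0 ≤ Real.log x := Real.log_nonneg hx1
  have h1 : 2 * (k : ℝ) * (m - μ) ≤ ((N : ℝ) - k) * (d * Real.log x + 4 * μ) := by
    nlinarith
  have h2 : (N : ℝ) - k ≤ N * (W / x) := by nlinarith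
  have h3 : (0 : ℝ) ≤ d * Real.log x + 4 * μ := by positivity
  have h4 : 2 * (k : ℝ) * (m - μ) ≤ N * (W / x) * (d * Real.log x + 4 * μ) :=
    h1.trans (mul_le_mul_of_nonneg_right h2 h3)
  have h5 : (N : ℝ) * (m - μ) ≤ N * ((W / x) * (d * Real.log x + 4 * μ)) := by
    have h6 : (N : ℝ) * (m - μ) ≤ 2 * (k : ℝ) * (m - μ) :=
      mul_le_mul_of_nonneg_right (by linarith) (by linarith)
    calc _ ≤ _ := h6
      _ ≤ _ := h4
      _ = _ := by ring
  have h7 := le_of_mul_le_mul_left h5 hN0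
  rw [← hx] at hL1
  have h8 : W * (d * (Real.log x / x) + 4 * μ * (1 / x)) = (W / x) * (d * Real.log x + 4 * μ) := by
    have : x ≠ 0 := by linarith
    field_simp
  rw [h8] at hL1
  linarith

end Pool.Agent.H87.MM
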