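import Pool.Agent.H87.MM.Rel
import Pool.Agent.H87.MM.Grow

/-!
# The uniform relation theorem
-/

set_option autoImplicit false

open Finset
open scoped Pointwise

namespace Pool.Agent.H87.MM

section fam

variable {G : Type*} [AddCommGroup G] {ρ : G →+ ℝ} {a b : AddMonoidAlgebra ℂ G} {g h : G → ℂ}

/-- the shifted family -/
noncomputable def DD (a b : AddMonoidAlgebra ℂ G) : G ⊕ G → AddMonoidAlgebra ℂ G :=
  Sum.elim (fun s => AddMonoidAlgebra.single s 1 * b) fun s => -(AddMonoidAlgebra.single s 1 * a)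

/-- the shifted functions -/
noncomputable def RR (g h : G → ℂ) : G ⊕ G → G → ℂ :=
  Sum.elim (fun s x => h (x - s)) fun s x => -g (x - s)

theorem conv_shift (c : AddMonoidAlgebra ℂ G) (f : G → ℂ) (s : G) :
    conv c (fun x => f (x - s)) = conv (AddMonoidAlgebra.single s 1 * c) f := by
  rw [conv_mul]
  funext x
  rw [conv_single, one_mul, conv_eq_sum, conv_eq_sum]
  refine sum_congr rfl fun y _ => ?_
  rw [show x - y - s = x - s - y by abel]

theorem shift_coeff (c : AddMonoidAlgebra ℂ G) (s x : G) :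
    (AddMonoidAlgebra.single s 1 * c).coeff x = c.coeff (x - s) := by
  rw [coeff_mul_eq, conv_single, one_mul]

theorem sum_shift_le {f : G → ℂ} (hf : Sq f) (h1 : ∑' x, ‖f x‖ ^ 2 ≤ 1) (s : G) (Y : Finset G) :
    ∑ x ∈ Y, ‖f (x - s)‖ ^ 2 ≤ 1 := by
  classical
  have h2 : ∑ x ∈ Y, ‖f (x - s)‖ ^ 2 = ∑ y ∈ Y.map (Equiv.subRight s).toEmbedding, ‖f y‖ ^ 2 := by
    rw [sum_map]
    rfl
  rw [h2]
  exact (hf.sum_le_tsum _ fun _ _ => sq_nonneg _).trans h1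

theorem fm_of_sol (S : Sol ρ a b g h) (ha : ∀ x, ∃ z : ℤ, a.coeff x = z)
    (hb : ∀ x, ∃ z : ℤ, b.coeff x = z) (hg1 : ∑' x, ‖g x‖ ^ 2 ≤ 1) (hh1 : ∑' x, ‖h x‖ ^ 2 ≤ 1)
    {η : ℝ} (hη : 0 < η) (hle : η * ‖b.coeff 0‖ ≤ ‖h 0‖) :
    Fm ρ b h η (DD a b) (RR g h) where
  bs := ⟨S.inj, S.b_supp, S.b_zero, S.h_supp⟩
  pr := by
    rintro (s | s)
    · refine ⟨?_, ρ s, fun x hx => ?_⟩
      · exact conv_shift b h s
      · exact S.h_supp _ (by rw [map_sub]; linarith)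
    · refine ⟨?_, ρ s, fun x hx => ?_⟩
      · change conv b (fun x => -g (x - s)) = conv (-(AddMonoidAlgebra.single s 1 * a)) h
        have h1 : (fun x => -g (x - s)) = -fun x => g (x - s) := rfl
        rw [h1, conv_neg_right, conv_neg_left, conv_shift, conv_mul, conv_mul, S.eqn]
      · change -g (x - s) = 0
        rw [S.g_supp _ (by rw [map_sub]; linarith), neg_zero]
  int := by
    rintro (s | s) x
    · obtain ⟨z, hz⟩ := hb (x - s)
      refine ⟨z, ?_⟩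
      change (AddMonoidAlgebra.single s 1 * b).coeff x = _
      rw [shift_coeff, hz]
    · obtain ⟨z, hz⟩ := ha (x - s)
      refine ⟨-z, ?_⟩
      change (-(AddMonoidAlgebra.single s 1 * a)).coeff x = _
      rw [AddMonoidAlgebra.coeff_neg, Finsupp.neg_apply, shift_coeff, hz]
      push_cast
      rfl
  sq := by
    rintro (s | s) Y
    · exact sum_shift_le S.h_sq hh1 s Y
    · have h1 := sum_shift_le S.g_sq hg1 s Y
      calc ∑ x ∈ Y, ‖RR g h (Sum.inr s) x‖ ^ 2 = ∑ x ∈ Y, ‖g (x - s)‖ ^ 2 := by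
            refine sum_congr rfl fun x _ => ?_
            change ‖-g (x - s)‖ ^ 2 = _
            rw [norm_neg]
        _ ≤ 1 := h1
  pos := hη
  le := hle

end fam

/-- independence contradicts concentration -/
theorem no_indep {G : Type} [AddCommGroup G] [DecidableEq G] {ρ : G →+ ℝ}
    {a b : AddMonoidAlgebra ℂ G} {g h : G → ℂ} {η : ℝ} (hη1 : η ≤ 1)
    (F : Fm ρ b h η (DD a b) (RR g h)) {S T : Finset G} (hS : S.Nonempty)
    (hST : 2 * (S + T).card ≤ 3 * S.card)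
    (hT : ∀ Y : Finset G, Disjoint T Y → Y.card ≤ 2 * S.card →
      ∑ x ∈ Y, (‖g x‖ ^ 2 + ‖h x‖ ^ 2) ≤ (η ^ 4 / 8) ^ 2) :
    ¬ LinearIndepOn ℂ (DD a b) ((S.disjSum S : Finset (G ⊕ G)) : Set (G ⊕ G)) := by
  intro hind
  have hη := F.pos
  obtain ⟨ε, hε⟩ : ∃ ε : ℝ, ε = η ^ 4 / 8 := ⟨_, rfl⟩
  rw [← hε] at hT
  have hε0 : 0 < ε := by rw [hε]; positivity
  have hε1 : ε ≤ 1 := by
    rw [hε]
    have : η ^ 4 ≤ 1 := pow_le_one₀ hη.le hη1
    linarith
  have hJ : (S.disjSum S).card = 2 * S.card := by rw [card_disjSum]; ring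
  obtain ⟨e⟩ : Nonempty (Fin (2 * S.card) ≃ (S.disjSum S : Finset (G ⊕ G))) :=
    ⟨(Finset.equivFinOfCardEq hJ).symm⟩
  have hindep : LinearIndependent ℂ fun i : Fin (2 * S.card) => DD a b (e i : G ⊕ G) := by
    have h1 : LinearIndependent ℂ fun i : (S.disjSum S : Finset (G ⊕ G)) => DD a b i := hind
    exact h1.comp e e.injective
  obtain ⟨v, hv, hlarge⟩ := F.large (fun i => (e i : G ⊕ G)) hindep
  -- the weights
  obtain ⟨w, hw⟩ : ∃ w : Fin (2 * S.card) → ℝ, ∀ j, w j = if v j ∈ S + T then 1 else ε⁻¹ :=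
    ⟨_, fun _ => rfl⟩
  have hwpos : ∀ j, 0 < w j := by
    intro j; rw [hw]; split_ifs <;> positivity
  -- row sums
  have hsh : ∀ i : Fin (2 * S.card), ∃ s ∈ S, ∀ x, ‖RR g h (e i : G ⊕ G) x‖ ^ 2 ≤
      ‖g (x - s)‖ ^ 2 + ‖h (x - s)‖ ^ 2 := by
    intro i
    obtain ⟨j, hj⟩ := e i
    rcases j with s | s
    · rw [inl_mem_disjSum] at hj
      refine ⟨s, hj, fun x => ?_⟩
      change ‖h (x - s)‖ ^ 2 ≤ _
      linarith [sq_nonneg ‖g (x - s)‖]
    · rw [inr_mem_disjSum] at hj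
      refine ⟨s, hj, fun x => ?_⟩
      change ‖-g (x - s)‖ ^ 2 ≤ _
      rw [norm_neg]
      linarith [sq_nonneg ‖h (x - s)‖]
  have hrow : ∀ i, ∑ j, ‖((w j : ℝ) : ℂ) * RR g h (e i : G ⊕ G) (v j)‖ ^ 2 ≤ 2 := by
    intro i
    have h1 : ∀ j, ‖((w j : ℝ) : ℂ) * RR g h (e i : G ⊕ G) (v j)‖ ^ 2 ≤
        ‖RR g h (e i : G ⊕ G) (v j)‖ ^ 2 + (if v j ∈ S + T then 0 else
          ε⁻¹ ^ 2 * ‖RR g h (e i : G ⊕ G) (v j)‖ ^ 2) := by
      intro j
      rw [norm_mul, Complex.norm_real, Real.norm_of_nonneg (hwpos j).le, mul_pow, hw]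
      split_ifs
      · simp
      · linarith [sq_nonneg ‖RR g h (e i : G ⊕ G) (v j)‖]
    refine (sum_le_sum fun j _ => h1 j).trans ?_
    rw [sum_add_distrib]
    have h2 := F.row (e i : G ⊕ G) hv
    have h3 : ∑ j, (if v j ∈ S + T then 0 else
          ε⁻¹ ^ 2 * ‖RR g h (e i : G ⊕ G) (v j)‖ ^ 2) ≤ 1 := by
      obtain ⟨s, hs, hle⟩ := hsh i
      obtain ⟨O, hO⟩ : ∃ O : Finset (Fin (2 * S.card)), O = univ.filter fun j => v j ∉ S + T :=
        ⟨_, rfl⟩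
      have h4 : ∑ j, (if v j ∈ S + T then 0 else
          ε⁻¹ ^ 2 * ‖RR g h (e i : G ⊕ G) (v j)‖ ^ 2) =
          ε⁻¹ ^ 2 * ∑ j ∈ O, ‖RR g h (e i : G ⊕ G) (v j)‖ ^ 2 := by
        rw [mul_sum, hO, sum_filter]
        refine sum_congr rfl fun j _ => ?_
        by_cases hj : v j ∈ S + T
        · rw [if_pos hj, if_neg (not_not.mpr hj)]
        · rw [if_neg hj, if_pos hj]
      have h5 : ∑ j ∈ O, ‖RR g h (e i : G ⊕ G) (v j)‖ ^ 2 ≤ ε ^ 2 := by
        have hinj : Function.Injective fun j => v j - s := fun j k hjk => hv (sub_left_injective hjk)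
        have h6 := hT (O.map ⟨fun j => v j - s, hinj⟩) (by
          rw [disjoint_left]
          intro t ht ht'
          obtain ⟨j, hj, rfl⟩ := mem_map.mp ht'
          rw [hO, mem_filter] at hj
          apply hj.2
          change v j - s ∈ T at ht
          have h7 : v j = s + (v j - s) := by abel
          rw [h7]
          exact add_mem_add hs ht) (by
          rw [card_map]
          refine (card_le_univ _).trans ?_
          rw [Fintype.card_fin])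
        rw [sum_map] at h6
        exact (sum_le_sum fun j _ => hle (v j)).trans h6
      rw [h4]
      calc ε⁻¹ ^ 2 * ∑ j ∈ O, ‖RR g h (e i : G ⊕ G) (v j)‖ ^ 2 ≤ ε⁻¹ ^ 2 * ε ^ 2 := by gcongr
        _ = 1 := by
          rw [← mul_pow, inv_mul_cancel₀ hε0.ne', one_pow]
    linarith
  have hM := det_sq_le (Matrix.of fun i j => ((w j : ℝ) : ℂ) * RR g h (e i : G ⊕ G) (v j))
    (c := 2) two_pos (by
      calc ∑ i, ∑ j, ‖(Matrix.of fun i j => ((w j : ℝ) : ℂ) *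
            RR g h (e i : G ⊕ G) (v j)) i j‖ ^ 2 ≤ ∑ i : Fin (2 * S.card), (2 : ℝ) :=
            sum_le_sum fun i _ => hrow i
        _ = _ := by simp; ring)
  have hdet : Matrix.det (Matrix.of fun i j => ((w j : ℝ) : ℂ) * RR g h (e i : G ⊕ G) (v j)) =
      (∏ j, ((w j : ℝ) : ℂ)) * Matrix.det (Matrix.of fun i j => RR g h (e i : G ⊕ G) (v j)) :=
    Matrix.det_mul_row _ _
  rw [hdet, norm_mul, ← Complex.ofReal_prod, Complex.norm_real,
    Real.norm_of_nonneg (prod_nonneg fun j _ => (hwpos j).le), Fintype.card_fin] at hM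
  -- counting
  obtain ⟨In, hIn⟩ : ∃ In : Finset (Fin (2 * S.card)), In = univ.filter fun j => v j ∈ S + T :=
    ⟨_, rfl⟩
  obtain ⟨Out, hOut⟩ : ∃ Out : Finset (Fin (2 * S.card)), Out = univ.filter fun j => v j ∉ S + T :=
    ⟨_, rfl⟩
  have hcard : In.card + Out.card = 2 * S.card := by
    rw [hIn, hOut, card_filter_add_card_filter_not, card_univ, Fintype.card_fin]
  have hInc : In.card ≤ (S + T).card := by
    refine card_le_card_of_injOn v ?_ hv.injOn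
    intro j hj
    rw [hIn] at hj
    have := (mem_filter.mp (mem_coe.mp hj)).2
    exact mem_coe.mpr this
  have hOutc : S.card ≤ 2 * Out.card := by omega
  have hprod : ∏ j, w j = ε⁻¹ ^ Out.card := by
    have h1 : ∏ j, w j = ∏ j, (if v j ∈ S + T then 1 else ε⁻¹) := prod_congr rfl fun j _ => hw j
    rw [h1, prod_ite, prod_const_one, one_mul, prod_const, hOut]
  have hprod2 : ε⁻¹ ^ S.card ≤ (∏ j, w j) ^ 2 := by
    rw [hprod, ← pow_mul, mul_comm]
    exact pow_le_pow_right₀ (by rw [one_le_inv₀ hε0]; exact hε1) hOutc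
  have h1 : (η ^ 4 * ε⁻¹) ^ S.card ≤ 4 ^ S.card := by
    calc (η ^ 4 * ε⁻¹) ^ S.card = ε⁻¹ ^ S.card * (η ^ (2 * S.card)) ^ 2 := by
          rw [mul_pow, ← pow_mul, ← pow_mul, mul_comm]
          congr 2
          ring
      _ ≤ (∏ j, w j) ^ 2 *
          ‖Matrix.det (Matrix.of fun i j => RR g h (e i : G ⊕ G) (v j))‖ ^ 2 := by
          gcongr
      _ ≤ 2 ^ (2 * S.card) := by rw [← mul_pow]; exact hM
      _ = 4 ^ S.card := by rw [pow_mul]; norm_num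
  have h2 : η ^ 4 * ε⁻¹ = 8 := by
    rw [hε]
    field_simp
  rw [h2] at h1
  have h3 : (4 : ℝ) ^ S.card < 8 ^ S.card :=
    pow_lt_pow_left₀ (by norm_num) (by norm_num) (Finset.card_ne_zero.mpr hS)
  linarith

/-- the uniform relation theorem -/
theorem uniform {η : ℝ} (hη : 0 < η) (hη1 : η ≤ 1) : ∃ K : ℕ, ∀ (G : Type) [AddCommGroup G]
    (ρ : G →+ ℝ) (a b : AddMonoidAlgebra ℂ G) (g h : G → ℂ), Sol ρ a b g h →
    (∀ x, ∃ z : ℤ, a.coeff x = z) → (∀ x, ∃ z : ℤ, b.coeff x = z) →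
    ∑' x, ‖g x‖ ^ 2 ≤ 1 → ∑' x, ‖h x‖ ^ 2 ≤ 1 → η * ‖b.coeff 0‖ ≤ ‖h 0‖ →
    ∃ (r : ℕ) (E : Fin (r + 1) → G ⊕ G) (m : Fin (r + 1) → ℤ), Function.Injective E ∧
      r + 1 ≤ K ∧ m 0 ≠ 0 ∧ (∀ k, η ^ r * |(m k : ℝ)| ≤ 1) ∧
      ∑ k, (m k : ℂ) • DD a b (E k) = 0 := by
  classical
  choose Fg hFg using growth
  obtain ⟨B, hB⟩ := regular (fun n => 2 * Fg n) (δ := (η ^ 4 / 8) ^ 2) (by positivity)
  refine ⟨∑ n ∈ range (B + 1), 2 * Fg n, fun G _ ρ a b g h S ha hb hg1 hh1 hle => ?_⟩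
  have F := fm_of_sol S ha hb hg1 hh1 hη hle
  obtain ⟨T, hT1, hT2⟩ := hB G (fun x => ‖g x‖ ^ 2 + ‖h x‖ ^ 2) (by
    intro Y
    rw [sum_add_distrib]
    have h1 := (S.g_sq.sum_le_tsum Y fun _ _ => sq_nonneg _).trans hg1
    have h2 := (S.h_sq.sum_le_tsum Y fun _ _ => sq_nonneg _).trans hh1
    linarith)
  obtain ⟨S', hS1, hS2, hS3⟩ := hFg T.card G T rfl
  have hno := no_indep hη1 F hS1 hS3 fun Y hY1 hY2 => hT2 Y hY1 (hY2.trans (by
    change 2 * S'.card ≤ 2 * Fg T.card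
    omega))
  obtain ⟨r, E, m, h1, h2, h3, h4, h5, h6⟩ := F.exists_relation _ hno
  refine ⟨r, E, m, h1, h3.trans ?_, h4, h5, h6⟩
  rw [card_disjSum]
  have h7 : 2 * Fg T.card ≤ ∑ n ∈ range (B + 1), 2 * Fg n :=
    single_le_sum (f := fun n => 2 * Fg n) (fun _ _ => Nat.zero_le _)
      (mem_range.mpr (Nat.lt_succ_of_le hT1))
  omega

end Pool.Agent.H87.MM
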